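import Pool.Agent.Helper194.HQ.G

set_option autoImplicit false
set_option linter.unusedVariables false
set_option linter.unusedSectionVars false

open scoped unitInterval Topology
open Set Filter Topology Metric

noncomputable section


namespace HQ

/-- the pseudo-interior -/
abbrev Sp : Type := ℕ → Set.Ioo (0 : ℝ) 1

/-- the model Hilbert cube manifold -/
abbrev Fq : Type := Circle × Qc

/-- a family of copies of `M` over `B` -/
structure Fam (P B M E : Type) [TopologicalSpace P] [MetricSpace B] [MetricSpace M]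
    [MetricSpace E] where
  π : C(P, B)
  hπ : Function.Surjective π
  hop : IsOpenMap π
  p : C(E, B)
  Φ : C(P × M, E)
  iso : ∀ u m m', dist (Φ (u, m)) (Φ (u, m')) = dist m m'
  hp : ∀ u m, p (Φ (u, m)) = π u
  sur : ∀ u e, p e = π u → ∃ m, Φ (u, m) = e
  mi : M
  inf : C(B, E)
  hinf : ∀ u, Φ (u, mi) = inf (π u)

variable {P B M E : Type} [TopologicalSpace P] [CompactSpace P] [MetricSpace B] [CompactSpace B]
  [MetricSpace M] [CompactSpace M] [MetricSpace E] [CompactSpace E]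

/-- a map with prescribed identifications -/
theorem exists_J (s : C(E, E)) : ∃ J : C(E × ((E × I) × Qc), Sp), ∀ e a q a' q',
    J (e, (a, q)) = J (e, (a', q')) ↔
      q = q' ∧ (a = a' ∨ (mk2 e (s e) a ∧ mk2 e (s e) a')) := by
  classical
  rcases isEmpty_or_nonempty E with hE | hE
  · exact ⟨⟨fun _ _ => ⟨1 / 2, by norm_num, by norm_num⟩, continuous_const⟩,
      fun e => isEmptyElim e⟩
  have hsc : SecondCountableTopology E := EMetric.secondCountable_of_sigmaCompact E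
  obtain ⟨d, hd⟩ : ∃ d : ℕ → E, DenseRange d :=
    ⟨TopologicalSpace.denseSeq E, TopologicalSpace.denseRange_denseSeq E⟩
  set ρ : E × ((E × I) × Qc) → ℝ := fun p =>
    min 1 (dist p.2.1 (p.1, (0 : I))) * min 1 (dist p.2.1 (s p.1, (1 : I))) with hρ
  have hρc : Continuous ρ := by
    refine Continuous.mul (continuous_const.min ?_) (continuous_const.min ?_)
    · exact (continuous_fst.comp continuous_snd).dist (continuous_fst.prodMk continuous_const)
    · exact (continuous_fst.comp continuous_snd).dist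
        ((s.continuous.comp continuous_fst).prodMk continuous_const)
  have hm0 : ∀ x : ℝ, 0 ≤ x → 0 ≤ min 1 x := fun x hx => le_min zero_le_one hx
  have hm1 : ∀ x : ℝ, min 1 x ≤ 1 := fun x => min_le_left _ _
  have hρ0 : ∀ p, 0 ≤ ρ p := fun p => mul_nonneg (hm0 _ dist_nonneg) (hm0 _ dist_nonneg)
  have hρ1 : ∀ p, ρ p ≤ 1 := fun p => mul_le_one₀ (hm1 _) (hm0 _ dist_nonneg) (hm1 _)
  have hmz : ∀ x : ℝ, min 1 x = 0 → x = 0 := by
    intro x hx
    rcases min_choice 1 x with h | h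
    · rw [h] at hx; exact absurd hx one_ne_zero
    · rw [h] at hx; exact hx
  have hρz : ∀ e a q, ρ (e, (a, q)) = 0 ↔ mk2 e (s e) a := by
    intro e a q
    simp only [hρ, mk2]
    rw [mul_eq_zero]
    constructor
    · rintro (h | h)
      · exact Or.inl (dist_eq_zero.1 (hmz _ h))
      · exact Or.inr (dist_eq_zero.1 (hmz _ h))
    · rintro (h | h)
      · left; rw [h, dist_self]; simp
      · right; rw [h, dist_self]; simp
  let G : (ℕ ⊕ ℕ) ⊕ Bool → E × ((E × I) × Qc) → ℝ := fun i p =>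
    match i with
    | Sum.inl (Sum.inl i) => (p.2.2 i : ℝ)
    | Sum.inl (Sum.inr i) => ρ p * min 1 (dist p.2.1.1 (d i))
    | Sum.inr false => ρ p
    | Sum.inr true => ρ p * (p.2.1.2 : ℝ)
  have hG : ∀ i p, 0 ≤ G i p ∧ G i p ≤ 1 := by
    rintro ((i | i) | (_ | _)) p
    · exact ⟨(p.2.2 i).2.1, (p.2.2 i).2.2⟩
    · exact ⟨mul_nonneg (hρ0 p) (hm0 _ dist_nonneg), mul_le_one₀ (hρ1 p) (hm0 _ dist_nonneg) (hm1 _)⟩
    · exact ⟨hρ0 p, hρ1 p⟩
    · exact ⟨mul_nonneg (hρ0 p) (p.2.1.2).2.1,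
        mul_le_one₀ (hρ1 p) (p.2.1.2).2.1 (p.2.1.2).2.2⟩
  have hGc : ∀ i, Continuous (G i) := by
    rintro ((i | i) | (_ | _))
    · exact continuous_subtype_val.comp ((continuous_apply i).comp
        (continuous_snd.comp continuous_snd))
    · exact hρc.mul (continuous_const.min
        ((continuous_fst.comp (continuous_fst.comp continuous_snd)).dist continuous_const))
    · exact hρc
    · exact hρc.mul (continuous_subtype_val.comp
        (continuous_snd.comp (continuous_fst.comp continuous_snd)))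
  obtain ⟨sg, hsg⟩ := exists_surjective_nat ((ℕ ⊕ ℕ) ⊕ Bool)
  refine ⟨⟨fun p n => ⟨(G (sg n) p + 1) / 3, by
    constructor
    · have := (hG (sg n) p).1; linarith
    · have := (hG (sg n) p).2; linarith⟩, ?_⟩, ?_⟩
  · refine continuous_pi fun n => Continuous.subtype_mk ?_ _
    exact ((hGc (sg n)).add continuous_const).div_const 3
  intro e a q a' q'
  have hJ : ((fun n => (⟨(G (sg n) (e, (a, q)) + 1) / 3, by
      constructor
      · have := (hG (sg n) (e, (a, q))).1; linarith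
      · have := (hG (sg n) (e, (a, q))).2; linarith⟩ : Set.Ioo (0 : ℝ) 1)) =
      (fun n => (⟨(G (sg n) (e, (a', q')) + 1) / 3, by
      constructor
      · have := (hG (sg n) (e, (a', q'))).1; linarith
      · have := (hG (sg n) (e, (a', q'))).2; linarith⟩ : Set.Ioo (0 : ℝ) 1))) ↔
      ∀ i, G i (e, (a, q)) = G i (e, (a', q')) := by
    constructor
    · intro h i
      obtain ⟨n, rfl⟩ := hsg i
      have h1 := congrArg Subtype.val (congrFun h n)
      simp only at h1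
      linarith
    · intro h
      funext n
      apply Subtype.ext
      simp only
      rw [h (sg n)]
  refine Iff.trans hJ ?_
  constructor
  · intro h
    have hq : q = q' := by
      funext i
      exact Subtype.ext (h (Sum.inl (Sum.inl i)))
    refine ⟨hq, ?_⟩
    have hr : ρ (e, (a, q)) = ρ (e, (a', q')) := h (Sum.inr false)
    by_cases hz : ρ (e, (a, q)) = 0
    · right
      exact ⟨(hρz e a q).1 hz, (hρz e a' q').1 (hr ▸ hz)⟩
    · left
      have ht : ρ (e, (a, q)) * (a.2 : ℝ) = ρ (e, (a', q')) * (a'.2 : ℝ) := h (Sum.inr true)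
      rw [← hr] at ht
      have ht' : a.2 = a'.2 := Subtype.ext (mul_left_cancel₀ hz ht)
      have hx : ∀ i, min 1 (dist a.1 (d i)) = min 1 (dist a'.1 (d i)) := by
        intro i
        have h2 : ρ (e, (a, q)) * min 1 (dist a.1 (d i)) =
          ρ (e, (a', q')) * min 1 (dist a'.1 (d i)) := h (Sum.inl (Sum.inr i))
        rw [← hr] at h2
        exact mul_left_cancel₀ hz h2
      have hfe : (fun y => min 1 (dist a.1 y)) = fun y => min 1 (dist a'.1 y) := by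
        refine hd.equalizer ?_ ?_ ?_
        · exact continuous_const.min (continuous_const.dist continuous_id)
        · exact continuous_const.min (continuous_const.dist continuous_id)
        · funext i
          exact hx i
      have h3 := congrFun hfe a.1
      simp only [dist_self] at h3
      have h4 : min (1 : ℝ) 0 = 0 := by simp
      rw [h4] at h3
      have h5 : a'.1 = a.1 := dist_eq_zero.1 (hmz _ h3.symm)
      exact Prod.ext h5.symm ht'
  · rintro ⟨rfl, rfl | ⟨h1, h2⟩⟩ i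
    · rfl
    · have z1 := (hρz e a q).2 h1
      have z2 := (hρz e a' q).2 h2
      rcases i with ((i | i) | (_ | _))
      · rfl
      · change ρ _ * _ = ρ _ * _
        rw [z1, z2, zero_mul, zero_mul]
      · change ρ _ = ρ _
        rw [z1, z2]
      · change ρ _ * _ = ρ _ * _
        rw [z1, z2, zero_mul, zero_mul]

theorem Phi_near (D : Fam P B M E) (u0 : P) (m0 : M) (N : Set (P × M)) (hN : N ∈ 𝓝 (u0, m0)) :
    ∀ᶠ e in 𝓝 (D.Φ (u0, m0)), ∃ v ∈ N, D.Φ v = e := by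
  obtain ⟨O, hO, V, hV, hOV⟩ := mem_nhds_prod_iff.1 hN
  obtain ⟨r, hr, hrV⟩ := Metric.mem_nhds_iff.1 hV
  have hc : Continuous (fun u : P => D.Φ (u, m0)) :=
    D.Φ.continuous.comp (continuous_id.prodMk continuous_const)
  have h1 : {u : P | dist (D.Φ (u, m0)) (D.Φ (u0, m0)) < r / 2} ∈ 𝓝 u0 :=
    hc.continuousAt.preimage_mem_nhds (Metric.ball_mem_nhds _ (by positivity))
  have h2 : O ∩ {u : P | dist (D.Φ (u, m0)) (D.Φ (u0, m0)) < r / 2} ∈ 𝓝 u0 :=
    Filter.inter_mem hO h1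
  have h3 := D.hop.image_mem_nhds h2
  rw [← D.hp u0 m0] at h3
  have h4 : ∀ᶠ e in 𝓝 (D.Φ (u0, m0)),
      D.p e ∈ D.π '' (O ∩ {u : P | dist (D.Φ (u, m0)) (D.Φ (u0, m0)) < r / 2}) :=
    D.p.continuous.continuousAt.preimage_mem_nhds h3
  have h5 : ∀ᶠ e in 𝓝 (D.Φ (u0, m0)), dist e (D.Φ (u0, m0)) < r / 2 :=
    Metric.ball_mem_nhds _ (by positivity)
  filter_upwards [h4, h5] with e he1 he2
  obtain ⟨u, ⟨huO, hu⟩, hue⟩ := he1
  obtain ⟨m, hm⟩ := D.sur u e hue.symm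
  refine ⟨(u, m), hOV ⟨huO, hrV ?_⟩, hm⟩
  rw [Metric.mem_ball, ← D.iso u m m0, hm]
  have hu' : dist (D.Φ (u, m0)) (D.Φ (u0, m0)) < r / 2 := hu
  calc dist e (D.Φ (u, m0)) ≤ dist e (D.Φ (u0, m0)) + dist (D.Φ (u0, m0)) (D.Φ (u, m0)) :=
        dist_triangle _ _ _
    _ < r / 2 + r / 2 := by
        rw [dist_comm (D.Φ (u0, m0))]
        exact add_lt_add he2 hu'
    _ = r := by ring

/-- the fibres of the family of circles times Hilbert cubes -/
def Dset (D : Fam P B M E) (J : C(E × ((E × I) × Qc), Sp)) (e : E) : Set Sp :=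
  {y | ∃ x t q, D.p x = D.p e ∧ y = J (e, ((x, t), q))}

/-- `J` has the correct identifications -/
def GoodJ (D : Fam P B M E) (J : C(E × ((E × I) × Qc), Sp)) : Prop :=
  ∀ e a q a' q', J (e, (a, q)) = J (e, (a', q')) ↔
    q = q' ∧ (a = a' ∨ (mk2 e (D.inf (D.p e)) a ∧ mk2 e (D.inf (D.p e)) a'))

theorem Dset_exists (D : Fam P B M E) (hM : Nonempty (M ≃ₜ Qc)) (J : C(E × ((E × I) × Qc), Sp))
    (hJ : GoodJ D J) (e : E) : ∃ φ : C(Fq, Sp), Function.Injective φ ∧ range φ = Dset D J e ∧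
      ∃ μ : C(Fq, ℝ), ∀ (x : E) (t : I) (q : Qc) (w : Fq), D.p x = D.p e →
        φ w = J (e, ((x, t), q)) → w.1 * Circle.exp (μ w) = Circle.exp (2 * Real.pi * (t : ℝ)) := by
  obtain ⟨u, hu⟩ := D.hπ (D.p e)
  obtain ⟨m, hm⟩ := D.sur u e hu.symm
  obtain ⟨Λ, hΛs, hΛ, μ, hμ⟩ := geo hM m D.mi
  have hΦinj : ∀ x x' : M, D.Φ (u, x) = D.Φ (u, x') → x = x' := by
    intro x x' h
    have h1 := D.iso u x x'
    rw [h, dist_self] at h1
    exact dist_eq_zero.1 h1.symm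
  have hmi : D.Φ (u, D.mi) = D.inf (D.p e) := by rw [D.hinf u, hu]
  set G : C((M × I) × Qc, Sp) :=
    J.comp ⟨fun v => (e, ((D.Φ (u, v.1.1), v.1.2), v.2)), by fun_prop⟩ with hG
  have hGv : ∀ v, G v = J (e, ((D.Φ (u, v.1.1), v.1.2), v.2)) := fun v => rfl
  have hpair : ∀ a b : M × I, ((D.Φ (u, a.1), a.2) : E × I) = (D.Φ (u, b.1), b.2) ↔ a = b := by
    intro a b
    constructor
    · intro h
      have h1 := congrArg Prod.fst h
      have h2 := congrArg Prod.snd h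
      exact Prod.ext (hΦinj _ _ h1) h2
    · rintro rfl; rfl
  have hmk : ∀ a : M × I, mk2 e (D.inf (D.p e)) (D.Φ (u, a.1), a.2) ↔ mk2 m D.mi a := by
    intro a
    unfold mk2
    have h1 := hpair a (m, 0)
    have h2 := hpair a (D.mi, 1)
    simp only at h1 h2
    rw [hm] at h1
    rw [hmi] at h2
    rw [h1, h2]
  have hGiff : ∀ v v', G v = G v' ↔ Λ v = Λ v' := by
    intro v v'
    rw [hGv, hGv, hJ, hΛ, hpair, hmk, hmk]
  obtain ⟨φ, hφ⟩ := descend Λ hΛs G (fun z z' h => (hGiff z z').2 h)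
  have hinj : Function.Injective φ := by
    intro w w' h
    obtain ⟨v, rfl⟩ := hΛs w
    obtain ⟨v', rfl⟩ := hΛs w'
    rw [hφ, hφ] at h
    exact (hGiff v v').1 h
  refine ⟨φ, hinj, ?_, μ, ?_⟩
  · ext y
    constructor
    · rintro ⟨w, rfl⟩
      obtain ⟨v, rfl⟩ := hΛs w
      refine ⟨D.Φ (u, v.1.1), v.1.2, v.2, ?_, ?_⟩
      · rw [D.hp, hu]
      · rw [hφ, hGv]
    · rintro ⟨x, t, q, hx, rfl⟩
      obtain ⟨x', hx'⟩ := D.sur u x (hx.trans hu.symm)
      refine ⟨Λ ((x', t), q), ?_⟩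
      rw [hφ, hGv]
      simp only [hx']
  · intro x t q w hx hw
    obtain ⟨x', hx'⟩ := D.sur u x (hx.trans hu.symm)
    have h1 : w = Λ ((x', t), q) := by
      apply hinj
      rw [hw, hφ, hGv]
      simp only [hx']
    rw [h1]
    exact hμ ((x', t), q)

theorem Dset_near_ind {Z F S : Type} [TopologicalSpace Z] [CompactSpace Z] [TopologicalSpace F]
    [T2Space F] [TopologicalSpace S] (Λ : C(Z, F)) (hΛ : Function.Surjective Λ) (φ0 : C(F, S))
    (O : Set C(F, S)) (hO : O ∈ 𝓝 φ0) :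
    ∃ O' ∈ 𝓝 (φ0.comp Λ), ∀ φ : C(F, S), φ.comp Λ ∈ O' → φ ∈ O := by
  have h : Tendsto (id : C(F, S) → C(F, S))
      (comap (fun φ : C(F, S) => φ.comp Λ) (𝓝 (φ0.comp Λ))) (𝓝 φ0) := by
    rw [ContinuousMap.tendsto_nhds_compactOpen]
    intro K hK U hU hm
    have hK' : IsCompact (Λ ⁻¹' K) := (hK.isClosed.preimage Λ.continuous).isCompact
    have h1 : ∀ᶠ ψ : C(Z, S) in 𝓝 (φ0.comp Λ), MapsTo ψ (Λ ⁻¹' K) U :=
      ContinuousMap.eventually_mapsTo hK' hU (fun z hz => hm hz)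
    refine (h1.comap _).mono ?_
    intro φ hφ y hy
    obtain ⟨z, rfl⟩ := hΛ y
    exact hφ hy
  have h2 := h hO
  rw [Filter.mem_map, preimage_id, mem_comap] at h2
  obtain ⟨O', hO', hsub⟩ := h2
  exact ⟨O', hO', fun φ hφ => hsub hφ⟩

theorem Dset_near (D : Fam P B M E) (hM : Nonempty (M ≃ₜ Qc)) (J : C(E × ((E × I) × Qc), Sp))
    (hJ : GoodJ D J) (e0 : E) (φ0 : C(Fq, Sp)) (hi : Function.Injective φ0)
    (hr : range φ0 = Dset D J e0) (O : Set C(Fq, Sp)) (hO : O ∈ 𝓝 φ0) :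
    ∀ᶠ e in 𝓝 e0, ∃ φ ∈ O, Function.Injective φ ∧ range φ = Dset D J e := by
  obtain ⟨u0, hu0⟩ := D.hπ (D.p e0)
  obtain ⟨m0, hm0⟩ := D.sur u0 e0 hu0.symm
  obtain ⟨G, hG⟩ : ∃ G : C((P × M) × ((M × I) × Qc), Sp), ∀ u m x t q,
      G ((u, m), ((x, t), q)) = J (D.Φ (u, m), ((D.Φ (u, x), t), q)) := by
    refine ⟨⟨fun z => J (D.Φ z.1, ((D.Φ (z.1.1, z.2.1.1), z.2.1.2), z.2.2)), by fun_prop⟩,
      fun u m x t q => rfl⟩
  have hinj : ∀ u x x', D.Φ (u, x) = D.Φ (u, x') → x = x' := by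
    intro u x x' h
    have := D.iso u x x'
    rw [h, dist_self] at this
    exact dist_eq_zero.mp this.symm
  have hmk : ∀ u m x t, mk2 (D.Φ (u, m)) (D.inf (D.p (D.Φ (u, m)))) (D.Φ (u, x), t) ↔
      mk2 m D.mi (x, t) := by
    intro u m x t
    unfold mk2
    rw [D.hp, ← D.hinf, Prod.mk.injEq, Prod.mk.injEq, Prod.mk.injEq, Prod.mk.injEq]
    constructor
    · rintro (⟨h1, h2⟩ | ⟨h1, h2⟩)
      · exact Or.inl ⟨hinj _ _ _ h1, h2⟩
      · exact Or.inr ⟨hinj _ _ _ h1, h2⟩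
    · rintro (⟨h1, h2⟩ | ⟨h1, h2⟩)
      · exact Or.inl ⟨by rw [h1], h2⟩
      · exact Or.inr ⟨by rw [h1], h2⟩
  have hfib : ∀ (v : P × M) (a : M × I) (q : Qc) (a' : M × I) (q' : Qc),
      G (v, (a, q)) = G (v, (a', q')) ↔
        q = q' ∧ (a = a' ∨ (mk2 v.2 D.mi a ∧ mk2 v.2 D.mi a')) := by
    rintro ⟨u, m⟩ ⟨x, t⟩ q ⟨x', t'⟩ q'
    rw [hG, hG, hJ, hmk, hmk]
    have h : ((D.Φ (u, x), t) : E × I) = (D.Φ (u, x'), t') ↔ ((x, t) : M × I) = (x', t') := by
      rw [Prod.mk.injEq, Prod.mk.injEq]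
      constructor
      · rintro ⟨h1, h2⟩
        exact ⟨hinj _ _ _ h1, h2⟩
      · rintro ⟨h1, h2⟩
        exact ⟨by rw [h1], h2⟩
    rw [h]
  have hran : ∀ v : P × M, range (fun z => G (v, z)) = Dset D J (D.Φ v) := by
    rintro ⟨u, m⟩
    ext y
    constructor
    · rintro ⟨⟨⟨x, t⟩, q⟩, rfl⟩
      refine ⟨D.Φ (u, x), t, q, by rw [D.hp, D.hp], ?_⟩
      exact hG u m x t q
    · rintro ⟨x, t, q, hx, rfl⟩
      rw [D.hp] at hx
      obtain ⟨x', rfl⟩ := D.sur u x hx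
      exact ⟨((x', t), q), hG u m x' t q⟩
  -- the map over the base point
  obtain ⟨G0, hG0⟩ : ∃ G0 : C((M × I) × Qc, Sp), ∀ z, G0 z = G ((u0, m0), z) :=
    ⟨⟨fun z => G ((u0, m0), z), by fun_prop⟩, fun z => rfl⟩
  have hG0r : ∀ z, G0 z ∈ range φ0 := by
    intro z
    rw [hr, ← hm0, ← hran, hG0]
    exact ⟨z, rfl⟩
  choose Λf hΛf using hG0r
  have hemb : Topology.IsEmbedding φ0 := (φ0.continuous.isClosedEmbedding hi).isEmbedding
  have hΛc : Continuous Λf := by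
    rw [hemb.continuous_iff]
    have : φ0 ∘ Λf = G0 := funext hΛf
    rw [this]
    exact G0.continuous
  obtain ⟨Λ, hΛ⟩ : ∃ Λ : C((M × I) × Qc, Fq), ∀ z, Λ z = Λf z := ⟨⟨Λf, hΛc⟩, fun _ => rfl⟩
  have hΛG : ∀ z, φ0 (Λ z) = G0 z := fun z => by rw [hΛ, hΛf]
  have hΛs : Function.Surjective Λ := by
    intro w
    have h1 : φ0 w ∈ range φ0 := ⟨w, rfl⟩
    rw [hr, ← hm0, ← hran] at h1
    obtain ⟨z, hz⟩ := h1
    refine ⟨z, hi ?_⟩
    rw [hΛG, hG0]
    exact hz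
  have hΛfib : ∀ z z', Λ z = Λ z' ↔ G0 z = G0 z' := by
    intro z z'
    rw [← hΛG, ← hΛG]
    exact ⟨fun h => by rw [h], fun h => hi h⟩
  obtain ⟨O', hO', hOO'⟩ := Dset_near_ind Λ hΛs φ0 O hO
  have hcomp0 : φ0.comp Λ = G0 := ContinuousMap.ext hΛG
  rw [hcomp0] at hO'
  -- the map depending on the parameters
  obtain ⟨Ψ, hΨ⟩ : ∃ Ψ : (P × M) × C(M × I, M × I) → C((M × I) × Qc, Sp),
      ∀ v k z, Ψ (v, k) z = G (v, (k z.1, z.2)) :=
    ⟨fun w => ⟨fun z => G (w.1, (w.2 z.1, z.2)), by fun_prop⟩, fun v k z => rfl⟩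
  have hΨc : Continuous Ψ := by
    apply ContinuousMap.continuous_of_continuous_uncurry
    have : (Function.uncurry fun x y => (Ψ x) y) =
        fun w : ((P × M) × C(M × I, M × I)) × ((M × I) × Qc) => G (w.1.1, (w.1.2 w.2.1, w.2.2)) := by
      funext w
      obtain ⟨⟨v, k⟩, z⟩ := w
      exact hΨ v k z
    rw [this]
    have hev : Continuous (fun w : ((P × M) × C(M × I, M × I)) × ((M × I) × Qc) => w.1.2 w.2.1) :=
      Continuous.eval (continuous_snd.comp continuous_fst) (continuous_fst.comp continuous_snd)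
    exact G.continuous.comp ((continuous_fst.comp continuous_fst).prodMk
      (hev.prodMk (continuous_snd.comp continuous_snd)))
  have hΨ0 : Ψ ((u0, m0), ContinuousMap.id (M × I)) = G0 := by
    ext z : 1
    rw [hΨ, hG0]
    rfl
  have hW : Ψ ⁻¹' O' ∈ 𝓝 ((u0, m0), ContinuousMap.id (M × I)) := by
    apply hΨc.continuousAt.preimage_mem_nhds
    rw [hΨ0]
    exact hO'
  rw [nhds_prod_eq, Filter.mem_prod_iff] at hW
  obtain ⟨N, hN, K, hK, hNK⟩ := hW
  rw [Metric.mem_nhds_iff] at hK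
  obtain ⟨ε, hε, hball⟩ := hK
  have hk := kiso hM m0 (ε / 2) (by positivity)
  have hN' : N ∩ {v : P × M | ∃ k : C(M × I, M × I), Function.Bijective k ∧
      k (m0, 0) = (v.2, 0) ∧ (∀ x, k (x, 1) = (x, 1)) ∧ ∀ p, dist (k p) p < ε / 2} ∈
      𝓝 (u0, m0) := by
    refine Filter.inter_mem hN ?_
    exact (continuous_snd.tendsto (u0, m0)).eventually hk
  have hfin := Phi_near D u0 m0 _ hN'
  rw [hm0] at hfin
  filter_upwards [hfin] with e he
  obtain ⟨⟨u, m⟩, ⟨hvN, k, hkb, hk0, hk1, hkd⟩, rfl⟩ := he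
  have hkK : k ∈ K := by
    apply hball
    rw [Metric.mem_ball]
    refine lt_of_le_of_lt ((ContinuousMap.dist_le (by positivity)).mpr fun x => ?_)
      (half_lt_self hε)
    exact (hkd x).le
  have hmem : Ψ ((u, m), k) ∈ O' := hNK ⟨hvN, hkK⟩
  have hmkk : ∀ a, mk2 m D.mi (k a) ↔ mk2 m0 D.mi a := by
    intro a
    unfold mk2
    have hk0' : k (m0, 0) = (m, 0) := hk0
    rw [← hk0', ← hk1 D.mi, hkb.1.eq_iff, hkb.1.eq_iff, hk1]
  have hfib' : ∀ z z', Λ z = Λ z' ↔ Ψ ((u, m), k) z = Ψ ((u, m), k) z' := by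
    rintro ⟨a, q⟩ ⟨a', q'⟩
    rw [hΛfib, hG0, hG0, hΨ, hΨ, hfib, hfib]
    show _ ↔ q = q' ∧ (k a = k a' ∨ (mk2 m D.mi (k a) ∧ mk2 m D.mi (k a')))
    rw [hmkk, hmkk, hkb.1.eq_iff]
  obtain ⟨φ, hφ⟩ := descend Λ hΛs (Ψ ((u, m), k)) (fun z z' h => (hfib' z z').mp h)
  refine ⟨φ, ?_, ?_, ?_⟩
  · apply hOO'
    have : φ.comp Λ = Ψ ((u, m), k) := ContinuousMap.ext hφ
    rw [this]
    exact hmem
  · intro w w' hww
    obtain ⟨z, rfl⟩ := hΛs w
    obtain ⟨z', rfl⟩ := hΛs w'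
    rw [hφ, hφ] at hww
    exact (hfib' z z').mpr hww
  · rw [← hran]
    ext y
    constructor
    · rintro ⟨w, rfl⟩
      obtain ⟨z, rfl⟩ := hΛs w
      rw [hφ, hΨ]
      exact ⟨(k z.1, z.2), rfl⟩
    · rintro ⟨⟨a, q⟩, rfl⟩
      obtain ⟨a', rfl⟩ := hkb.2 a
      refine ⟨Λ (a', q), ?_⟩
      rw [hφ, hΨ]

/-- reparametrization -/
def RelF (φ ψ : {φ : C(Fq, ℕ → Set.Ioo (0:ℝ) 1) // Topology.IsEmbedding ⇑φ}) : Prop :=
  ∃ h : Fq ≃ₜ Fq, ∀ x : Fq, ψ.1 x = φ.1 (h x)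

theorem rel_iff_range_eq {φ ψ : {φ : C(Fq, ℕ → Set.Ioo (0:ℝ) 1) // Topology.IsEmbedding ⇑φ}}
    (h : Relation.EqvGen RelF φ ψ) : range φ.1 = range ψ.1 := by
  induction h with
  | rel x y h =>
    obtain ⟨h, hh⟩ := h
    ext z
    constructor
    · rintro ⟨w, rfl⟩
      exact ⟨h.symm w, by rw [hh, h.apply_symm_apply]⟩
    · rintro ⟨w, rfl⟩
      exact ⟨h w, (hh w).symm⟩
  | refl x => rfl
  | symm x y _ ih => exact ih.symm
  | trans x y z _ _ ih1 ih2 => exact ih1.trans ih2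

theorem rel_iff (φ ψ : {φ : C(Fq, ℕ → Set.Ioo (0:ℝ) 1) // Topology.IsEmbedding ⇑φ}) :
    Quot.mk RelF φ = Quot.mk RelF ψ ↔ range φ.1 = range ψ.1 := by
  constructor
  · intro h
    exact rel_iff_range_eq (Quot.eqvGen_exact h)
  · intro h
    apply Quot.sound
    have e1 : Fq ≃ₜ range φ.1 := φ.2.toHomeomorph
    refine ⟨(ψ.2.toHomeomorph.trans (Homeomorph.setCongr h.symm)).trans φ.2.toHomeomorph.symm, ?_⟩
    intro x
    have key : φ.2.toHomeomorph (((ψ.2.toHomeomorph.trans (Homeomorph.setCongr h.symm)).trans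
        φ.2.toHomeomorph.symm) x) = (Homeomorph.setCongr h.symm) (ψ.2.toHomeomorph x) := by
      simp only [Homeomorph.trans_apply, Homeomorph.apply_symm_apply]
    have k2 := congrArg Subtype.val key
    exact k2.symm

theorem cont_quot {A : Type} [TopologicalSpace A] (Ds : A → Set Sp)
    (h1 : ∀ a, ∃ φ : C(Fq, Sp), Function.Injective φ ∧ range φ = Ds a)
    (h2 : ∀ a0 (φ0 : C(Fq, Sp)), Function.Injective φ0 → range φ0 = Ds a0 → ∀ O ∈ 𝓝 φ0,
      ∀ᶠ a in 𝓝 a0, ∃ φ ∈ O, Function.Injective φ ∧ range φ = Ds a) :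
    ∃ f : C(A, Quot RelF), ∀ a φ, range φ.1 = Ds a → f a = Quot.mk RelF φ := by
  classical
  have hemb : ∀ φ : C(Fq, Sp), Function.Injective φ → Topology.IsEmbedding ⇑φ := fun φ hi =>
    (φ.continuous.isClosedEmbedding hi).isEmbedding
  choose ph hph1 hph2 using h1
  let f : A → Quot RelF := fun a => Quot.mk RelF ⟨ph a, hemb _ (hph1 a)⟩
  have hf : ∀ a (φ : {φ : C(Fq, ℕ → Set.Ioo (0:ℝ) 1) // Topology.IsEmbedding ⇑φ}),
      range φ.1 = Ds a → f a = Quot.mk RelF φ := by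
    intro a φ hr
    exact (rel_iff _ _).2 ((hph2 a).trans hr.symm)
  have hc : Continuous f := by
    rw [continuous_iff_continuousAt]
    intro a0
    rw [ContinuousAt, Filter.tendsto_def]
    intro V hV
    obtain ⟨V', hV'V, hV'o, hV'm⟩ := mem_nhds_iff.1 hV
    have ho : IsOpen ((Quot.mk RelF) ⁻¹' V') := hV'o.preimage continuous_quot_mk
    obtain ⟨O, hO, hOe⟩ := isOpen_induced_iff.1 ho
    have h0 : ph a0 ∈ O := by
      have h3 : (⟨ph a0, hemb _ (hph1 a0)⟩ : {φ : C(Fq, ℕ → Set.Ioo (0:ℝ) 1) // Topology.IsEmbedding ⇑φ})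
          ∈ (Quot.mk RelF) ⁻¹' V' := hV'm
      rw [← hOe] at h3
      exact h3
    filter_upwards [h2 a0 (ph a0) (hph1 a0) (hph2 a0) O (hO.mem_nhds h0)] with a ha
    obtain ⟨φ, hφO, hφi, hφr⟩ := ha
    apply hV'V
    rw [hf a ⟨φ, hemb φ hφi⟩ hφr]
    have h4 : (⟨φ, hemb φ hφi⟩ : {φ : C(Fq, ℕ → Set.Ioo (0:ℝ) 1) // Topology.IsEmbedding ⇑φ})
          ∈ Subtype.val ⁻¹' O := hφO
    rw [hOe] at h4
    exact h4
  exact ⟨⟨f, hc⟩, hf⟩

theorem quot_family_eqv {φ ψ : {φ : C(Fq, ℕ → Set.Ioo (0:ℝ) 1) // Topology.IsEmbedding ⇑φ}}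
    (h : Quot.mk RelF φ = Quot.mk RelF ψ) : RelF ψ φ := by
  have hE : Equivalence RelF := by
    refine ⟨fun φ => ⟨Homeomorph.refl _, fun x => rfl⟩, ?_, ?_⟩
    · rintro φ ψ ⟨h, hh⟩
      exact ⟨h.symm, fun x => by rw [hh, Homeomorph.apply_symm_apply]⟩
    · rintro φ ψ χ ⟨h, hh⟩ ⟨k, hk⟩
      exact ⟨k.trans h, fun x => by rw [hk, hh]; rfl⟩
  have h1 : Relation.EqvGen RelF φ ψ := Quot.eqvGen_exact h
  exact hE.symm ((Equivalence.eqvGen_iff hE).1 h1)

theorem quot_family_emb {φ : C(Fq, Sp)} (h : Function.Injective φ) : Topology.IsEmbedding ⇑φ :=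
  (Continuous.isClosedEmbedding φ.continuous h).isEmbedding

theorem quot_family {U : Type} [TopologicalSpace U] (g : C(U, Quot RelF)) :
    ∃ K : U → Set Sp, (∀ x φ, g x = Quot.mk RelF φ ↔ range φ.1 = K x) ∧
      (∀ x, ∃ φ : C(Fq, Sp), Function.Injective φ ∧ range φ = K x) ∧
      ∀ x0 (φ0 : C(Fq, Sp)), Function.Injective φ0 → range φ0 = K x0 → ∀ O ∈ 𝓝 φ0,
        ∀ᶠ x in 𝓝 x0, ∃ φ ∈ O, Function.Injective φ ∧ range φ = K x := by
  have hrep : ∀ x, ∃ φ, Quot.mk RelF φ = g x := fun x => Quot.exists_rep (g x)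
  choose rep hrep using hrep
  have h1 : ∀ x φ, g x = Quot.mk RelF φ ↔ range φ.1 = range (rep x).1 := by
    intro x φ
    rw [← hrep x, rel_iff]
    exact eq_comm
  refine ⟨fun x => range (rep x).1, h1, fun x => ⟨(rep x).1, (rep x).2.injective, rfl⟩, ?_⟩
  intro x0 φ0 hφ0 hr O hO
  obtain ⟨O', hO'O, hO', h0⟩ := mem_nhds_iff.1 hO
  set V : Set (Quot RelF) := {q | ∃ φ : {φ : C(Fq, ℕ → Set.Ioo (0:ℝ) 1) // Topology.IsEmbedding ⇑φ},
    φ.1 ∈ O' ∧ Quot.mk RelF φ = q} with hV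
  have hVo : IsOpen V := by
    rw [← isQuotientMap_quot_mk.isOpen_preimage]
    have e : (Quot.mk RelF) ⁻¹' V = ⋃ h : Fq ≃ₜ Fq,
        {ψ : {φ : C(Fq, ℕ → Set.Ioo (0:ℝ) 1) // Topology.IsEmbedding ⇑φ} |
          ψ.1.comp (h : C(Fq, Fq)) ∈ O'} := by
      ext ψ
      constructor
      · rintro ⟨φ, hφ, he⟩
        obtain ⟨h, hh⟩ := quot_family_eqv he
        refine mem_iUnion.2 ⟨h, ?_⟩
        have : ψ.1.comp (h : C(Fq, Fq)) = φ.1 := by
          ext1 x
          exact (hh x).symm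
        show ψ.1.comp (h : C(Fq, Fq)) ∈ O'
        rw [this]
        exact hφ
      · intro hψ
        obtain ⟨h, hh⟩ := mem_iUnion.1 hψ
        refine ⟨⟨ψ.1.comp (h : C(Fq, Fq)), ψ.2.comp h.isEmbedding⟩, hh, ?_⟩
        rw [rel_iff]
        show range (ψ.1 ∘ h) = range ψ.1
        exact h.surjective.range_comp _
    rw [e]
    refine isOpen_iUnion fun h => ?_
    exact hO'.preimage ((ContinuousMap.continuous_precomp (h : C(Fq, Fq))).comp
      continuous_subtype_val)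
  have hx0 : g x0 ∈ V := by
    refine ⟨⟨φ0, quot_family_emb hφ0⟩, h0, ?_⟩
    exact ((h1 x0 ⟨φ0, quot_family_emb hφ0⟩).2 hr).symm
  have hev : ∀ᶠ x in 𝓝 x0, g x ∈ V := g.continuous.continuousAt.eventually (hVo.mem_nhds hx0)
  filter_upwards [hev] with x hx
  obtain ⟨φ, hφ, he⟩ := hx
  exact ⟨φ.1, hO'O hφ, φ.2.injective, (h1 x φ).1 he.symm⟩

/-- basis vectors of the bounded sequences -/
def exists_V_e (i : ℕ) : BoundedContinuousFunction ℕ ℝ :=
  BoundedContinuousFunction.ofNormedAddCommGroupDiscrete (fun j => if j = i then (1 : ℝ) else 0) 1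
    (fun j => by split_ifs <;> simp)

theorem exists_V_norm (i : ℕ) : ‖exists_V_e i‖ ≤ 1 :=
  BoundedContinuousFunction.norm_ofNormedAddCommGroup_le _ zero_le_one
    (fun j => by split_ifs <;> simp)

theorem exists_V : ∃ (V : Type) (_ : NormedAddCommGroup V) (_ : NormedSpace ℝ V) (w : C(Sp, V)),
    Function.Injective w := by
  have hb : ∀ (i : ℕ) (x : Sp), ‖((x i : ℝ) * (1 / 2) ^ i) • exists_V_e i‖ ≤ (1 / 2 : ℝ) ^ i := by
    intro i x
    have h0 : 0 < (x i : ℝ) := (x i).2.1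
    have h1 : (x i : ℝ) < 1 := (x i).2.2
    have h2 : (0 : ℝ) < (1 / 2 : ℝ) ^ i := by positivity
    rw [norm_smul, Real.norm_eq_abs, abs_of_pos (mul_pos h0 h2)]
    calc (x i : ℝ) * (1 / 2) ^ i * ‖exists_V_e i‖ ≤ 1 * (1 / 2) ^ i * 1 := by
          apply mul_le_mul _ (exists_V_norm i) (norm_nonneg _) (by positivity)
          exact mul_le_mul_of_nonneg_right h1.le h2.le
      _ = _ := by ring
  have hs : Summable (fun i : ℕ => (1 / 2 : ℝ) ^ i) := summable_geometric_two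
  have hc : Continuous (fun x : Sp => ∑' i, ((x i : ℝ) * (1 / 2) ^ i) • exists_V_e i) := by
    refine continuous_tsum (fun i => ?_) hs hb
    fun_prop
  refine ⟨BoundedContinuousFunction ℕ ℝ, inferInstance, inferInstance, ⟨_, hc⟩, ?_⟩
  intro x y hxy
  have hev : ∀ (x : Sp) (j : ℕ),
      (∑' i, ((x i : ℝ) * (1 / 2) ^ i) • exists_V_e i) j = (x j : ℝ) * (1 / 2) ^ j := by
    intro x j
    have h1 : Summable (fun i => ((x i : ℝ) * (1 / 2) ^ i) • exists_V_e i) :=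
      Summable.of_norm_bounded hs (fun i => hb i x)
    have h2 := (BoundedContinuousFunction.evalCLM ℝ j).map_tsum h1
    have h3 : (BoundedContinuousFunction.evalCLM ℝ j)
        (∑' i, ((x i : ℝ) * (1 / 2) ^ i) • exists_V_e i) =
        (∑' i, ((x i : ℝ) * (1 / 2) ^ i) • exists_V_e i) j := rfl
    rw [← h3, h2, tsum_eq_single j]
    · show ((x j : ℝ) * (1 / 2) ^ j) * (if j = j then (1 : ℝ) else 0) = _
      rw [if_pos rfl, mul_one]
    · intro i hi
      show ((x i : ℝ) * (1 / 2) ^ i) * (if j = i then (1 : ℝ) else 0) = 0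
      rw [if_neg (fun h => hi h.symm), mul_zero]
  funext j
  apply Subtype.ext
  have h4 := congrArg (fun f : BoundedContinuousFunction ℕ ℝ => f j) hxy
  have h5 : (∑' i, ((x i : ℝ) * (1 / 2) ^ i) • exists_V_e i) j =
      (∑' i, ((y i : ℝ) * (1 / 2) ^ i) • exists_V_e i) j := h4
  rw [hev, hev] at h5
  exact mul_right_cancel₀ (by positivity) h5

theorem exists_iE : ∃ i : C(E, Qc), Function.Injective i := by
  rcases isEmpty_or_nonempty E with h | h
  · exact ⟨⟨fun x => (h.false x).elim, continuous_of_const fun x => (h.false x).elim⟩,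
      fun x => (h.false x).elim⟩
  · obtain ⟨F, hF⟩ := Metric.PiNatEmbed.exists_embedding_to_hilbert_cube (X := E)
    exact ⟨⟨F, hF.continuous⟩, hF.injective⟩

end HQ
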