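import Pool.Agent.Helper194.BB.N
import Pool.Agent.Helper194.BB.P
import Pool.Agent.Helper257.BB.Test

set_option autoImplicit false
set_option linter.unusedVariables false
set_option linter.unusedSectionVars false

open scoped unitInterval Matrix Topology ComplexConjugate Kronecker
open ContinuousMap Topology

noncomputable section

namespace BB

section st
variable (r s : Type) [Fintype r] [DecidableEq r] [Fintype s] [DecidableEq s]

/-- inclusion of the block indices -/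
def fI : Fin 4 ⊕ r → (Fin 4 ⊕ Fin 4) ⊕ (r ⊕ s)
  | Sum.inl i => Sum.inl (Sum.inl i)
  | Sum.inr j => Sum.inr (Sum.inl j)

theorem fI_inj : Function.Injective (fI r s) := by
  rintro (i | i) (j | j) h <;> simp [fI] at h ⊢ <;> exact h

/-- the block isometry -/
def Pm : Matrix ((Fin 4 ⊕ Fin 4) ⊕ (r ⊕ s)) (Fin 4 ⊕ r) ℂ :=
  Matrix.of fun i j => if i = fI r s j then 1 else 0

theorem PmT_Pm : (Pm r s)ᵀ * Pm r s = 1 := by
  ext i j
  rw [Matrix.mul_apply, Matrix.one_apply]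
  simp only [Matrix.transpose_apply, Pm, Matrix.of_apply]
  rw [Finset.sum_eq_single (fI r s i)]
  · simp only [if_true, one_mul]
    by_cases h : i = j
    · rw [h]; simp
    · rw [if_neg h, if_neg (fun h' => h (fI_inj r s h'))]
  · intro b _ hb
    rw [if_neg hb, zero_mul]
  · intro h
    exact absurd (Finset.mem_univ _) h

theorem Pm_PmT : Pm r s * (Pm r s)ᵀ = blk r s e0 := by
  ext i j
  rw [Matrix.mul_apply]
  simp only [Matrix.transpose_apply, Pm, Matrix.of_apply, Fintype.sum_sum_type]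
  rcases i with ((i | i) | (i | i)) <;> rcases j with ((j | j) | (j | j)) <;>
    simp [fI, blk, e0, Matrix.fromBlocks, Matrix.one_apply, Finset.sum_ite_eq, eq_comm]

/-- the block of a matrix -/
def cc (N : Matrix ((Fin 4 ⊕ Fin 4) ⊕ (r ⊕ s)) ((Fin 4 ⊕ Fin 4) ⊕ (r ⊕ s)) ℂ) :
    Matrix (Fin 4 ⊕ r) (Fin 4 ⊕ r) ℂ := (Pm r s)ᵀ * N * Pm r s

theorem cc_cont : Continuous (cc r s) := by
  unfold cc
  exact (continuous_const.matrix_mul continuous_id).matrix_mul continuous_const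

theorem cc_mul (N N' : Matrix ((Fin 4 ⊕ Fin 4) ⊕ (r ⊕ s)) ((Fin 4 ⊕ Fin 4) ⊕ (r ⊕ s)) ℂ)
    (h : N' * blk r s e0 = blk r s e0 * N') : cc r s (N * N') = cc r s N * cc r s N' := by
  have h1 : N' * Pm r s = Pm r s * ((Pm r s)ᵀ * N' * Pm r s) := by
    calc N' * Pm r s = N' * (Pm r s * ((Pm r s)ᵀ * Pm r s)) := by rw [PmT_Pm, Matrix.mul_one]
      _ = (N' * blk r s e0) * Pm r s := by rw [← Pm_PmT]; simp only [Matrix.mul_assoc]
      _ = (blk r s e0 * N') * Pm r s := by rw [h]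
      _ = _ := by rw [← Pm_PmT]; simp only [Matrix.mul_assoc]
  unfold cc
  calc (Pm r s)ᵀ * (N * N') * Pm r s = (Pm r s)ᵀ * N * (N' * Pm r s) := by
        simp only [Matrix.mul_assoc]
    _ = _ := by rw [h1]; simp only [Matrix.mul_assoc]

theorem cc_one : cc r s 1 = 1 := by
  unfold cc
  rw [Matrix.mul_one, PmT_Pm]

theorem comm_inv (N : (Matrix ((Fin 4 ⊕ Fin 4) ⊕ (r ⊕ s)) ((Fin 4 ⊕ Fin 4) ⊕ (r ⊕ s)) ℂ)ˣ)
    (h : N.1 * blk r s e0 = blk r s e0 * N.1) :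
    N⁻¹.1 * blk r s e0 = blk r s e0 * N⁻¹.1 := by
  have h1 : N⁻¹.1 * N.1 = 1 := N.inv_mul
  have h2 : N.1 * N⁻¹.1 = 1 := N.mul_inv
  calc N⁻¹.1 * blk r s e0 = N⁻¹.1 * blk r s e0 * (N.1 * N⁻¹.1) := by rw [h2, mul_one]
    _ = N⁻¹.1 * (blk r s e0 * N.1) * N⁻¹.1 := by simp only [mul_assoc]
    _ = N⁻¹.1 * (N.1 * blk r s e0) * N⁻¹.1 := by rw [h]
    _ = (N⁻¹.1 * N.1) * blk r s e0 * N⁻¹.1 := by simp only [mul_assoc]
    _ = _ := by rw [h1, one_mul]

/-- the block as a unit -/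
def bs {S : Type} [TopologicalSpace S]
    (N : C(S, (Matrix ((Fin 4 ⊕ Fin 4) ⊕ (r ⊕ s)) ((Fin 4 ⊕ Fin 4) ⊕ (r ⊕ s)) ℂ)ˣ))
    (h : ∀ t, (N t).1 * blk r s e0 = blk r s e0 * (N t).1) :
    C(S, (Matrix (Fin 4 ⊕ r) (Fin 4 ⊕ r) ℂ)ˣ) where
  toFun t :=
    { val := cc r s (N t).1
      inv := cc r s (N t)⁻¹.1
      val_inv := by
        rw [← cc_mul r s _ _ (comm_inv r s _ (h t)), Units.mul_inv, cc_one]
      inv_val := by
        rw [← cc_mul r s _ _ (h t), Units.inv_mul, cc_one] }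
  continuous_toFun := by
    rw [Units.continuous_iff]
    constructor
    · exact (cc_cont r s).comp (Units.continuous_val.comp N.continuous)
    · exact (cc_cont r s).comp (Units.continuous_val.comp (continuous_inv.comp N.continuous))

theorem st_close {T κ : Type} [TopologicalSpace T] [Fintype κ] [DecidableEq κ]
    (F G : C(T, (Matrix κ κ ℂ)ˣ))
    (h : ∀ t, ∀ s : ℝ, 0 ≤ s → s ≤ 1 → IsUnit ((1 - s : ℂ) • (F t).1 + (s : ℂ) • (G t).1)) :
    Homotopic F G := by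
  have hu : ∀ p : I × T, IsUnit ((1 - ((p.1 : ℝ) : ℂ)) • (F p.2).1 + ((p.1 : ℝ) : ℂ) • (G p.2).1) :=
    fun p => h p.2 p.1 p.1.2.1 p.1.2.2
  have hc : Continuous fun p : I × T =>
      (1 - ((p.1 : ℝ) : ℂ)) • (F p.2).1 + ((p.1 : ℝ) : ℂ) • (G p.2).1 := by
    have h1 : Continuous fun p : I × T => ((p.1 : ℝ) : ℂ) :=
      Complex.continuous_ofReal.comp (continuous_subtype_val.comp continuous_fst)
    have h2 : Continuous fun p : I × T => (F p.2).1 :=
      Units.continuous_val.comp (F.continuous.comp continuous_snd)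
    have h3 : Continuous fun p : I × T => (G p.2).1 :=
      Units.continuous_val.comp (G.continuous.comp continuous_snd)
    exact ((continuous_const.sub h1).smul h2).add (h1.smul h3)
  have hH : Continuous fun p : I × T => (hu p).unit := by
    rw [Units.continuous_iff]
    refine ⟨hc, ?_⟩
    have h4 : (fun p : I × T => (((hu p).unit⁻¹ : (Matrix κ κ ℂ)ˣ) : Matrix κ κ ℂ)) = fun p : I × T =>
        (((1 - ((p.1 : ℝ) : ℂ)) • (F p.2).1 + ((p.1 : ℝ) : ℂ) • (G p.2).1).det)⁻¹ •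
          ((1 - ((p.1 : ℝ) : ℂ)) • (F p.2).1 + ((p.1 : ℝ) : ℂ) • (G p.2).1).adjugate := by
      funext p
      rw [Matrix.coe_units_inv, IsUnit.unit_spec, Matrix.inv_def, Ring.inverse_eq_inv']
    rw [h4]
    refine Continuous.smul (Continuous.inv₀ hc.matrix_det fun p => ?_) hc.matrix_adjugate
    exact ((Matrix.isUnit_iff_isUnit_det _).mp (hu p)).ne_zero
  refine ⟨{ toFun := fun p => (hu p).unit, continuous_toFun := hH, map_zero_left := ?_,
            map_one_left := ?_ }⟩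
  · intro t
    apply Units.ext
    show (1 - (((0 : I) : ℝ) : ℂ)) • (F t).1 + (((0 : I) : ℝ) : ℂ) • (G t).1 = (F t).1
    simp
  · intro t
    apply Units.ext
    show (1 - (((1 : I) : ℝ) : ℂ)) • (F t).1 + (((1 : I) : ℝ) : ℂ) • (G t).1 = (G t).1
    simp

/-- enlarging a matrix -/
def ee (A : M8) : Matrix ((Fin 4 ⊕ Fin 4) ⊕ (r ⊕ s)) ((Fin 4 ⊕ Fin 4) ⊕ (r ⊕ s)) ℂ :=
  Matrix.fromBlocks A 0 0 1

theorem ee_mul (A B : M8) : ee r s (A * B) = ee r s A * ee r s B := by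
  unfold ee
  rw [Matrix.fromBlocks_multiply]
  simp

theorem ee_one : ee r s 1 = 1 := by
  unfold ee
  exact Matrix.fromBlocks_one

theorem ee_cont {X : Type} [TopologicalSpace X] {x0 : X} {c : X → M8} (h : ContinuousAt c x0) :
    ContinuousAt (fun x => ee r s (c x)) x0 := by
  have : Continuous (ee r s) := by
    unfold ee
    exact Continuous.matrix_fromBlocks continuous_id continuous_const continuous_const
      continuous_const
  exact this.continuousAt.comp h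

theorem ee_blk (A B : M8) (e e' : M8) (h : A * e = e' * A) :
    ee r s A * blk r s e = blk r s e' * ee r s A := by
  unfold ee blk
  rw [Matrix.fromBlocks_multiply, Matrix.fromBlocks_multiply]
  simp [h]

theorem st_diag {κ : Type} [Fintype κ] [DecidableEq κ] (P : Matrix κ κ ℂ) (hP : IsUnit P) :
    ∀ᶠ q : Matrix κ κ ℂ × Matrix κ κ ℂ in 𝓝 (P, P),
    ∀ s ∈ Set.Icc (0 : ℝ) 1, IsUnit ((1 - s : ℂ) • q.1 + (s : ℂ) • q.2) := by
  refine IsCompact.eventually_forall_of_forall_eventually isCompact_Icc ?_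
  intro s hs
  have hc : Continuous fun z : (Matrix κ κ ℂ × Matrix κ κ ℂ) × ℝ =>
      Matrix.det ((1 - z.2 : ℂ) • z.1.1 + (z.2 : ℂ) • z.1.2) := by
    apply Continuous.matrix_det
    fun_prop
  have h0 : Matrix.det ((1 - s : ℂ) • P + (s : ℂ) • P) ≠ 0 := by
    rw [← add_smul, sub_add_cancel, one_smul]
    exact ((Matrix.isUnit_iff_isUnit_det P).1 hP).ne_zero
  have := hc.continuousAt.eventually_ne (x := (((P, P), s) : (Matrix κ κ ℂ × Matrix κ κ ℂ) × ℝ)) h0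
  filter_upwards [this] with z hz
  exact (Matrix.isUnit_iff_isUnit_det _).2 (isUnit_iff_ne_zero.2 hz)

section
variable {E : Type} [MetricSpace E] [CompactSpace E]

theorem st_unif (u : C(E, M8))
    (g : C(E, (Matrix ((Fin 4 ⊕ Fin 4) ⊕ (r ⊕ s)) ((Fin 4 ⊕ Fin 4) ⊕ (r ⊕ s)) ℂ)ˣ))
    (hg : ∀ e, (g e).1 * blk r s e0 = blk r s (u e) * (g e).1) :
    ∃ η > (0 : ℝ), ∀ (e' e : E) (x : M4) (t : ℝ), u e = e0 → x ∈ Matrix.unitaryGroup (Fin 4) ℂ →
      dist e' e ≤ η → |t| ≤ η → ∀ q ∈ Set.Icc (0 : ℝ) 1,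
      IsUnit ((1 - q : ℂ) • cc r s ((g e')⁻¹.1 * ee r s (Um x t)) +
        (q : ℂ) • cc r s ((g e)⁻¹.1)) := by
  let U : Set (E × (E × (M4 × ℝ))) := {p | ∀ q ∈ Set.Icc (0 : ℝ) 1,
    IsUnit ((1 - q : ℂ) • cc r s ((g p.1)⁻¹.1 * ee r s (Um p.2.2.1 p.2.2.2)) +
      (q : ℂ) • cc r s ((g p.2.1)⁻¹.1))}
  let _ : NormedAddCommGroup M4 := Matrix.normedAddCommGroup
  let KK : Set (E × (E × (M4 × ℝ))) := (fun q : E × M4 => (q.1, (q.1, (q.2, (0 : ℝ))))) ''
    ({e | u e = e0} ×ˢ {x : M4 | x ∈ Matrix.unitaryGroup (Fin 4) ℂ})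
  have hK : IsCompact KK := by
    refine IsCompact.image ?_ (by fun_prop)
    refine IsCompact.prod ?_ jn_unit_compact
    exact (isClosed_eq u.continuous continuous_const).isCompact
  have hKU : KK ⊆ interior U := by
    rintro _ ⟨⟨e, x⟩, ⟨he, hx⟩, rfl⟩
    have he' : u e = e0 := he
    have hx' : x ∈ Matrix.unitaryGroup (Fin 4) ℂ := hx
    rw [mem_interior_iff_mem_nhds]
    have hxu : IsUnit x := by
      refine ⟨⟨x, star x, Matrix.mem_unitaryGroup_iff.1 hx', Matrix.mem_unitaryGroup_iff'.1 hx'⟩, rfl⟩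
    have hcm : (g e).1 * blk r s e0 = blk r s e0 * (g e).1 := by rw [hg, he']
    have hP : IsUnit (cc r s ((g e)⁻¹.1)) := by
      refine ⟨⟨cc r s ((g e)⁻¹.1), cc r s (g e).1, ?_, ?_⟩, rfl⟩
      · rw [← cc_mul r s _ _ hcm, Units.inv_mul, cc_one]
      · rw [← cc_mul r s _ _ (comm_inv r s _ hcm), Units.mul_inv, cc_one]
    have hu0 : cc r s ((g e)⁻¹.1 * ee r s (Um x 0)) = cc r s ((g e)⁻¹.1) := by
      rw [(Um_zero x hxu).1, ee_one, mul_one]
    have hc : ContinuousAt (fun p : E × (E × (M4 × ℝ)) =>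
        (cc r s ((g p.1)⁻¹.1 * ee r s (Um p.2.2.1 p.2.2.2)), cc r s ((g p.2.1)⁻¹.1)))
        (e, (e, (x, (0 : ℝ)))) := by
      have hgi : Continuous fun e : E => (g e)⁻¹.1 :=
        Units.continuous_val.comp (continuous_inv.comp g.continuous)
      refine ContinuousAt.prodMk ?_ ?_
      · refine (cc_cont r s).continuousAt.comp ?_
        refine ContinuousAt.mul (hgi.comp continuous_fst).continuousAt ?_
        apply ee_cont
        have h1 := (Um_contAt x hxu 0).1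
        have h2 : ContinuousAt (fun p : E × (E × (M4 × ℝ)) => p.2.2) (e, (e, (x, (0 : ℝ)))) := by
          fun_prop
        exact ContinuousAt.comp (f := fun p : E × (E × (M4 × ℝ)) => p.2.2)
          (g := fun q : M4 × ℝ => Um q.1 q.2) (x := (e, (e, (x, (0 : ℝ))))) h1 h2
      · exact ((cc_cont r s).comp (hgi.comp (by fun_prop))).continuousAt
    have hd := st_diag _ hP
    have hc2 : Filter.Tendsto (fun p : E × (E × (M4 × ℝ)) =>
        (cc r s ((g p.1)⁻¹.1 * ee r s (Um p.2.2.1 p.2.2.2)), cc r s ((g p.2.1)⁻¹.1)))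
        (𝓝 (e, (e, (x, (0 : ℝ))))) (𝓝 (cc r s ((g e)⁻¹.1), cc r s ((g e)⁻¹.1))) := by
      have := hc.tendsto
      simp only [hu0] at this
      exact this
    exact hc2.eventually hd
  obtain ⟨δ, hδ, hsub⟩ := hK.exists_thickening_subset_open isOpen_interior hKU
  refine ⟨δ / 2, by positivity, fun e' e x t he hx hd ht q hq => ?_⟩
  have hmem : (e', (e, (x, t))) ∈ Metric.thickening δ KK := by
    rw [Metric.mem_thickening_iff]
    refine ⟨(e, (e, (x, (0 : ℝ)))), ⟨(e, x), ⟨he, hx⟩, rfl⟩, ?_⟩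
    rw [Prod.dist_eq, Prod.dist_eq, Prod.dist_eq]
    simp only [dist_self, max_lt_iff, hδ, true_and]
    refine ⟨by linarith, ?_⟩
    rw [Real.dist_eq, sub_zero]
    linarith
  exact interior_subset (hsub hmem) q hq

end

/-- the rotation as a unit -/
def stU (x : M4ˣ) (t : ℝ) :
    (Matrix ((Fin 4 ⊕ Fin 4) ⊕ (r ⊕ s)) ((Fin 4 ⊕ Fin 4) ⊕ (r ⊕ s)) ℂ)ˣ :=
  ⟨ee r s (Um x.1 t), ee r s (Ui x.1 t), by rw [← ee_mul, (Um_Ui x.1 x.isUnit t).1, ee_one],
    by rw [← ee_mul, (Um_Ui x.1 x.isUnit t).2, ee_one]⟩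

theorem stU_cont {X : Type} [TopologicalSpace X] (x : X → M4ˣ) (t : X → ℝ) (hx : Continuous x)
    (ht : Continuous t) : Continuous fun q => stU r s (x q) (t q) := by
  have h := jnU_cont x t hx ht
  have hee : Continuous (ee r s) := by
    unfold ee
    exact Continuous.matrix_fromBlocks continuous_id continuous_const continuous_const
      continuous_const
  rw [Units.continuous_iff] at h ⊢
  exact ⟨hee.comp h.1, hee.comp h.2⟩

end st

/-- the final contradiction, stable version -/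
theorem no_conj_st {B E : Type} [TopologicalSpace B] [CompactSpace B] [MetricSpace E] [CompactSpace E]
    (u : C(E, M8)) (hst : StSim u (ContinuousMap.const E e0))
    (sg κ : C(B, E)) (hsg : ∀ b, u (sg b) = e0) (hκ : ∀ b, u (κ b) = e0)
    (H : ∀ η > (0 : ℝ), ∃ (n : ℕ) (bb : C(Wt (n + 1), B)) (α γ : C((Wt (n + 1) × Circle) × I, E))
      (τ : C((Wt (n + 1) × Circle) × I, I)),
      (∀ w s, u (α (w, s)) = em (Fn (n + 1) w).1 (τ (w, s))) ∧ (∀ w, τ (w, 1) = 1) ∧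
      (∀ w, (τ (w, 0) : ℝ) ≤ η) ∧ (∀ w, dist (α (w, 0)) (sg (bb w.1)) ≤ η) ∧
      (∀ w, γ (w, 0) = α (w, 1)) ∧ (∀ w, γ (w, 1) = κ (bb w.1)) ∧ (∀ q, u (γ q) = e0)) : False := by
  obtain ⟨r, s, _, _, _, _, v, hv⟩ := hst
  obtain ⟨g, hgv⟩ : ∃ g : C(E, (Matrix ((Fin 4 ⊕ Fin 4) ⊕ (r ⊕ s)) ((Fin 4 ⊕ Fin 4) ⊕ (r ⊕ s)) ℂ)ˣ),
      ∀ e, g e = (v e)⁻¹ := ⟨⟨fun e => (v e)⁻¹, continuous_inv.comp v.continuous⟩, fun e => rfl⟩
  have hg : ∀ e, (g e).1 * blk r s e0 = blk r s (u e) * (g e).1 := by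
    intro e
    rw [hgv]
    have h1 : (v e)⁻¹.1 * (v e).1 = 1 := (v e).inv_mul
    have h2 : (v e).1 * (v e)⁻¹.1 = 1 := (v e).mul_inv
    have h3 : (v e).1 * blk r s (u e) = blk r s e0 * (v e).1 := hv e
    calc (v e)⁻¹.1 * blk r s e0 = (v e)⁻¹.1 * blk r s e0 * ((v e).1 * (v e)⁻¹.1) := by
          rw [h2, mul_one]
      _ = (v e)⁻¹.1 * (blk r s e0 * (v e).1) * (v e)⁻¹.1 := by simp only [mul_assoc]
      _ = (v e)⁻¹.1 * ((v e).1 * blk r s (u e)) * (v e)⁻¹.1 := by rw [h3]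
      _ = ((v e)⁻¹.1 * (v e).1) * blk r s (u e) * (v e)⁻¹.1 := by simp only [mul_assoc]
      _ = _ := by rw [h1, one_mul]
  have hgi : ∀ e, (g e)⁻¹.1 * blk r s (u e) = blk r s e0 * (g e)⁻¹.1 := by
    intro e
    have h4 : (g e)⁻¹ = v e := by rw [hgv, inv_inv]
    rw [h4]
    exact hv e
  obtain ⟨η, hη, hunif⟩ := st_unif r s u g hg
  obtain ⟨n, bb, α, γ, τ, hα, hτ1, hτ0, hdist, hγ0, hγ1, hγu⟩ := H η hη
  -- the blocks over `B`
  have hcs : ∀ b, ((g.comp sg) b).1 * blk r s e0 = blk r s e0 * ((g.comp sg) b).1 := by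
    intro b
    show (g (sg b)).1 * blk r s e0 = blk r s e0 * (g (sg b)).1
    rw [hg, hsg]
  have hck : ∀ b, ((g.comp κ) b).1 * blk r s e0 = blk r s e0 * ((g.comp κ) b).1 := by
    intro b
    show (g (κ b)).1 * blk r s e0 = blk r s e0 * (g (κ b)).1
    rw [hg, hκ]
  have hcg : ∀ q, ((g.comp γ) q).1 * blk r s e0 = blk r s e0 * ((g.comp γ) q).1 := by
    intro q
    show (g (γ q)).1 * blk r s e0 = blk r s e0 * (g (γ q)).1
    rw [hg, hγu]
  let A0 : C(B, (Matrix (Fin 4 ⊕ r) (Fin 4 ⊕ r) ℂ)ˣ) := bs r s (g.comp sg) hcs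
  let A1 : C(B, (Matrix (Fin 4 ⊕ r) (Fin 4 ⊕ r) ℂ)ˣ) := bs r s (g.comp κ) hck
  let GG : C((Wt (n + 1) × Circle) × I, (Matrix (Fin 4 ⊕ r) (Fin 4 ⊕ r) ℂ)ˣ) := bs r s (g.comp γ) hcg
  let N : C((Wt (n + 1) × Circle) × I,
      (Matrix ((Fin 4 ⊕ Fin 4) ⊕ (r ⊕ s)) ((Fin 4 ⊕ Fin 4) ⊕ (r ⊕ s)) ℂ)ˣ) :=
    ⟨fun q => (g (α q))⁻¹ * stU r s (Fn (n + 1) q.1) (τ q : ℝ), by
      have h1 : Continuous fun q : (Wt (n + 1) × Circle) × I => (g (α q))⁻¹ :=
        continuous_inv.comp (g.continuous.comp α.continuous)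
      have h2 : Continuous fun q : (Wt (n + 1) × Circle) × I =>
          stU r s (Fn (n + 1) q.1) (τ q : ℝ) :=
        stU_cont r s _ _ ((Fn (n + 1)).continuous.comp continuous_fst)
          (continuous_subtype_val.comp τ.continuous)
      exact h1.mul h2⟩
  have hNval : ∀ q, (N q).1 = (g (α q))⁻¹.1 * ee r s (Um (Fn (n + 1) q.1).1 (τ q : ℝ)) :=
    fun q => rfl
  have hN : ∀ q, (N q).1 * blk r s e0 = blk r s e0 * (N q).1 := by
    rintro ⟨w, q⟩
    have hx : IsUnit (Fn (n + 1) w).1 := (Fn (n + 1) w).isUnit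
    have h1 : em (Fn (n + 1) w).1 (τ (w, q)) * Um (Fn (n + 1) w).1 (τ (w, q)) =
        Um (Fn (n + 1) w).1 (τ (w, q)) * e0 := by
      rw [em, mul_assoc, (Um_Ui _ hx _).2, mul_one]
    have h2 : ee r s (Um (Fn (n + 1) w).1 (τ (w, q))) * blk r s e0 =
        blk r s (u (α (w, q))) * ee r s (Um (Fn (n + 1) w).1 (τ (w, q))) := by
      apply ee_blk r s _ 1
      rw [hα, h1]
    rw [hNval, mul_assoc]
    show (g (α (w, q)))⁻¹.1 * (ee r s (Um (Fn (n + 1) w).1 (τ (w, q))) * blk r s e0) = _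
    rw [h2, ← mul_assoc, hgi, mul_assoc]
  let β : C((Wt (n + 1) × Circle) × I, (Matrix (Fin 4 ⊕ r) (Fin 4 ⊕ r) ℂ)ˣ) := bs r s N hN
  -- the classes
  let FF : C(Wt (n + 1) × Circle, (Matrix (Fin 4 ⊕ r) (Fin 4 ⊕ r) ℂ)ˣ) :=
    ds (Fn (n + 1)) (1 : C(Wt (n + 1) × Circle, (Matrix r r ℂ)ˣ))
  have hFF : K1.mk FF = K1.mk (Fn (n + 1)) := by
    rw [K1.mk_ds, K1.mk_one, add_zero]
  have e1 : K1.mk (β.comp (jnI _ 0)) = K1.mk (β.comp (jnI _ 1)) := K1.mk_hom (jn_cyl β)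
  have e2 : K1.mk (GG.comp (jnI _ 0)) = K1.mk (GG.comp (jnI _ 1)) := K1.mk_hom (jn_cyl GG)
  have e3 : GG.comp (jnI _ 1) = A1.comp (bb.comp ContinuousMap.fst) := by
    ext1 w
    apply Units.ext
    show cc r s (g (γ (w, 1))).1 = cc r s (g (κ (bb w.1))).1
    rw [hγ1]
  have e4 : β.comp (jnI _ 1) = (GG.comp (jnI _ 0))⁻¹ * FF := by
    ext1 w
    apply Units.ext
    show cc r s ((g (α (w, 1)))⁻¹.1 * ee r s (Um (Fn (n + 1) w).1 (τ (w, 1) : ℝ))) =
      cc r s ((g (γ (w, 0)))⁻¹.1) * Matrix.fromBlocks (Fn (n + 1) w).1 0 0 1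
    have hx : IsUnit (Fn (n + 1) w).1 := (Fn (n + 1) w).isUnit
    have h2 : Um (Fn (n + 1) w).1 (τ (w, 1) : ℝ) =
        Matrix.fromBlocks (Fn (n + 1) w).1 0 0 (Fn (n + 1) w).1⁻¹ := by
      rw [hτ1]
      exact (Um_one _ hx).1
    have h3 : ee r s (Um (Fn (n + 1) w).1 (τ (w, 1) : ℝ)) * blk r s e0 =
        blk r s e0 * ee r s (Um (Fn (n + 1) w).1 (τ (w, 1) : ℝ)) := by
      apply ee_blk r s _ 1
      rw [h2, e0, Matrix.fromBlocks_multiply, Matrix.fromBlocks_multiply]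
      simp
    rw [cc_mul r s _ _ h3, hγ0]
    congr 1
    rw [h2]
    ext i j
    unfold cc
    rw [Matrix.mul_apply]
    simp only [Matrix.mul_apply, Matrix.transpose_apply, Pm, Matrix.of_apply]
    rw [Finset.sum_eq_single (fI r s j)]
    · rw [Finset.sum_eq_single (fI r s i)]
      · rcases i with (i | i) <;> rcases j with (j | j) <;> simp [fI, ee, Matrix.fromBlocks, Matrix.one_apply]
      · intro b _ hb
        rw [if_neg hb, zero_mul]
      · intro h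
        exact absurd (Finset.mem_univ _) h
    · intro b _ hb
      rw [if_neg hb, mul_zero]
    · intro h
      exact absurd (Finset.mem_univ _) h
  have e5 : K1.mk (β.comp (jnI _ 0)) = K1.mk ((A0.comp (bb.comp ContinuousMap.fst))⁻¹ :
      C(Wt (n + 1) × Circle, (Matrix (Fin 4 ⊕ r) (Fin 4 ⊕ r) ℂ)ˣ)) := by
    apply K1.mk_hom
    apply st_close
    intro w q hq0 hq1
    have := hunif (α (w, 0)) (sg (bb w.1)) (Fn (n + 1) w).1 (τ (w, 0)) (hsg _) (Fn_unitary _ _)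
      (hdist w) (by rw [abs_of_nonneg (τ (w, 0)).2.1]; exact hτ0 w) q ⟨hq0, hq1⟩
    exact this
  have e6 : K1.mk (Fn (n + 1)) =
      K1.map (bb.comp ContinuousMap.fst) (K1.mk A1 - K1.mk A0) := by
    rw [e5, e4, K1.mk_mul, K1.mk_inv, K1.mk_inv, e2, e3, hFF] at e1
    rw [map_sub, K1.map_mk, K1.map_mk]
    have : K1.mk (Fn (n + 1)) = K1.mk (A1.comp (bb.comp ContinuousMap.fst)) +
      (-K1.mk (A1.comp (bb.comp ContinuousMap.fst)) + K1.mk (Fn (n + 1))) := by abel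
    rw [this, ← e1]
    abel
  have e7 : K1.map (atOne _) (K1.mk (Fn (n + 1))) = K1.mk (Fn (n + 1)) := by
    rw [e6, K1.map_comp]
    rfl
  have e8 : (Fn (n + 1)).comp (atOne _) = 1 := by
    ext1 w
    exact Fn_one (n + 1) w.1
  rw [K1.map_mk, e8, K1.mk_one] at e7
  exact Fn_ne (n + 1) e7.symm

/-- the exotic idempotent is stably exotic -/
theorem no_st : ∃ u : C(FD0.E, M8), (∀ e, u e * u e = u e) ∧ (∀ b, u (FD0.Q (b, cstar)) = e0) ∧
    ¬ StSim u (ContinuousMap.const _ e0) := by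
  obtain ⟨ds, hds, hU, hS⟩ := exists_ds FD0 x00 x00_act (fun c h => (K_facts c h).1) s00 s00_act
    (fun c h => (K_facts c h).2)
  obtain ⟨u, hu1, hu2, hu3⟩ := exists_ue FD0 x00 ds hds hU
  have hdc : ∀ b, FD0.dl b cstar = 0 := by
    intro b
    obtain ⟨v, rfl⟩ := FD0.hπ b
    rw [FD0.dl_zero]
    show act v cstar ∈ Ks
    rw [act_cstar]
    exact cstar_mem
  have hsg : ∀ b, u (qs FD0 cstar b) = e0 := by
    intro b
    rw [qs_apply, hu1 b cstar (by rw [hdc]; positivity), hdc, zero_div, min_eq_right zero_le_one]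
    exact em_zero _ (K_facts cstar cstar_mem).1
  have hκ : ∀ b, u (qs FD0 cend b) = e0 := by
    intro b
    rw [qs_apply]
    exact hu2 b cend (hS b cend s00_cend)
  refine ⟨u, hu3, hsg, ?_⟩
  intro hst
  refine no_conj_st u hst (qs FD0 cstar) (qs FD0 cend) hsg hκ ?_
  intro η hη
  obtain ⟨n, bb, α, γ, a1, a2, a3, a4, a5, a6⟩ := test_family (min η (ds * η)) (lt_min hη (by positivity))
  refine ⟨n, bb, qa FD0 bb α, qa FD0 bb γ, qt FD0 ds hds bb α, ?_, ?_, ?_, ?_, ?_, ?_, ?_⟩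
  · intro w s
    rw [qa_apply, qt_apply]
    by_cases h : FD0.dl (bb w.1) (α (w, s)) ≤ 2 * ds
    · rw [hu1 _ _ h, a2 w s]
    · push Not at h
      have h2 : ds ≤ FD0.dl (bb w.1) (α (w, s)) := by linarith
      rw [hu2 _ _ h2, min_eq_left ((one_le_div hds).2 h2)]
      exact (em_one _ (Units.isUnit _)).symm
  · intro w
    apply Subtype.ext
    rw [qt_apply]
    exact min_eq_left ((one_le_div hds).2 (hS _ _ (a3 w)))
  · intro w
    rw [qt_apply]
    refine (min_le_right _ _).trans ?_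
    rw [div_le_iff₀ hds]
    have := (a1 w).trans (min_le_right _ _)
    linarith
  · intro w
    rw [qa_apply, qs_apply, FD0.dist_Q]
    unfold FD.dT
    have h1 := (a1 w).trans (min_le_left _ _)
    refine (add_le_add (le_of_eq (dist_self _)) (min_le_right _ _)).trans ?_
    show 0 + (FD0.dl (bb w.1) (α (w, 0)) + FD0.dl (bb w.1) cstar) ≤ η
    rw [hdc]
    linarith
  · intro w
    rw [qa_apply, qa_apply, a4]
  · intro w
    rw [qa_apply, a5, qs_apply]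
  · rintro ⟨w, s⟩
    rw [qa_apply]
    exact hu2 _ _ (hS _ _ (a6 (w, s)))

end BB
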