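import Pool.Agent.Helper194.HQ.T
import Pool.Agent.Helper257.BB.Test
import Pool.Agent.Helper194.HQ.N

set_option autoImplicit false
set_option linter.unusedVariables false
set_option linter.unusedSectionVars false

open scoped unitInterval Topology
open Set Filter Topology Metric

noncomputable section

namespace HQ
open BB

theorem exists_Dat_K2 {V : Type} [NormedAddCommGroup V] (w : C(Sp, V))
    (hw : Function.Injective w) {U : Set Qc} (hU : IsOpen U) (K0 : U → Set Sp)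
    (k2 : ∀ x, ∃ φ : C(Fq, Sp), Function.Injective φ ∧ range φ = K0 x)
    (k3 : ∀ x0 (φ0 : C(Fq, Sp)), Function.Injective φ0 → range φ0 = K0 x0 → ∀ O ∈ 𝓝 φ0,
        ∀ᶠ x in 𝓝 x0, ∃ φ ∈ O, Function.Injective φ ∧ range φ = K0 x)
    (K : Qc → Set V) (hK : ∀ (x : Qc) (hx : x ∈ U), K x = w '' K0 ⟨x, hx⟩)
    (x0 : Qc) (hx0 : x0 ∈ U) (φ0 : C(Fq, V)) (hφ0 : Function.Injective φ0)
    (hr : range φ0 = K x0) (ε : ℝ) (hε : 0 < ε) :
    ∀ᶠ x in 𝓝 x0, ∃ φ : C(Fq, V), Function.Injective φ ∧ range φ = K x ∧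
      ∀ w, dist (φ w) (φ0 w) < ε := by
  obtain ⟨φ1, hφ1, hr1⟩ := k2 ⟨x0, hx0⟩
  rw [hK x0 hx0] at hr
  have hinj : Function.Injective (w.comp φ1) := hw.comp hφ1
  have hemb : Topology.IsEmbedding (w.comp φ1) :=
    ((w.comp φ1).continuous.isClosedEmbedding hinj).isEmbedding
  have hex : ∀ y, ∃ z, w.comp φ1 z = φ0 y := by
    intro y
    have h1 : φ0 y ∈ w '' K0 ⟨x0, hx0⟩ := by rw [← hr]; exact mem_range_self y
    obtain ⟨a, ha, hay⟩ := h1
    rw [← hr1] at ha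
    obtain ⟨z, rfl⟩ := ha
    exact ⟨z, hay⟩
  choose h hh using hex
  have hc : Continuous h := by
    rw [hemb.continuous_iff]
    have h2 : (⇑(w.comp φ1)) ∘ h = φ0 := funext hh
    rw [h2]
    exact φ0.continuous
  obtain ⟨ψ0, hψ0⟩ : ∃ ψ0 : C(Fq, Sp), ∀ y, ψ0 y = φ1 (h y) := ⟨φ1.comp ⟨h, hc⟩, fun y => rfl⟩
  have hwψ : ∀ y, w (ψ0 y) = φ0 y := fun y => by rw [hψ0]; exact hh y
  have hψi : Function.Injective ψ0 := by
    intro a b hab
    apply hφ0
    rw [← hwψ a, ← hwψ b, hab]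
  have hψr : range ψ0 = K0 ⟨x0, hx0⟩ := by
    apply Subset.antisymm
    · rintro _ ⟨y, rfl⟩
      rw [hψ0, ← hr1]
      exact mem_range_self _
    · intro a ha
      have h3 : w a ∈ range φ0 := by
        rw [hr]
        exact mem_image_of_mem w ha
      obtain ⟨y, hy⟩ := h3
      refine ⟨y, hw ?_⟩
      rw [hwψ, hy]
  have hpost : w.comp ψ0 = φ0 := ContinuousMap.ext hwψ
  have hO : {ψ : C(Fq, Sp) | dist (w.comp ψ) φ0 < ε} ∈ 𝓝 ψ0 := by
    have h4 : Continuous (fun ψ : C(Fq, Sp) => w.comp ψ) := ContinuousMap.continuous_postcomp w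
    have h5 : Metric.ball φ0 ε ∈ 𝓝 (w.comp ψ0) := by
      rw [hpost]
      exact Metric.ball_mem_nhds φ0 hε
    exact h4.continuousAt.preimage_mem_nhds h5
  have h6 := k3 ⟨x0, hx0⟩ ψ0 hψi hψr _ hO
  have h7 : Filter.map (Subtype.val : U → Qc) (𝓝 ⟨x0, hx0⟩) = 𝓝 x0 :=
    hU.isOpenEmbedding_subtypeVal.map_nhds_eq ⟨x0, hx0⟩
  rw [← h7, Filter.eventually_map]
  filter_upwards [h6] with x hx
  obtain ⟨φ, hφO, hφi, hφr⟩ := hx
  refine ⟨w.comp φ, hw.comp hφi, ?_, fun y => ?_⟩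
  · rw [hK x.1 x.2]
    show range (⇑w ∘ ⇑φ) = _
    rw [range_comp, hφr]
  · exact lt_of_le_of_lt (ContinuousMap.dist_apply_le_dist y) hφO

/-- the data of an extension of the family -/
theorem exists_Dat {P B M E : Type} [TopologicalSpace P] [CompactSpace P] [MetricSpace B]
    [CompactSpace B] [MetricSpace M] [CompactSpace M] [MetricSpace E] [CompactSpace E]
    (F : Fam P B M E) (hM : Nonempty (M ≃ₜ Qc)) (hpi : ∀ b, F.p (F.inf b) = b) (u : C(E, M8))
    (hu : ∀ e, u e * u e = u e) (hus : ∀ b, u (F.inf b) = e0)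
    (H : ∀ A : Set Qc, IsClosed A → ∀ f : C(A, Quot RelF), ∃ U : Set Qc, IsOpen U ∧
      ∃ hAU : A ⊆ U, ∃ g : C(U, Quot RelF), ∀ a : A, g (Set.inclusion hAU a) = f a) :
    ∃ (V : Type) (_ : NormedAddCommGroup V) (_ : NormedSpace ℝ V) (D : Dat E V), D.u = u := by
  obtain ⟨s, hsdef⟩ : ∃ s : C(E, E), s = F.inf.comp F.p := ⟨_, rfl⟩
  have hsv : ∀ e, s e = F.inf (F.p e) := fun e => by rw [hsdef]; rfl
  obtain ⟨J0, hJ0⟩ := exists_J s
  have hJg : GoodJ F J0 := by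
    intro e a q a' q'
    rw [← hsv e]
    exact hJ0 e a q a' q'
  obtain ⟨i, hi⟩ := exists_iE (E := E)
  have hiE : Topology.IsEmbedding i := (i.continuous.isClosedEmbedding hi).isEmbedding
  obtain ⟨f, hf⟩ := cont_quot (Dset F J0)
    (fun e => by
      obtain ⟨φ, h1, h2, -⟩ := Dset_exists F hM J0 hJg e
      exact ⟨φ, h1, h2⟩)
    (fun e0 φ0 h1 h2 O hO => Dset_near F hM J0 hJg e0 φ0 h1 h2 O hO)
  obtain ⟨f', hf'⟩ : ∃ f' : C(range i, Quot RelF), ∀ e, f' ⟨i e, mem_range_self e⟩ = f e := by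
    refine ⟨f.comp (⟨hiE.toHomeomorph.symm, hiE.toHomeomorph.symm.continuous⟩ :
      C(range i, E)), fun e => ?_⟩
    show f (hiE.toHomeomorph.symm ⟨i e, mem_range_self e⟩) = f e
    have h1 : (⟨i e, mem_range_self e⟩ : range i) = hiE.toHomeomorph e := rfl
    rw [h1, Homeomorph.symm_apply_apply]
  have hAc : IsClosed (range i) := (isCompact_range i.continuous).isClosed
  obtain ⟨U, hU, hAU, g, hg⟩ := H (range i) hAc f'
  have hge : ∀ e, g ⟨i e, hAU (mem_range_self e)⟩ = f e := by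
    intro e
    rw [← hf' e, ← hg ⟨i e, mem_range_self e⟩]
  obtain ⟨K0, k1, k2, k3⟩ := quot_family g
  have hK0 : ∀ e, K0 ⟨i e, hAU (mem_range_self e)⟩ = Dset F J0 e := by
    intro e
    obtain ⟨φ, h1, h2, -⟩ := Dset_exists F hM J0 hJg e
    have hemb : Topology.IsEmbedding φ := (φ.continuous.isClosedEmbedding h1).isEmbedding
    have h3 : f e = Quot.mk RelF ⟨φ, hemb⟩ := hf e ⟨φ, hemb⟩ h2
    have h4 := (k1 ⟨i e, hAU (mem_range_self e)⟩ ⟨φ, hemb⟩).1 ((hge e).trans h3)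
    rw [← h4]
    exact h2
  obtain ⟨V, iV1, iV2, w, hw⟩ := exists_V
  obtain ⟨K, hKdef⟩ : ∃ K : Qc → Set V, K = fun x => {y | ∃ h : x ∈ U, y ∈ w '' K0 ⟨x, h⟩} :=
    ⟨_, rfl⟩
  have hK : ∀ (x : Qc) (hx : x ∈ U), K x = w '' K0 ⟨x, hx⟩ := by
    intro x hx
    rw [hKdef]
    ext y
    exact ⟨fun ⟨_, h⟩ => h, fun h => ⟨hx, h⟩⟩
  have hsp : ∀ x e, s x = s e ↔ F.p x = F.p e := by
    intro x e
    rw [hsv, hsv]
    constructor
    · intro h
      rw [← hpi (F.p x), h, hpi]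
    · intro h
      rw [h]
  refine ⟨V, iV1, iV2,
    { i := i
      hi := hi
      s := s
      hs := fun e => by rw [hsv (s e), hsv e, hpi]
      u := u
      hu := hu
      hus := fun e => by rw [hsv e]; exact hus _
      J := w.comp J0
      hJ := fun e a q a' q' => by
        rw [← hJ0 e a q a' q']
        exact hw.eq_iff
      U := U
      hU := hU
      hiU := fun e => hAU (mem_range_self e)
      K := K
      K1 := fun x hx => by
        obtain ⟨φ, h1, h2⟩ := k2 ⟨x, hx⟩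
        refine ⟨w.comp φ, hw.comp h1, ?_⟩
        rw [hK x hx]
        show range (⇑w ∘ ⇑φ) = _
        rw [range_comp, h2]
      K2 := fun x0 hx0 φ0 h1 h2 ε hε =>
        exists_Dat_K2 w hw hU K0 k2 k3 K hK x0 hx0 φ0 h1 h2 ε hε
      K3 := fun e => by
        rw [hK (i e) (hAU (mem_range_self e)), hK0 e]
        ext y
        constructor
        · rintro ⟨_, ⟨x, t, q, h1, rfl⟩, rfl⟩
          exact ⟨x, t, q, (hsp x e).2 h1, rfl⟩
        · rintro ⟨x, t, q, h1, rfl⟩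
          exact ⟨_, ⟨x, t, q, (hsp x e).1 h1, rfl⟩, rfl⟩
      K4 := fun e => by
        obtain ⟨φ, h1, h2, μ, hμ⟩ := Dset_exists F hM J0 hJg e
        refine ⟨w.comp φ, hw.comp h1, ?_, μ, fun x t q w' hx hφ => ?_⟩
        · rw [hK (i e) (hAU (mem_range_self e)), hK0 e]
          show range (⇑w ∘ ⇑φ) = _
          rw [range_comp, h2]
        · exact hμ x t q w' ((hsp x e).1 hx) (hw hφ) }, rfl⟩

theorem exists_fam {P B C : Type} [TopologicalSpace P] [CompactSpace P] [T2Space P] [MetricSpace B]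
    [CompactSpace B] [MetricSpace C] [CompactSpace C] (D : FD P B C) (hop : IsOpenMap D.π)
    (cst : C) (hcst : ∀ u, D.a u cst = cst) :
    ∃ F : Fam P B D.M D.E, F.p = D.p ∧ ∀ b, F.inf b = D.Q (b, cst) := by
  let Λ : C(P × C, P × D.M) := ⟨fun q => (q.1, D.QM q.2), by fun_prop⟩
  have hΛ : Function.Surjective Λ := by
    rintro ⟨u, m⟩
    obtain ⟨c, rfl⟩ := D.QM_surj m
    exact ⟨(u, c), rfl⟩
  let G : C(P × C, D.E) := ⟨fun q => D.Q (D.π q.1, (D.a q.1).symm q.2), by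
    exact (map_continuous D.Q).comp (((map_continuous D.π).comp continuous_fst).prodMk D.ha')⟩
  have hfib : ∀ z z', Λ z = Λ z' → G z = G z' := by
    rintro ⟨u, c⟩ ⟨u', c'⟩ h
    have h1 : u = u' := congrArg Prod.fst h
    have h2 : D.QM c = D.QM c' := congrArg Prod.snd h
    subst h1
    show D.Q (D.π u, (D.a u).symm c) = D.Q (D.π u, (D.a u).symm c')
    rw [D.Q_eq_iff]
    refine ⟨rfl, ?_⟩
    simp only
    rcases (D.QM_eq_iff c c').1 h2 with h | ⟨h, h'⟩
    · left; rw [h]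
    · right
      rw [D.dl_zero, D.dl_zero, IsometryEquiv.apply_symm_apply, IsometryEquiv.apply_symm_apply]
      exact ⟨h, h'⟩
  obtain ⟨φ, hφ⟩ := descend Λ hΛ G hfib
  have hφ' : ∀ u c, φ (u, D.QM c) = D.Q (D.π u, (D.a u).symm c) := fun u c => hφ (u, c)
  have key : ∀ (u : P) (c c' : C), dist (D.QM (D.a u c)) (D.QM (D.a u c')) =
      dist (D.Q (D.π u, c)) (D.Q (D.π u, c')) := by
    intro u c c'
    rw [D.dist_QM, D.dist_Q]
    show min (dist (D.a u c) (D.a u c')) (infDist (D.a u c) D.K + infDist (D.a u c') D.K) =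
      dist (D.π u) (D.π u) + min (dist (D.dlC (D.π u)) (D.dlC (D.π u)) + dist c c')
        (D.dl (D.π u) c + D.dl (D.π u) c')
    rw [dist_self, dist_self, zero_add, zero_add, (D.a u).dist_eq, D.dl_apply, D.dl_apply]
  refine ⟨{ π := D.π, hπ := D.hπ, hop := hop, p := D.p, Φ := φ, iso := ?_, hp := ?_, sur := ?_,
            mi := D.QM cst, inf := ⟨fun b => D.Q (b, cst), by fun_prop⟩, hinf := ?_ }, rfl,
            fun b => rfl⟩
  · intro u m m'
    obtain ⟨c, rfl⟩ := D.QM_surj m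
    obtain ⟨c', rfl⟩ := D.QM_surj m'
    rw [hφ', hφ', ← key, IsometryEquiv.apply_symm_apply, IsometryEquiv.apply_symm_apply]
  · intro u m
    obtain ⟨c, rfl⟩ := D.QM_surj m
    rw [hφ', D.p_Q]
  · intro u e he
    obtain ⟨⟨b, c⟩, rfl⟩ := D.Q_surj e
    rw [D.p_Q] at he
    have h1 : b = D.π u := he
    subst h1
    refine ⟨D.QM (D.a u c), ?_⟩
    rw [hφ', IsometryEquiv.symm_apply_apply]
  · intro u
    rw [hφ']
    show D.Q (D.π u, (D.a u).symm cst) = D.Q (D.π u, cst)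
    have h1 : (D.a u).symm cst = cst := by
      rw [IsometryEquiv.symm_apply_eq]
      exact (hcst u).symm
    rw [h1]

end HQ

namespace BB
theorem piP_open : IsOpenMap piP := by
  have h : ∀ i : ℕ, IsOpenMap (fun u : ZZ => piZ u) := fun i => piZ_cov.isOpenMap
  have h2 := IsOpenMap.piMap (f := fun (i : ℕ) (u : ZZ) => piZ u) h
    (Filter.Eventually.of_forall fun i => piZ_surj)
  exact h2

end BB

namespace HQ
open BB

/-- the extension property for the model manifold fails -/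
theorem no_ext : ¬ ∀ A : Set Qc, IsClosed A → ∀ f : C(A, Quot RelF), ∃ U : Set Qc, IsOpen U ∧
      ∃ hAU : A ⊆ U, ∃ g : C(U, Quot RelF), ∀ a : A, g (Set.inclusion hAU a) = f a := by
  intro H
  obtain ⟨u, hu, hus, hst⟩ := no_st
  obtain ⟨F, hFp, hFi⟩ := exists_fam FD0 piP_open cstar act_cstar
  have hcomp : CompactSpace FD0.M := by
    obtain ⟨h⟩ := M_cube
    exact h.symm.compactSpace
  have hpi : ∀ b, F.p (F.inf b) = b := by
    intro b
    rw [hFp, hFi, FD0.p_Q]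
  obtain ⟨V, _, _, D, hD⟩ := exists_Dat F M_cube hpi u hu (fun b => by rw [hFi]; exact hus b) H
  have hne : Nonempty FD0.E := by
    obtain ⟨b⟩ : Nonempty Bs := Bs_conn.toNonempty
    exact ⟨FD0.Q (b, cstar)⟩
  have h1 := main_hom D
  subst hD
  exact hst (bott_inj0 D.u (ContinuousMap.const _ e0) D.hu (fun _ => e0_idem') h1)

theorem frozen_neg :
    ¬ (∀ (F : Type) [TopologicalSpace F] [T2Space F] [CompactSpace F],
    (∀ x : F, ∃ U : Set F, IsOpen U ∧ x ∈ U ∧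
        ∃ V : Set (ℕ → unitInterval), IsOpen V ∧ Nonempty (U ≃ₜ V)) →
    ∀ (X : Type) [MetricSpace X] [CompactSpace X] (A : Set X), IsClosed A →
      ∀ f : C(A, Quot (fun φ ψ : {φ : C(F, ℕ → Set.Ioo (0:ℝ) 1) // Topology.IsEmbedding ⇑φ} =>
                ∃ h : F ≃ₜ F, ∀ x : F, ψ.1 x = φ.1 (h x))),
        ∃ U : Set X, IsOpen U ∧ ∃ hAU : A ⊆ U,
          ∃ g : C(U, Quot (fun φ ψ : {φ : C(F, ℕ → Set.Ioo (0:ℝ) 1) // Topology.IsEmbedding ⇑φ} =>
                ∃ h : F ≃ₜ F, ∀ x : F, ψ.1 x = φ.1 (h x))),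
            ∀ a : A, g (Set.inclusion hAU a) = f a) := by
  intro H
  apply no_ext
  intro A hA f
  letI : MetricSpace Qc := TopologicalSpace.metrizableSpaceMetric Qc
  exact H Fq Fman Qc A hA f

end HQ
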