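import Mathlib

set_option autoImplicit false
set_option linter.unusedVariables false
set_option linter.unusedSectionVars false

open scoped unitInterval Topology
open Set Filter Topology Metric

noncomputable section

namespace HQ

/-- the Hilbert cube -/
abbrev Qc : Type := ℕ → unitInterval

/-- isotopy starting at the identity -/
def IsIso {X : Type} [TopologicalSpace X] (k : I × X → X) : Prop :=
  Continuous k ∧ (∀ s, Function.Bijective fun x => k (s, x)) ∧ ∀ x, k (0, x) = x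

theorem iso_comp {X : Type} [TopologicalSpace X] {k l : I × X → X} (hk : IsIso k) (hl : IsIso l) :
    IsIso (fun p : I × X => l (p.1, k p)) := by
  refine ⟨?_, fun s => ?_, fun x => ?_⟩
  · exact hl.1.comp (continuous_fst.prodMk hk.1)
  · exact (hl.2.1 s).comp (hk.2.1 s)
  · show l (0, k (0, x)) = x
    rw [hk.2.2, hl.2.2]

theorem iso_inv {X : Type} [TopologicalSpace X] [CompactSpace X] [T2Space X] {k : I × X → X}
    (hk : IsIso k) : ∃ l : I × X → X, IsIso l ∧ (∀ s x, l (s, k (s, x)) = x) ∧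
      ∀ s x, k (s, l (s, x)) = x := by
  obtain ⟨hc, hb, h0⟩ := hk
  let e : I × X ≃ I × X := Equiv.ofBijective (fun p => (p.1, k p)) (by
    constructor
    · rintro ⟨s, x⟩ ⟨t, y⟩ h
      simp only [Prod.mk.injEq] at h
      obtain ⟨h1, h2⟩ := h
      subst h1
      rw [(hb s).1 h2]
    · rintro ⟨s, y⟩
      obtain ⟨x, hx⟩ := (hb s).2 y
      exact ⟨(s, x), by simp only [Prod.mk.injEq, true_and]; exact hx⟩)
  have hec : Continuous e := continuous_fst.prodMk hc
  let H : I × X ≃ₜ I × X := Continuous.homeoOfEquivCompactToT2 (f := e) hec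
  have hesymm : Continuous e.symm := H.continuous_symm
  have he : ∀ s x, e (s, x) = (s, k (s, x)) := fun s x => rfl
  have h1 : ∀ s x, (e.symm (s, x)).1 = s := by
    intro s x
    have h2 := e.apply_symm_apply (s, x)
    have h3 : e (e.symm (s, x)) = ((e.symm (s, x)).1, k (e.symm (s, x))) := rfl
    rw [h3] at h2
    exact congrArg Prod.fst h2
  have hl1 : ∀ s x, (e.symm (s, k (s, x))).2 = x := by
    intro s x
    rw [← he, e.symm_apply_apply]
  have hl2 : ∀ s x, k (s, (e.symm (s, x)).2) = x := by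
    intro s x
    have h2 := e.apply_symm_apply (s, x)
    have h3 : e (e.symm (s, x)) = ((e.symm (s, x)).1, k (e.symm (s, x))) := rfl
    rw [h3] at h2
    have h4 : k (e.symm (s, x)) = x := congrArg Prod.snd h2
    have h5 : e.symm (s, x) = (s, (e.symm (s, x)).2) := Prod.ext (h1 s x) rfl
    rw [← h5]
    exact h4
  refine ⟨fun p => (e.symm p).2, ⟨continuous_snd.comp hesymm, ?_, ?_⟩, hl1, hl2⟩
  · intro s
    constructor
    · intro x y h
      have h2 := congrArg (fun z => k (s, z)) h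
      simp only [hl2] at h2
      exact h2
    · intro x
      exact ⟨k (s, x), hl1 s x⟩
  · intro x
    have h2 := hl1 0 x
    rw [h0] at h2
    exact h2

theorem iso_homeo {X : Type} [TopologicalSpace X] [CompactSpace X] [T2Space X] {k : I × X → X}
    (hk : IsIso k) : ∃ H : (I × X) ≃ₜ (I × X), ∀ p, H p = (p.1, k p) := by
  obtain ⟨hc, hb, h0⟩ := hk
  have hbij : Function.Bijective (fun p : I × X => ((p.1, k p) : I × X)) := by
    constructor
    · rintro ⟨s, x⟩ ⟨t, y⟩ h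
      simp only [Prod.mk.injEq] at h
      obtain ⟨h1, h2⟩ := h
      subst h1
      have := (hb s).1 h2
      rw [this]
    · rintro ⟨s, y⟩
      obtain ⟨x, hx⟩ := (hb s).2 y
      exact ⟨(s, x), by simp only [Prod.mk.injEq, true_and]; exact hx⟩
  have hcont : Continuous (fun p : I × X => ((p.1, k p) : I × X)) := continuous_fst.prodMk hc
  refine ⟨Continuous.homeoOfEquivCompactToT2 (f := Equiv.ofBijective _ hbij) hcont, fun p => rfl⟩

/-- auxiliary piecewise linear map -/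
def ig_phi (a b t : ℝ) : ℝ := b + (b / a) * min (t - a) 0 + ((1 - b) / (1 - a)) * max (t - a) 0

theorem ig_le {a b t : ℝ} (ha : 0 < a) (h : t ≤ a) : ig_phi a b t = b * t / a := by
  unfold ig_phi
  rw [min_eq_left (by linarith), max_eq_right (by linarith)]
  field_simp
  ring

theorem ig_ge {a b t : ℝ} (ha : a < 1) (h : a ≤ t) :
    ig_phi a b t = 1 - (1 - b) * (1 - t) / (1 - a) := by
  unfold ig_phi
  have h1 : 1 - a ≠ 0 := by linarith
  rw [min_eq_right (by linarith), max_eq_left (by linarith)]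
  field_simp
  ring

theorem ig_mem {a b t : ℝ} (ha : 0 < a) (ha1 : a < 1) (hb : 0 < b) (hb1 : b < 1) (ht : 0 ≤ t)
    (ht1 : t ≤ 1) : ig_phi a b t ∈ Icc (0 : ℝ) 1 := by
  rcases le_total t a with h | h
  · rw [ig_le ha h]
    refine ⟨by positivity, ?_⟩
    rw [div_le_one ha]
    have h1 : b * t ≤ 1 * t := mul_le_mul_of_nonneg_right hb1.le ht
    linarith
  · rw [ig_ge ha1 h]
    have h1 : 0 ≤ (1 - b) * (1 - t) / (1 - a) :=
      div_nonneg (mul_nonneg (by linarith) (by linarith)) (by linarith)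
    have h2 : (1 - b) * (1 - t) / (1 - a) ≤ 1 := by
      rw [div_le_one (by linarith)]
      have h3 : (1 - b) * (1 - t) ≤ 1 * (1 - t) :=
        mul_le_mul_of_nonneg_right (by linarith) (by linarith)
      linarith
    exact ⟨by linarith, by linarith⟩

theorem ig_inv {a b t : ℝ} (ha : 0 < a) (ha1 : a < 1) (hb : 0 < b) (hb1 : b < 1) :
    ig_phi b a (ig_phi a b t) = t := by
  rcases le_total t a with h | h
  · rw [ig_le ha h]
    have h1 : b * t / a ≤ b := by
      rw [div_le_iff₀ ha]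
      exact mul_le_mul_of_nonneg_left h hb.le
    rw [ig_le hb h1]
    field_simp
  · rw [ig_ge ha1 h]
    have h0 : 0 < 1 - a := by linarith
    have h0' : 0 < 1 - b := by linarith
    have h1 : (1 - b) * (1 - t) / (1 - a) ≤ 1 - b := by
      rw [div_le_iff₀ h0]
      exact mul_le_mul_of_nonneg_left (by linarith) h0'.le
    rw [ig_ge hb1 (by linarith)]
    have h2 : 1 - a ≠ 0 := h0.ne'
    have h3 : 1 - b ≠ 0 := h0'.ne'
    field_simp
    ring

theorem ig_dist {a b t : ℝ} (ha : 0 < a) (ha1 : a < 1) (ht : 0 ≤ t) (ht1 : t ≤ 1) :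
    |ig_phi a b t - t| ≤ |b - a| := by
  rcases le_total t a with h | h
  · rw [ig_le ha h]
    have h1 : b * t / a - t = (b - a) * (t / a) := by
      field_simp
    rw [h1, abs_mul, abs_of_nonneg (div_nonneg ht ha.le)]
    exact mul_le_of_le_one_right (abs_nonneg _) ((div_le_one ha).2 h)
  · rw [ig_ge ha1 h]
    have h0 : 0 < 1 - a := by linarith
    have h1 : 1 - (1 - b) * (1 - t) / (1 - a) - t = (b - a) * ((1 - t) / (1 - a)) := by
      have h2 : 1 - a ≠ 0 := h0.ne'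
      field_simp
      ring
    rw [h1, abs_mul, abs_of_nonneg (div_nonneg (by linarith) h0.le)]
    exact mul_le_of_le_one_right (abs_nonneg _) ((div_le_one h0).2 (by linarith))

theorem ig_self {a t : ℝ} (ha : 0 < a) (ha1 : a < 1) : ig_phi a a t = t := by
  unfold ig_phi
  rw [div_self ha.ne', div_self (by linarith), one_mul, one_mul, add_assoc, min_add_max]
  ring

/-- the same map with values in the unit interval -/
def ig_f (a b : ℝ) (t : I) : I := projIcc 0 1 zero_le_one (ig_phi a b t)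

theorem ig_f_val {a b : ℝ} (ha : 0 < a) (ha1 : a < 1) (hb : 0 < b) (hb1 : b < 1) (t : I) :
    (ig_f a b t : ℝ) = ig_phi a b t := by
  unfold ig_f
  rw [projIcc_of_mem zero_le_one (ig_mem ha ha1 hb hb1 t.2.1 t.2.2)]

theorem ig_f_inv {a b : ℝ} (ha : 0 < a) (ha1 : a < 1) (hb : 0 < b) (hb1 : b < 1) (t : I) :
    ig_f b a (ig_f a b t) = t := by
  apply Subtype.ext
  rw [ig_f_val hb hb1 ha ha1, ig_f_val ha ha1 hb hb1, ig_inv ha ha1 hb hb1]

theorem ig_bs {a b s : ℝ} (ha : 0 < a) (ha1 : a < 1) (hb : 0 < b) (hb1 : b < 1) (hs : 0 ≤ s)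
    (hs1 : s ≤ 1) : 0 < a + s * (b - a) ∧ a + s * (b - a) < 1 := by
  have h1 : a + s * (b - a) = (1 - s) * a + s * b := by ring
  rw [h1]
  rcases eq_or_lt_of_le hs with h | h
  · rw [← h]
    constructor <;> linarith
  · constructor
    · have h2 : 0 ≤ (1 - s) * a := mul_nonneg (by linarith) ha.le
      have h3 : 0 < s * b := mul_pos h hb
      linarith
    · have h2 : (1 - s) * a ≤ (1 - s) * 1 := mul_le_mul_of_nonneg_left ha1.le (by linarith)
      have h3 : s * b < s * 1 := mul_lt_mul_of_pos_left hb1 h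
      linarith

/-- moving points of the pseudo-interior -/
theorem iso_good (g g' : Qc) (hg : ∀ i, (0 : ℝ) < g i ∧ (g i : ℝ) < 1)
    (hg' : ∀ i, (0 : ℝ) < g' i ∧ (g' i : ℝ) < 1) :
    ∃ k : I × Qc → Qc, IsIso k ∧ k (1, g) = g' ∧
      ∀ s x i, |(k (s, x) i : ℝ) - x i| ≤ |(g i : ℝ) - g' i| := by
  have hB : ∀ (s : I) (i : ℕ), 0 < (g i : ℝ) + s * ((g' i : ℝ) - g i) ∧
      (g i : ℝ) + s * ((g' i : ℝ) - g i) < 1 := fun s i =>
    ig_bs (hg i).1 (hg i).2 (hg' i).1 (hg' i).2 s.2.1 s.2.2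
  refine ⟨fun p i => ig_f (g i) ((g i : ℝ) + p.1 * ((g' i : ℝ) - g i)) (p.2 i),
    ⟨?_, ?_, ?_⟩, ?_, ?_⟩
  · refine continuous_pi fun i => ?_
    unfold ig_f ig_phi
    refine continuous_projIcc.comp ?_
    fun_prop
  · intro s
    refine Function.bijective_iff_has_inverse.2
      ⟨fun x i => ig_f ((g i : ℝ) + s * ((g' i : ℝ) - g i)) (g i) (x i), ?_, ?_⟩
    · intro x
      funext i
      exact ig_f_inv (hg i).1 (hg i).2 (hB s i).1 (hB s i).2 (x i)
    · intro x
      funext i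
      exact ig_f_inv (hB s i).1 (hB s i).2 (hg i).1 (hg i).2 (x i)
  · intro x
    funext i
    apply Subtype.ext
    change (ig_f (g i) ((g i : ℝ) + ((0 : I) : ℝ) * ((g' i : ℝ) - g i)) (x i) : ℝ) = x i
    rw [ig_f_val (hg i).1 (hg i).2 (hB 0 i).1 (hB 0 i).2, Set.Icc.coe_zero, zero_mul,
      add_zero, ig_self (hg i).1 (hg i).2]
  · funext i
    apply Subtype.ext
    change (ig_f (g i) ((g i : ℝ) + ((1 : I) : ℝ) * ((g' i : ℝ) - g i)) (g i) : ℝ) = g' i
    rw [ig_f_val (hg i).1 (hg i).2 (hB 1 i).1 (hB 1 i).2, Set.Icc.coe_one, one_mul,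
      ig_le (hg i).1 le_rfl, mul_div_cancel_right₀ _ (hg i).1.ne']
    ring
  · intro s x i
    change |(ig_f (g i) ((g i : ℝ) + (s : ℝ) * ((g' i : ℝ) - g i)) (x i) : ℝ) - x i| ≤ _
    rw [ig_f_val (hg i).1 (hg i).2 (hB s i).1 (hB s i).2]
    refine (ig_dist (hg i).1 (hg i).2 (x i).2.1 (x i).2.2).trans ?_
    rw [add_sub_cancel_left, abs_mul, abs_of_nonneg s.2.1, abs_sub_comm (g i : ℝ)]
    exact mul_le_of_le_one_left (abs_nonneg _) s.2.2

/-- the half square -/
def HS : Set (ℝ × ℝ) := {v | |v.1| ≤ 1 ∧ 0 ≤ v.2 ∧ v.2 ≤ 1}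

theorem cmin {S : Set (ℝ × (ℝ × ℝ))} {f g : ℝ × (ℝ × ℝ) → ℝ} (hf : ContinuousOn f S)
    (hg : ContinuousOn g S) : ContinuousOn (fun p => min (f p) (g p)) S :=
  continuous_min.comp_continuousOn (hf.prodMk hg)

def kk (c a y : ℝ) : ℝ := min a (max (c * a) (2 * a - (2 - c) * y))
def kY (c a y : ℝ) : ℝ := min (max a y) ((2 - c) * y)
def ki (c A B : ℝ) : ℝ := min (A / c) (max A B)
def kiY (c A B : ℝ) : ℝ := min B (max (2 * B - A) B / (2 - c))

def GG (c : ℝ) (v : ℝ × ℝ) : ℝ × ℝ :=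
  (kk c (max v.1 0) v.2 - kk c (max (-v.1) 0) v.2, kY c |v.1| v.2)
def GGi (c : ℝ) (v : ℝ × ℝ) : ℝ × ℝ :=
  (ki c (max v.1 0) v.2 - ki c (max (-v.1) 0) v.2, kiY c |v.1| v.2)

theorem R1 {c a y : ℝ} (hc : c ∈ Ioc (0 : ℝ) 1) (ha : 0 ≤ a) (hy : 0 ≤ y) (h : a ≤ y) :
    kk c a y = c * a ∧ kY c a y = y := by
  obtain ⟨h0, h1⟩ := hc
  refine ⟨?_, ?_⟩
  · unfold kk
    rw [max_eq_left (by nlinarith), min_eq_right (by nlinarith)]
  · unfold kY
    rw [max_eq_right h, min_eq_left (by nlinarith)]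

theorem R2 {c a y : ℝ} (hc : c ∈ Ioc (0 : ℝ) 1) (ha : 0 ≤ a) (hy : 0 ≤ y) (h : y ≤ a)
    (h' : a ≤ (2 - c) * y) :
    kk c a y = 2 * a - (2 - c) * y ∧ kY c a y = a := by
  obtain ⟨h0, h1⟩ := hc
  refine ⟨?_, ?_⟩
  · unfold kk
    rw [max_eq_right (by nlinarith), min_eq_right (by nlinarith)]
  · unfold kY
    rw [max_eq_left h, min_eq_left (by nlinarith)]

theorem R3 {c a y : ℝ} (hc : c ∈ Ioc (0 : ℝ) 1) (ha : 0 ≤ a) (hy : 0 ≤ y)
    (h' : (2 - c) * y ≤ a) :
    kk c a y = a ∧ kY c a y = (2 - c) * y := by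
  obtain ⟨h0, h1⟩ := hc
  have h : y ≤ a := by nlinarith
  refine ⟨?_, ?_⟩
  · unfold kk
    rw [max_eq_right (by nlinarith), min_eq_left (by nlinarith)]
  · unfold kY
    rw [max_eq_left h, min_eq_right (by nlinarith)]

theorem S1 {c A B : ℝ} (hc : c ∈ Ioc (0 : ℝ) 1) (ha : 0 ≤ A) (hy : 0 ≤ B) (h : A ≤ c * B) :
    ki c A B = A / c ∧ kiY c A B = B := by
  obtain ⟨h0, h1⟩ := hc
  have hAB : A ≤ B := by nlinarith
  refine ⟨?_, ?_⟩
  · unfold ki
    rw [min_eq_left]
    refine le_trans ?_ (le_max_right _ _)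
    rw [div_le_iff₀ h0]; linarith
  · unfold kiY
    rw [min_eq_left]
    rw [le_div_iff₀ (by linarith)]
    refine le_trans ?_ (le_max_left _ _)
    nlinarith

theorem S2 {c A B : ℝ} (hc : c ∈ Ioc (0 : ℝ) 1) (ha : 0 ≤ A) (hy : 0 ≤ B) (h : c * B ≤ A)
    (h' : A ≤ B) :
    ki c A B = B ∧ kiY c A B = (2 * B - A) / (2 - c) := by
  obtain ⟨h0, h1⟩ := hc
  refine ⟨?_, ?_⟩
  · unfold ki
    rw [max_eq_right h', min_eq_right]
    rw [le_div_iff₀ h0]; linarith
  · unfold kiY
    rw [max_eq_left (by linarith), min_eq_right]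
    rw [div_le_iff₀ (by linarith)]
    nlinarith

theorem S3 {c A B : ℝ} (hc : c ∈ Ioc (0 : ℝ) 1) (ha : 0 ≤ A) (hy : 0 ≤ B) (h : B ≤ A) :
    ki c A B = A ∧ kiY c A B = B / (2 - c) := by
  obtain ⟨h0, h1⟩ := hc
  refine ⟨?_, ?_⟩
  · unfold ki
    rw [max_eq_left h, min_eq_right]
    rw [le_div_iff₀ h0]; nlinarith
  · unfold kiY
    rw [max_eq_right (by linarith), min_eq_right]
    rw [div_le_iff₀ (by linarith)]
    nlinarith

theorem fwd {c a y : ℝ} (hc : c ∈ Ioc (0 : ℝ) 1) (ha : 0 ≤ a) (ha1 : a ≤ 1) (hy : 0 ≤ y)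
    (hy1 : y ≤ 1) : 0 ≤ kk c a y ∧ kk c a y ≤ 1 ∧ 0 ≤ kY c a y ∧ kY c a y ≤ 1 ∧
      ki c (kk c a y) (kY c a y) = a ∧ kiY c (kk c a y) (kY c a y) = y := by
  have h0 := hc.1
  have h1 := hc.2
  have h2 : 2 - c ≠ 0 := by linarith
  rcases le_total a y with h | h
  · obtain ⟨e1, e2⟩ := R1 hc ha hy h
    rw [e1, e2]
    obtain ⟨f1, f2⟩ := S1 (A := c * a) (B := y) hc (by positivity) hy (by nlinarith)
    refine ⟨by positivity, by nlinarith, hy, hy1, ?_, f2⟩
    rw [f1]; field_simp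
  · rcases le_total a ((2 - c) * y) with h' | h'
    · obtain ⟨e1, e2⟩ := R2 hc ha hy h h'
      rw [e1, e2]
      obtain ⟨f1, f2⟩ := S2 (A := 2 * a - (2 - c) * y) (B := a) hc (by nlinarith) ha
        (by nlinarith) (by nlinarith)
      refine ⟨by nlinarith, by nlinarith, ha, ha1, f1, ?_⟩
      rw [f2]; field_simp; ring
    · obtain ⟨e1, e2⟩ := R3 hc ha hy h'
      rw [e1, e2]
      obtain ⟨f1, f2⟩ := S3 (A := a) (B := (2 - c) * y) hc ha (by nlinarith) h'
      refine ⟨ha, ha1, by nlinarith, by linarith, f1, ?_⟩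
      rw [f2]; field_simp

theorem bwd {c a y : ℝ} (hc : c ∈ Ioc (0 : ℝ) 1) (ha : 0 ≤ a) (ha1 : a ≤ 1) (hy : 0 ≤ y)
    (hy1 : y ≤ 1) : 0 ≤ ki c a y ∧ ki c a y ≤ 1 ∧ 0 ≤ kiY c a y ∧ kiY c a y ≤ 1 ∧
      kk c (ki c a y) (kiY c a y) = a ∧ kY c (ki c a y) (kiY c a y) = y := by
  have h0 := hc.1
  have h1 := hc.2
  have h2 : 2 - c ≠ 0 := by linarith
  have h3 : 0 < 2 - c := by linarith
  rcases le_total a (c * y) with h | h
  · obtain ⟨e1, e2⟩ := S1 hc ha hy h
    rw [e1, e2]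
    have h4 : a / c ≤ y := by rw [div_le_iff₀ h0]; linarith
    obtain ⟨f1, f2⟩ := R1 (a := a / c) (y := y) hc (by positivity) hy h4
    refine ⟨by positivity, by linarith, hy, hy1, ?_, f2⟩
    rw [f1]; field_simp
  · rcases le_total a y with h' | h'
    · obtain ⟨e1, e2⟩ := S2 hc ha hy h h'
      rw [e1, e2]
      have h5 : (2 * y - a) / (2 - c) ≤ y := by rw [div_le_iff₀ h3]; nlinarith
      have h6 : (2 - c) * ((2 * y - a) / (2 - c)) = 2 * y - a := by field_simp
      have h7 : 0 ≤ (2 * y - a) / (2 - c) := div_nonneg (by linarith) h3.le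
      obtain ⟨f1, f2⟩ := R2 (a := y) (y := (2 * y - a) / (2 - c)) hc hy h7 h5 (by rw [h6]; linarith)
      refine ⟨hy, hy1, h7, by linarith, ?_, f2⟩
      rw [f1, h6]; ring
    · obtain ⟨e1, e2⟩ := S3 hc ha hy h'
      rw [e1, e2]
      have h6 : (2 - c) * (y / (2 - c)) = y := by field_simp
      have h7 : 0 ≤ y / (2 - c) := div_nonneg hy h3.le
      obtain ⟨f1, f2⟩ := R3 (a := a) (y := y / (2 - c)) hc ha h7 (by rw [h6]; exact h')
      refine ⟨ha, ha1, h7, ?_, f1, ?_⟩
      · rw [div_le_iff₀ h3]; nlinarith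
      · rw [f2, h6]

theorem kk_zero {c y : ℝ} (hc : c ∈ Ioc (0 : ℝ) 1) (hy : 0 ≤ y) : kk c 0 y = 0 := by
  rw [(R1 hc le_rfl hy hy).1, mul_zero]

theorem ki_zero {c y : ℝ} (hc : c ∈ Ioc (0 : ℝ) 1) (hy : 0 ≤ y) : ki c 0 y = 0 := by
  rw [(S1 hc le_rfl hy (by have := hc.1; positivity)).1, zero_div]

theorem GG_pos {c x y : ℝ} (hc : c ∈ Ioc (0 : ℝ) 1) (hx : 0 ≤ x) (hy : 0 ≤ y) :
    GG c (x, y) = (kk c x y, kY c x y) := by
  simp only [GG]
  rw [max_eq_left hx, max_eq_right (by linarith : -x ≤ 0), kk_zero hc hy, sub_zero, abs_of_nonneg hx]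

theorem GG_neg {c x y : ℝ} (hc : c ∈ Ioc (0 : ℝ) 1) (hx : 0 ≤ x) (hy : 0 ≤ y) :
    GG c (-x, y) = (-kk c x y, kY c x y) := by
  simp only [GG]
  rw [neg_neg, max_eq_left hx, max_eq_right (by linarith : -x ≤ 0), kk_zero hc hy, zero_sub, abs_neg,
    abs_of_nonneg hx]

theorem GGi_pos {c x y : ℝ} (hc : c ∈ Ioc (0 : ℝ) 1) (hx : 0 ≤ x) (hy : 0 ≤ y) :
    GGi c (x, y) = (ki c x y, kiY c x y) := by
  simp only [GGi]
  rw [max_eq_left hx, max_eq_right (by linarith : -x ≤ 0), ki_zero hc hy, sub_zero, abs_of_nonneg hx]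

theorem GGi_neg {c x y : ℝ} (hc : c ∈ Ioc (0 : ℝ) 1) (hx : 0 ≤ x) (hy : 0 ≤ y) :
    GGi c (-x, y) = (-ki c x y, kiY c x y) := by
  simp only [GGi]
  rw [neg_neg, max_eq_left hx, max_eq_right (by linarith : -x ≤ 0), ki_zero hc hy, zero_sub, abs_neg,
    abs_of_nonneg hx]

/-- explicit homeomorphisms of the half square preserving the gauge `max |x| y` -/
theorem half_square : ∃ G Gi : ℝ → ℝ × ℝ → ℝ × ℝ,
    ContinuousOn (fun p : ℝ × (ℝ × ℝ) => G p.1 p.2) (Ioc 0 1 ×ˢ HS) ∧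
    ContinuousOn (fun p : ℝ × (ℝ × ℝ) => Gi p.1 p.2) (Ioc 0 1 ×ˢ HS) ∧
    (∀ c ∈ Ioc (0 : ℝ) 1, ∀ v ∈ HS, G c v ∈ HS ∧ Gi c v ∈ HS ∧ Gi c (G c v) = v ∧ G c (Gi c v) = v) ∧
    (∀ v ∈ HS, G 1 v = v) ∧ (∀ c ∈ Ioc (0 : ℝ) 1, ∀ x, |x| ≤ 1 → G c (x, 0) = (x, 0)) ∧
    (∀ c ∈ Ioc (0 : ℝ) 1, ∀ x, |x| ≤ 1 → (G c (x, 1)).2 = 1 ∧ |(G c (x, 1)).1| ≤ c) ∧
    (∀ c ∈ Ioc (0 : ℝ) 1, ∀ x, |x| ≤ 1 → c < |x| → 0 < (Gi c (x, 1)).2 ∧ (Gi c (x, 1)).2 < 1) := by
  refine ⟨GG, GGi, ?_, ?_, ?_, ?_, ?_, ?_, ?_⟩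
  · apply Continuous.continuousOn
    unfold GG kk kY
    fun_prop
  · have h1 : ContinuousOn (fun p : ℝ × (ℝ × ℝ) => p.1) (Ioc 0 1 ×ˢ HS) := continuousOn_fst
    have hne : ∀ p ∈ (Ioc (0 : ℝ) 1 ×ˢ HS), p.1 ≠ 0 := fun p hp => (hp.1.1).ne'
    have hne2 : ∀ p ∈ (Ioc (0 : ℝ) 1 ×ˢ HS), 2 - p.1 ≠ 0 := fun p hp => by
      have := hp.1.2
      have h3 : 0 < 2 - p.1 := by linarith
      exact h3.ne'
    unfold GGi ki kiY
    refine ContinuousOn.prodMk (ContinuousOn.sub ?_ ?_) ?_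
    · refine cmin (ContinuousOn.div ?_ h1 hne) ?_
      · apply Continuous.continuousOn; fun_prop
      · apply Continuous.continuousOn; fun_prop
    · refine cmin (ContinuousOn.div ?_ h1 hne) ?_
      · apply Continuous.continuousOn; fun_prop
      · apply Continuous.continuousOn; fun_prop
    · refine cmin ?_ (ContinuousOn.div ?_ ?_ hne2)
      · apply Continuous.continuousOn; fun_prop
      · apply Continuous.continuousOn; fun_prop
      · apply Continuous.continuousOn; fun_prop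
  · rintro c hc ⟨x, y⟩ ⟨hx, hy0, hy1⟩
    simp only at hx hy0 hy1
    rcases le_total 0 x with h | h
    · rw [abs_of_nonneg h] at hx
      obtain ⟨a1, a2, a3, a4, a5, a6⟩ := fwd hc h hx hy0 hy1
      obtain ⟨b1, b2, b3, b4, b5, b6⟩ := bwd hc h hx hy0 hy1
      refine ⟨?_, ?_, ?_, ?_⟩
      · rw [GG_pos hc h hy0]
        exact ⟨by simp only [abs_of_nonneg a1]; exact a2, a3, a4⟩
      · rw [GGi_pos hc h hy0]
        exact ⟨by simp only [abs_of_nonneg b1]; exact b2, b3, b4⟩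
      · rw [GG_pos hc h hy0, GGi_pos hc a1 a3, a5, a6]
      · rw [GGi_pos hc h hy0, GG_pos hc b1 b3, b5, b6]
    · obtain ⟨z, rfl⟩ : ∃ z, x = -z := ⟨-x, by ring⟩
      have h : 0 ≤ z := by linarith
      rw [abs_neg, abs_of_nonneg h] at hx
      obtain ⟨a1, a2, a3, a4, a5, a6⟩ := fwd hc h hx hy0 hy1
      obtain ⟨b1, b2, b3, b4, b5, b6⟩ := bwd hc h hx hy0 hy1
      refine ⟨?_, ?_, ?_, ?_⟩
      · rw [GG_neg hc h hy0]
        exact ⟨by simp only [abs_neg, abs_of_nonneg a1]; exact a2, a3, a4⟩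
      · rw [GGi_neg hc h hy0]
        exact ⟨by simp only [abs_neg, abs_of_nonneg b1]; exact b2, b3, b4⟩
      · rw [GG_neg hc h hy0, GGi_neg hc a1 a3, a5, a6]
      · rw [GGi_neg hc h hy0, GG_neg hc b1 b3, b5, b6]
  · rintro ⟨x, y⟩ ⟨hx, hy0, hy1⟩
    simp only at hx hy0 hy1
    have hc : (1 : ℝ) ∈ Ioc (0 : ℝ) 1 := ⟨by norm_num, le_rfl⟩
    have key : ∀ a : ℝ, 0 ≤ a → kk 1 a y = a ∧ kY 1 a y = y := by
      intro a ha
      rcases le_total a y with h | h
      · obtain ⟨e1, e2⟩ := R1 hc ha hy0 h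
        rw [e1, e2]; simp
      · obtain ⟨e1, e2⟩ := R3 hc ha hy0 (by linarith : (2 - 1) * y ≤ a)
        rw [e1, e2]; exact ⟨rfl, by ring⟩
    rcases le_total 0 x with h | h
    · rw [GG_pos hc h hy0, (key x h).1, (key x h).2]
    · obtain ⟨z, rfl⟩ : ∃ z, x = -z := ⟨-x, by ring⟩
      have h : 0 ≤ z := by linarith
      rw [GG_neg hc h hy0, (key z h).1, (key z h).2]
  · rintro c hc x hx
    rcases le_total 0 x with h | h
    · obtain ⟨e1, e2⟩ := R3 (a := x) (y := 0) hc h le_rfl (by linarith)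
      rw [GG_pos hc h le_rfl, e1, e2, mul_zero]
    · obtain ⟨z, rfl⟩ : ∃ z, x = -z := ⟨-x, by ring⟩
      have h : 0 ≤ z := by linarith
      obtain ⟨e1, e2⟩ := R3 (a := z) (y := 0) hc h le_rfl (by linarith)
      rw [GG_neg hc h le_rfl, e1, e2, mul_zero]
  · rintro c hc x hx
    have h0 := hc.1
    rcases le_total 0 x with h | h
    · rw [abs_of_nonneg h] at hx
      obtain ⟨e1, e2⟩ := R1 (a := x) (y := 1) hc h zero_le_one hx
      rw [GG_pos hc h zero_le_one, e1, e2]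
      refine ⟨rfl, ?_⟩
      simp only
      rw [abs_of_nonneg (by positivity)]
      nlinarith
    · obtain ⟨z, rfl⟩ : ∃ z, x = -z := ⟨-x, by ring⟩
      have h : 0 ≤ z := by linarith
      rw [abs_neg, abs_of_nonneg h] at hx
      obtain ⟨e1, e2⟩ := R1 (a := z) (y := 1) hc h zero_le_one hx
      rw [GG_neg hc h zero_le_one, e1, e2]
      refine ⟨rfl, ?_⟩
      simp only
      rw [abs_neg, abs_of_nonneg (by positivity)]
      nlinarith
  · rintro c hc x hx hcx
    have h0 := hc.1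
    have h1 := hc.2
    have key : ∀ a : ℝ, c < a → a ≤ 1 → 0 < (2 * 1 - a) / (2 - c) ∧ (2 * 1 - a) / (2 - c) < 1 := by
      intro a h2 h3
      refine ⟨div_pos (by linarith) (by linarith), ?_⟩
      rw [div_lt_one (by linarith)]; linarith
    rcases le_total 0 x with h | h
    · rw [abs_of_nonneg h] at hx hcx
      obtain ⟨e1, e2⟩ := S2 (A := x) (B := 1) hc h zero_le_one (by linarith) hx
      rw [GGi_pos hc h zero_le_one, e1, e2]
      exact key x hcx hx
    · obtain ⟨z, rfl⟩ : ∃ z, x = -z := ⟨-x, by ring⟩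
      have h : 0 ≤ z := by linarith
      rw [abs_neg, abs_of_nonneg h] at hx hcx
      obtain ⟨e1, e2⟩ := S2 (A := z) (B := 1) hc h zero_le_one (by linarith) hx
      rw [GGi_neg hc h zero_le_one, e1, e2]
      exact key z hcx hx

theorem planar_cs (δ : ℝ) (hδ : 0 < δ) (hδ1 : δ ≤ 1) (s : I) :
    1 - (s : ℝ) * (1 - δ) ∈ Ioc (0 : ℝ) 1 := by
  have h0 := s.2.1
  have h1 := s.2.2
  constructor
  · nlinarith
  · nlinarith

theorem planar_pv (ε : ℝ) (hε : 0 < ε) (p : I × (I × I)) :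
    ((2 * (p.2.1 : ℝ) - 1, max 0 (1 - (p.2.2 : ℝ) / ε)) : ℝ × ℝ) ∈ HS := by
  have h0 := p.2.1.2.1
  have h1 := p.2.1.2.2
  have h2 := p.2.2.2.1
  refine ⟨?_, le_max_left _ _, max_le zero_le_one ?_⟩
  · exact abs_le.2 ⟨by linarith, by linarith⟩
  · have : 0 ≤ (p.2.2 : ℝ) / ε := div_nonneg h2 hε.le
    linarith

theorem planar_map (δ ε : ℝ) (hδ : 0 < δ) (hδ1 : δ ≤ 1) (hε : 0 < ε) (hε1 : ε < 1)
    (K : ℝ → ℝ × ℝ → ℝ × ℝ)
    (hKc : ContinuousOn (fun p : ℝ × (ℝ × ℝ) => K p.1 p.2) (Ioc 0 1 ×ˢ HS))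
    (hKm : ∀ c ∈ Ioc (0 : ℝ) 1, ∀ v ∈ HS, K c v ∈ HS) :
    ∃ M : I × (I × I) → I × (I × I), Continuous M ∧ ∀ p, (M p).1 = p.1 ∧
      ((M p).2.1 : ℝ) = (1 + (K (1 - (p.1 : ℝ) * (1 - δ))
        (2 * (p.2.1 : ℝ) - 1, max 0 (1 - (p.2.2 : ℝ) / ε))).1) / 2 ∧
      ((M p).2.2 : ℝ) = ε * (1 - (K (1 - (p.1 : ℝ) * (1 - δ))
        (2 * (p.2.1 : ℝ) - 1, max 0 (1 - (p.2.2 : ℝ) / ε))).2) + max 0 ((p.2.2 : ℝ) - ε) := by
  have hmem : ∀ p : I × (I × I), K (1 - (p.1 : ℝ) * (1 - δ))
      (2 * (p.2.1 : ℝ) - 1, max 0 (1 - (p.2.2 : ℝ) / ε)) ∈ HS := fun p =>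
    hKm _ (planar_cs δ hδ hδ1 p.1) _ (planar_pv ε hε p)
  have hcont : Continuous fun p : I × (I × I) => K (1 - (p.1 : ℝ) * (1 - δ))
      (2 * (p.2.1 : ℝ) - 1, max 0 (1 - (p.2.2 : ℝ) / ε)) := by
    have h1 : Continuous fun p : I × (I × I) => (((1 - (p.1 : ℝ) * (1 - δ)),
        ((2 * (p.2.1 : ℝ) - 1, max 0 (1 - (p.2.2 : ℝ) / ε)) : ℝ × ℝ)) : ℝ × (ℝ × ℝ)) := by
      fun_prop
    exact hKc.comp_continuous h1 (fun p => ⟨planar_cs δ hδ hδ1 p.1, planar_pv ε hε p⟩)
  refine ⟨fun p => (p.1, (⟨(1 + (K (1 - (p.1 : ℝ) * (1 - δ))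
        (2 * (p.2.1 : ℝ) - 1, max 0 (1 - (p.2.2 : ℝ) / ε))).1) / 2, ?_⟩,
        ⟨ε * (1 - (K (1 - (p.1 : ℝ) * (1 - δ))
        (2 * (p.2.1 : ℝ) - 1, max 0 (1 - (p.2.2 : ℝ) / ε))).2) + max 0 ((p.2.2 : ℝ) - ε), ?_⟩)),
        ?_, fun p => ⟨rfl, rfl, rfl⟩⟩
  · have h := abs_le.1 (hmem p).1
    exact ⟨by linarith [h.1], by linarith [h.2]⟩
  · have h := (hmem p).2
    have h2 : max 0 ((p.2.2 : ℝ) - ε) ≤ 1 - ε :=
      max_le (by linarith) (by linarith [p.2.2.2.2])
    have h3 : 0 ≤ max 0 ((p.2.2 : ℝ) - ε) := le_max_left _ _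
    constructor
    · have : 0 ≤ ε * (1 - (K (1 - (p.1 : ℝ) * (1 - δ))
        (2 * (p.2.1 : ℝ) - 1, max 0 (1 - (p.2.2 : ℝ) / ε))).2) :=
        mul_nonneg hε.le (by linarith [h.2])
      linarith
    · have : ε * (1 - (K (1 - (p.1 : ℝ) * (1 - δ))
        (2 * (p.2.1 : ℝ) - 1, max 0 (1 - (p.2.2 : ℝ) / ε))).2) ≤ ε * 1 :=
        mul_le_mul_of_nonneg_left (by linarith [h.1]) hε.le
      linarith
  · refine continuous_fst.prodMk (Continuous.prodMk ?_ ?_)
    · refine Continuous.subtype_mk ?_ _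
      exact (continuous_const.add (continuous_fst.comp hcont)).div_const 2
    · refine Continuous.subtype_mk ?_ _
      have h4 : Continuous fun p : I × (I × I) => max 0 ((p.2.2 : ℝ) - ε) := by fun_prop
      exact (continuous_const.mul (continuous_const.sub (continuous_snd.comp hcont))).add h4

theorem planar_inv (δ ε : ℝ) (hδ : 0 < δ) (hδ1 : δ ≤ 1) (hε : 0 < ε) (hε1 : ε < 1)
    (K L : ℝ → ℝ × ℝ → ℝ × ℝ)
    (hKm : ∀ c ∈ Ioc (0 : ℝ) 1, ∀ v ∈ HS, K c v ∈ HS)
    (hLK : ∀ c ∈ Ioc (0 : ℝ) 1, ∀ v ∈ HS, L c (K c v) = v)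
    (hK0 : ∀ c ∈ Ioc (0 : ℝ) 1, ∀ x, |x| ≤ 1 → K c (x, 0) = (x, 0))
    (M N : I × (I × I) → I × (I × I))
    (hM : ∀ p, (M p).1 = p.1 ∧
      ((M p).2.1 : ℝ) = (1 + (K (1 - (p.1 : ℝ) * (1 - δ))
        (2 * (p.2.1 : ℝ) - 1, max 0 (1 - (p.2.2 : ℝ) / ε))).1) / 2 ∧
      ((M p).2.2 : ℝ) = ε * (1 - (K (1 - (p.1 : ℝ) * (1 - δ))
        (2 * (p.2.1 : ℝ) - 1, max 0 (1 - (p.2.2 : ℝ) / ε))).2) + max 0 ((p.2.2 : ℝ) - ε))
    (hN : ∀ p, (N p).1 = p.1 ∧
      ((N p).2.1 : ℝ) = (1 + (L (1 - (p.1 : ℝ) * (1 - δ))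
        (2 * (p.2.1 : ℝ) - 1, max 0 (1 - (p.2.2 : ℝ) / ε))).1) / 2 ∧
      ((N p).2.2 : ℝ) = ε * (1 - (L (1 - (p.1 : ℝ) * (1 - δ))
        (2 * (p.2.1 : ℝ) - 1, max 0 (1 - (p.2.2 : ℝ) / ε))).2) + max 0 ((p.2.2 : ℝ) - ε))
    (p : I × (I × I)) : N (M p) = p := by
  obtain ⟨m1, m2, m3⟩ := hM p
  obtain ⟨n1, n2, n3⟩ := hN (M p)
  have hc := planar_cs δ hδ hδ1 p.1
  have hv := planar_pv ε hε p
  rw [m1] at n1 n2 n3
  obtain ⟨c, hcdef⟩ : ∃ c : ℝ, c = 1 - (p.1 : ℝ) * (1 - δ) := ⟨_, rfl⟩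
  obtain ⟨v, hvdef⟩ : ∃ v : ℝ × ℝ, v = (2 * (p.2.1 : ℝ) - 1, max 0 (1 - (p.2.2 : ℝ) / ε)) :=
    ⟨_, rfl⟩
  rw [← hcdef] at m2 m3 n2 n3 hc
  rw [← hvdef] at m2 m3 hv
  have hkv := hKm c hc v hv
  have hX : v.1 = 2 * (p.2.1 : ℝ) - 1 := by rw [hvdef]
  have hY : v.2 = max 0 (1 - (p.2.2 : ℝ) / ε) := by rw [hvdef]
  rcases le_total (p.2.2 : ℝ) ε with ht | ht
  · have h1 : max 0 ((p.2.2 : ℝ) - ε) = 0 := max_eq_left (by linarith)
    have h2 : v.2 = 1 - (p.2.2 : ℝ) / ε := by
      rw [hY]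
      refine max_eq_right ?_
      rw [sub_nonneg]
      exact (div_le_one hε).2 ht
    rw [h1, add_zero] at m3
    have h3 : ((2 * ((M p).2.1 : ℝ) - 1, max 0 (1 - ((M p).2.2 : ℝ) / ε)) : ℝ × ℝ) = K c v := by
      refine Prod.ext ?_ ?_
      · show 2 * ((M p).2.1 : ℝ) - 1 = (K c v).1
        rw [m2]
        ring
      · show max 0 (1 - ((M p).2.2 : ℝ) / ε) = (K c v).2
        have h4 : 1 - ((M p).2.2 : ℝ) / ε = (K c v).2 := by
          rw [m3]
          field_simp
          ring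
        rw [h4]
        exact max_eq_right hkv.2.1
    rw [h3, hLK c hc v hv] at n2 n3
    have h5 : max 0 (((M p).2.2 : ℝ) - ε) = 0 := by
      refine max_eq_left ?_
      rw [m3]
      have := mul_nonneg hε.le hkv.2.1
      linarith
    rw [h5, h2] at n3
    refine Prod.ext n1 (Prod.ext (Subtype.ext ?_) (Subtype.ext ?_))
    · rw [n2, hX]
      ring
    · rw [n3]
      field_simp
      ring
  · have h1 : max 0 ((p.2.2 : ℝ) - ε) = (p.2.2 : ℝ) - ε := max_eq_right (by linarith)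
    have h2 : v.2 = 0 := by
      rw [hY]
      refine max_eq_left ?_
      rw [sub_nonpos]
      exact (one_le_div hε).2 ht
    have hv' : v = (v.1, 0) := Prod.ext rfl h2
    have hK : K c v = v := by
      rw [hv']
      exact hK0 c hc v.1 hv.1
    rw [hK, h1, h2] at m3
    rw [hK] at m2
    have e1 : ((M p).2.1 : ℝ) = p.2.1 := by rw [m2, hX]; ring
    have e2 : ((M p).2.2 : ℝ) = p.2.2 := by rw [m3]; ring
    rw [e1, e2, ← hvdef] at n2
    rw [e1, e2, ← hvdef, h1] at n3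
    have hL : L c v = v := by
      have := hLK c hc v hv
      rw [hK] at this
      exact this
    rw [hL] at n2
    rw [hL, h2] at n3
    refine Prod.ext n1 (Prod.ext (Subtype.ext ?_) (Subtype.ext ?_))
    · rw [n2, hX]
      ring
    · rw [n3]
      ring

/-- planar isotopy supported in the strip `t ≤ ε` -/
theorem planar (δ ε : ℝ) (hδ : 0 < δ) (hδ1 : δ ≤ 1) (hε : 0 < ε) (hε1 : ε < 1) :
    ∃ H : (I × (I × I)) ≃ₜ (I × (I × I)), (∀ p, (H p).1 = p.1) ∧ (∀ v, H (0, v) = (0, v)) ∧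
      (∀ p : I × (I × I), ε ≤ (p.2.2 : ℝ) → H p = p) ∧
      (∀ x : I, |2 * ((H (1, (x, 0))).2.1 : ℝ) - 1| ≤ δ ∧ (H (1, (x, 0))).2.2 = 0) ∧
      (∀ x : I, δ < |2 * (x : ℝ) - 1| → (0 : ℝ) < (H.symm (1, (x, 0))).2.2 ∧
        ((H.symm (1, (x, 0))).2.2 : ℝ) < 1) := by
  obtain ⟨G, Gi, hGc, hGic, hG, hG1, hG0, hGt, hGi⟩ := half_square
  have hGi0 : ∀ c ∈ Ioc (0 : ℝ) 1, ∀ x, |x| ≤ 1 → Gi c (x, 0) = (x, 0) := by
    intro c hc x hx
    have h1 := (hG c hc (x, 0) ⟨hx, le_rfl, zero_le_one⟩).2.2.1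
    rw [hG0 c hc x hx] at h1
    exact h1
  obtain ⟨M, hMc, hM⟩ := planar_map δ ε hδ hδ1 hε hε1 G hGc (fun c hc v hv => (hG c hc v hv).1)
  obtain ⟨N, hNc, hN⟩ := planar_map δ ε hδ hδ1 hε hε1 Gi hGic (fun c hc v hv => (hG c hc v hv).2.1)
  have hNM : ∀ p, N (M p) = p := planar_inv δ ε hδ hδ1 hε hε1 G Gi
    (fun c hc v hv => (hG c hc v hv).1) (fun c hc v hv => (hG c hc v hv).2.2.1) hG0 M N hM hN
  have hMN : ∀ p, M (N p) = p := planar_inv δ ε hδ hδ1 hε hε1 Gi G
    (fun c hc v hv => (hG c hc v hv).2.1) (fun c hc v hv => (hG c hc v hv).2.2.2) hGi0 N M hN hM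
  let H : (I × (I × I)) ≃ₜ (I × (I × I)) :=
    { toFun := M
      invFun := N
      left_inv := hNM
      right_inv := hMN
      continuous_toFun := hMc
      continuous_invFun := hNc }
  have hHM : ∀ p, H p = M p := fun p => rfl
  have hHN : ∀ p, H.symm p = N p := fun p => rfl
  refine ⟨H, fun p => (hM p).1, ?_, ?_, ?_, ?_⟩
  · intro v
    rw [hHM]
    obtain ⟨m1, m2, m3⟩ := hM (0, v)
    have hv := planar_pv ε hε (0, v)
    have e0 : (1 : ℝ) - ((0 : I) : ℝ) * (1 - δ) = 1 := by simp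
    simp only [e0] at m2 m3
    rw [hG1 _ hv] at m2 m3
    refine Prod.ext m1 (Prod.ext (Subtype.ext ?_) (Subtype.ext ?_))
    · rw [m2]
      simp
    · rw [m3]
      show ε * (1 - max 0 (1 - (v.2 : ℝ) / ε)) + max 0 ((v.2 : ℝ) - ε) = v.2
      rcases le_total (v.2 : ℝ) ε with ht | ht
      · have h1 : max 0 ((v.2 : ℝ) - ε) = 0 := max_eq_left (by linarith)
        have h2 : max 0 (1 - (v.2 : ℝ) / ε) = 1 - (v.2 : ℝ) / ε := by
          refine max_eq_right ?_
          rw [sub_nonneg]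
          exact (div_le_one hε).2 ht
        rw [h1, h2]
        field_simp
        ring
      · have h1 : max 0 ((v.2 : ℝ) - ε) = (v.2 : ℝ) - ε := max_eq_right (by linarith)
        have h2 : max 0 (1 - (v.2 : ℝ) / ε) = 0 := by
          refine max_eq_left ?_
          rw [sub_nonpos]
          exact (one_le_div hε).2 ht
        rw [h1, h2]
        ring
  · intro p ht
    rw [hHM]
    obtain ⟨m1, m2, m3⟩ := hM p
    have hv := planar_pv ε hε p
    have hc := planar_cs δ hδ hδ1 p.1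
    have h1 : max 0 ((p.2.2 : ℝ) - ε) = (p.2.2 : ℝ) - ε := max_eq_right (by linarith)
    have h2 : max 0 (1 - (p.2.2 : ℝ) / ε) = 0 := by
      refine max_eq_left ?_
      rw [sub_nonpos]
      exact (one_le_div hε).2 ht
    rw [h2] at m2 hv
    rw [h2, h1] at m3
    rw [hG0 _ hc _ hv.1] at m2 m3
    refine Prod.ext m1 (Prod.ext (Subtype.ext ?_) (Subtype.ext ?_))
    · rw [m2]
      ring
    · rw [m3]
      ring
  · intro x
    rw [hHM]
    obtain ⟨m1, m2, m3⟩ := hM (1, (x, 0))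
    have hv := planar_pv ε hε (1, (x, 0))
    have e0 : (1 : ℝ) - ((1 : I) : ℝ) * (1 - δ) = δ := by simp
    have e1 : max 0 ((1 : ℝ) - ((0 : I) : ℝ) / ε) = 1 := by simp
    have e2 : max 0 (((0 : I) : ℝ) - ε) = 0 := by simp [hε.le]
    simp only [e0, e1] at m2
    simp only [e0, e1, e2] at m3
    have hx : |2 * (x : ℝ) - 1| ≤ 1 := hv.1
    obtain ⟨g1, g2⟩ := hGt δ ⟨hδ, hδ1⟩ _ hx
    constructor
    · rw [m2]
      have : 2 * ((1 + (G δ (2 * (x : ℝ) - 1, 1)).1) / 2) - 1 = (G δ (2 * (x : ℝ) - 1, 1)).1 := by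
        ring
      rw [this]
      exact g2
    · refine Subtype.ext ?_
      rw [m3, g1]
      simp
  · intro x hx
    rw [hHN]
    obtain ⟨m1, m2, m3⟩ := hN (1, (x, 0))
    have hv := planar_pv ε hε (1, (x, 0))
    have e0 : (1 : ℝ) - ((1 : I) : ℝ) * (1 - δ) = δ := by simp
    have e1 : max 0 ((1 : ℝ) - ((0 : I) : ℝ) / ε) = 1 := by simp
    have e2 : max 0 (((0 : I) : ℝ) - ε) = 0 := by simp [hε.le]
    simp only [e0, e1, e2, add_zero] at m3
    have hx1 : |2 * (x : ℝ) - 1| ≤ 1 := hv.1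
    obtain ⟨g1, g2⟩ := hGi δ ⟨hδ, hδ1⟩ _ hx1 hx
    rw [m3]
    constructor
    · exact mul_pos hε (by linarith)
    · have : ε * (1 - (Gi δ (2 * (x : ℝ) - 1, 1)).2) ≤ ε * 1 :=
        mul_le_mul_of_nonneg_left (by linarith) hε.le
      linarith

theorem sq_K : ∃ f : I × I → I, Continuous f ∧ (∀ s, Function.Bijective fun x => f (s, x)) ∧
    (∀ x, f (0, x) = x) ∧ ∀ b : I, (b : ℝ) = 1 / 2 → (f (1, b) : ℝ) = 3 / 4 := by
  have hmem : ∀ s x : I, (x : ℝ) + s * (x * (1 - x)) ∈ Icc (0 : ℝ) 1 := by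
    intro s x
    have hs0 := s.2.1
    have hs1 := s.2.2
    have hx0 := x.2.1
    have hx1 := x.2.2
    have hxx : 0 ≤ (x : ℝ) * (1 - x) := mul_nonneg hx0 (by linarith)
    constructor
    · have := mul_nonneg hs0 hxx
      linarith
    · have h1 : (s : ℝ) * (x * (1 - x)) ≤ 1 * (x * (1 - x)) := mul_le_mul_of_nonneg_right hs1 hxx
      nlinarith [sq_nonneg (1 - (x : ℝ))]
  refine ⟨fun p => ⟨(p.2 : ℝ) + p.1 * (p.2 * (1 - p.2)), hmem p.1 p.2⟩, ?_, ?_, ?_, ?_⟩
  · exact Continuous.subtype_mk (by fun_prop) _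
  · intro s
    constructor
    · intro x y h
      have h' : (x : ℝ) + s * (x * (1 - x)) = (y : ℝ) + s * (y * (1 - y)) :=
        congrArg Subtype.val h
      by_contra hne
      have hne' : (x : ℝ) ≠ y := fun e => hne (Subtype.ext e)
      have h1 : ((x : ℝ) - y) * (1 + s * (1 - x - y)) = 0 := by
        linear_combination h'
      have h2 : 1 + (s : ℝ) * (1 - x - y) = 0 := by
        rcases mul_eq_zero.1 h1 with h3 | h3
        · exact absurd (sub_eq_zero.1 h3) hne'
        · exact h3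
      have hxy : (x : ℝ) + y < 2 := by
        rcases lt_or_gt_of_ne hne' with h4 | h4
        · linarith [y.2.2]
        · linarith [x.2.2]
      have hs0 := s.2.1
      have hs1 := s.2.2
      rcases hs0.eq_or_lt with h5 | h5
      · rw [← h5] at h2; norm_num at h2
      · nlinarith
    · intro y
      have hc : ContinuousOn (fun x : ℝ => x + (s : ℝ) * (x * (1 - x))) (Icc 0 1) := by
        fun_prop
      have hiv := intermediate_value_Icc (zero_le_one' ℝ) hc
      have hy : (y : ℝ) ∈ Icc ((0 : ℝ) + (s : ℝ) * (0 * (1 - 0))) (1 + (s : ℝ) * (1 * (1 - 1))) := by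
        constructor
        · have := y.2.1; linarith
        · have := y.2.2; linarith
      obtain ⟨x, hx, hxy⟩ := hiv hy
      exact ⟨⟨x, hx⟩, Subtype.ext hxy⟩
  · intro x
    apply Subtype.ext
    show (x : ℝ) + ((0 : I) : ℝ) * (x * (1 - x)) = x
    simp
  · intro b hb
    show (b : ℝ) + ((1 : I) : ℝ) * (b * (1 - b)) = 3 / 4
    rw [hb]
    simp only [Set.Icc.coe_one]
    norm_num

theorem sq_zero_ne (b : I) (hb : (b : ℝ) ≠ 1 / 2) (r : ℝ) (hr : 0 < r) :
    ∃ ρ : I × (I × I) → I × I, IsIso ρ ∧ (∀ s v, |((ρ (s, v)).1 : ℝ) - v.1| < r) ∧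
      (0 : ℝ) < (ρ (1, (0, b))).1 ∧ ((ρ (1, (0, b))).1 : ℝ) < 1 := by
  have hb2 : 0 < |2 * (b : ℝ) - 1| := by
    rw [abs_pos]; intro h; apply hb; linarith
  have hb3 : |2 * (b : ℝ) - 1| ≤ 1 := by
    rw [abs_le]; constructor <;> linarith [b.2.1, b.2.2]
  obtain ⟨ε, hε0, hε1, hεr⟩ : ∃ ε : ℝ, 0 < ε ∧ ε < 1 ∧ ε < r :=
    ⟨min (r / 2) (1 / 2), lt_min (by positivity) (by norm_num),
      lt_of_le_of_lt (min_le_right _ _) (by norm_num),
      lt_of_le_of_lt (min_le_left _ _) (by linarith)⟩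
  obtain ⟨H, h1, h2, h3, -, h5⟩ := planar (|2 * (b : ℝ) - 1| / 2) ε (by positivity)
    (by linarith) hε0 hε1
  have hs1 : ∀ p, (H.symm p).1 = p.1 := by
    intro p
    have := h1 (H.symm p)
    rw [H.apply_symm_apply] at this
    exact this.symm
  have hs3 : ∀ p : I × (I × I), ε ≤ (p.2.2 : ℝ) → H.symm p = p := by
    intro p hp
    have := h3 p hp
    exact (H.symm_apply_eq).2 this.symm
  have hs2 : ∀ v, H.symm (0, v) = (0, v) := by
    intro v
    exact (H.symm_apply_eq).2 (h2 v).symm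
  refine ⟨fun p => ((H.symm (p.1, (p.2.2, p.2.1))).2.2, (H.symm (p.1, (p.2.2, p.2.1))).2.1),
    ⟨?_, ?_, ?_⟩, ?_, ?_⟩
  · have hc : Continuous fun p : I × (I × I) => H.symm (p.1, (p.2.2, p.2.1)) :=
      H.symm.continuous.comp (by fun_prop)
    exact (hc.snd.snd).prodMk (hc.snd.fst)
  · intro s
    constructor
    · rintro ⟨t, x⟩ ⟨t', x'⟩ h
      simp only [Prod.mk.injEq] at h
      have e : H.symm (s, (x, t)) = H.symm (s, (x', t')) := by
        refine Prod.ext ?_ (Prod.ext h.2 h.1)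
        rw [hs1, hs1]
      have := H.symm.injective e
      simp only [Prod.mk.injEq, true_and] at this
      rw [this.1, this.2]
    · rintro ⟨t, x⟩
      refine ⟨((H (s, (x, t))).2.2, (H (s, (x, t))).2.1), ?_⟩
      have e : (s, ((H (s, (x, t))).2.1, (H (s, (x, t))).2.2)) = H (s, (x, t)) := by
        refine Prod.ext ?_ rfl
        exact (h1 (s, (x, t))).symm
      show ((H.symm (s, ((H (s, (x, t))).2.1, (H (s, (x, t))).2.2))).2.2,
        (H.symm (s, ((H (s, (x, t))).2.1, (H (s, (x, t))).2.2))).2.1) = (t, x)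
      rw [e, H.symm_apply_apply]
  · rintro ⟨t, x⟩
    show ((H.symm (0, (x, t))).2.2, (H.symm (0, (x, t))).2.1) = (t, x)
    rw [hs2]
  · rintro s ⟨t, x⟩
    show |((H.symm (s, (x, t))).2.2 : ℝ) - t| < r
    rcases le_or_gt ε (t : ℝ) with ht | ht
    · rw [hs3 (s, (x, t)) ht]
      show |(t : ℝ) - t| < r
      rw [sub_self, abs_zero]
      exact hr
    · have ht' : ((H.symm (s, (x, t))).2.2 : ℝ) < ε := by
        by_contra hcon
        push Not at hcon
        have e := h3 (H.symm (s, (x, t))) hcon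
        rw [H.apply_symm_apply] at e
        rw [← e] at hcon
        exact absurd hcon (not_le.2 ht)
      rw [abs_lt]
      constructor
      · linarith [(H.symm (s, (x, t))).2.2.2.1]
      · linarith [t.2.1]
  · exact h5 b (by linarith)

theorem sq_zero (b : I) (r : ℝ) (hr : 0 < r) :
    ∃ ρ : I × (I × I) → I × I, IsIso ρ ∧ (∀ s v, |((ρ (s, v)).1 : ℝ) - v.1| < r) ∧
      (0 : ℝ) < (ρ (1, (0, b))).1 ∧ ((ρ (1, (0, b))).1 : ℝ) < 1 := by
  by_cases hb : (b : ℝ) = 1 / 2
  · obtain ⟨f, hf1, hf2, hf3, hf4⟩ := sq_K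
    have hb' := hf4 b hb
    obtain ⟨ρ, hρ1, hρ2, hρ3, hρ4⟩ := sq_zero_ne (f (1, b)) (by rw [hb']; norm_num) r hr
    have hK : IsIso (fun p : I × (I × I) => (p.2.1, f (p.1, p.2.2))) := by
      refine ⟨?_, ?_, ?_⟩
      · exact (by fun_prop : Continuous fun p : I × (I × I) => p.2.1).prodMk
          (hf1.comp (by fun_prop))
      · intro s
        constructor
        · rintro ⟨t, x⟩ ⟨t', x'⟩ h
          simp only [Prod.mk.injEq] at h
          rw [h.1, (hf2 s).1 h.2]
        · rintro ⟨t, x⟩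
          obtain ⟨y, hy⟩ := (hf2 s).2 x
          exact ⟨(t, y), Prod.ext rfl hy⟩
      · rintro ⟨t, x⟩
        exact Prod.ext rfl (hf3 x)
    refine ⟨fun p => ρ (p.1, (p.2.1, f (p.1, p.2.2))), iso_comp hK hρ1, ?_, hρ3, hρ4⟩
    rintro s ⟨t, x⟩
    exact hρ2 s (t, f (s, x))
  · exact sq_zero_ne b hb r hr

/-- a boundary point of the square is moved off its side by an isotopy which is small in the
first coordinate -/
theorem sq (a b : I) (ha : a = 0 ∨ a = 1) (r : ℝ) (hr : 0 < r) :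
    ∃ ρ : I × (I × I) → I × I, IsIso ρ ∧ (∀ s v, |((ρ (s, v)).1 : ℝ) - v.1| < r) ∧
      (0 : ℝ) < (ρ (1, (a, b))).1 ∧ ((ρ (1, (a, b))).1 : ℝ) < 1 := by
  obtain ⟨ρ, ⟨hc, hbij, h0⟩, hρ2, hρ3, hρ4⟩ := sq_zero b r hr
  rcases ha with rfl | rfl
  · exact ⟨ρ, ⟨hc, hbij, h0⟩, hρ2, hρ3, hρ4⟩
  · refine ⟨fun p => (unitInterval.symm (ρ (p.1, (unitInterval.symm p.2.1, p.2.2))).1,
      (ρ (p.1, (unitInterval.symm p.2.1, p.2.2))).2), ⟨?_, ?_, ?_⟩, ?_, ?_, ?_⟩
    · have hc' : Continuous fun p : I × (I × I) =>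
          ρ (p.1, (unitInterval.symm p.2.1, p.2.2)) := hc.comp (by fun_prop)
      exact (unitInterval.continuous_symm.comp hc'.fst).prodMk hc'.snd
    · intro s
      constructor
      · rintro ⟨t, x⟩ ⟨t', x'⟩ h
        simp only [Prod.mk.injEq] at h
        have e1 := unitInterval.symm_bijective.1 h.1
        have e : ρ (s, (unitInterval.symm t, x)) = ρ (s, (unitInterval.symm t', x')) :=
          Prod.ext e1 h.2
        have := (hbij s).1 e
        simp only [Prod.mk.injEq] at this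
        rw [unitInterval.symm_bijective.1 this.1, this.2]
      · rintro ⟨t, x⟩
        obtain ⟨⟨t', x'⟩, h⟩ := (hbij s).2 (unitInterval.symm t, x)
        refine ⟨(unitInterval.symm t', x'), ?_⟩
        show (unitInterval.symm (ρ (s, (unitInterval.symm (unitInterval.symm t'), x'))).1,
          (ρ (s, (unitInterval.symm (unitInterval.symm t'), x'))).2) = (t, x)
        have h' : ρ (s, (t', x')) = (unitInterval.symm t, x) := h
        rw [unitInterval.symm_symm, h', unitInterval.symm_symm]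
    · rintro ⟨t, x⟩
      show (unitInterval.symm (ρ (0, (unitInterval.symm t, x))).1,
          (ρ (0, (unitInterval.symm t, x))).2) = (t, x)
      rw [h0, unitInterval.symm_symm]
    · rintro s ⟨t, x⟩
      show |((unitInterval.symm (ρ (s, (unitInterval.symm t, x))).1 : I) : ℝ) - t| < r
      have := hρ2 s (unitInterval.symm t, x)
      rw [unitInterval.coe_symm_eq] at this ⊢
      rw [abs_sub_comm] at this
      have e : 1 - ((ρ (s, (unitInterval.symm t, x))).1 : ℝ) - t =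
        1 - (t : ℝ) - ((ρ (s, (unitInterval.symm t, x))).1 : ℝ) := by ring
      rw [e]
      exact this
    · show (0 : ℝ) < (unitInterval.symm (ρ (1, (unitInterval.symm 1, b))).1 : I)
      rw [unitInterval.symm_one, unitInterval.coe_symm_eq]
      linarith
    · show ((unitInterval.symm (ρ (1, (unitInterval.symm 1, b))).1 : I) : ℝ) < 1
      rw [unitInterval.symm_one, unitInterval.coe_symm_eq]
      linarith

theorem two_coord {ρ : I × (I × I) → I × I} (hρ : IsIso ρ) (n m : ℕ) (hnm : n ≠ m) :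
    IsIso (fun p : I × Qc => (Function.update (Function.update p.2 n (ρ (p.1, (p.2 n, p.2 m))).1) m
      (ρ (p.1, (p.2 n, p.2 m))).2 : Qc)) := by
  obtain ⟨hc, hb, h0⟩ := hρ
  refine ⟨?_, ?_, ?_⟩
  · have h1 : Continuous fun p : I × Qc => ρ (p.1, (p.2 n, p.2 m)) := by
      refine hc.comp (continuous_fst.prodMk ?_)
      exact ((continuous_apply n).comp continuous_snd).prodMk
        ((continuous_apply m).comp continuous_snd)
    exact (continuous_snd.update n (continuous_fst.comp h1)).update m (continuous_snd.comp h1)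
  · intro s
    constructor
    · intro x y hxy
      have hn : (ρ (s, (x n, x m))).1 = (ρ (s, (y n, y m))).1 := by
        have := congrFun hxy n
        simpa [Function.update_of_ne hnm] using this
      have hm : (ρ (s, (x n, x m))).2 = (ρ (s, (y n, y m))).2 := by
        have := congrFun hxy m
        simpa using this
      have h1 : (x n, x m) = (y n, y m) := (hb s).1 (Prod.ext hn hm)
      funext i
      by_cases him : i = m
      · subst him
        exact congrArg Prod.snd h1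
      · by_cases hin : i = n
        · subst hin
          exact congrArg Prod.fst h1
        · have := congrFun hxy i
          simpa [Function.update_of_ne him, Function.update_of_ne hin] using this
    · intro y
      obtain ⟨⟨a, b⟩, hab⟩ := (hb s).2 (y n, y m)
      have hab' : ρ (s, (a, b)) = (y n, y m) := hab
      refine ⟨Function.update (Function.update y n a) m b, ?_⟩
      have e1 : (Function.update (Function.update y n a) m b : Qc) n = a := by
        rw [Function.update_of_ne hnm, Function.update_self]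
      have e2 : (Function.update (Function.update y n a) m b : Qc) m = b := by
        rw [Function.update_self]
      simp only [e1, e2, hab']
      funext i
      by_cases him : i = m
      · subst him
        simp
      · by_cases hin : i = n
        · subst hin
          simp [Function.update_of_ne him]
        · simp [Function.update_of_ne him, Function.update_of_ne hin]
  · intro x
    simp only [h0]
    simp

/-- limits of sequences of maps which are uniformly Cauchy in each coordinate -/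
theorem inf_iso_aux (h : ℕ → (I × Qc) → (I × Qc)) (hc : ∀ n, Continuous (h n))
    (h1 : ∀ n p, (h (n + 1) p).1 = (h n p).1)
    (h2 : ∀ n p, ∀ i < n + 1, |((h (n + 1) p).2 i : ℝ) - (h n p).2 i| < (1 / 2) ^ n) :
    ∃ F : (I × Qc) → (I × Qc), Continuous F ∧
      ∀ (q : ℕ → (I × Qc)) (x : I × Qc), Tendsto q atTop (𝓝 x) →
        Tendsto (fun n => h n (q n)) atTop (𝓝 (F x)) := by
  have h1' : ∀ n p, (h n p).1 = (h 0 p).1 := by
    intro n
    induction n with
    | zero => intro p; rfl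
    | succ n ih => intro p; rw [h1 n p, ih p]
  have hd : ∀ (p : I × Qc) (i m : ℕ),
      dist ((h (i + m) p).2 i) ((h (i + (m + 1)) p).2 i) ≤ 1 * (1 / 2 : ℝ) ^ m := by
    intro p i m
    rw [one_mul, dist_comm, Subtype.dist_eq, Real.dist_eq]
    have h3 := h2 (i + m) p i (by omega)
    rw [add_assoc] at h3
    refine h3.le.trans ?_
    exact pow_le_pow_of_le_one (by norm_num) (by norm_num) (by omega)
  have hlim : ∀ (p : I × Qc) (i : ℕ), ∃ L : I, Tendsto (fun m => (h (i + m) p).2 i) atTop (𝓝 L) :=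
    fun p i => cauchySeq_tendsto_of_complete
      (cauchySeq_of_le_geometric (1 / 2) 1 (by norm_num) (hd p i))
  choose L hL using hlim
  have hbd : ∀ (p : I × Qc) (i m : ℕ), dist ((h (i + m) p).2 i) (L p i) ≤ 2 * (1 / 2 : ℝ) ^ m := by
    intro p i m
    have h3 := dist_le_of_le_geometric_of_tendsto (1 / 2) 1 (by norm_num) (hd p i) (hL p i) m
    refine h3.trans (le_of_eq ?_)
    norm_num
    ring
  have hbd' : ∀ (i : ℕ) (ε : ℝ), 0 < ε → ∃ N, ∀ n ≥ N, ∀ p, dist ((h n p).2 i) (L p i) < ε := by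
    intro i ε hε
    obtain ⟨m, hm⟩ := exists_pow_lt_of_lt_one (show 0 < ε / 2 by positivity)
      (show (1 / 2 : ℝ) < 1 by norm_num)
    refine ⟨i + m, fun n hn p => ?_⟩
    obtain ⟨k, rfl⟩ := Nat.exists_eq_add_of_le (show i ≤ n by omega)
    have hk : m ≤ k := by omega
    calc dist ((h (i + k) p).2 i) (L p i) ≤ 2 * (1 / 2 : ℝ) ^ k := hbd p i k
      _ ≤ 2 * (1 / 2 : ℝ) ^ m := by
          have := pow_le_pow_of_le_one (show (0 : ℝ) ≤ 1 / 2 by norm_num) (by norm_num) hk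
          linarith
      _ < ε := by linarith
  have hLc : ∀ i, Continuous fun p => L p i := by
    intro i
    have hu : TendstoUniformly (fun n p => (h n p).2 i) (fun p => L p i) atTop := by
      rw [Metric.tendstoUniformly_iff]
      intro ε hε
      obtain ⟨N, hN⟩ := hbd' i ε hε
      filter_upwards [eventually_ge_atTop N] with n hn p
      rw [dist_comm]
      exact hN n hn p
    refine hu.continuous (Frequently.of_forall fun n => ?_)
    exact (continuous_apply i).comp (continuous_snd.comp (hc n))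
  refine ⟨fun p => ((h 0 p).1, fun i => L p i), ?_, ?_⟩
  · exact (continuous_fst.comp (hc 0)).prodMk (continuous_pi hLc)
  · intro q x hq
    rw [Prod.tendsto_iff]
    constructor
    · have h3 : Tendsto (fun n => (h 0 (q n)).1) atTop (𝓝 (h 0 x).1) :=
        ((continuous_fst.comp (hc 0)).tendsto x).comp hq
      refine h3.congr fun n => ?_
      exact (h1' n (q n)).symm
    · rw [tendsto_pi_nhds]
      intro i
      have h3 : Tendsto (fun n => L (q n) i) atTop (𝓝 (L x i)) :=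
        ((hLc i).tendsto x).comp hq
      rw [Metric.tendsto_atTop] at h3 ⊢
      intro ε hε
      obtain ⟨N1, hN1⟩ := h3 (ε / 2) (by positivity)
      obtain ⟨N2, hN2⟩ := hbd' i (ε / 2) (by positivity)
      refine ⟨max N1 N2, fun n hn => ?_⟩
      have e1 := hN1 n (le_trans (le_max_left _ _) hn)
      have e2 := hN2 n (le_trans (le_max_right _ _) hn) (q n)
      calc dist ((h n (q n)).2 i) (L x i) ≤ dist ((h n (q n)).2 i) (L (q n) i) +
            dist (L (q n) i) (L x i) := dist_triangle _ _ _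
        _ < ε := by linarith

/-- infinite compositions of homeomorphisms -/
theorem inf_iso (P : ℕ → ((I × Qc) ≃ₜ (I × Qc)) → Prop)
    (Rl : ℕ → ((I × Qc) ≃ₜ (I × Qc)) → ((I × Qc) ≃ₜ (I × Qc)) → Prop)
    (h0 : P 0 (Homeomorph.refl _))
    (hs : ∀ n g, P n g → ∀ (N : ℕ) (r : ℝ), 0 < r → ∃ g' : (I × Qc) ≃ₜ (I × Qc), P (n + 1) g' ∧
      Rl n g g' ∧ (∀ p, (g' p).1 = (g p).1) ∧ (∀ p, (g'.symm p).1 = (g.symm p).1) ∧
      (∀ p, ∀ i < N, |((g' p).2 i : ℝ) - (g p).2 i| < r) ∧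
      ∀ p, ∀ i < N, |((g'.symm p).2 i : ℝ) - (g.symm p).2 i| < r) :
    ∃ (g : ℕ → ((I × Qc) ≃ₜ (I × Qc))) (f : (I × Qc) ≃ₜ (I × Qc)),
      (∀ n, P n (g n) ∧ Rl n (g n) (g (n + 1))) ∧ ∀ p, Tendsto (fun n => g n p) atTop (𝓝 (f p)) := by
  choose next hnext using fun (n : ℕ) (g : {g // P n g}) =>
    hs n g.1 g.2 (n + 1) ((1 / 2) ^ n) (by positivity)
  let sq : ∀ n, {g // P n g} := fun n =>
    Nat.rec (motive := fun n => {g // P n g}) ⟨Homeomorph.refl _, h0⟩
      (fun n g => ⟨next n g, (hnext n g).1⟩) n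
  have hsq : ∀ n, (sq (n + 1)).1 = next n (sq n) := fun n => rfl
  obtain ⟨F, hF, hFl⟩ := inf_iso_aux (fun n => ((sq n).1 : (I × Qc) → (I × Qc)))
    (fun n => (sq n).1.continuous)
    (fun n p => by
      show ((sq (n + 1)).1 p).1 = _
      rw [hsq]
      exact (hnext n (sq n)).2.2.1 p)
    (fun n p i hi => by
      show |(((sq (n + 1)).1 p).2 i : ℝ) - _| < _
      rw [hsq]
      exact (hnext n (sq n)).2.2.2.2.1 p i hi)
  obtain ⟨F', hF', hFl'⟩ := inf_iso_aux (fun n => ((sq n).1.symm : (I × Qc) → (I × Qc)))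
    (fun n => (sq n).1.symm.continuous)
    (fun n p => by
      show ((sq (n + 1)).1.symm p).1 = _
      rw [hsq]
      exact (hnext n (sq n)).2.2.2.1 p)
    (fun n p i hi => by
      show |(((sq (n + 1)).1.symm p).2 i : ℝ) - _| < _
      rw [hsq]
      exact (hnext n (sq n)).2.2.2.2.2 p i hi)
  have e1 : ∀ p, F (F' p) = p := by
    intro p
    have h1 := hFl' (fun _ => p) p tendsto_const_nhds
    have h2 := hFl _ _ h1
    refine tendsto_nhds_unique h2 ?_
    refine tendsto_const_nhds.congr fun n => ?_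
    simp
  have e2 : ∀ p, F' (F p) = p := by
    intro p
    have h1 := hFl (fun _ => p) p tendsto_const_nhds
    have h2 := hFl' _ _ h1
    refine tendsto_nhds_unique h2 ?_
    refine tendsto_const_nhds.congr fun n => ?_
    simp
  refine ⟨fun n => (sq n).1, ⟨⟨F, F', e2, e1⟩, hF, hF'⟩, fun n => ⟨(sq n).2, ?_⟩, fun p => ?_⟩
  · show Rl n (sq n).1 (sq (n + 1)).1
    rw [hsq]
    exact (hnext n (sq n)).2.1
  · exact hFl (fun _ => p) p tendsto_const_nhds

/-- the inductive property in `push_good` -/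
def PP (z : Qc) (N : ℕ) (r : ℝ) (n : ℕ) (g : (I × Qc) ≃ₜ (I × Qc)) : Prop :=
  (∀ p, (g p).1 = p.1) ∧ (∀ x, g (0, x) = (0, x)) ∧
  (∀ i < n, (0 : ℝ) < (g (1, z)).2 i ∧ ((g (1, z)).2 i : ℝ) < 1) ∧
  ∀ p, ∀ i < N, |((g p).2 i : ℝ) - p.2 i| ≤ r * (1 - (1 / 2) ^ n)

theorem ps_closed (f : I × Qc → I × Qc) (hf : Continuous f) (N' : ℕ) (r' : ℝ) (k : ℕ) :
    IsClosed ({p : (I × Qc) × (I × Qc) | p.1.1 = p.2.1} ∩
      (⋂ i ∈ Set.Iio k, {p | |(p.1.2 i : ℝ) - p.2.2 i| ≤ 1 / ((k : ℝ) + 1)}) ∩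
      (⋃ i ∈ Set.Iio N', {p | r' ≤ |((f p.1).2 i : ℝ) - (f p.2).2 i|})) := by
  have hc : ∀ i, Continuous fun q : I × Qc => (q.2 i : ℝ) := fun i =>
    continuous_subtype_val.comp ((continuous_apply i).comp continuous_snd)
  refine IsClosed.inter (IsClosed.inter ?_ ?_) ?_
  · exact isClosed_eq (continuous_fst.comp continuous_fst) (continuous_fst.comp continuous_snd)
  · refine isClosed_biInter fun i _ => ?_
    exact isClosed_le (((hc i).comp continuous_fst).sub ((hc i).comp continuous_snd)).abs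
      continuous_const
  · refine (Set.finite_Iio N').isClosed_biUnion fun i _ => ?_
    exact isClosed_le continuous_const
      (((hc i).comp (hf.comp continuous_fst)).sub ((hc i).comp (hf.comp continuous_snd))).abs

theorem ps_unif (f : I × Qc → I × Qc) (hf : Continuous f) (N' : ℕ) (r' : ℝ) (hr' : 0 < r') :
    ∃ (k : ℕ) (ε : ℝ), 0 < ε ∧ ∀ q q' : I × Qc, q.1 = q'.1 →
      (∀ i < k, |(q.2 i : ℝ) - q'.2 i| ≤ ε) → ∀ i < N', |((f q).2 i : ℝ) - (f q').2 i| < r' := by
  by_contra hcon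
  push Not at hcon
  let C : ℕ → Set ((I × Qc) × (I × Qc)) := fun k =>
    {p | p.1.1 = p.2.1} ∩ (⋂ i ∈ Set.Iio k, {p | |(p.1.2 i : ℝ) - p.2.2 i| ≤ 1 / ((k : ℝ) + 1)}) ∩
      (⋃ i ∈ Set.Iio N', {p | r' ≤ |((f p.1).2 i : ℝ) - (f p.2).2 i|})
  have hne : (⋂ k, C k).Nonempty := by
    apply IsCompact.nonempty_iInter_of_sequence_nonempty_isCompact_isClosed C
    · intro k p hp
      obtain ⟨⟨h1, h2⟩, h3⟩ := hp
      refine ⟨⟨h1, ?_⟩, h3⟩
      rw [Set.mem_iInter₂] at h2 ⊢
      intro i hi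
      have h4 : |(p.1.2 i : ℝ) - p.2.2 i| ≤ 1 / (((k + 1 : ℕ) : ℝ) + 1) :=
        h2 i (lt_trans hi (Nat.lt_succ_self k))
      change |(p.1.2 i : ℝ) - p.2.2 i| ≤ 1 / ((k : ℝ) + 1)
      refine le_trans h4 ?_
      push_cast
      apply one_div_le_one_div_of_le
      · positivity
      · linarith
    · intro k
      obtain ⟨q, q', h1, h2, i, hi, h3⟩ := hcon k (1 / ((k : ℝ) + 1)) (by positivity)
      refine ⟨(q, q'), ⟨h1, ?_⟩, ?_⟩
      · rw [Set.mem_iInter₂]
        intro j hj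
        exact h2 j hj
      · rw [Set.mem_iUnion₂]
        exact ⟨i, hi, h3⟩
    · apply IsClosed.isCompact
      exact ps_closed f hf N' r' 0
    · intro k
      exact ps_closed f hf N' r' k
  obtain ⟨p, hp⟩ := hne
  rw [Set.mem_iInter] at hp
  have heq : p.1 = p.2 := by
    apply Prod.ext (hp 0).1.1
    funext i
    have hb : ∀ k : ℕ, i < k → |(p.1.2 i : ℝ) - p.2.2 i| ≤ 1 / ((k : ℝ) + 1) := by
      intro k hk
      have := (hp k).1.2
      rw [Set.mem_iInter₂] at this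
      exact this i hk
    have h0 : |(p.1.2 i : ℝ) - p.2.2 i| ≤ 0 := by
      refine ge_of_tendsto (tendsto_one_div_add_atTop_nhds_zero_nat (𝕜 := ℝ)) ?_
      filter_upwards [eventually_gt_atTop i] with k hk
      exact hb k hk
    have h1 : (p.1.2 i : ℝ) - p.2.2 i = 0 := abs_nonpos_iff.mp h0
    exact Subtype.ext (sub_eq_zero.mp h1)
  have h3 := (hp 0).2
  rw [Set.mem_iUnion₂] at h3
  obtain ⟨i, _, h4⟩ := h3
  simp only [Set.mem_setOf_eq] at h4
  rw [heq, sub_self, abs_zero] at h4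
  linarith

theorem push_step (z : Qc) (N : ℕ) (r : ℝ) (hr : 0 < r) (n : ℕ) (g : (I × Qc) ≃ₜ (I × Qc))
    (hg : PP z N r n g) (N' : ℕ) (r' : ℝ) (hr' : 0 < r') :
    ∃ g' : (I × Qc) ≃ₜ (I × Qc), PP z N r (n + 1) g' ∧ (∀ p, ∀ i < n, (g' p).2 i = (g p).2 i) ∧
      (∀ p, (g' p).1 = (g p).1) ∧ (∀ p, (g'.symm p).1 = (g.symm p).1) ∧
      (∀ p, ∀ i < N', |((g' p).2 i : ℝ) - (g p).2 i| < r') ∧
      ∀ p, ∀ i < N', |((g'.symm p).2 i : ℝ) - (g.symm p).2 i| < r' := by
  obtain ⟨hg1, hg2, hg3, hg4⟩ := hg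
  have hhalf : r * (1 - (1 / 2) ^ n) + r * (1 / 2) ^ (n + 1) = r * (1 - (1 / 2) ^ (n + 1)) := by
    rw [pow_succ]; ring
  have hpos : 0 < r * (1 / 2 : ℝ) ^ (n + 1) := by positivity
  by_cases hpn : (0 : ℝ) < (g (1, z)).2 n ∧ ((g (1, z)).2 n : ℝ) < 1
  · refine ⟨g, ⟨hg1, hg2, ?_, ?_⟩, fun _ _ _ => rfl, fun _ => rfl, fun _ => rfl, ?_, ?_⟩
    · intro i hi
      rcases Nat.lt_succ_iff_lt_or_eq.mp hi with h | h
      · exact hg3 i h
      · rw [h]; exact hpn
    · intro p i hi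
      exact (hg4 p i hi).trans (by linarith)
    · intro p i _; simpa using hr'
    · intro p i _; simpa using hr'
  have ha : (g (1, z)).2 n = 0 ∨ (g (1, z)).2 n = 1 := by
    by_contra h
    rw [not_or] at h
    apply hpn
    constructor
    · exact lt_of_le_of_ne ((g (1, z)).2 n).2.1 (fun h' => h.1 (Subtype.ext h'.symm))
    · exact lt_of_le_of_ne ((g (1, z)).2 n).2.2 (fun h' => h.2 (Subtype.ext h'))
  obtain ⟨N'', r'', hr'', hun⟩ := ps_unif g.symm g.symm.continuous N' r' hr'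
  let m : ℕ := max (n + 1) (max N'' (max N' N))
  have hmn : n < m := lt_of_lt_of_le (Nat.lt_succ_self n) (le_max_left _ _)
  have hm1 : N'' ≤ m := (le_max_left _ _).trans (le_max_right _ _)
  have hm2 : N' ≤ m := ((le_max_left _ _).trans (le_max_right _ _)).trans (le_max_right _ _)
  have hm3 : N ≤ m := ((le_max_right _ _).trans (le_max_right _ _)).trans (le_max_right _ _)
  let ε : ℝ := min r' (min r'' (r * (1 / 2) ^ (n + 1)))
  have hε : 0 < ε := lt_min hr' (lt_min hr'' hpos)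
  have hε1 : ε ≤ r' := min_le_left _ _
  have hε2 : ε ≤ r'' := (min_le_right _ _).trans (min_le_left _ _)
  have hε3 : ε ≤ r * (1 / 2) ^ (n + 1) := (min_le_right _ _).trans (min_le_right _ _)
  obtain ⟨ρ, hρ, hρ1, hρ2, hρ3⟩ := sq ((g (1, z)).2 n) ((g (1, z)).2 m) ha ε hε
  have hiso := two_coord hρ n m hmn.ne
  obtain ⟨R, hR⟩ := iso_homeo hiso
  have hRi : ∀ q : I × Qc, ∀ i, i ≠ n → i ≠ m → (R q).2 i = q.2 i := by
    intro q i h1 h2
    rw [hR]
    simp only [Function.update_of_ne h2, Function.update_of_ne h1]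
  have hRn : ∀ q : I × Qc, (R q).2 n = (ρ (q.1, (q.2 n, q.2 m))).1 := by
    intro q
    rw [hR]
    simp only [Function.update_of_ne hmn.ne, Function.update_self]
  have hRe : ∀ q : I × Qc, ∀ i, i ≠ m → |((R q).2 i : ℝ) - q.2 i| < ε := by
    intro q i h
    by_cases h1 : i = n
    · rw [h1, hRn]; exact hρ1 _ _
    · rw [hRi q i h1 h]; simpa using hε
  have hR1 : ∀ q, (R q).1 = q.1 := fun q => by rw [hR]
  have hRs1 : ∀ q, (R.symm q).1 = q.1 := fun q => by
    have := hR1 (R.symm q)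
    rw [R.apply_symm_apply] at this
    exact this.symm
  have hgs1 : ∀ q, (g.symm q).1 = q.1 := fun q => by
    have := hg1 (g.symm q)
    rw [g.apply_symm_apply] at this
    exact this.symm
  have hR0 : ∀ x, R (0, x) = (0, x) := by
    intro x
    rw [hR]
    exact Prod.ext rfl (hiso.2.2 x)
  refine ⟨g.trans R, ⟨?_, ?_, ?_, ?_⟩, ?_, ?_, ?_, ?_, ?_⟩
  · intro p
    rw [Homeomorph.trans_apply, hR1, hg1]
  · intro x
    rw [Homeomorph.trans_apply, hg2, hR0]
  · intro i hi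
    rw [Homeomorph.trans_apply]
    rcases Nat.lt_succ_iff_lt_or_eq.mp hi with h | h
    · rw [hRi _ i h.ne (h.trans hmn).ne]
      exact hg3 i h
    · rw [h, hRn, hg1]
      exact ⟨hρ2, hρ3⟩
  · intro p i hi
    rw [Homeomorph.trans_apply]
    have h1 := hRe (g p) i (lt_of_lt_of_le hi hm3).ne
    have h2 := hg4 p i hi
    have h3 : |((R (g p)).2 i : ℝ) - p.2 i| ≤
        |((R (g p)).2 i : ℝ) - (g p).2 i| + |((g p).2 i : ℝ) - p.2 i| := abs_sub_le _ _ _
    linarith
  · intro p i hi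
    rw [Homeomorph.trans_apply]
    exact hRi _ i hi.ne (hi.trans hmn).ne
  · intro p
    rw [Homeomorph.trans_apply, hR1]
  · intro p
    change (g.symm (R.symm p)).1 = _
    rw [hgs1, hgs1, hRs1]
  · intro p i hi
    rw [Homeomorph.trans_apply]
    exact (hRe (g p) i (lt_of_lt_of_le hi hm2).ne).trans_le hε1
  · intro p i hi
    change |((g.symm (R.symm p)).2 i : ℝ) - (g.symm p).2 i| < r'
    refine hun (R.symm p) p (hRs1 p) ?_ i hi
    intro j hj
    have h1 := hRe (R.symm p) j (lt_of_lt_of_le hj hm1).ne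
    rw [R.apply_symm_apply] at h1
    rw [abs_sub_comm]
    exact (h1.trans_le hε2).le

/-- every point can be moved into the pseudo-interior by a small isotopy -/
theorem push_good (z : Qc) (N : ℕ) (r : ℝ) (hr : 0 < r) :
    ∃ k : I × Qc → Qc, IsIso k ∧ (∀ s x, ∀ i < N, |(k (s, x) i : ℝ) - x i| ≤ r) ∧
      ∀ i, (0 : ℝ) < k (1, z) i ∧ (k (1, z) i : ℝ) < 1 := by
  obtain ⟨g, f, hg, hf⟩ := inf_iso (PP z N r)
    (fun n g g' => ∀ p, ∀ i < n, (g' p).2 i = (g p).2 i)
    (by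
      refine ⟨fun p => rfl, fun x => rfl, fun i hi => absurd hi (Nat.not_lt_zero i), ?_⟩
      intro p i _
      simp)
    (fun n g hg N' r' hr' => push_step z N r hr n g hg N' r' hr')
  have hf1 : ∀ p, (f p).1 = p.1 := by
    intro p
    have h1 : Tendsto (fun n => (g n p).1) atTop (𝓝 (f p).1) :=
      (continuous_fst.tendsto _).comp (hf p)
    have h2 : (fun n => (g n p).1) = fun _ => p.1 := by
      funext n
      exact (hg n).1.1 p
    rw [h2] at h1
    exact tendsto_nhds_unique h1 tendsto_const_nhds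
  have hf0 : ∀ x, f (0, x) = (0, x) := by
    intro x
    have h1 := hf (0, x)
    have h2 : (fun n => g n ((0 : I), x)) = fun _ => ((0 : I), x) := by
      funext n
      exact (hg n).1.2.1 x
    rw [h2] at h1
    exact tendsto_nhds_unique h1 tendsto_const_nhds
  have hcoord : ∀ p i, Tendsto (fun n => (g n p).2 i) atTop (𝓝 ((f p).2 i)) := by
    intro p i
    have hc : Continuous (fun q : I × Qc => q.2 i) := by fun_prop
    exact (hc.tendsto _).comp (hf p)
  have hstab : ∀ p i m, (g (i + 1 + m) p).2 i = (g (i + 1) p).2 i := by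
    intro p i m
    induction m with
    | zero => rfl
    | succ m ih =>
      rw [← ih]
      exact (hg (i + 1 + m)).2 p i (by omega)
  have hlim : ∀ p i, (f p).2 i = (g (i + 1) p).2 i := by
    intro p i
    have h1 := (hcoord p i).comp (tendsto_add_atTop_nat (i + 1))
    have h2 : ((fun n => (g n p).2 i) ∘ fun a => a + (i + 1)) = fun _ => (g (i + 1) p).2 i := by
      funext m
      simp only [Function.comp_apply]
      rw [add_comm m (i + 1)]
      exact hstab p i m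
    rw [h2] at h1
    exact (tendsto_nhds_unique h1 tendsto_const_nhds)
  refine ⟨fun p => (f p).2, ⟨?_, ?_, ?_⟩, ?_, ?_⟩
  · exact continuous_snd.comp f.continuous
  · intro s
    constructor
    · intro x y hxy
      have h1 : f (s, x) = f (s, y) := by
        apply Prod.ext
        · rw [hf1, hf1]
        · exact hxy
      have h2 := f.injective h1
      exact (Prod.ext_iff.mp h2).2
    · intro y
      have h1 : (f.symm (s, y)).1 = s := by
        have h2 := hf1 (f.symm (s, y))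
        rw [f.apply_symm_apply] at h2
        exact h2.symm
      refine ⟨(f.symm (s, y)).2, ?_⟩
      have h3 : (s, (f.symm (s, y)).2) = f.symm (s, y) := Prod.ext h1.symm rfl
      show (f (s, (f.symm (s, y)).2)).2 = y
      rw [h3, f.apply_symm_apply]
  · intro x
    show (f (0, x)).2 = x
    rw [hf0]
  · intro s x i hi
    have h1 : Tendsto (fun n => |((g n (s, x)).2 i : ℝ) - x i|) atTop
        (𝓝 |((f (s, x)).2 i : ℝ) - x i|) := by
      have h2 : Tendsto (fun n => ((g n (s, x)).2 i : ℝ)) atTop (𝓝 ((f (s, x)).2 i : ℝ)) :=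
        (continuous_subtype_val.tendsto _).comp (hcoord (s, x) i)
      exact (h2.sub_const _).abs
    apply le_of_tendsto h1
    refine Eventually.of_forall (fun n => ?_)
    have h3 := (hg n).1.2.2.2 (s, x) i hi
    refine h3.trans ?_
    have h4 : (0:ℝ) ≤ (1 / 2) ^ n := by positivity
    nlinarith
  · intro i
    have h1 := (hg (i + 1)).1.2.2.1 i (by omega)
    rw [← hlim (1, z) i] at h1
    exact h1

/-- local homogeneity of the Hilbert cube by small isotopies -/
theorem lhi (z z' : Qc) (N : ℕ) (r : ℝ) (hr : 0 < r) (hz : ∀ i < N, |(z i : ℝ) - z' i| < r / 8) :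
    ∃ k : I × Qc → Qc, IsIso k ∧ k (1, z) = z' ∧ ∀ s x, ∀ i < N, |(k (s, x) i : ℝ) - x i| < r := by
  obtain ⟨k1, hk1, hd1, hg⟩ := push_good z N (r / 8) (by positivity)
  obtain ⟨k2, hk2, hd2, hg'⟩ := push_good z' N (r / 8) (by positivity)
  obtain ⟨k3, hk3, hk3e, hd3⟩ := iso_good (k1 (1, z)) (k2 (1, z')) hg hg'
  obtain ⟨l2, hl2, hl2a, hl2b⟩ := iso_inv hk2
  refine ⟨_, iso_comp (iso_comp hk1 hk3) hl2, ?_, ?_⟩
  · show l2 (1, k3 (1, k1 (1, z))) = z'
    rw [hk3e, hl2a]
  · intro s x i hi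
    show |(l2 (s, k3 (s, k1 (s, x))) i : ℝ) - x i| < r
    have h1 := hd1 s x i hi
    have h3 := hd3 s (k1 (s, x)) i
    have h2 := hd2 s (l2 (s, k3 (s, k1 (s, x)))) i hi
    rw [hl2b] at h2
    have h4 := hd1 1 z i hi
    have h5 := hd2 1 z' i hi
    have h6 := hz i hi
    rw [abs_le] at h1 h3 h2 h4 h5
    rw [abs_lt] at h6 ⊢
    have h7 : |(k1 (1, z) i : ℝ) - k2 (1, z') i| ≤ 3 * r / 8 := by
      rw [abs_le]
      constructor <;> linarith [h4.1, h4.2, h5.1, h5.2, h6.1, h6.2]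
    constructor <;> linarith [h1.1, h1.2, h3.1, h3.2, h2.1, h2.2]

theorem trans_iso (z z' : Qc) : ∃ k : I × Qc → Qc, IsIso k ∧ k (1, z) = z' := by
  obtain ⟨k, h1, h2, -⟩ := lhi z z' 0 1 one_pos (fun i hi => absurd hi (Nat.not_lt_zero i))
  exact ⟨k, h1, h2⟩

theorem bing_rel_step {X : Type} [MetricSpace X] [CompactSpace X] {A : Set X}
    (hne : A.Nonempty)
    (H : ∀ ε > (0 : ℝ), ∃ h : X ≃ₜ X, (∀ x, ε ≤ infDist x A → h x = x) ∧ (∀ a ∈ A, h a ∈ A) ∧
      ∀ a ∈ A, ∀ b ∈ A, dist (h a) (h b) < ε) (g : X ≃ₜ X) (ε η : ℝ) (hε : 0 < ε) (hη : 0 < η) :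
    ∃ (g' : X ≃ₜ X) (ε' : ℝ), 0 < ε' ∧ ε' ≤ ε / 2 ∧ (∀ x, ε ≤ infDist x A → g' x = g x) ∧
      (∀ x, infDist x A < ε → ∃ x', infDist x' A < ε ∧ g' x = g x') ∧
      (∀ x y, infDist x A < ε' → infDist y A < ε' → dist (g' x) (g' y) < η) ∧
      ((∀ a ∈ A, g a ∈ A) → ∀ a ∈ A, g' a ∈ A) := by
  have huc : ∀ k : X ≃ₜ X, ∃ δ > (0 : ℝ), ∀ x y, dist x y < δ → dist (k x) (k y) < η / 3 := by
    intro k
    obtain ⟨δ, hδ, h⟩ := Metric.uniformContinuous_iff.1
      (CompactSpace.uniformContinuous_of_continuous k.continuous) (η / 3) (by positivity)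
    exact ⟨δ, hδ, fun x y hxy => h hxy⟩
  obtain ⟨δ, hδ, hg⟩ := huc g
  obtain ⟨h, h1, hhA, h2⟩ := H (min δ ε) (lt_min hδ hε)
  obtain ⟨δ2, hδ2, hg2⟩ := huc (h.trans g)
  refine ⟨h.trans g, min δ2 (ε / 2), lt_min hδ2 (by positivity), min_le_right _ _, ?_, ?_, ?_, fun hgA a ha => by rw [Homeomorph.trans_apply]; exact hgA _ (hhA a ha)⟩
  · intro x hx
    rw [Homeomorph.trans_apply, h1 x ((min_le_right _ _).trans hx)]
  · intro x hx
    refine ⟨h x, ?_, by rw [Homeomorph.trans_apply]⟩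
    by_contra hcon
    push Not at hcon
    have h3 := h1 (h x) ((min_le_right _ _).trans hcon)
    have h4 := h.injective h3
    rw [h4] at hcon
    linarith
  · intro x y hx hy
    obtain ⟨a, ha, hxa⟩ := (infDist_lt_iff hne).1 (lt_of_lt_of_le hx (min_le_left _ _))
    obtain ⟨b, hb, hyb⟩ := (infDist_lt_iff hne).1 (lt_of_lt_of_le hy (min_le_left _ _))
    have e1 := hg2 x a hxa
    have e2 := hg2 y b hyb
    have e3 : dist ((h.trans g) a) ((h.trans g) b) < η / 3 := by
      rw [Homeomorph.trans_apply, Homeomorph.trans_apply]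
      exact hg _ _ (lt_of_lt_of_le (h2 a ha b hb) (min_le_left _ _))
    have e4 := dist_triangle4 ((h.trans g) x) ((h.trans g) a) ((h.trans g) b) ((h.trans g) y)
    rw [dist_comm ((h.trans g) b) ((h.trans g) y)] at e4
    linarith

theorem bing_rel_seq {X : Type} [MetricSpace X] [CompactSpace X] {A : Set X}
    (hne : A.Nonempty)
    (H : ∀ ε > (0 : ℝ), ∃ h : X ≃ₜ X, (∀ x, ε ≤ infDist x A → h x = x) ∧ (∀ a ∈ A, h a ∈ A) ∧
      ∀ a ∈ A, ∀ b ∈ A, dist (h a) (h b) < ε) :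
    ∃ (G : ℕ → X ≃ₜ X) (e : ℕ → ℝ), (∀ n, 0 < e n) ∧ (∀ n, e (n + 1) ≤ e n / 2) ∧
      (∀ n x, e n ≤ infDist x A → G (n + 1) x = G n x) ∧
      (∀ n x, infDist x A < e n → ∃ x', infDist x' A < e n ∧ G (n + 1) x = G n x') ∧
      (∀ n x y, infDist x A < e n → infDist y A < e n → dist (G n x) (G n y) < (1 / 2 : ℝ) ^ n) ∧
      (∀ n, ∀ a ∈ A, G n a ∈ A) ∧ (∀ n x, 1 ≤ infDist x A → G n x = x) := by
  have step : ∀ (n : ℕ) (p : (X ≃ₜ X) × ℝ), ∃ q : (X ≃ₜ X) × ℝ, 0 < p.2 →
      (0 < q.2 ∧ q.2 ≤ p.2 / 2 ∧ (∀ x, p.2 ≤ infDist x A → q.1 x = p.1 x) ∧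
      (∀ x, infDist x A < p.2 → ∃ x', infDist x' A < p.2 ∧ q.1 x = p.1 x') ∧
      (∀ x y, infDist x A < q.2 → infDist y A < q.2 → dist (q.1 x) (q.1 y) < (1 / 2 : ℝ) ^ n) ∧
      ((∀ a ∈ A, p.1 a ∈ A) → ∀ a ∈ A, q.1 a ∈ A)) := by
    intro n p
    by_cases hp : 0 < p.2
    · obtain ⟨g', ε', h⟩ := bing_rel_step hne H p.1 p.2 ((1 / 2 : ℝ) ^ n) hp (by positivity)
      exact ⟨(g', ε'), fun _ => h⟩
    · exact ⟨p, fun h => absurd h hp⟩
  choose F hF using step
  obtain ⟨s, hs0, hs1⟩ : ∃ s : ℕ → (X ≃ₜ X) × ℝ, s 0 = F 0 (Homeomorph.refl X, 1) ∧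
      ∀ n, s (n + 1) = F (n + 1) (s n) :=
    ⟨fun n => Nat.rec (F 0 (Homeomorph.refl X, 1)) (fun n p => F (n + 1) p) n, rfl, fun _ => rfl⟩
  have hpos : ∀ n, 0 < (s n).2 := by
    intro n
    induction n with
    | zero =>
      rw [hs0]
      exact (hF 0 (Homeomorph.refl X, 1) one_pos).1
    | succ n ih =>
      rw [hs1]
      exact (hF (n + 1) (s n) ih).1
  have hA' : ∀ n, ∀ a ∈ A, (s n).1 a ∈ A := by
    intro n
    induction n with
    | zero =>
      rw [hs0]
      exact (hF 0 (Homeomorph.refl X, 1) one_pos).2.2.2.2.2 (fun a ha => ha)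
    | succ n ih =>
      rw [hs1]
      exact (hF (n + 1) (s n) (hpos n)).2.2.2.2.2 ih
  have hle1 : ∀ n, (s n).2 ≤ 1 := by
    intro n
    induction n with
    | zero =>
      rw [hs0]
      have := (hF 0 (Homeomorph.refl X, 1) one_pos).2.1
      have h2 : ((Homeomorph.refl X, (1 : ℝ)) : (X ≃ₜ X) × ℝ).2 / 2 ≤ 1 := by norm_num
      exact this.trans h2
    | succ n ih =>
      rw [hs1]
      have h3 := (hF (n + 1) (s n) (hpos n)).2.1
      have h4 := hpos n
      linarith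
  have hfar : ∀ n x, 1 ≤ infDist x A → (s n).1 x = x := by
    intro n
    induction n with
    | zero =>
      intro x hx
      rw [hs0]
      exact (hF 0 (Homeomorph.refl X, 1) one_pos).2.2.1 x hx
    | succ n ih =>
      intro x hx
      rw [hs1]
      rw [(hF (n + 1) (s n) (hpos n)).2.2.1 x ((hle1 n).trans hx)]
      exact ih x hx
  refine ⟨fun n => (s n).1, fun n => (s n).2, hpos, ?_, ?_, ?_, ?_, hA', hfar⟩
  · intro n
    show (s (n + 1)).2 ≤ _
    rw [hs1]
    exact (hF (n + 1) (s n) (hpos n)).2.1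
  · intro n x hx
    show (s (n + 1)).1 x = _
    rw [hs1]
    exact (hF (n + 1) (s n) (hpos n)).2.2.1 x hx
  · intro n x hx
    show ∃ x', _ ∧ (s (n + 1)).1 x = _
    rw [hs1]
    exact (hF (n + 1) (s n) (hpos n)).2.2.2.1 x hx
  · intro n
    cases n with
    | zero =>
      intro x y hx hy
      have h := (hF 0 (Homeomorph.refl X, 1) one_pos).2.2.2.2.1 x y
      rw [← hs0] at h
      exact h hx hy
    | succ n =>
      intro x y hx hy
      have h := (hF (n + 1) (s n) (hpos n)).2.2.2.2.1 x y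
      rw [← hs1] at h
      exact h hx hy


/-- Bing shrinking, relative version -/
theorem bing_rel {X : Type} [MetricSpace X] [CompactSpace X] {A : Set X} (hA : IsClosed A)
    (hne : A.Nonempty)
    (H : ∀ ε > (0 : ℝ), ∃ h : X ≃ₜ X, (∀ x, ε ≤ infDist x A → h x = x) ∧ (∀ a ∈ A, h a ∈ A) ∧
      ∀ a ∈ A, ∀ b ∈ A, dist (h a) (h b) < ε) :
    ∃ f : X → X, Continuous f ∧ Function.Surjective f ∧
      (∀ x y, f x = f y ↔ x = y ∨ (x ∈ A ∧ y ∈ A)) ∧ (∀ x, 1 ≤ infDist x A → f x = x) ∧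
      ∀ a ∈ A, f a ∈ A := by
  obtain ⟨G, e, he0, he1, hG1, hG2, hG3, hGA, hGfar⟩ := bing_rel_seq hne H
  have hdist : ∀ x n, dist (G n x) (G (n + 1) x) ≤ 1 * (1 / 2 : ℝ) ^ n := by
    intro x n
    rcases le_or_gt (e n) (infDist x A) with h | h
    · rw [hG1 n x h, dist_self]; positivity
    · obtain ⟨x', hx', h2⟩ := hG2 n x h
      rw [h2, one_mul]
      exact (hG3 n x x' h hx').le
  have hlim : ∀ x, ∃ y, Tendsto (fun n => G n x) atTop (𝓝 y) := fun x =>
    cauchySeq_tendsto_of_complete (cauchySeq_of_le_geometric (1 / 2) 1 (by norm_num) (hdist x))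
  choose f hf using hlim
  have hfd : ∀ x n, dist (G n x) (f x) ≤ 1 * (1 / 2 : ℝ) ^ n / (1 - 1 / 2) := fun x n =>
    dist_le_of_le_geometric_of_tendsto (1 / 2) 1 (by norm_num) (hdist x) (hf x) n
  have hfd' : ∀ x n, dist (G n x) (f x) ≤ 2 * (1 / 2 : ℝ) ^ n := by
    intro x n
    refine (hfd x n).trans (le_of_eq (by ring))
  have htend : Tendsto (fun n : ℕ => 2 * (1 / 2 : ℝ) ^ n) atTop (𝓝 0) := by
    have := (tendsto_pow_atTop_nhds_zero_of_lt_one (r := (1 / 2 : ℝ)) (by norm_num)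
      (by norm_num)).const_mul 2
    simpa using this
  have hcont : Continuous f := by
    have h1 : TendstoUniformly (fun n x => G n x) f atTop := by
      rw [Metric.tendstoUniformly_iff]
      intro ε hε
      filter_upwards [htend.eventually_lt_const hε] with n hn x
      rw [dist_comm]
      exact lt_of_le_of_lt (hfd' x n) hn
    exact h1.continuous (Filter.Eventually.of_forall fun n => (G n).continuous).frequently
  have hsurj : Function.Surjective f := by
    intro y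
    have h1 : y ∈ closure (range f) := by
      rw [Metric.mem_closure_range_iff]
      intro ε hε
      obtain ⟨n, hn⟩ := (htend.eventually_lt_const hε).exists
      refine ⟨(G n).symm y, ?_⟩
      have h2 := hfd' ((G n).symm y) n
      rw [Homeomorph.apply_symm_apply] at h2
      exact lt_of_le_of_lt h2 hn
    rw [(isCompact_range hcont).isClosed.closure_eq] at h1
    exact h1
  have hemono : Antitone e := antitone_nat_of_succ_le fun n => by
    have := he0 n
    have := he1 n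
    linarith
  have hesmall : ∀ r > (0 : ℝ), ∃ n, e n < r := by
    intro r hr
    have h1 : ∀ n, e n ≤ e 0 * (1 / 2 : ℝ) ^ n := by
      intro n
      induction n with
      | zero => simp
      | succ n ih =>
        have := he1 n
        rw [pow_succ]
        linarith
    have h2 : Tendsto (fun n : ℕ => e 0 * (1 / 2 : ℝ) ^ n) atTop (𝓝 0) := by
      have := (tendsto_pow_atTop_nhds_zero_of_lt_one (r := (1 / 2 : ℝ)) (by norm_num)
        (by norm_num)).const_mul (e 0)
      simpa using this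
    obtain ⟨n, hn⟩ := (h2.eventually_lt_const hr).exists
    exact ⟨n, lt_of_le_of_lt (h1 n) hn⟩
  -- values off `A`
  have hoff : ∀ x n, e n ≤ infDist x A → f x = G n x := by
    intro x n hn
    have h1 : ∀ m, n ≤ m → G m x = G n x := by
      intro m hm
      induction m, hm using Nat.le_induction with
      | base => rfl
      | succ m hm ih => rw [hG1 m x ((hemono hm).trans hn), ih]
    refine tendsto_nhds_unique (hf x) ?_
    refine tendsto_const_nhds.congr' ?_
    filter_upwards [eventually_ge_atTop n] with m hm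
    exact (h1 m hm).symm
  have hposA : ∀ x, x ∉ A → 0 < infDist x A := fun x hx =>
    (hA.notMem_iff_infDist_pos hne).1 hx
  have hin : ∀ a ∈ A, ∀ n, infDist a A < e n := fun a ha n => by
    rw [infDist_zero_of_mem ha]; exact he0 n
  have hconst : ∀ a ∈ A, ∀ b ∈ A, f a = f b := by
    intro a ha b hb
    have h1 : Tendsto (fun n => dist (G n a) (G n b)) atTop (𝓝 (dist (f a) (f b))) :=
      (hf a).dist (hf b)
    have h2 : Tendsto (fun n => dist (G n a) (G n b)) atTop (𝓝 0) := by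
      refine squeeze_zero (fun n => dist_nonneg)
        (fun n => (hG3 n a b (hin a ha n) (hin b hb n)).le) ?_
      exact tendsto_pow_atTop_nhds_zero_of_lt_one (by norm_num) (by norm_num)
    exact dist_eq_zero.1 (tendsto_nhds_unique h1 h2)
  have hnest : ∀ n m, n ≤ m → ∀ x, infDist x A < e m →
      ∃ x', infDist x' A < e n ∧ G m x = G n x' := by
    intro n m hm
    induction m, hm using Nat.le_induction with
    | base => exact fun x hx => ⟨x, hx, rfl⟩
    | succ m hm ih =>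
      intro x hx
      obtain ⟨x1, hx1, h1⟩ := hG2 m x (lt_of_lt_of_le hx (hemono (Nat.le_succ m)))
      obtain ⟨x2, hx2, h2⟩ := ih x1 hx1
      exact ⟨x2, hx2, h1.trans h2⟩
  have hsep : ∀ x, x ∉ A → ∀ a ∈ A, f x ≠ f a := by
    intro x hx a ha hxa
    obtain ⟨n, hn⟩ := hesmall _ (hposA x hx)
    have h1 : IsClosed ((G n) '' {z | infDist z A ≤ e n}) :=
      (G n).isClosedMap _ (isClosed_le (continuous_infDist_pt A) continuous_const)
    have h2 : f a ∈ (G n) '' {z | infDist z A ≤ e n} := by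
      refine h1.mem_of_tendsto (hf a) ?_
      filter_upwards [eventually_ge_atTop n] with m hm
      obtain ⟨x', hx', h3⟩ := hnest n m hm a (hin a ha m)
      exact ⟨x', hx'.le, h3.symm⟩
    obtain ⟨z, hz, hz2⟩ := h2
    rw [← hxa, hoff x n hn.le] at hz2
    have h3 := (G n).injective hz2
    rw [h3] at hz
    have hz' : infDist x A ≤ e n := hz
    linarith
  refine ⟨f, hcont, hsurj, fun x y => ⟨fun hxy => ?_, ?_⟩, fun x hx => ?_, fun a ha => ?_⟩
  · by_cases hx : x ∈ A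
    · by_cases hy : y ∈ A
      · exact Or.inr ⟨hx, hy⟩
      · exact absurd hxy.symm (hsep y hy x hx)
    · by_cases hy : y ∈ A
      · exact absurd hxy (hsep x hx y hy)
      · left
        obtain ⟨n, hn⟩ := hesmall (min (infDist x A) (infDist y A))
          (lt_min (hposA x hx) (hposA y hy))
        rw [hoff x n (hn.le.trans (min_le_left _ _)), hoff y n (hn.le.trans (min_le_right _ _))]
          at hxy
        exact (G n).injective hxy
  · rintro (h | ⟨hx, hy⟩)
    · rw [h]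
    · exact hconst x hx y hy
  · refine tendsto_nhds_unique (hf x) ?_
    have : (fun n => G n x) = fun _ => x := funext fun n => hGfar n x hx
    rw [this]
    exact tendsto_const_nhds
  · exact hA.mem_of_tendsto (hf a) (Filter.Eventually.of_forall fun n => hGA n a ha)

theorem shrink_lift (φ : (I × I) ≃ₜ (I × I)) (n : ℕ) :
    ∃ h : (Qc × I) ≃ₜ (Qc × I), ∀ p : Qc × I,
      h p = (Function.update p.1 n (φ (p.1 n, p.2)).1, (φ (p.1 n, p.2)).2) := by
  have hc : ∀ ψ : (I × I) ≃ₜ (I × I), Continuous (fun p : Qc × I =>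
      ((Function.update p.1 n (ψ (p.1 n, p.2)).1, (ψ (p.1 n, p.2)).2) : Qc × I)) := by
    intro ψ
    have h1 : Continuous (fun p : Qc × I => ψ (p.1 n, p.2)) :=
      ψ.continuous.comp (((continuous_apply n).comp continuous_fst).prodMk continuous_snd)
    exact (continuous_fst.update n (continuous_fst.comp h1)).prodMk (continuous_snd.comp h1)
  refine ⟨{ toFun := fun p => (Function.update p.1 n (φ (p.1 n, p.2)).1, (φ (p.1 n, p.2)).2)
            invFun := fun p => (Function.update p.1 n (φ.symm (p.1 n, p.2)).1,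
              (φ.symm (p.1 n, p.2)).2)
            left_inv := ?_
            right_inv := ?_
            continuous_toFun := hc φ
            continuous_invFun := hc φ.symm }, fun p => rfl⟩
  · intro p
    refine Prod.ext ?_ ?_
    · show Function.update (Function.update p.1 n (φ (p.1 n, p.2)).1) n
        (φ.symm ((Function.update p.1 n (φ (p.1 n, p.2)).1) n, (φ (p.1 n, p.2)).2)).1 = p.1
      rw [Function.update_self, Function.update_idem, Prod.mk.eta, Homeomorph.symm_apply_apply]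
      exact Function.update_eq_self n p.1
    · show (φ.symm ((Function.update p.1 n (φ (p.1 n, p.2)).1) n, (φ (p.1 n, p.2)).2)).2 = p.2
      rw [Function.update_self, Prod.mk.eta, Homeomorph.symm_apply_apply]
  · intro p
    refine Prod.ext ?_ ?_
    · show Function.update (Function.update p.1 n (φ.symm (p.1 n, p.2)).1) n
        (φ ((Function.update p.1 n (φ.symm (p.1 n, p.2)).1) n, (φ.symm (p.1 n, p.2)).2)).1 = p.1
      rw [Function.update_self, Function.update_idem, Prod.mk.eta, Homeomorph.apply_symm_apply]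
      exact Function.update_eq_self n p.1
    · show (φ ((Function.update p.1 n (φ.symm (p.1 n, p.2)).1) n, (φ.symm (p.1 n, p.2)).2)).2 = p.2
      rw [Function.update_self, Prod.mk.eta, Homeomorph.apply_symm_apply]

theorem shrink_slice (H : (I × (I × I)) ≃ₜ (I × (I × I))) (hH : ∀ p, (H p).1 = p.1) :
    ∃ φ : (I × I) ≃ₜ (I × I), ∀ v, φ v = (H (1, v)).2 := by
  have hH' : ∀ p, (H.symm p).1 = p.1 := by
    intro p
    have := hH (H.symm p)
    rw [Homeomorph.apply_symm_apply] at this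
    exact this.symm
  refine ⟨{ toFun := fun v => (H (1, v)).2
            invFun := fun v => (H.symm (1, v)).2
            left_inv := ?_
            right_inv := ?_
            continuous_toFun := by fun_prop
            continuous_invFun := by fun_prop }, fun v => rfl⟩
  · intro v
    show (H.symm (1, (H (1, v)).2)).2 = v
    have : ((1 : I), (H (1, v)).2) = H (1, v) := Prod.ext (hH (1, v)).symm rfl
    rw [this, Homeomorph.symm_apply_apply]
  · intro v
    show (H (1, (H.symm (1, v)).2)).2 = v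
    have : ((1 : I), (H.symm (1, v)).2) = H.symm (1, v) := Prod.ext (hH' (1, v)).symm rfl
    rw [this, Homeomorph.apply_symm_apply]

/-- shrinking the face of the cube -/
theorem shrink (N : ℕ) (δ ε : ℝ) (hδ : 0 < δ) (hδ1 : δ ≤ 1) (hε : 0 < ε) (hε1 : ε < 1) :
    ∃ h : (Qc × I) ≃ₜ (Qc × I), (∀ p : Qc × I, ε ≤ (p.2 : ℝ) → h p = p) ∧
      (∀ x, (h (x, 0)).2 = 0) ∧ ∀ x, ∀ i < N, |2 * ((h (x, 0)).1 i : ℝ) - 1| ≤ δ := by
  obtain ⟨H, h1, -, h3, h4, -⟩ := planar δ ε hδ hδ1 hε hε1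
  obtain ⟨φ, hφ⟩ := shrink_slice H h1
  have p1 : ∀ v : I × I, ε ≤ (v.2 : ℝ) → φ v = v := by
    intro v hv
    rw [hφ, h3 (1, v) hv]
  have p2 : ∀ x : I, |2 * ((φ (x, 0)).1 : ℝ) - 1| ≤ δ ∧ (φ (x, 0)).2 = 0 := by
    intro x
    rw [hφ]
    exact h4 x
  induction N with
  | zero =>
    exact ⟨Homeomorph.refl _, fun p _ => rfl, fun x => rfl, fun x i hi => absurd hi (Nat.not_lt_zero i)⟩
  | succ N ih =>
    obtain ⟨h, q1, q2, q3⟩ := ih
    obtain ⟨k, hk⟩ := shrink_lift φ N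
    refine ⟨h.trans k, ?_, ?_, ?_⟩
    · intro p hp
      show k (h p) = p
      rw [q1 p hp, hk, p1 (p.1 N, p.2) hp]
      exact Prod.ext (Function.update_eq_self N p.1) rfl
    · intro x
      show (k (h (x, 0))).2 = 0
      rw [hk]
      show (φ ((h (x, 0)).1 N, (h (x, 0)).2)).2 = 0
      rw [q2]
      exact (p2 _).2
    · intro x i hi
      show |2 * ((k (h (x, 0))).1 i : ℝ) - 1| ≤ δ
      rw [hk]
      show |2 * ((Function.update (h (x, 0)).1 N (φ ((h (x, 0)).1 N, (h (x, 0)).2)).1 i : I) : ℝ) - 1| ≤ δ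
      rcases Nat.lt_succ_iff_lt_or_eq.1 hi with hlt | heq
      · rw [Function.update_of_ne hlt.ne]
        exact q3 x i hlt
      · rw [heq, Function.update_self, q2]
        exact (p2 _).1

theorem cone_small (D : Qc × Qc → ℝ) (hD : Continuous D) (hD0 : ∀ x, D (x, x) = 0) (ε : ℝ)
    (hε : 0 < ε) : ∃ (N : ℕ) (δ : ℝ), 0 < δ ∧ δ ≤ 1 ∧
      ∀ x y : Qc, (∀ i < N, |(x i : ℝ) - y i| ≤ δ) → D (x, y) < ε := by
  have hcl : ∀ n : ℕ, IsClosed {p : Qc × Qc | ε ≤ D p ∧
      ∀ i < n, |(p.1 i : ℝ) - p.2 i| ≤ 1 / ((n : ℝ) + 1)} := by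
    intro n
    have e : {p : Qc × Qc | ε ≤ D p ∧ ∀ i < n, |(p.1 i : ℝ) - p.2 i| ≤ 1 / ((n : ℝ) + 1)} =
        {p | ε ≤ D p} ∩ ⋂ i, ⋂ (_ : i < n), {p : Qc × Qc | |(p.1 i : ℝ) - p.2 i| ≤ 1 / ((n : ℝ) + 1)} := by
      ext p; simp
    rw [e]
    refine (isClosed_le continuous_const hD).inter ?_
    refine isClosed_iInter fun i => isClosed_iInter fun _ => ?_
    refine isClosed_le ?_ continuous_const
    have h1 : Continuous fun p : Qc × Qc => (p.1 i : ℝ) :=
      continuous_subtype_val.comp ((continuous_apply i).comp continuous_fst)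
    have h2 : Continuous fun p : Qc × Qc => (p.2 i : ℝ) :=
      continuous_subtype_val.comp ((continuous_apply i).comp continuous_snd)
    exact (h1.sub h2).abs
  by_contra hcon
  push Not at hcon
  have hne := IsCompact.nonempty_iInter_of_sequence_nonempty_isCompact_isClosed
    (fun n : ℕ => {p : Qc × Qc | ε ≤ D p ∧ ∀ i < n, |(p.1 i : ℝ) - p.2 i| ≤ 1 / ((n : ℝ) + 1)})
    (by
      intro n p hp
      refine ⟨hp.1, fun i hi => ?_⟩
      have h1 := hp.2 i (by omega)
      have h2 : (1 : ℝ) / (((n + 1 : ℕ) : ℝ) + 1) ≤ 1 / ((n : ℝ) + 1) := by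
        apply one_div_le_one_div_of_le (by positivity)
        push_cast; linarith
      exact h1.trans h2)
    (by
      intro n
      have h1 : (1 : ℝ) / ((n : ℝ) + 1) ≤ 1 := by
        rw [div_le_one (by positivity)]
        have : (0 : ℝ) ≤ n := Nat.cast_nonneg n
        linarith
      obtain ⟨x, y, hxy, hD'⟩ := hcon n (1 / ((n : ℝ) + 1)) (by positivity) h1
      exact ⟨(x, y), hD', hxy⟩)
    (hcl 0).isCompact hcl
  obtain ⟨p, hp⟩ := hne
  rw [mem_iInter] at hp
  have heq : p.1 = p.2 := by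
    funext i
    apply Subtype.ext
    have hle : ∀ n : ℕ, i < n → |(p.1 i : ℝ) - p.2 i| ≤ 1 / ((n : ℝ) + 1) := fun n hn =>
      (hp n).2 i hn
    have h0 : |(p.1 i : ℝ) - p.2 i| ≤ 0 := by
      refine ge_of_tendsto (tendsto_one_div_add_atTop_nhds_zero_nat (𝕜 := ℝ)) ?_
      filter_upwards [eventually_gt_atTop i] with n hn
      exact hle n hn
    have := abs_nonpos_iff.mp h0
    linarith
  have h1 := (hp 0).1
  have h2 : p = (p.1, p.1) := Prod.ext rfl heq.symm
  rw [h2, hD0] at h1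
  linarith

theorem cone_aux (Q : Type) [MetricSpace Q] [CompactSpace Q] [Nonempty Q]
    (hs : ∀ ε > (0 : ℝ), ∃ h : (Q × I) ≃ₜ (Q × I), (∀ p : Q × I, ε ≤ (p.2 : ℝ) → h p = p) ∧
      (∀ x, (h (x, 0)).2 = 0) ∧ ∀ x y, dist (h (x, 0)).1 (h (y, 0)).1 < ε) :
    ∃ (x0 : Q) (c : C(Q × I, Q × I)), Function.Surjective c ∧
    (∀ x, c (x, 1) = (x, 1)) ∧ (∀ x, c (x, 0) = (x0, 0)) ∧
    ∀ p q, c p = c q → p = q ∨ (p.2 = 0 ∧ q.2 = 0) := by
  obtain ⟨q0⟩ := ‹Nonempty Q›
  set A : Set (Q × I) := {p | p.2 = 0} with hA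
  have hAne : A.Nonempty := ⟨(q0, 0), rfl⟩
  have hinf : ∀ p : Q × I, infDist p A = (p.2 : ℝ) := by
    intro p
    apply le_antisymm
    · refine (infDist_le_dist_of_mem (show (p.1, (0 : I)) ∈ A from rfl)).trans ?_
      rw [Prod.dist_eq]
      simp only [dist_self]
      rw [max_eq_right dist_nonneg, Subtype.dist_eq, Real.dist_eq]
      simp [abs_of_nonneg p.2.2.1]
    · refine (le_infDist hAne).mpr fun q hq => ?_
      have hq' : q.2 = 0 := hq
      have h1 : dist p.2 q.2 ≤ dist p q := by rw [Prod.dist_eq]; exact le_max_right _ _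
      rw [hq', Subtype.dist_eq, Real.dist_eq] at h1
      simpa [abs_of_nonneg p.2.2.1] using h1
  obtain ⟨f, hfc, hfs, hff, hf1, hfA⟩ := bing_rel (X := Q × I) (A := A)
    (isClosed_eq continuous_snd continuous_const) hAne (by
      intro ε hε
      obtain ⟨h, h1, h2, h3⟩ := hs ε hε
      refine ⟨h, ?_, ?_, ?_⟩
      · intro x hx
        rw [hinf] at hx
        exact h1 x hx
      · rintro ⟨x, t⟩ ha
        have ht : t = 0 := ha
        subst ht
        exact h2 x
      · rintro ⟨x, t⟩ ha ⟨y, t'⟩ hb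
        have ht : t = 0 := ha
        have ht' : t' = 0 := hb
        subst ht; subst ht'
        rw [Prod.dist_eq, h2, h2, dist_self]
        exact max_lt (h3 x y) hε)
  have hx0 : (f (q0, 0)).2 = 0 := hfA (q0, 0) rfl
  refine ⟨(f (q0, 0)).1, ⟨f, hfc⟩, hfs, ?_, ?_, ?_⟩
  · intro x
    apply hf1
    rw [hinf]
    simp
  · intro x
    show f (x, 0) = _
    have h1 : f (x, 0) = f (q0, 0) := (hff _ _).mpr (Or.inr ⟨rfl, rfl⟩)
    rw [h1]
    exact Prod.ext rfl hx0
  · intro p q hpq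
    exact (hff p q).mp hpq

/-- the cone over the Hilbert cube -/
theorem cone : ∃ (x0 : Qc) (c : C(Qc × I, Qc × I)), Function.Surjective c ∧
    (∀ x, c (x, 1) = (x, 1)) ∧ (∀ x, c (x, 0) = (x0, 0)) ∧
    ∀ p q, c p = c q → p = q ∨ (p.2 = 0 ∧ q.2 = 0) := by
  letI M : MetricSpace Qc := TopologicalSpace.metrizableSpaceMetric Qc
  refine cone_aux Qc ?_
  intro ε hε
  have hc : Continuous (fun p : Qc × Qc => dist p.1 p.2) := continuous_dist
  obtain ⟨N, δ, hδ, hδ1, hsm⟩ := cone_small (fun p => dist p.1 p.2) hc (fun x => dist_self x) ε hε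
  obtain ⟨h, h1, h2, h3⟩ := shrink N δ (min ε (1/2)) hδ hδ1 (lt_min hε (by norm_num))
    (lt_of_le_of_lt (min_le_right _ _) (by norm_num))
  refine ⟨h, fun p hp => h1 p ((min_le_left _ _).trans hp), h2, fun x y => ?_⟩
  apply hsm
  intro i hi
  have h4 := abs_le.mp (h3 x i hi)
  have h5 := abs_le.mp (h3 y i hi)
  rw [abs_le]
  constructor <;> linarith [h4.1, h4.2, h5.1, h5.2]

/-- half of a point of the interval -/
def hfI (s : I) : I := ⟨(s : ℝ) / 2, by constructor <;> linarith [s.2.1, s.2.2]⟩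

theorem hfI_cont : Continuous hfI := by
  unfold hfI
  fun_prop

/-- twice -/
def dbI (t : I) : I := Set.projIcc 0 1 zero_le_one (2 * (t : ℝ))

theorem dbI_cont : Continuous dbI := by
  unfold dbI
  exact continuous_projIcc.comp (by fun_prop)

theorem dbI_coe (t : I) (ht : (t : ℝ) ≤ 1 / 2) : (dbI t : ℝ) = 2 * t := by
  unfold dbI
  rw [Set.projIcc_of_mem zero_le_one ⟨by linarith [t.2.1], by linarith⟩]

theorem dbI_symm_coe (t : I) (ht : 1 / 2 ≤ (t : ℝ)) :
    (dbI (unitInterval.symm t) : ℝ) = 2 - 2 * t := by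
  rw [dbI_coe _ (by rw [unitInterval.coe_symm_eq]; linarith), unitInterval.coe_symm_eq]
  ring

theorem ends : ∃ (a b : Qc) (c : C(Qc × I, Qc × I)), Function.Surjective c ∧
    (∀ x, c (x, 0) = (a, 0)) ∧ (∀ x, c (x, 1) = (b, 1)) ∧
    ∀ p q, c p = c q → p = q ∨ (p.2 = 0 ∧ q.2 = 0) ∨ (p.2 = 1 ∧ q.2 = 1) := by
  obtain ⟨x0, c', hsurj, h1, h0, hinj⟩ := cone
  -- the two halves
  let lo : Qc × I → Qc × I := fun p => ((c' (p.1, dbI p.2)).1, hfI (c' (p.1, dbI p.2)).2)
  let hi : Qc × I → Qc × I := fun p =>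
    ((c' (p.1, dbI (unitInterval.symm p.2))).1,
      unitInterval.symm (hfI (c' (p.1, dbI (unitInterval.symm p.2))).2))
  have hlo : Continuous lo := by
    have e1 : Continuous fun p : Qc × I => c' (p.1, dbI p.2) :=
      c'.continuous.comp (continuous_fst.prodMk (dbI_cont.comp continuous_snd))
    exact (continuous_fst.comp e1).prodMk (hfI_cont.comp (continuous_snd.comp e1))
  have hhi : Continuous hi := by
    have e1 : Continuous fun p : Qc × I => c' (p.1, dbI (unitInterval.symm p.2)) :=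
      c'.continuous.comp (continuous_fst.prodMk
        (dbI_cont.comp (unitInterval.continuous_symm.comp continuous_snd)))
    exact (continuous_fst.comp e1).prodMk
      (unitInterval.continuous_symm.comp (hfI_cont.comp (continuous_snd.comp e1)))
  have hagree : ∀ p : Qc × I, (p.2 : ℝ) = 1 / 2 → lo p = hi p := by
    intro p hp
    have e1 : dbI p.2 = 1 := by
      apply Subtype.ext
      rw [dbI_coe _ hp.le, hp]
      norm_num
    have e2 : dbI (unitInterval.symm p.2) = 1 := by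
      apply Subtype.ext
      rw [dbI_symm_coe _ hp.ge, hp]
      norm_num
    simp only [lo, hi, e1, e2, h1]
    rw [Prod.mk.injEq]
    refine ⟨rfl, ?_⟩
    apply Subtype.ext
    rw [unitInterval.coe_symm_eq]
    simp only [hfI]
    norm_num
  let c : C(Qc × I, Qc × I) := ⟨fun p => if (p.2 : ℝ) ≤ 1 / 2 then lo p else hi p,
    Continuous.if_le hlo hhi (continuous_subtype_val.comp continuous_snd) continuous_const hagree⟩
  have hc1 : ∀ p : Qc × I, (p.2 : ℝ) ≤ 1 / 2 → c p = lo p := fun p hp => if_pos hp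
  have hc2 : ∀ p : Qc × I, 1 / 2 ≤ (p.2 : ℝ) → c p = hi p := by
    intro p hp
    rcases hp.lt_or_eq with h | h
    · exact if_neg (not_le.2 h)
    · rw [hc1 p h.ge, hagree p h.symm]
  have hlo2 : ∀ p : Qc × I, ((lo p).2 : ℝ) = ((c' (p.1, dbI p.2)).2 : ℝ) / 2 := fun p => rfl
  have hhi2 : ∀ p : Qc × I, ((hi p).2 : ℝ) =
      1 - ((c' (p.1, dbI (unitInterval.symm p.2))).2 : ℝ) / 2 := by
    intro p
    change ((unitInterval.symm _ : I) : ℝ) = _
    rw [unitInterval.coe_symm_eq]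
    rfl
  refine ⟨x0, x0, c, ?_, ?_, ?_, ?_⟩
  · -- surjective
    rintro ⟨y, s⟩
    by_cases hs : (s : ℝ) ≤ 1 / 2
    · obtain ⟨⟨x, t'⟩, hx⟩ := hsurj (y, dbI s)
      refine ⟨(x, hfI t'), ?_⟩
      have ht : ((hfI t' : I) : ℝ) ≤ 1 / 2 := by
        simp only [hfI]
        linarith [t'.2.2]
      rw [hc1 _ ht]
      have e1 : dbI (hfI t') = t' := by
        apply Subtype.ext
        rw [dbI_coe _ ht]
        simp only [hfI]
        ring
      simp only [lo, e1, hx]
      rw [Prod.mk.injEq]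
      refine ⟨rfl, ?_⟩
      apply Subtype.ext
      simp only [hfI]
      rw [dbI_coe _ hs]
      ring
    · have hs' : 1 / 2 ≤ (s : ℝ) := (not_le.1 hs).le
      obtain ⟨⟨x, t'⟩, hx⟩ := hsurj (y, dbI (unitInterval.symm s))
      refine ⟨(x, unitInterval.symm (hfI t')), ?_⟩
      have ht : 1 / 2 ≤ ((unitInterval.symm (hfI t') : I) : ℝ) := by
        rw [unitInterval.coe_symm_eq]
        simp only [hfI]
        linarith [t'.2.2]
      rw [hc2 _ ht]
      have e1 : dbI (unitInterval.symm (unitInterval.symm (hfI t'))) = t' := by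
        rw [unitInterval.symm_symm]
        apply Subtype.ext
        rw [dbI_coe _ (by simp only [hfI]; linarith [t'.2.2])]
        simp only [hfI]
        ring
      simp only [hi, e1, hx]
      rw [Prod.mk.injEq]
      refine ⟨rfl, ?_⟩
      apply Subtype.ext
      rw [unitInterval.coe_symm_eq]
      simp only [hfI]
      rw [dbI_symm_coe _ hs']
      ring
  · intro x
    rw [hc1 (x, 0) (by norm_num)]
    have e1 : dbI (0 : I) = 0 := by
      apply Subtype.ext
      rw [dbI_coe _ (by norm_num)]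
      norm_num
    simp only [lo, e1, h0]
    rw [Prod.mk.injEq]
    refine ⟨rfl, ?_⟩
    apply Subtype.ext
    simp only [hfI]
    norm_num
  · intro x
    rw [hc2 (x, 1) (by norm_num)]
    have e1 : dbI (unitInterval.symm (1 : I)) = 0 := by
      apply Subtype.ext
      rw [dbI_symm_coe _ (by norm_num)]
      norm_num
    simp only [hi, e1, h0]
    rw [Prod.mk.injEq]
    refine ⟨rfl, ?_⟩
    apply Subtype.ext
    rw [unitInterval.coe_symm_eq]
    simp only [hfI]
    norm_num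
  · -- injectivity
    have hmix : ∀ p q : Qc × I, (p.2 : ℝ) < 1 / 2 → 1 / 2 ≤ (q.2 : ℝ) → c p ≠ c q := by
      intro p q hp hq he
      have e1 : ((c p).2 : ℝ) = ((c q).2 : ℝ) := by rw [he]
      rw [hc1 p hp.le, hc2 q hq, hlo2, hhi2] at e1
      have hs1 := (c' (p.1, dbI p.2)).2.2.2
      have hs2 := (c' (q.1, dbI (unitInterval.symm q.2))).2.2.2
      have hs3 : ((c' (p.1, dbI p.2)).2 : ℝ) = 1 := by linarith
      have hs4 : c' (p.1, dbI p.2) = c' ((c' (p.1, dbI p.2)).1, 1) := by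
        rw [h1]
        apply Prod.ext
        · rfl
        · apply Subtype.ext
          rw [hs3]
          rfl
      rcases hinj _ _ hs4 with h | h
      · have h2 := congrArg (fun v : Qc × I => (v.2 : ℝ)) h
        simp only at h2
        rw [dbI_coe _ hp.le] at h2
        have h3 : ((1 : I) : ℝ) = 1 := rfl
        rw [h3] at h2
        linarith
      · have h2 : (1 : I) = 0 := h.2
        exact one_ne_zero h2
    intro p q he
    rcases lt_or_ge (p.2 : ℝ) (1 / 2) with hp | hp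
    · rcases lt_or_ge (q.2 : ℝ) (1 / 2) with hq | hq
      · rw [hc1 p hp.le, hc1 q hq.le] at he
        have e0 : (lo p).1 = (lo q).1 := by rw [he]
        have e1 : c' (p.1, dbI p.2) = c' (q.1, dbI q.2) := by
          apply Prod.ext
          · exact e0
          · have e2 : ((lo p).2 : ℝ) = ((lo q).2 : ℝ) := by rw [he]
            rw [hlo2, hlo2] at e2
            apply Subtype.ext
            linarith
        rcases hinj _ _ e1 with h | h
        · left
          have h2 := congrArg Prod.fst h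
          have h3 := congrArg (fun v : Qc × I => (v.2 : ℝ)) h
          simp only at h2 h3
          rw [dbI_coe _ hp.le, dbI_coe _ hq.le] at h3
          apply Prod.ext h2
          apply Subtype.ext
          linarith
        · right
          left
          have h2 := congrArg (fun v : I => (v : ℝ)) h.1
          have h3 := congrArg (fun v : I => (v : ℝ)) h.2
          simp only at h2 h3
          rw [dbI_coe _ hp.le] at h2
          rw [dbI_coe _ hq.le] at h3
          have h4 : ((0 : I) : ℝ) = 0 := rfl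
          rw [h4] at h2 h3
          constructor
          · apply Subtype.ext
            rw [h4]
            linarith
          · apply Subtype.ext
            rw [h4]
            linarith
      · exact absurd he (hmix p q hp hq)
    · rcases lt_or_ge (q.2 : ℝ) (1 / 2) with hq | hq
      · exact absurd he.symm (hmix q p hq hp)
      · rw [hc2 p hp, hc2 q hq] at he
        have e0 : (hi p).1 = (hi q).1 := by rw [he]
        have e1 : c' (p.1, dbI (unitInterval.symm p.2)) =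
            c' (q.1, dbI (unitInterval.symm q.2)) := by
          apply Prod.ext
          · exact e0
          · have e2 : ((hi p).2 : ℝ) = ((hi q).2 : ℝ) := by rw [he]
            rw [hhi2, hhi2] at e2
            apply Subtype.ext
            linarith
        rcases hinj _ _ e1 with h | h
        · left
          have h2 := congrArg Prod.fst h
          have h3 := congrArg (fun v : Qc × I => (v.2 : ℝ)) h
          simp only at h2 h3
          rw [dbI_symm_coe _ hp, dbI_symm_coe _ hq] at h3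
          apply Prod.ext h2
          apply Subtype.ext
          linarith
        · right
          right
          have h2 := congrArg (fun v : I => (v : ℝ)) h.1
          have h3 := congrArg (fun v : I => (v : ℝ)) h.2
          simp only at h2 h3
          rw [dbI_symm_coe _ hp] at h2
          rw [dbI_symm_coe _ hq] at h3
          have h4 : ((0 : I) : ℝ) = 0 := rfl
          have h5 : ((1 : I) : ℝ) = 1 := rfl
          rw [h4] at h2 h3
          constructor
          · apply Subtype.ext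
            rw [h5]
            linarith
          · apply Subtype.ext
            rw [h5]
            linarith

theorem ends2 (m m' : Qc) : ∃ c : C(Qc × I, Qc × I), Function.Surjective c ∧
    (∀ x, c (x, 0) = (m, 0)) ∧ (∀ x, c (x, 1) = (m', 1)) ∧
    ∀ p q, c p = c q → p = q ∨ (p.2 = 0 ∧ q.2 = 0) ∨ (p.2 = 1 ∧ q.2 = 1) := by
  obtain ⟨a, b, c, hsurj, h0, h1, hinj⟩ := ends
  obtain ⟨k, ⟨hkc, hkb, hk0⟩, hk1⟩ := trans_iso a m
  obtain ⟨k', ⟨hkc', hkb', hk0'⟩, hk1'⟩ := trans_iso b m'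
  let u : I → I := fun t => Set.projIcc (0 : ℝ) 1 zero_le_one (1 - 2 * (t : ℝ))
  let v : I → I := fun t => Set.projIcc (0 : ℝ) 1 zero_le_one (2 * (t : ℝ) - 1)
  have hu : Continuous u := continuous_projIcc.comp (by fun_prop)
  have hv : Continuous v := continuous_projIcc.comp (by fun_prop)
  have hu0 : u 0 = 1 := by
    show Set.projIcc (0 : ℝ) 1 zero_le_one (1 - 2 * ((0 : I) : ℝ)) = 1
    rw [Set.Icc.coe_zero, mul_zero, sub_zero]
    exact Set.projIcc_right (zero_le_one : (0 : ℝ) ≤ 1)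
  have hv0 : v 0 = 0 := by
    show Set.projIcc (0 : ℝ) 1 zero_le_one (2 * ((0 : I) : ℝ) - 1) = 0
    rw [Set.Icc.coe_zero]
    exact Set.projIcc_of_le_left zero_le_one (by norm_num)
  have hu1 : u 1 = 0 := by
    show Set.projIcc (0 : ℝ) 1 zero_le_one (1 - 2 * ((1 : I) : ℝ)) = 0
    rw [Set.Icc.coe_one]
    exact Set.projIcc_of_le_left zero_le_one (by norm_num)
  have hv1 : v 1 = 1 := by
    show Set.projIcc (0 : ℝ) 1 zero_le_one (2 * ((1 : I) : ℝ) - 1) = 1
    rw [Set.Icc.coe_one, show (2 : ℝ) * 1 - 1 = 1 by norm_num]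
    exact Set.projIcc_right (zero_le_one : (0 : ℝ) ≤ 1)
  let Φ : Qc × I → Qc × I := fun p => (k' (v p.2, k (u p.2, p.1)), p.2)
  have hΦ : Continuous Φ := by
    have h2 : Continuous fun p : Qc × I => k (u p.2, p.1) :=
      hkc.comp ((hu.comp continuous_snd).prodMk continuous_fst)
    exact (hkc'.comp ((hv.comp continuous_snd).prodMk h2)).prodMk continuous_snd
  have hΦi : Function.Injective Φ := by
    rintro ⟨x, t⟩ ⟨y, s⟩ h
    have ht : t = s := congrArg Prod.snd h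
    subst ht
    have hx : k' (v t, k (u t, x)) = k' (v t, k (u t, y)) := congrArg Prod.fst h
    have h3 := (hkb' (v t)).1 hx
    have h4 := (hkb (u t)).1 h3
    rw [h4]
  have hΦs : Function.Surjective Φ := by
    rintro ⟨y, t⟩
    obtain ⟨z, hz⟩ := (hkb' (v t)).2 y
    obtain ⟨x, hx⟩ := (hkb (u t)).2 z
    refine ⟨(x, t), ?_⟩
    show (k' (v t, k (u t, x)), t) = (y, t)
    have hx' : k (u t, x) = z := hx
    have hz' : k' (v t, z) = y := hz
    rw [hx', hz']
  refine ⟨⟨fun p => Φ (c p), hΦ.comp c.continuous⟩, hΦs.comp hsurj, ?_, ?_, ?_⟩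
  · intro x
    show Φ (c (x, 0)) = (m, 0)
    rw [h0]
    show (k' (v 0, k (u 0, a)), (0 : I)) = (m, 0)
    rw [hu0, hv0, hk1, hk0']
  · intro x
    show Φ (c (x, 1)) = (m', 1)
    rw [h1]
    show (k' (v 1, k (u 1, b)), (1 : I)) = (m', 1)
    rw [hu1, hv1, hk0, hk1']
  · intro p q hpq
    exact hinj p q (hΦi hpq)

/-- linear rotation by the angle `-s π/2` -/
def rL (s : ℝ) (v : ℝ × ℝ) : ℝ × ℝ :=
  (Real.cos (s * (Real.pi / 2)) * v.1 + Real.sin (s * (Real.pi / 2)) * v.2,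
    -Real.sin (s * (Real.pi / 2)) * v.1 + Real.cos (s * (Real.pi / 2)) * v.2)

/-- radial correction of the rotation -/
def rR (s : ℝ) (v : ℝ × ℝ) : ℝ × ℝ := (‖v‖ / ‖rL s v‖) • rL s v

theorem rL_cont : Continuous (fun p : ℝ × (ℝ × ℝ) => rL p.1 p.2) := by
  unfold rL
  fun_prop

theorem rL_smul (s c : ℝ) (v : ℝ × ℝ) : rL s (c • v) = c • rL s v := by
  unfold rL
  ext <;> simp <;> ring

theorem rL_inv (s : ℝ) (v : ℝ × ℝ) : rL (-s) (rL s v) = v := by
  unfold rL
  have h := Real.sin_sq_add_cos_sq (s * (Real.pi / 2))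
  ext
  · simp only [neg_mul, Real.cos_neg, Real.sin_neg]
    linear_combination v.1 * h
  · simp only [neg_mul, Real.cos_neg, Real.sin_neg]
    linear_combination v.2 * h

theorem rL_zero (s : ℝ) : rL s 0 = 0 := by
  unfold rL
  ext <;> simp

theorem rL_ne (s : ℝ) (v : ℝ × ℝ) (hv : v ≠ 0) : rL s v ≠ 0 := by
  intro h
  apply hv
  have := rL_inv s v
  rw [h, rL_zero] at this
  exact this.symm

theorem rR_norm (s : ℝ) (v : ℝ × ℝ) : ‖rR s v‖ = ‖v‖ := by
  unfold rR
  by_cases hv : v = 0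
  · subst hv
    rw [rL_zero]
    simp
  · have h1 : 0 < ‖rL s v‖ := norm_pos_iff.2 (rL_ne s v hv)
    rw [norm_smul, norm_div, norm_norm, norm_norm, div_mul_cancel₀ _ h1.ne']

theorem rR_inv (s : ℝ) (v : ℝ × ℝ) : rR (-s) (rR s v) = v := by
  by_cases hv : v = 0
  · subst hv
    unfold rR
    rw [rL_zero]
    simp [rL_zero]
  · have h0 : 0 < ‖v‖ := norm_pos_iff.2 hv
    have h1 : 0 < ‖rL s v‖ := norm_pos_iff.2 (rL_ne s v hv)
    have h2 := rR_norm s v
    have h3 : rL (-s) (rR s v) = (‖v‖ / ‖rL s v‖) • v := by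
      unfold rR
      rw [rL_smul, rL_inv]
    unfold rR at h3 h2 ⊢
    rw [h3, h2, norm_smul, norm_div, norm_norm, norm_norm, smul_smul]
    have h4 : ‖v‖ / (‖v‖ / ‖rL s v‖ * ‖v‖) * (‖v‖ / ‖rL s v‖) = 1 := by
      field_simp
    rw [h4, one_smul]

theorem rR_cont : Continuous (fun p : ℝ × (ℝ × ℝ) => rR p.1 p.2) := by
  rw [continuous_iff_continuousAt]
  rintro ⟨s, v⟩
  by_cases hv : v = 0
  · subst hv
    have h0 : rR s 0 = 0 := by
      rw [← norm_eq_zero, rR_norm, norm_zero]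
    unfold ContinuousAt
    simp only [h0]
    rw [tendsto_zero_iff_norm_tendsto_zero]
    simp only [rR_norm]
    have : Tendsto (fun p : ℝ × (ℝ × ℝ) => ‖p.2‖) (𝓝 (s, 0)) (𝓝 ‖(0 : ℝ × ℝ)‖) :=
      (continuous_snd.norm).tendsto (s, (0 : ℝ × ℝ))
    rwa [norm_zero] at this
  · have h1 : ‖rL s v‖ ≠ 0 := (norm_pos_iff.2 (rL_ne s v hv)).ne'
    unfold rR
    have h2 : ContinuousAt (fun p : ℝ × (ℝ × ℝ) => rL p.1 p.2) (s, v) := rL_cont.continuousAt
    exact (((continuous_snd.norm).continuousAt).div h2.norm h1).smul h2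

theorem rR_at_zero (v : ℝ × ℝ) : rR 0 v = v := by
  have h1 : rL 0 v = v := by
    unfold rL
    ext <;> simp
  unfold rR
  rw [h1]
  by_cases hv : v = 0
  · subst hv; simp
  · have h0 : 0 < ‖v‖ := norm_pos_iff.2 hv
    rw [div_self h0.ne', one_smul]

theorem rR_at_one (v : ℝ × ℝ) : rR 1 v = (v.2, -v.1) := by
  have h1 : rL 1 v = (v.2, -v.1) := by
    unfold rL
    ext <;> simp
  have h2 : ‖((v.2, -v.1) : ℝ × ℝ)‖ = ‖v‖ := by
    rw [Prod.norm_def, Prod.norm_def, norm_neg, max_comm]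
  unfold rR
  rw [h1, h2]
  by_cases hv : v = 0
  · subst hv
    ext <;> simp
  · have h0 : 0 < ‖v‖ := norm_pos_iff.2 hv
    rw [div_self h0.ne', one_smul]

/-- coordinates on the square -/
def sqT (v : I × I) : ℝ × ℝ := (2 * (v.1 : ℝ) - 1, 2 * (v.2 : ℝ) - 1)

/-- the inverse coordinates -/
def sqS (w : ℝ × ℝ) : I × I :=
  (Set.projIcc 0 1 zero_le_one ((w.1 + 1) / 2), Set.projIcc 0 1 zero_le_one ((w.2 + 1) / 2))

theorem sqT_cont : Continuous sqT := by
  unfold sqT
  fun_prop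

theorem sqS_cont : Continuous sqS := by
  unfold sqS
  exact (continuous_projIcc.comp (by fun_prop)).prodMk (continuous_projIcc.comp (by fun_prop))

theorem sqST (v : I × I) : sqS (sqT v) = v := by
  unfold sqS sqT
  have h1 : (2 * (v.1 : ℝ) - 1 + 1) / 2 = v.1 := by ring
  have h2 : (2 * (v.2 : ℝ) - 1 + 1) / 2 = v.2 := by ring
  simp only [h1, h2]
  rw [Set.projIcc_val, Set.projIcc_val]

theorem sqT_norm (v : I × I) : ‖sqT v‖ ≤ 1 := by
  unfold sqT
  rw [Prod.norm_def]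
  have a1 := v.1.2.1
  have a2 := v.1.2.2
  have a3 := v.2.2.1
  have a4 := v.2.2.2
  apply max_le
  · rw [Real.norm_eq_abs, abs_le]
    constructor <;> simp only <;> linarith
  · rw [Real.norm_eq_abs, abs_le]
    constructor <;> simp only <;> linarith

theorem sqTS (w : ℝ × ℝ) (hw : ‖w‖ ≤ 1) : sqT (sqS w) = w := by
  rw [Prod.norm_def] at hw
  have h1 := abs_le.1 (le_trans (le_max_left _ _) hw)
  have h2 := abs_le.1 (le_trans (le_max_right _ _) hw)
  unfold sqT sqS
  simp only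
  rw [Set.projIcc_of_mem zero_le_one (x := (w.1 + 1) / 2) ⟨by linarith [h1.1], by linarith [h1.2]⟩,
    Set.projIcc_of_mem zero_le_one (x := (w.2 + 1) / 2) ⟨by linarith [h2.1], by linarith [h2.2]⟩]
  ext
  · simp only; ring
  · simp only; ring

/-- quarter turn of the square -/
theorem rot : ∃ ρ : I × (I × I) → I × I, IsIso ρ ∧
    ∀ v, ρ (1, v) = (v.2, unitInterval.symm v.1) := by
  refine ⟨fun p => sqS (rR (p.1 : ℝ) (sqT p.2)), ⟨?_, ?_, ?_⟩, ?_⟩
  · exact sqS_cont.comp (rR_cont.comp ((continuous_subtype_val.comp continuous_fst).prodMk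
      (sqT_cont.comp continuous_snd)))
  · intro s
    rw [Function.bijective_iff_has_inverse]
    refine ⟨fun v => sqS (rR (-(s : ℝ)) (sqT v)), ?_, ?_⟩
    · intro v
      simp only
      rw [sqTS _ (by rw [rR_norm]; exact sqT_norm v), rR_inv, sqST]
    · intro v
      simp only
      rw [sqTS _ (by rw [rR_norm]; exact sqT_norm v)]
      have := rR_inv (-(s : ℝ)) (sqT v)
      rw [neg_neg] at this
      rw [this, sqST]
  · intro v
    simp only
    rw [Set.Icc.coe_zero, rR_at_zero, sqST]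
  · intro v
    simp only
    rw [Set.Icc.coe_one, rR_at_one]
    unfold sqS sqT
    have h1 : (2 * (v.2 : ℝ) - 1 + 1) / 2 = v.2 := by ring
    have h2 : (-(2 * (v.1 : ℝ) - 1) + 1) / 2 = (unitInterval.symm v.1 : ℝ) := by
      rw [unitInterval.coe_symm_eq]; ring
    simp only [h1, h2]
    rw [Set.projIcc_val, Set.projIcc_val]

private def j27768_W (n : ℕ) (φ : I × I → I × I) (x : Qc) : Qc := fun i =>
  if i < n then x i else if (i - n) % 2 = 0 then (φ (x i, x (i + 1))).1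
    else (φ (x (i - 1), x i)).2

private theorem j27768_lt (n : ℕ) (φ : I × I → I × I) (x : Qc) (i : ℕ) (hi : i < n) :
    j27768_W n φ x i = x i := if_pos hi

private theorem j27768_even (n : ℕ) (φ : I × I → I × I) (x : Qc) (j : ℕ) :
    j27768_W n φ x (n + 2 * j) = (φ (x (n + 2 * j), x (n + 2 * j + 1))).1 := by
  unfold j27768_W
  rw [if_neg (by omega), if_pos (by omega)]

private theorem j27768_odd (n : ℕ) (φ : I × I → I × I) (x : Qc) (j : ℕ) :
    j27768_W n φ x (n + 2 * j + 1) = (φ (x (n + 2 * j), x (n + 2 * j + 1))).2 := by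
  unfold j27768_W
  rw [if_neg (by omega), if_neg (by omega), Nat.add_sub_cancel]

private theorem j27768_cases (n i : ℕ) : i < n ∨ (∃ j, i = n + 2 * j) ∨ ∃ j, i = n + 2 * j + 1 := by
  by_cases h : i < n
  · exact Or.inl h
  · by_cases h2 : (i - n) % 2 = 0
    · exact Or.inr (Or.inl ⟨(i - n) / 2, by omega⟩)
    · exact Or.inr (Or.inr ⟨(i - n) / 2, by omega⟩)

private theorem j27768_comp (n : ℕ) (φ ψ : I × I → I × I) (x : Qc) :
    j27768_W n φ (j27768_W n ψ x) = j27768_W n (fun v => φ (ψ v)) x := by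
  funext i
  rcases j27768_cases n i with h | ⟨j, rfl⟩ | ⟨j, rfl⟩
  · rw [j27768_lt n _ _ i h, j27768_lt n _ _ i h, j27768_lt n _ _ i h]
  · rw [j27768_even, j27768_even, j27768_odd, j27768_even]
  · rw [j27768_odd, j27768_even, j27768_odd, j27768_odd]

private theorem j27768_id (n : ℕ) (φ : I × I → I × I) (hφ : ∀ v, φ v = v) (x : Qc) :
    j27768_W n φ x = x := by
  funext i
  rcases j27768_cases n i with h | ⟨j, rfl⟩ | ⟨j, rfl⟩
  · rw [j27768_lt n _ _ i h]
  · rw [j27768_even, hφ]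
  · rw [j27768_odd, hφ]

/-- rotating the pairs of coordinates `(n+2i, n+2i+1)` -/
theorem rotpairs (n : ℕ) : ∃ k : I × Qc → Qc, IsIso k ∧ (∀ s x, ∀ i < n, k (s, x) i = x i) ∧
    ∀ x i, k (1, x) (n + 2 * i) = x (n + 2 * i + 1) ∧
      k (1, x) (n + 2 * i + 1) = unitInterval.symm (x (n + 2 * i)) := by
  obtain ⟨ρ, ⟨hρc, hρb, hρ0⟩, hρ1⟩ := rot
  refine ⟨fun p => j27768_W n (fun v => ρ (p.1, v)) p.2, ⟨?_, ?_, ?_⟩, ?_, ?_⟩
  · refine continuous_pi fun i => ?_
    rcases j27768_cases n i with h | ⟨j, rfl⟩ | ⟨j, rfl⟩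
    · have h1 : (fun p : I × Qc => j27768_W n (fun v => ρ (p.1, v)) p.2 i) = fun p => p.2 i := by
        funext p; exact j27768_lt n _ _ i h
      rw [h1]
      exact (continuous_apply i).comp continuous_snd
    · have h1 : (fun p : I × Qc => j27768_W n (fun v => ρ (p.1, v)) p.2 (n + 2 * j)) =
          fun p => (ρ (p.1, (p.2 (n + 2 * j), p.2 (n + 2 * j + 1)))).1 := by
        funext p; exact j27768_even n _ _ j
      rw [h1]
      exact continuous_fst.comp (hρc.comp (continuous_fst.prodMk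
        (((continuous_apply (n + 2 * j)).comp continuous_snd).prodMk
          ((continuous_apply (n + 2 * j + 1)).comp continuous_snd))))
    · have h1 : (fun p : I × Qc => j27768_W n (fun v => ρ (p.1, v)) p.2 (n + 2 * j + 1)) =
          fun p => (ρ (p.1, (p.2 (n + 2 * j), p.2 (n + 2 * j + 1)))).2 := by
        funext p; exact j27768_odd n _ _ j
      rw [h1]
      exact continuous_snd.comp (hρc.comp (continuous_fst.prodMk
        (((continuous_apply (n + 2 * j)).comp continuous_snd).prodMk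
          ((continuous_apply (n + 2 * j + 1)).comp continuous_snd))))
  · intro s
    obtain ⟨ψ, hψ1, hψ2⟩ := Function.bijective_iff_has_inverse.mp (hρb s)
    refine Function.bijective_iff_has_inverse.mpr ⟨fun x => j27768_W n ψ x, fun x => ?_, fun x => ?_⟩
    · show j27768_W n ψ (j27768_W n (fun v => ρ (s, v)) x) = x
      rw [j27768_comp]
      exact j27768_id n _ (fun v => hψ1 v) x
    · show j27768_W n (fun v => ρ (s, v)) (j27768_W n ψ x) = x
      rw [j27768_comp]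
      exact j27768_id n _ (fun v => hψ2 v) x
  · intro x
    exact j27768_id n _ (fun v => hρ0 v) x
  · intro s x i hi
    exact j27768_lt n _ _ i hi
  · intro x i
    constructor
    · show j27768_W n (fun v => ρ (1, v)) x (n + 2 * i) = _
      rw [j27768_even, hρ1]
    · show j27768_W n (fun v => ρ (1, v)) x (n + 2 * i + 1) = _
      rw [j27768_odd, hρ1]

/-- interleaving -/
def A0 (v : Qc × Qc) : Qc := fun n => if n % 2 = 0 then v.1 (n / 2) else v.2 (n / 2)

theorem A0_cont : Continuous A0 := by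
  refine continuous_pi fun n => ?_
  unfold A0
  by_cases h : n % 2 = 0
  · simp only [h, if_true]
    exact (continuous_apply _).comp continuous_fst
  · simp only [h, if_false]
    exact (continuous_apply _).comp continuous_snd

theorem A0_bij : Function.Bijective A0 := by
  constructor
  · intro v w h
    have h1 : v.1 = w.1 := by
      funext i
      have := congrFun h (2 * i)
      simpa [A0] using this
    have h2 : v.2 = w.2 := by
      funext i
      have := congrFun h (2 * i + 1)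
      have e1 : (2 * i + 1) % 2 = 1 := by omega
      have e2 : (2 * i + 1) / 2 = i := by omega
      simpa [A0, e1, e2] using this
    exact Prod.ext h1 h2
  · intro z
    refine ⟨(fun i => z (2 * i), fun i => z (2 * i + 1)), ?_⟩
    funext n
    unfold A0
    by_cases h : n % 2 = 0
    · simp only [h, if_true]
      congr 1
      omega
    · simp only [h, if_false]
      congr 1
      omega

theorem A0_odd (v : Qc × Qc) (j : ℕ) : A0 v (2 * j + 1) = v.2 j := by
  have e1 : (2 * j + 1) % 2 = 1 := by omega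
  have e2 : (2 * j + 1) / 2 = j := by omega
  simp [A0, e1, e2]

/-- times -/
def sfun (n : ℕ) (t : I) : I := Set.projIcc (0 : ℝ) 1 zero_le_one (((n : ℝ) + 2) * (1 - ((n : ℝ) + 1) * t))

theorem sfun_cont (n : ℕ) : Continuous (sfun n) := by
  unfold sfun
  refine continuous_projIcc.comp ?_
  fun_prop

theorem sfun_zero (n : ℕ) : sfun n 0 = 1 := by
  unfold sfun
  rw [Set.projIcc_of_right_le]
  · rfl
  · simp only [Set.Icc.coe_zero, mul_zero, sub_zero, mul_one]
    have : (0 : ℝ) ≤ n := Nat.cast_nonneg n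
    linarith

theorem sfun_big (n : ℕ) (t : I) (h : 1 ≤ ((n : ℝ) + 1) * t) : sfun n t = 0 := by
  unfold sfun
  rw [Set.projIcc_of_le_left]
  · rfl
  · have : (0 : ℝ) ≤ n := Nat.cast_nonneg n
    apply mul_nonpos_of_nonneg_of_nonpos <;> linarith

/-- finite stages -/
def NN (k : ℕ → I × Qc → Qc) : ℕ → I × (Qc × Qc) → Qc
  | 0 => fun p => A0 p.2
  | n + 1 => fun p => k n (sfun n p.1, NN k n p)

theorem NN_cont (k : ℕ → I × Qc → Qc) (hk : ∀ n, IsIso (k n)) (n : ℕ) : Continuous (NN k n) := by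
  induction n with
  | zero =>
    exact A0_cont.comp continuous_snd
  | succ n ih =>
    exact (hk n).1.comp (((sfun_cont n).comp continuous_fst).prodMk ih)

theorem NN_bij (k : ℕ → I × Qc → Qc) (hk : ∀ n, IsIso (k n)) (t : I) (n : ℕ) :
    Function.Bijective (fun v => NN k n (t, v)) := by
  induction n with
  | zero => exact A0_bij
  | succ n ih => exact ((hk n).2.1 (sfun n t)).comp ih

theorem NN_inv (k : ℕ → I × Qc → Qc) (hk2 : ∀ n s x, ∀ i < n, k n (s, x) i = x i)
    (hk3 : ∀ n x i, k n (1, x) (n + 2 * i) = x (n + 2 * i + 1) ∧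
      k n (1, x) (n + 2 * i + 1) = unitInterval.symm (x (n + 2 * i))) (v : Qc × Qc) (n : ℕ) :
    (∀ j < n, NN k n (0, v) j = v.2 j) ∧ ∀ j, NN k n (0, v) (n + 2 * j + 1) = v.2 (n + j) := by
  induction n with
  | zero =>
    refine ⟨fun j hj => absurd hj (Nat.not_lt_zero j), fun j => ?_⟩
    show A0 v _ = _
    rw [zero_add, zero_add]
    exact A0_odd v j
  | succ n ih =>
    have e : NN k (n + 1) (0, v) = k n (1, NN k n (0, v)) := by
      show k n (sfun n 0, NN k n (0, v)) = _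
      rw [sfun_zero]
    rw [e]
    refine ⟨fun j hj => ?_, fun j => ?_⟩
    · rcases Nat.lt_succ_iff_lt_or_eq.mp hj with h | h
      · rw [hk2 n _ _ j h]
        exact ih.1 j h
      · subst h
        have h1 := (hk3 j (NN k j (0, v)) 0).1
        have h2 := ih.2 0
        simp only [mul_zero, add_zero] at h1 h2
        rw [h1, h2]
    · have h1 := (hk3 n (NN k n (0, v)) (j + 1)).1
      have h2 := ih.2 (j + 1)
      have e1 : n + 1 + 2 * j + 1 = n + 2 * (j + 1) := by ring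
      have e2 : n + 1 + j = n + (j + 1) := by ring
      rw [e1, e2, h1, h2]

/-- throwing a Hilbert cube factor to infinity -/
theorem hm : ∃ h : C(I × (Qc × Qc), Qc), (∀ t : I, 0 < t → Function.Bijective fun v => h (t, v)) ∧
    ∀ x q, h (0, (x, q)) = q := by
  choose k hk1 hk2 hk3 using rotpairs
  refine ⟨⟨fun p i => NN k (i + 1) p i, ?_⟩, ?_, ?_⟩
  · exact continuous_pi fun i => (continuous_apply i).comp (NN_cont k hk1 (i + 1))
  · intro t ht
    have ht' : (0 : ℝ) < t := ht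
    obtain ⟨M, hM⟩ := exists_nat_gt (1 / (t : ℝ))
    have hs : ∀ m, M ≤ m → sfun m t = 0 := by
      intro m hm
      apply sfun_big
      have h1 : (M : ℝ) ≤ m := Nat.cast_le.mpr hm
      have h2 : 1 / (t : ℝ) ≤ (m : ℝ) + 1 := by linarith
      rwa [div_le_iff₀ ht'] at h2
    have hst : ∀ v m, M ≤ m → NN k m (t, v) = NN k M (t, v) := by
      intro v m hm
      induction m, hm using Nat.le_induction with
      | base => rfl
      | succ m hm ih =>
        show k m (sfun m t, NN k m (t, v)) = _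
        rw [hs m hm, (hk1 m).2.2, ih]
    have hst2 : ∀ v i m, i + 1 ≤ m → NN k m (t, v) i = NN k (i + 1) (t, v) i := by
      intro v i m hm
      induction m, hm using Nat.le_induction with
      | base => rfl
      | succ m hm ih =>
        show k m (sfun m t, NN k m (t, v)) i = _
        rw [hk2 m _ _ i (by omega), ih]
    have e : (fun v => (⟨fun p i => NN k (i + 1) p i, continuous_pi fun i =>
        (continuous_apply i).comp (NN_cont k hk1 (i + 1))⟩ : C(I × (Qc × Qc), Qc)) (t, v)) =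
        fun v => NN k M (t, v) := by
      funext v
      show (fun i => NN k (i + 1) (t, v) i) = _
      funext i
      rw [← hst2 v i (max (i + 1) M) (le_max_left _ _), hst v (max (i + 1) M) (le_max_right _ _)]
    exact e ▸ NN_bij k hk1 t M
  · intro x q
    show (fun i => NN k (i + 1) (0, (x, q)) i) = q
    funext i
    exact (NN_inv k hk2 hk3 (x, q) (i + 1)).1 i (Nat.lt_succ_self i)

theorem descend {Z F S : Type} [TopologicalSpace Z] [CompactSpace Z] [TopologicalSpace F] [T2Space F]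
    [TopologicalSpace S] (Λ : C(Z, F)) (hΛ : Function.Surjective Λ) (G : C(Z, S))
    (h : ∀ z z', Λ z = Λ z' → G z = G z') : ∃ φ : C(F, S), ∀ z, φ (Λ z) = G z := by
  have hq : IsQuotientMap Λ := Λ.continuous.isClosedMap.isQuotientMap Λ.continuous hΛ
  refine ⟨⟨fun y => G (Function.surjInv hΛ y), ?_⟩, fun z => ?_⟩
  · rw [hq.continuous_iff]
    have : ((fun y => G (Function.surjInv hΛ y)) ∘ Λ) = G := by
      funext z
      exact h _ _ (Function.surjInv_eq hΛ (Λ z))
    rw [this]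
    exact G.continuous
  · exact h _ _ (Function.surjInv_eq hΛ (Λ z))

/-- the two marked points -/
def mk2 {M : Type} (m m' : M) (p : M × I) : Prop := p = (m, 0) ∨ p = (m', 1)

/-- distance to the ends of the interval -/
def geoTau (t : I) : I := min t (unitInterval.symm t)

theorem geoTau_cont : Continuous geoTau := by
  unfold geoTau
  exact continuous_id.min unitInterval.continuous_symm

theorem geoTau_zero : geoTau 0 = 0 := by
  unfold geoTau
  apply le_antisymm _ unitInterval.nonneg'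
  exact min_le_left _ _

theorem geoTau_one : geoTau 1 = 0 := by
  unfold geoTau
  apply le_antisymm _ unitInterval.nonneg'
  refine le_trans (min_le_right _ _) ?_
  simp

theorem geoTau_pos (t : I) (h0 : t ≠ 0) (h1 : t ≠ 1) : 0 < geoTau t := by
  unfold geoTau
  refine lt_min (unitInterval.pos_iff_ne_zero.mpr h0) ?_
  rw [unitInterval.pos_iff_ne_zero]
  intro h
  apply h1
  have := congrArg unitInterval.symm h
  simpa using this

theorem geo_exp (t t' : I) (h : Circle.exp (2 * Real.pi * (t : ℝ)) = Circle.exp (2 * Real.pi * (t' : ℝ))) :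
    t = t' ∨ ((t = 0 ∨ t = 1) ∧ (t' = 0 ∨ t' = 1)) := by
  rw [Circle.exp_eq_exp] at h
  obtain ⟨m, hm⟩ := h
  have hpi : (0 : ℝ) < 2 * Real.pi := by positivity
  have h2 : (t : ℝ) = t' + m := by
    have : 2 * Real.pi * ((t : ℝ) - (t' + m)) = 0 := by linarith
    rcases mul_eq_zero.mp this with h3 | h3
    · exact absurd h3 hpi.ne'
    · linarith
  have ht0 := t.2.1
  have ht1 := t.2.2
  have ht0' := t'.2.1
  have ht1' := t'.2.2
  have hm1 : (m : ℝ) ≤ 1 := by linarith
  have hm2 : (-1 : ℝ) ≤ m := by linarith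
  have hm1' : m ≤ 1 := by exact_mod_cast hm1
  have hm2' : -1 ≤ m := by exact_mod_cast hm2
  have hcases : m = -1 ∨ m = 0 ∨ m = 1 := by omega
  rcases hcases with h3 | h3 | h3
  · subst h3
    push_cast at h2
    right
    refine ⟨Or.inl (Subtype.ext ?_), Or.inr (Subtype.ext ?_)⟩
    · show (t : ℝ) = 0
      linarith
    · show (t' : ℝ) = 1
      linarith
  · subst h3
    left
    apply Subtype.ext
    push_cast at h2
    linarith
  · subst h3
    push_cast at h2
    right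
    refine ⟨Or.inr (Subtype.ext ?_), Or.inl (Subtype.ext ?_)⟩
    · show (t : ℝ) = 1
      linarith
    · show (t' : ℝ) = 0
      linarith

theorem geo_exp_end (t : I) (h : t = 0 ∨ t = 1) : Circle.exp (2 * Real.pi * (t : ℝ)) = 1 := by
  rcases h with h | h
  · subst h
    simp
  · subst h
    simp

theorem geo_exp_surj (z : Circle) : ∃ t : I, Circle.exp (2 * Real.pi * (t : ℝ)) = z := by
  have hpi : (0 : ℝ) < 2 * Real.pi := by positivity
  obtain ⟨θ, hθ⟩ := Circle.exp_surjective z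
  refine ⟨⟨Int.fract (θ / (2 * Real.pi)), Int.fract_nonneg _, (Int.fract_lt_one _).le⟩, ?_⟩
  rw [← hθ, Circle.exp_eq_exp]
  refine ⟨-⌊θ / (2 * Real.pi)⌋, ?_⟩
  show 2 * Real.pi * Int.fract (θ / (2 * Real.pi)) = _
  have : Int.fract (θ / (2 * Real.pi)) = θ / (2 * Real.pi) - ⌊θ / (2 * Real.pi)⌋ := rfl
  rw [this]
  push_cast
  field_simp
  ring

theorem geo_G1 : ∃ G1 : C((Qc × I) × Qc, Circle × Qc), Function.Surjective G1 ∧
    (∀ v, (G1 v).1 = Circle.exp (2 * Real.pi * (v.1.2 : ℝ))) ∧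
    (∀ v, (v.1.2 = 0 ∨ v.1.2 = 1) → G1 v = (1, v.2)) ∧
    (∀ v v', G1 v = G1 v' → v = v' ∨
      ((v.1.2 = 0 ∨ v.1.2 = 1) ∧ (v'.1.2 = 0 ∨ v'.1.2 = 1) ∧ v.2 = v'.2)) := by
  obtain ⟨h, hb, h0⟩ := hm
  let G1 : C((Qc × I) × Qc, Circle × Qc) :=
    ⟨fun v => (Circle.exp (2 * Real.pi * (v.1.2 : ℝ)), h (geoTau v.1.2, (v.1.1, v.2))), by
      refine Continuous.prodMk ?_ ?_
      · exact Circle.exp.continuous.comp
          (continuous_const.mul (continuous_subtype_val.comp (continuous_snd.comp continuous_fst)))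
      · exact h.continuous.comp ((geoTau_cont.comp (continuous_snd.comp continuous_fst)).prodMk
          ((continuous_fst.comp continuous_fst).prodMk continuous_snd))⟩
  have hG : ∀ v, G1 v = (Circle.exp (2 * Real.pi * (v.1.2 : ℝ)), h (geoTau v.1.2, (v.1.1, v.2))) :=
    fun v => rfl
  have hend : ∀ v, (v.1.2 = 0 ∨ v.1.2 = 1) → G1 v = (1, v.2) := by
    rintro ⟨⟨x, t⟩, q⟩ ht
    rw [hG]
    have ht' : t = 0 ∨ t = 1 := ht
    have e1 : geoTau t = 0 := by
      rcases ht' with ht' | ht'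
      · rw [ht', geoTau_zero]
      · rw [ht', geoTau_one]
    show (Circle.exp (2 * Real.pi * (t : ℝ)), h (geoTau t, (x, q))) = (1, q)
    rw [geo_exp_end t ht', e1, h0]
  refine ⟨G1, ?_, fun v => rfl, hend, ?_⟩
  · rintro ⟨z, y⟩
    obtain ⟨t, ht⟩ := geo_exp_surj z
    by_cases h01 : t = 0 ∨ t = 1
    · refine ⟨((fun _ => 0, t), y), ?_⟩
      rw [hend _ h01, ← ht, geo_exp_end t h01]
    · rw [not_or] at h01
      obtain ⟨⟨x, q⟩, hxq⟩ := (hb (geoTau t) (geoTau_pos t h01.1 h01.2)).2 y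
      refine ⟨((x, t), q), ?_⟩
      rw [hG]
      show (Circle.exp (2 * Real.pi * (t : ℝ)), h (geoTau t, (x, q))) = (z, y)
      rw [ht]
      exact congrArg (fun w => (z, w)) hxq
  · rintro ⟨⟨x, t⟩, q⟩ ⟨⟨x', t'⟩, q'⟩ hv
    have hv' := hv
    rw [hG, hG, Prod.mk.injEq] at hv'
    obtain ⟨e1, e2⟩ := hv'
    have e1' : Circle.exp (2 * Real.pi * (t : ℝ)) = Circle.exp (2 * Real.pi * (t' : ℝ)) := e1
    have e2' : h (geoTau t, (x, q)) = h (geoTau t', (x', q')) := e2
    have hboth : ((t = 0 ∨ t = 1) ∧ (t' = 0 ∨ t' = 1)) →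
        ((t = 0 ∨ t = 1) ∧ (t' = 0 ∨ t' = 1) ∧ q = q') := by
      rintro ⟨a1, a2⟩
      refine ⟨a1, a2, ?_⟩
      have b1 := hend ((x, t), q) a1
      have b2 := hend ((x', t'), q') a2
      rw [hv, b2, Prod.mk.injEq] at b1
      exact b1.2.symm
    rcases geo_exp t t' e1' with h3 | h3
    · subst h3
      by_cases h01 : t = 0 ∨ t = 1
      · exact Or.inr (hboth ⟨h01, h01⟩)
      · rw [not_or] at h01
        have h4 := (hb (geoTau t) (geoTau_pos t h01.1 h01.2)).1 e2'
        rw [Prod.mk.injEq] at h4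
        left
        rw [h4.1, h4.2]
    · exact Or.inr (hboth h3)

theorem geoQ (m m' : Qc) :
    ∃ Λ : C((Qc × I) × Qc, Circle × Qc), Function.Surjective Λ ∧
      (∀ v v', Λ v = Λ v' ↔ v.2 = v'.2 ∧ (v.1 = v'.1 ∨ (mk2 m m' v.1 ∧ mk2 m m' v'.1))) ∧
      ∃ μ : C(Circle × Qc, ℝ), ∀ v : (Qc × I) × Qc,
        (Λ v).1 * Circle.exp (μ (Λ v)) = Circle.exp (2 * Real.pi * (v.1.2 : ℝ)) := by
  obtain ⟨c, hcs, hc0, hc1, hci⟩ := ends2 m m'
  obtain ⟨G1, hGs, hG1, hGe, hGi⟩ := geo_G1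
  let C : C((Qc × I) × Qc, (Qc × I) × Qc) :=
    ⟨fun v => (c v.1, v.2), (c.continuous.comp continuous_fst).prodMk continuous_snd⟩
  have hC : ∀ v, C v = (c v.1, v.2) := fun v => rfl
  have hCs : Function.Surjective C := by
    rintro ⟨w, q⟩
    obtain ⟨p, hp⟩ := hcs w
    exact ⟨(p, q), by rw [hC]; exact congrArg (fun u => (u, q)) hp⟩
  have hconst : ∀ z z', C z = C z' → G1 z = G1 z' := by
    rintro ⟨p, q⟩ ⟨p', q'⟩ h
    rw [hC, hC, Prod.mk.injEq] at h
    obtain ⟨h1, h2⟩ := h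
    have h2' : q = q' := h2
    subst h2'
    rcases hci p p' h1 with h3 | h3 | h3
    · rw [h3]
    · rw [hGe (p, q) (Or.inl h3.1), hGe (p', q) (Or.inl h3.2)]
    · rw [hGe (p, q) (Or.inr h3.1), hGe (p', q) (Or.inr h3.2)]
  obtain ⟨Λ, hΛ⟩ := descend C hCs G1 hconst
  have h01 : (0 : I) ≠ 1 := by
    intro h
    have := congrArg (fun u : I => (u : ℝ)) h
    simp at this
  have hlev : ∀ p : Qc × I, mk2 m m' (c p) → (p.2 = 0 ∨ p.2 = 1) := by
    intro p hp
    rcases hp with hp | hp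
    · rw [← hc0 p.1] at hp
      rcases hci p (p.1, 0) hp with h3 | h3 | h3
      · left
        rw [h3]
      · exact Or.inl h3.1
      · exact Or.inr h3.1
    · rw [← hc1 p.1] at hp
      rcases hci p (p.1, 1) hp with h3 | h3 | h3
      · right
        rw [h3]
      · exact Or.inl h3.1
      · exact Or.inr h3.1
  have hlev' : ∀ p : Qc × I, (p.2 = 0 ∨ p.2 = 1) → mk2 m m' (c p) := by
    rintro ⟨x, t⟩ hp
    rcases hp with hp | hp
    · have hp' : t = 0 := hp
      subst hp'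
      exact Or.inl (hc0 x)
    · have hp' : t = 1 := hp
      subst hp'
      exact Or.inr (hc1 x)
  have hfix : ∀ p : Qc × I, (p.2 = 0 ∨ p.2 = 1) → (c p).2 = p.2 := by
    rintro ⟨x, t⟩ hp
    rcases hp with hp | hp
    · have hp' : t = 0 := hp
      subst hp'
      rw [hc0 x]
    · have hp' : t = 1 := hp
      subst hp'
      rw [hc1 x]
  let Gm : C((Qc × I) × Qc, ℝ) :=
    ⟨fun v => 2 * Real.pi * (((c v.1).2 : ℝ) - (v.1.2 : ℝ)), by
      refine continuous_const.mul (Continuous.sub ?_ ?_)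
      · exact continuous_subtype_val.comp (continuous_snd.comp (c.continuous.comp continuous_fst))
      · exact continuous_subtype_val.comp (continuous_snd.comp continuous_fst)⟩
  have hGm : ∀ v, Gm v = 2 * Real.pi * (((c v.1).2 : ℝ) - (v.1.2 : ℝ)) := fun v => rfl
  have hGm0 : ∀ v : (Qc × I) × Qc, (v.1.2 = 0 ∨ v.1.2 = 1) → Gm v = 0 := by
    intro v hv
    rw [hGm, hfix v.1 hv]
    ring
  obtain ⟨μ, hμ⟩ := descend G1 hGs Gm (by
    intro z z' h
    rcases hGi z z' h with h1 | ⟨h1, h2, -⟩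
    · rw [h1]
    · rw [hGm0 z h1, hGm0 z' h2])
  refine ⟨Λ, ?_, ?_, μ, ?_⟩
  · intro w
    obtain ⟨v, hv⟩ := hGs w
    exact ⟨C v, by rw [hΛ, hv]⟩
  · intro v v'
    obtain ⟨⟨p, q⟩, hp⟩ := hCs v
    obtain ⟨⟨p', q'⟩, hp'⟩ := hCs v'
    rw [← hp, ← hp', hΛ, hΛ, hC, hC]
    constructor
    · intro h
      rcases hGi _ _ h with h1 | ⟨h1, h2, h3⟩
      · rw [Prod.mk.injEq] at h1
        exact ⟨h1.2, Or.inl (congrArg c h1.1)⟩
      · exact ⟨h3, Or.inr ⟨hlev' p h1, hlev' p' h2⟩⟩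
    · rintro ⟨h1, h2⟩
      have h1' : q = q' := h1
      subst h1'
      rcases h2 with h2 | ⟨h2, h3⟩
      · apply hconst
        rw [hC, hC]
        exact congrArg (fun u => (u, q)) h2
      · rw [hGe (p, q) (hlev p h2), hGe (p', q) (hlev p' h3)]
  · intro v
    obtain ⟨⟨p, q⟩, hp⟩ := hCs v
    rw [← hp, hΛ, hμ, hG1, hGm, ← Circle.exp_add, hC]
    congr 1
    ring

/-- the Hilbert cube with two points of `M × I` identified, times the Hilbert cube, is `S¹ × Q` -/
theorem geo {M : Type} [TopologicalSpace M] (hM : Nonempty (M ≃ₜ Qc)) (m m' : M) :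
    ∃ Λ : C((M × I) × Qc, Circle × Qc), Function.Surjective Λ ∧
      (∀ v v', Λ v = Λ v' ↔ v.2 = v'.2 ∧ (v.1 = v'.1 ∨ (mk2 m m' v.1 ∧ mk2 m m' v'.1))) ∧
      ∃ μ : C(Circle × Qc, ℝ), ∀ v : (M × I) × Qc,
        (Λ v).1 * Circle.exp (μ (Λ v)) = Circle.exp (2 * Real.pi * (v.1.2 : ℝ)) := by
  obtain ⟨e⟩ := hM
  obtain ⟨Λ, hs, hf, μ, hμ⟩ := geoQ (e m) (e m')
  let E : C((M × I) × Qc, (Qc × I) × Qc) :=
    ⟨fun v => ((e v.1.1, v.1.2), v.2),
      ((e.continuous.comp (continuous_fst.comp continuous_fst)).prodMk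
        (continuous_snd.comp continuous_fst)).prodMk continuous_snd⟩
  have hE : ∀ v, E v = ((e v.1.1, v.1.2), v.2) := fun v => rfl
  have hmk : ∀ p : M × I, mk2 (e m) (e m') (e p.1, p.2) ↔ mk2 m m' p := by
    rintro ⟨x, t⟩
    unfold mk2
    simp only [Prod.mk.injEq, EmbeddingLike.apply_eq_iff_eq]
  refine ⟨Λ.comp E, ?_, ?_, μ, ?_⟩
  · intro w
    obtain ⟨⟨⟨x, t⟩, q⟩, hv⟩ := hs w
    refine ⟨((e.symm x, t), q), ?_⟩
    rw [ContinuousMap.comp_apply, hE]
    show Λ ((e (e.symm x), t), q) = w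
    rw [Homeomorph.apply_symm_apply, hv]
  · intro v v'
    rw [ContinuousMap.comp_apply, ContinuousMap.comp_apply, hf, hE, hE]
    show v.2 = v'.2 ∧ ((e v.1.1, v.1.2) = (e v'.1.1, v'.1.2) ∨
      (mk2 (e m) (e m') (e v.1.1, v.1.2) ∧ mk2 (e m) (e m') (e v'.1.1, v'.1.2))) ↔ _
    rw [hmk, hmk]
    have : (e v.1.1, v.1.2) = (e v'.1.1, v'.1.2) ↔ v.1 = v'.1 := by
      rw [Prod.mk.injEq, EmbeddingLike.apply_eq_iff_eq, Prod.ext_iff]
    rw [this]
  · intro v
    rw [ContinuousMap.comp_apply, hμ, hE]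

theorem kiso_unif {M : Type} [MetricSpace M] (g : Qc → M) (hg : Continuous g) (ε : ℝ) (hε : 0 < ε) :
    ∃ (N : ℕ) (r : ℝ), 0 < r ∧ ∀ x y : Qc, (∀ i < N, |(x i : ℝ) - y i| < r) →
      dist (g x) (g y) < ε := by
  have hu : UniformContinuous g := CompactSpace.uniformContinuous_of_continuous hg
  have h1 : {p : Qc × Qc | dist (g p.1) (g p.2) < ε} ∈ uniformity Qc :=
    hu (Metric.dist_mem_uniformity hε)
  rw [Pi.uniformity, Filter.mem_iInf] at h1
  obtain ⟨J, hJ, V, hV, hVe⟩ := h1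
  have h2 : ∀ i : J, ∃ r : ℝ, 0 < r ∧ ∀ p : Qc × Qc, |(p.1 i : ℝ) - p.2 i| < r → p ∈ V i := by
    intro i
    obtain ⟨t, ht, htV⟩ := Filter.mem_comap.1 (hV i)
    obtain ⟨r, hr, hrt⟩ := Metric.mem_uniformity_dist.1 ht
    refine ⟨r, hr, fun p hp => htV ?_⟩
    apply hrt
    rw [Subtype.dist_eq, Real.dist_eq]
    exact hp
  choose r hr hrV using h2
  haveI := hJ.fintype
  obtain ⟨N, hN⟩ : ∃ N : ℕ, ∀ i ∈ J, i < N := by
    obtain ⟨b, hb⟩ := hJ.bddAbove
    exact ⟨b + 1, fun i hi => Nat.lt_succ_of_le (hb hi)⟩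
  obtain ⟨r0, hr0, hr0le⟩ : ∃ r0 : ℝ, 0 < r0 ∧ ∀ i : J, r0 ≤ r i := by
    by_cases hne : Nonempty J
    · obtain ⟨i0, hi0⟩ := Finite.exists_min r
      exact ⟨r i0, hr i0, hi0⟩
    · exact ⟨1, one_pos, fun i => absurd ⟨i⟩ hne⟩
  refine ⟨N, r0, hr0, fun x y hxy => ?_⟩
  have h3 : (x, y) ∈ {p : Qc × Qc | dist (g p.1) (g p.2) < ε} := by
    rw [hVe]
    refine Set.mem_iInter.2 fun i => hrV i (x, y) ?_
    exact (hxy i (hN i i.2)).trans_le (hr0le i)
  exact h3

/-- small homeomorphisms of `M × I` moving the first marked point -/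
theorem kiso {M : Type} [MetricSpace M] [CompactSpace M] (hM : Nonempty (M ≃ₜ Qc)) (m : M) (ε : ℝ)
    (hε : 0 < ε) : ∀ᶠ m' in 𝓝 m, ∃ k : C(M × I, M × I), Function.Bijective k ∧
      k (m, 0) = (m', 0) ∧ (∀ x, k (x, 1) = (x, 1)) ∧ ∀ p, dist (k p) p < ε := by
  obtain ⟨e⟩ := hM
  obtain ⟨N, r, hr, hNr⟩ := kiso_unif e.symm e.symm.continuous ε hε
  have h1 : ∀ᶠ m' in 𝓝 m, ∀ i ∈ Finset.range N, |(e m i : ℝ) - e m' i| < r / 8 := by
    rw [Filter.eventually_all_finset]
    intro i _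
    have hc : Continuous fun m' => |((e m i : unitInterval) : ℝ) - ((e m' i : unitInterval) : ℝ)| := by
      have : Continuous fun m' => ((e m' i : unitInterval) : ℝ) :=
        continuous_subtype_val.comp ((continuous_apply i).comp e.continuous)
      exact (continuous_const.sub this).abs
    have h0 : |((e m i : unitInterval) : ℝ) - ((e m i : unitInterval) : ℝ)| < r / 8 := by
      rw [sub_self, abs_zero]; positivity
    exact hc.continuousAt.eventually (gt_mem_nhds h0)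
  filter_upwards [h1] with m' hm'
  obtain ⟨k, ⟨hkc, hkb, hk0⟩, hk1, hk2⟩ := lhi (e m) (e m') N r hr
    (fun i hi => hm' i (Finset.mem_range.2 hi))
  refine ⟨⟨fun p => (e.symm (k (unitInterval.symm p.2, e p.1)), p.2), ?_⟩, ?_, ?_, ?_, ?_⟩
  · refine (e.symm.continuous.comp (hkc.comp ?_)).prodMk continuous_snd
    exact (unitInterval.continuous_symm.comp continuous_snd).prodMk
      (e.continuous.comp continuous_fst)
  · constructor
    · rintro ⟨x, t⟩ ⟨y, u⟩ hxy
      have h2 : (e.symm (k (unitInterval.symm t, e x)), t) =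
          (e.symm (k (unitInterval.symm u, e y)), u) := hxy
      obtain ⟨h3, h4⟩ := Prod.mk.inj h2
      subst h4
      have h5 := (hkb (unitInterval.symm t)).1 (e.symm.injective h3)
      rw [e.injective h5]
    · rintro ⟨y, t⟩
      obtain ⟨z, hz⟩ := (hkb (unitInterval.symm t)).2 (e y)
      refine ⟨(e.symm z, t), ?_⟩
      show (e.symm (k (unitInterval.symm t, e (e.symm z))), t) = (y, t)
      rw [e.apply_symm_apply]
      have hz' : k (unitInterval.symm t, z) = e y := hz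
      rw [hz', e.symm_apply_apply]
  · show (e.symm (k (unitInterval.symm 0, e m)), (0 : I)) = (m', 0)
    rw [unitInterval.symm_zero, hk1, e.symm_apply_apply]
  · intro x
    show (e.symm (k (unitInterval.symm 1, e x)), (1 : I)) = (x, 1)
    rw [unitInterval.symm_one, hk0, e.symm_apply_apply]
  · rintro ⟨x, t⟩
    show dist (e.symm (k (unitInterval.symm t, e x)), t) (x, t) < ε
    rw [Prod.dist_eq]
    refine max_lt ?_ ?_
    · have := hNr (k (unitInterval.symm t, e x)) (e x) (fun i hi => hk2 _ _ i hi)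
      rwa [e.symm_apply_apply] at this
    · show dist t t < ε
      rw [dist_self]; exact hε

/-- chart -/
def Fman_F (w : Circle) (p : Circle × Qc) : ℕ → unitInterval
  | 0 => Set.projIcc (0 : ℝ) 1 zero_le_one
      ((Complex.arg ((p.1 * w⁻¹ : Circle) : ℂ) + Real.pi) / (2 * Real.pi))
  | n + 1 => p.2 n

/-- inverse of the chart -/
def Fman_G (w : Circle) (y : ℕ → unitInterval) : Circle × Qc :=
  (w * Circle.exp (2 * Real.pi * (y 0 : ℝ) - Real.pi), fun n => y (n + 1))

/-- domain of the chart -/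
def Fman_U (w : Circle) : Set (Circle × Qc) := {p | ((p.1 * w⁻¹ : Circle) : ℂ) ∈ Complex.slitPlane}

/-- range of the chart -/
def Fman_V : Set (ℕ → unitInterval) := {y | (0 : ℝ) < y 0 ∧ (y 0 : ℝ) < 1}

theorem Fman_val (w : Circle) (p : Circle × Qc) (hp : p ∈ Fman_U w) :
    ((Fman_F w p 0 : unitInterval) : ℝ) =
      (Complex.arg ((p.1 * w⁻¹ : Circle) : ℂ) + Real.pi) / (2 * Real.pi) ∧
      0 < (Complex.arg ((p.1 * w⁻¹ : Circle) : ℂ) + Real.pi) / (2 * Real.pi) ∧
      (Complex.arg ((p.1 * w⁻¹ : Circle) : ℂ) + Real.pi) / (2 * Real.pi) < 1 := by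
  have hπ := Real.pi_pos
  have h1 := (Complex.mem_slitPlane_iff_arg.1 hp).1
  have h2 := Complex.neg_pi_lt_arg ((p.1 * w⁻¹ : Circle) : ℂ)
  have h3 := lt_of_le_of_ne (Complex.arg_le_pi ((p.1 * w⁻¹ : Circle) : ℂ)) h1
  have h4 : 0 < (Complex.arg ((p.1 * w⁻¹ : Circle) : ℂ) + Real.pi) / (2 * Real.pi) := by
    apply div_pos _ (by positivity)
    linarith
  have h5 : (Complex.arg ((p.1 * w⁻¹ : Circle) : ℂ) + Real.pi) / (2 * Real.pi) < 1 := by
    rw [div_lt_one (by positivity)]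
    linarith
  refine ⟨?_, h4, h5⟩
  show ((Set.projIcc (0 : ℝ) 1 zero_le_one
      ((Complex.arg ((p.1 * w⁻¹ : Circle) : ℂ) + Real.pi) / (2 * Real.pi)) : unitInterval) : ℝ) = _
  rw [Set.projIcc_of_mem zero_le_one ⟨h4.le, h5.le⟩]

theorem Fman_GF (w : Circle) (p : Circle × Qc) (hp : p ∈ Fman_U w) :
    Fman_G w (Fman_F w p) = p := by
  have hπ := Real.pi_pos
  apply Prod.ext
  · show w * Circle.exp (2 * Real.pi * ((Fman_F w p 0 : unitInterval) : ℝ) - Real.pi) = p.1
    rw [(Fman_val w p hp).1]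
    have : 2 * Real.pi * ((Complex.arg ((p.1 * w⁻¹ : Circle) : ℂ) + Real.pi) / (2 * Real.pi)) -
        Real.pi = Complex.arg ((p.1 * w⁻¹ : Circle) : ℂ) := by
      field_simp
      ring
    rw [this, Circle.exp_arg]
    rw [mul_comm p.1, mul_inv_cancel_left]
  · rfl

theorem Fman_arg (w : Circle) (y : ℕ → unitInterval) (hy : y ∈ Fman_V) :
    Complex.arg (((Fman_G w y).1 * w⁻¹ : Circle) : ℂ) = 2 * Real.pi * (y 0 : ℝ) - Real.pi ∧
      2 * Real.pi * (y 0 : ℝ) - Real.pi < Real.pi := by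
  have hπ := Real.pi_pos
  have h1 : (Fman_G w y).1 * w⁻¹ = Circle.exp (2 * Real.pi * (y 0 : ℝ) - Real.pi) := by
    show w * Circle.exp (2 * Real.pi * (y 0 : ℝ) - Real.pi) * w⁻¹ = _
    rw [mul_comm w, mul_inv_cancel_right]
  have h2 : -Real.pi < 2 * Real.pi * (y 0 : ℝ) - Real.pi := by
    have : 0 < 2 * Real.pi * (y 0 : ℝ) := by
      have := hy.1
      positivity
    linarith
  have h3 : 2 * Real.pi * (y 0 : ℝ) - Real.pi < Real.pi := by
    have := hy.2
    nlinarith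
  rw [h1, Circle.arg_exp h2 h3.le]
  exact ⟨rfl, h3⟩

theorem Fman_memU (w : Circle) (y : ℕ → unitInterval) (hy : y ∈ Fman_V) :
    Fman_G w y ∈ Fman_U w := by
  obtain ⟨h1, h2⟩ := Fman_arg w y hy
  show (((Fman_G w y).1 * w⁻¹ : Circle) : ℂ) ∈ Complex.slitPlane
  rw [Complex.mem_slitPlane_iff_arg]
  exact ⟨by rw [h1]; exact h2.ne, Circle.coe_ne_zero _⟩

theorem Fman_FG (w : Circle) (y : ℕ → unitInterval) (hy : y ∈ Fman_V) :
    Fman_F w (Fman_G w y) = y := by
  have hπ := Real.pi_pos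
  funext n
  cases n with
  | zero =>
    apply Subtype.ext
    rw [(Fman_val w _ (Fman_memU w y hy)).1, (Fman_arg w y hy).1]
    field_simp
    ring
  | succ n => rfl

/-- `S¹ × Q` is a Hilbert cube manifold -/
theorem Fman (x : Circle × Qc) : ∃ U : Set (Circle × Qc), IsOpen U ∧ x ∈ U ∧
    ∃ V : Set (ℕ → unitInterval), IsOpen V ∧ Nonempty (U ≃ₜ V) := by
  have hcm : Continuous (fun p : Circle × Qc => ((p.1 * x.1⁻¹ : Circle) : ℂ)) := by fun_prop
  have hy0 : Continuous (fun y : ℕ → unitInterval => (y 0 : ℝ)) :=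
    continuous_subtype_val.comp (continuous_apply 0)
  refine ⟨Fman_U x.1, Complex.isOpen_slitPlane.preimage hcm, ?_, Fman_V,
    (isOpen_lt continuous_const hy0).inter (isOpen_lt hy0 continuous_const), ⟨?_⟩⟩
  · show ((x.1 * x.1⁻¹ : Circle) : ℂ) ∈ Complex.slitPlane
    rw [mul_inv_cancel, Circle.coe_one]
    exact Complex.one_mem_slitPlane
  · exact
    { toFun := fun p => ⟨Fman_F x.1 p.1, by
        obtain ⟨h1, h2, h3⟩ := Fman_val x.1 p.1 p.2
        show (0 : ℝ) < (Fman_F x.1 p.1 0 : unitInterval) ∧ ((Fman_F x.1 p.1 0 : unitInterval) : ℝ) < 1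
        rw [h1]
        exact ⟨h2, h3⟩⟩
      invFun := fun y => ⟨Fman_G x.1 y.1, Fman_memU x.1 y.1 y.2⟩
      left_inv := fun p => Subtype.ext (Fman_GF x.1 p.1 p.2)
      right_inv := fun y => Subtype.ext (Fman_FG x.1 y.1 y.2)
      continuous_toFun := by
        apply Continuous.subtype_mk
        apply continuous_pi
        intro n
        cases n with
        | zero =>
          show Continuous (fun p : Fman_U x.1 => Set.projIcc (0 : ℝ) 1 zero_le_one
            ((Complex.arg ((p.1.1 * x.1⁻¹ : Circle) : ℂ) + Real.pi) / (2 * Real.pi)))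
          apply continuous_projIcc.comp
          apply Continuous.div_const
          apply Continuous.add _ continuous_const
          rw [continuous_iff_continuousAt]
          intro p
          have h1 : ContinuousAt (fun p : Fman_U x.1 => ((p.1.1 * x.1⁻¹ : Circle) : ℂ)) p :=
            (hcm.comp continuous_subtype_val).continuousAt
          exact ContinuousAt.comp (g := Complex.arg)
            (f := fun p : Fman_U x.1 => ((p.1.1 * x.1⁻¹ : Circle) : ℂ))
            (Complex.continuousAt_arg p.2) h1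
        | succ n =>
          show Continuous (fun p : Fman_U x.1 => p.1.2 n)
          fun_prop
      continuous_invFun := by
        apply Continuous.subtype_mk
        show Continuous (fun y : Fman_V => ((x.1 * Circle.exp (2 * Real.pi * (y.1 0 : ℝ) - Real.pi),
          fun n => y.1 (n + 1)) : Circle × Qc))
        have h1 : Continuous (fun y : Fman_V => (y.1 0 : ℝ)) := hy0.comp continuous_subtype_val
        apply Continuous.prodMk
        · apply continuous_const.mul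
          apply Circle.exp.continuous.comp
          exact (continuous_const.mul h1).sub continuous_const
        · apply continuous_pi
          intro n
          exact (continuous_apply (n + 1)).comp continuous_subtype_val }

end HQ
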