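import Pool.Agent.Helper194.HQ.S
import Pool.Agent.Helper194.BB.N
import Pool.Agent.Helper194.BB.P

set_option autoImplicit false
set_option linter.unusedVariables false
set_option linter.unusedSectionVars false

open scoped unitInterval Topology
open Set Filter Topology Metric

noncomputable section

namespace HQ
open BB

section
variable {Y : Type} [TopologicalSpace Y]

/-- the loops `1 - v + ζ v` -/
def gl (v : C(Y, M8)) (hv : ∀ y, v y * v y = v y) (ζ : C(Y, Circle)) : C(Y, M8ˣ) where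
  toFun y := gamU (v y) (hv y) (ζ y)
  continuous_toFun := by
    have h := (gam v hv).continuous
    exact h.comp (continuous_id.prodMk ζ.continuous)

/-- the circle coordinate of a real function -/
def ex (f : C(Y, ℝ)) : C(Y, Circle) := ⟨fun y => Circle.exp (2 * Real.pi * f y), by fun_prop⟩

theorem hom_exp (v : C(Y, M8)) (hv : ∀ y, v y * v y = v y) (f g : C(Y, ℝ)) (S : Set Y)
    (h : ∀ y ∈ S, f y = g y) :
    ContinuousMap.HomotopicRel (gl v hv (ex f)) (gl v hv (ex g)) S := by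
  have hfc := f.continuous
  have hgc := g.continuous
  let hfun : C(I × Y, ℝ) := ⟨fun p => (1 - (p.1:ℝ)) * f p.2 + (p.1:ℝ) * g p.2, by fun_prop⟩
  let vv : C(I × Y, M8) := v.comp ⟨Prod.snd, continuous_snd⟩
  let H : C(I × Y, M8ˣ) := gl vv (fun p => hv p.2) (ex hfun)
  have hH : ∀ (s : I) (y : Y), H (s, y) = gamU (v y) (hv y) (Circle.exp (2 * Real.pi * ((1 - (s:ℝ)) * f y + (s:ℝ) * g y))) :=
    fun s y => rfl
  have hG : ∀ (k : C(Y, ℝ)) (y : Y), gl v hv (ex k) y = gamU (v y) (hv y) (Circle.exp (2 * Real.pi * k y)) :=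
    fun k y => rfl
  refine ⟨{ toContinuousMap := H, map_zero_left := ?_, map_one_left := ?_, prop' := ?_ }⟩
  · intro y
    show H (0, y) = _
    rw [hH, hG]
    simp
  · intro y
    show H (1, y) = _
    rw [hH, hG]
    simp
  · intro t y hy
    show H (t, y) = _
    rw [hH, hG, ← h y hy]
    congr 2
    ring

theorem hom_line (F G : C(Y, M8ˣ)) (S : Set Y) (h : ∀ y ∈ S, F y = G y)
    (hu : ∀ y, ∀ s : ℝ, 0 ≤ s → s ≤ 1 → IsUnit ((1 - s : ℂ) • (F y).1 + (s : ℂ) • (G y).1)) :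
    ContinuousMap.HomotopicRel F G S := by
  have hM : Continuous (fun p : I × Y =>
      ((1 - ((p.1 : ℝ) : ℂ)) • (F p.2).1 + ((p.1 : ℝ) : ℂ) • (G p.2).1 : M8)) := by
    have hF : Continuous (fun p : I × Y => (F p.2).1) :=
      Units.continuous_val.comp (F.continuous.comp continuous_snd)
    have hG : Continuous (fun p : I × Y => (G p.2).1) :=
      Units.continuous_val.comp (G.continuous.comp continuous_snd)
    have hs : Continuous (fun p : I × Y => ((p.1 : ℝ) : ℂ)) :=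
      Complex.continuous_ofReal.comp (continuous_subtype_val.comp continuous_fst)
    exact ((continuous_const.sub hs).smul hF).add (hs.smul hG)
  have hun : ∀ p : I × Y,
      IsUnit ((1 - ((p.1 : ℝ) : ℂ)) • (F p.2).1 + ((p.1 : ℝ) : ℂ) • (G p.2).1 : M8) :=
    fun p => hu p.2 p.1 p.1.2.1 p.1.2.2
  have hcont : Continuous (fun p : I × Y => (hun p).unit) := by
    rw [Units.continuous_iff]
    refine ⟨hM, ?_⟩
    have hinv : (fun p : I × Y => (((hun p).unit)⁻¹ : M8ˣ).1) = fun p : I × Y =>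
        (((1 - ((p.1 : ℝ) : ℂ)) • (F p.2).1 + ((p.1 : ℝ) : ℂ) • (G p.2).1 : M8).det)⁻¹ •
          ((1 - ((p.1 : ℝ) : ℂ)) • (F p.2).1 + ((p.1 : ℝ) : ℂ) • (G p.2).1 : M8).adjugate := by
      funext p
      rw [Matrix.coe_units_inv, IsUnit.unit_spec, Matrix.inv_def, Ring.inverse_eq_inv']
    show Continuous (fun p : I × Y => (((hun p).unit)⁻¹ : M8ˣ).1)
    rw [hinv]
    refine Continuous.smul (Continuous.inv₀ hM.matrix_det fun p => ?_) hM.matrix_adjugate
    exact ((Matrix.isUnit_iff_isUnit_det _).1 (hun p)).ne_zero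
  refine ⟨⟨⟨⟨fun p => (hun p).unit, hcont⟩, ?_, ?_⟩, ?_⟩⟩
  · intro y
    refine Units.ext ?_
    show (1 - (((0 : I) : ℝ) : ℂ)) • (F y).1 + (((0 : I) : ℝ) : ℂ) • (G y).1 = (F y).1
    simp
  · intro y
    refine Units.ext ?_
    show (1 - (((1 : I) : ℝ) : ℂ)) • (F y).1 + (((1 : I) : ℝ) : ℂ) • (G y).1 = (G y).1
    simp
  · intro t y hy
    refine Units.ext ?_
    show (1 - ((t : ℝ) : ℂ)) • (F y).1 + ((t : ℝ) : ℂ) • (G y).1 = (F y).1
    rw [← h y hy, ← add_smul]
    simp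

theorem hom_idem_gamU_one (e : M8) (he : e * e = e) : gamU e he 1 = 1 := by
  apply Units.ext
  rw [gamU_val]
  simp


theorem hom_idem (v w : C(Y, M8)) (hv : ∀ y, v y * v y = v y) (hw : ∀ y, w y * w y = w y)
    (ζ : C(Y, Circle)) (S : Set Y) (hS : ∀ y ∈ S, ζ y = 1)
    (hu : ∀ y, ζ y ≠ 1 → ∀ s : ℝ, 0 ≤ s → s ≤ 1 →
      IsUnit ((1 - s : ℂ) • (gamU (v y) (hv y) (ζ y)).1 + (s : ℂ) • (gamU (w y) (hw y) (ζ y)).1)) :
    ContinuousMap.HomotopicRel (gl v hv ζ) (gl w hw ζ) S := by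
  apply hom_line
  · intro y hy
    show gamU (v y) (hv y) (ζ y) = gamU (w y) (hw y) (ζ y)
    rw [hS y hy, hom_idem_gamU_one, hom_idem_gamU_one]
  · intro y s hs0 hs1
    show IsUnit ((1 - s : ℂ) • (gamU (v y) (hv y) (ζ y)).1 +
      (s : ℂ) • (gamU (w y) (hw y) (ζ y)).1)
    by_cases h : ζ y = 1
    · rw [h, hom_idem_gamU_one, hom_idem_gamU_one, ← add_smul]
      have e : (1 - (s : ℂ)) + s = 1 := by ring
      rw [e, one_smul]
      exact isUnit_one
    · exact hu y h s hs0 hs1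

end

theorem close_idem {E : Type} [MetricSpace E] [CompactSpace E] (u : C(E, M8))
    (hu : ∀ e, u e * u e = u e) : ∃ η > (0 : ℝ), ∀ e x, dist e x < η → ∀ (z : Circle) (s : ℝ),
      0 ≤ s → s ≤ 1 →
      IsUnit ((1 - s : ℂ) • (gamU (u e) (hu e) z).1 + (s : ℂ) • (gamU (u x) (hu x) z).1) := by
  let f : (E × E) × (Circle × ℝ) → ℂ := fun p =>
    ((1 - (p.2.2 : ℂ)) • (1 - u p.1.1 + ((p.2.1 : Circle) : ℂ) • u p.1.1) +
      (p.2.2 : ℂ) • (1 - u p.1.2 + ((p.2.1 : Circle) : ℂ) • u p.1.2)).det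
  have hf : Continuous f := by
    apply Continuous.matrix_det
    have h1 : Continuous (fun p : (E × E) × (Circle × ℝ) => u p.1.1) :=
      u.continuous.comp (continuous_fst.comp continuous_fst)
    have h2 : Continuous (fun p : (E × E) × (Circle × ℝ) => u p.1.2) :=
      u.continuous.comp (continuous_snd.comp continuous_fst)
    have h3 : Continuous (fun p : (E × E) × (Circle × ℝ) => ((p.2.1 : Circle) : ℂ)) := by fun_prop
    have h4 : Continuous (fun p : (E × E) × (Circle × ℝ) => (p.2.2 : ℂ)) := by fun_prop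
    exact ((continuous_const.sub h4).smul ((continuous_const.sub h1).add (h3.smul h1))).add
      (h4.smul ((continuous_const.sub h2).add (h3.smul h2)))
  have hK : IsCompact ((univ ×ˢ (univ ×ˢ Icc (0:ℝ) 1)) ∩ {p : (E × E) × (Circle × ℝ) | f p = 0}) :=
    (isCompact_univ.prod (isCompact_univ.prod isCompact_Icc)).inter_right
      (isClosed_eq hf continuous_const)
  have hd : ContinuousOn (fun p : (E × E) × (Circle × ℝ) => dist p.1.1 p.1.2)
      ((univ ×ˢ (univ ×ˢ Icc (0:ℝ) 1)) ∩ {p : (E × E) × (Circle × ℝ) | f p = 0}) :=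
    ((continuous_fst.comp continuous_fst).dist (continuous_snd.comp continuous_fst)).continuousOn
  obtain ⟨η, hη, hmin⟩ := hK.exists_forall_le' hd (a := 0) (by
    rintro ⟨⟨e, x⟩, z, s⟩ ⟨-, hp⟩
    rw [dist_pos]
    intro hex
    simp only at hex
    subst hex
    have hp' : ((1 - (s : ℂ)) • (1 - u e + (z : ℂ) • u e) +
      (s : ℂ) • (1 - u e + (z : ℂ) • u e)).det = 0 := hp
    rw [← add_smul, sub_add_cancel, one_smul] at hp'
    have hun : IsUnit (1 - u e + (z : ℂ) • u e) := ⟨gamU (u e) (hu e) z, rfl⟩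
    rw [Matrix.isUnit_iff_isUnit_det, isUnit_iff_ne_zero] at hun
    exact hun hp')
  refine ⟨η, hη, fun e x hex z s hs0 hs1 => ?_⟩
  rw [Matrix.isUnit_iff_isUnit_det, isUnit_iff_ne_zero]
  intro h0
  have := hmin ((e, x), (z, s)) ⟨⟨mem_univ _, mem_univ _, hs0, hs1⟩, h0⟩
  simp only at this
  linarith

section
variable {E : Type} [MetricSpace E]

/-- triples `(e, x, t)` with `x` in the fibre of `e` -/
abbrev Tot (s : C(E, E)) : Type := {v : E × (E × I) // s v.2.1 = s v.1}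

/-- the marked points -/
def Marks (s : C(E, E)) : Set (Tot s) := {v | mk2 v.1.1 (s v.1.1) v.1.2}

/-- the first coordinate -/
def t1 (s : C(E, E)) : C(Tot s, E) := ⟨fun v => v.1.1, by fun_prop⟩

/-- the second coordinate -/
def t2 (s : C(E, E)) : C(Tot s, E) := ⟨fun v => v.1.2.1, by fun_prop⟩

/-- the third coordinate -/
def t3 (s : C(E, E)) : C(Tot s, ℝ) := ⟨fun v => (v.1.2.2 : ℝ), by fun_prop⟩

end

theorem ex_eq_one {Y : Type} [TopologicalSpace Y] (f : C(Y, ℝ)) (y : Y) (h : f y = 0 ∨ f y = 1) :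
    ex f y = 1 := by
  show Circle.exp (2 * Real.pi * f y) = 1
  rcases h with h | h
  · rw [h, mul_zero, Circle.exp_zero]
  · rw [h, mul_one, Circle.exp_two_pi]

/-- the relation in `K^1` of the family of circles -/
theorem rel_hom {E : Type} [MetricSpace E] [CompactSpace E] (s : C(E, E)) (hs : ∀ e, s (s e) = s e)
    (u : C(E, M8)) (hu : ∀ e, u e * u e = u e) (hus : ∀ e, u (s e) = e0) :
    ContinuousMap.HomotopicRel (gl (u.comp (t1 s)) (fun v => hu _) (ex (t3 s)))
      (gl (ContinuousMap.const _ e0) (fun v => e0_idem') (ex (t3 s))) (Marks s) := by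
  obtain ⟨η, hη, hclose⟩ := close_idem u hu
  let ψ' : C(Tot s, ℝ) := ⟨fun v => max 0 (1 - dist v.1.1 v.1.2.1 / η), by fun_prop⟩
  let ψ : C(Tot s, ℝ) := ⟨fun v => max 0 (1 - dist v.1.2.1 (s v.1.2.1) / η), by fun_prop⟩
  let f1 : C(Tot s, ℝ) := ⟨fun v => 1 - (1 - (v.1.2.2 : ℝ)) * ψ' v, by fun_prop⟩
  let g1 : C(Tot s, ℝ) := ⟨fun v => (v.1.2.2 : ℝ) * ψ v, by fun_prop⟩
  have hf1 : ∀ v, f1 v = 1 - (1 - (v.1.2.2 : ℝ)) * max 0 (1 - dist v.1.1 v.1.2.1 / η) := fun v => rfl
  have hg1 : ∀ v, g1 v = (v.1.2.2 : ℝ) * max 0 (1 - dist v.1.2.1 (s v.1.2.1) / η) := fun v => rfl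
  have ht3 : ∀ v, t3 s v = (v.1.2.2 : ℝ) := fun v => rfl
  -- values on the marks
  have m3 : ∀ v ∈ Marks s, t3 s v = 0 ∨ t3 s v = 1 := by
    rintro ⟨⟨e, x, t⟩, hv⟩ hm
    rcases hm with hm | hm
    · left
      have h2 : t = 0 := (Prod.ext_iff.1 hm).2
      rw [ht3]; show (t : ℝ) = 0; rw [h2]; simp
    · right
      have h2 : t = 1 := (Prod.ext_iff.1 hm).2
      rw [ht3]; show (t : ℝ) = 1; rw [h2]; simp
  have mf : ∀ v ∈ Marks s, t3 s v = f1 v := by
    rintro ⟨⟨e, x, t⟩, hv⟩ hm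
    rw [hf1, ht3]
    rcases hm with hm | hm
    · have h1 : x = e := (Prod.ext_iff.1 hm).1
      have h2 : t = 0 := (Prod.ext_iff.1 hm).2
      show (t : ℝ) = 1 - (1 - (t : ℝ)) * max 0 (1 - dist e x / η)
      rw [h1, h2]; simp
    · have h2 : t = 1 := (Prod.ext_iff.1 hm).2
      show (t : ℝ) = 1 - (1 - (t : ℝ)) * max 0 (1 - dist e x / η)
      rw [h2]; simp
  have mg : ∀ v ∈ Marks s, t3 s v = g1 v := by
    rintro ⟨⟨e, x, t⟩, hv⟩ hm
    rw [hg1, ht3]
    rcases hm with hm | hm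
    · have h2 : t = 0 := (Prod.ext_iff.1 hm).2
      show (t : ℝ) = (t : ℝ) * max 0 (1 - dist x (s x) / η)
      rw [h2]; simp
    · have h1 : x = s e := (Prod.ext_iff.1 hm).1
      have h2 : t = 1 := (Prod.ext_iff.1 hm).2
      show (t : ℝ) = (t : ℝ) * max 0 (1 - dist x (s x) / η)
      rw [h1, h2, hs]; simp
  have hA := hom_exp (u.comp (t1 s)) (fun v => hu _) (t3 s) f1 (Marks s) mf
  have hB : ContinuousMap.HomotopicRel (gl (u.comp (t1 s)) (fun v => hu _) (ex f1))
      (gl (u.comp (t2 s)) (fun v => hu _) (ex f1)) (Marks s) := by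
    refine hom_idem _ _ _ _ _ _ (fun v hv => ex_eq_one f1 v ?_) ?_
    · rw [← mf v hv]; exact m3 v hv
    · intro v hne r hr0 hr1
      have hd : dist v.1.1 v.1.2.1 < η := by
        by_contra hcon
        apply hne
        apply ex_eq_one
        right
        rw [hf1]
        have : 1 - dist v.1.1 v.1.2.1 / η ≤ 0 := by
          rw [sub_nonpos, one_le_div hη]; exact not_lt.1 hcon
        rw [max_eq_left this]; ring
      exact hclose _ _ hd _ r hr0 hr1
  have hC := hom_exp (u.comp (t2 s)) (fun v => hu _) f1 (t3 s) (Marks s) (fun v hv => (mf v hv).symm)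
  have hD := hom_exp (u.comp (t2 s)) (fun v => hu _) (t3 s) g1 (Marks s) mg
  have hE : ContinuousMap.HomotopicRel (gl (u.comp (t2 s)) (fun v => hu _) (ex g1))
      (gl (ContinuousMap.const _ e0) (fun v => e0_idem') (ex g1)) (Marks s) := by
    refine hom_idem _ _ _ _ _ _ (fun v hv => ex_eq_one g1 v ?_) ?_
    · rw [← mg v hv]; exact m3 v hv
    · intro v hne r hr0 hr1
      have hd : dist v.1.2.1 (s v.1.2.1) < η := by
        by_contra hcon
        apply hne
        apply ex_eq_one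
        left
        rw [hg1]
        have : 1 - dist v.1.2.1 (s v.1.2.1) / η ≤ 0 := by
          rw [sub_nonpos, one_le_div hη]; exact not_lt.1 hcon
        rw [max_eq_left this]; ring
      have h := hclose _ _ hd (ex g1 v) r hr0 hr1
      rw [gamU_val, gamU_val, hus] at h
      exact h
  have hF := hom_exp (ContinuousMap.const (Tot s) e0) (fun v => e0_idem') g1 (t3 s) (Marks s)
    (fun v hv => (mg v hv).symm)
  exact hA.trans (hB.trans (hC.trans (hD.trans (hE.trans hF))))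

end HQ
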