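import Pool.Agent.Helper194.HQ.D

set_option autoImplicit false
set_option linter.unusedVariables false
set_option linter.unusedSectionVars false

open scoped unitInterval Topology
open Set Filter Topology Metric

noncomputable section

namespace HQ

/-- near the graph -/
def Good {P V : Type} [NormedAddCommGroup V] (Γ : P → Set (V × Circle)) (ε : ℝ) (x : P)
    (p : V × Circle) : Prop := ∃ p' ∈ Γ x, dist p p' < ε

/-- fine coloured covers -/
def Cov (P : Type) [MetricSpace P] (M : ℕ) : Prop :=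
  ∀ r > (0 : ℝ), ∃ (J : Type) (_ : Fintype J) (κ : J → C(P, ℝ)) (col : J → Fin M),
    (∀ α x, 0 ≤ κ α x ∧ κ α x ≤ 1) ∧ (∀ α x y, κ α x ≠ 0 → κ α y ≠ 0 → dist x y < r) ∧
    (∀ x, ∃ α, κ α x = 1) ∧ ∀ α β x, col α = col β → κ α x ≠ 0 → κ β x ≠ 0 → α = β

/-- extension property of the fibres -/
theorem retr {V : Type} [NormedAddCommGroup V] [NormedSpace ℝ V] (φ : C(Fq, V))
    (hφ : Function.Injective φ) (θ : C(Fq, Circle)) (μ : C(Fq, ℝ))
    (h : ∀ w, θ w = w.1 * Circle.exp (μ w)) :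
    ∃ (R : C(V × Circle, Fq)) (L : C(V × Circle, ℝ)), (∀ p, θ (R p) = p.2 * Circle.exp (L p)) ∧
      ∀ w, R (φ w, θ w) = w ∧ L (φ w, θ w) = 0 := by
  have hec : Continuous (fun w : Fq => ((φ w, θ w) : V × Circle)) :=
    φ.continuous.prodMk θ.continuous
  have hei : Function.Injective (fun w : Fq => ((φ w, θ w) : V × Circle)) := by
    intro w w' hw
    exact hφ (Prod.ext_iff.1 hw).1
  have he : Topology.IsClosedEmbedding (fun w : Fq => ((φ w, θ w) : V × Circle)) :=
    hec.isClosedEmbedding hei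
  have hext : ∀ g0 : C(Fq, ℝ), ∃ g : C(V × Circle, ℝ), ∀ w, g (φ w, θ w) = g0 w := by
    intro g0
    obtain ⟨g, hg⟩ := ContinuousMap.exists_extension he g0
    refine ⟨g, fun w => ?_⟩
    have := congrArg (fun k : C(Fq, ℝ) => k w) hg
    exact this
  obtain ⟨lam, hlam⟩ := hext (-μ)
  have hq : ∀ i : ℕ, ∃ g : C(V × Circle, ℝ), ∀ w : Fq, g (φ w, θ w) = (w.2 i : ℝ) := by
    intro i
    exact hext ⟨fun w => (w.2 i : ℝ),
      continuous_subtype_val.comp ((continuous_apply i).comp continuous_snd)⟩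
  choose g hg using hq
  have hRc : Continuous (fun p : V × Circle => ((p.2 * Circle.exp (lam p),
      fun i => Set.projIcc (0:ℝ) 1 zero_le_one (g i p)) : Fq)) := by
    apply Continuous.prodMk
    · exact continuous_snd.mul (Circle.exp.continuous.comp lam.continuous)
    · exact continuous_pi fun i => continuous_projIcc.comp (g i).continuous
  have hLc : Continuous (fun p : V × Circle => lam p + μ ((p.2 * Circle.exp (lam p),
      fun i => Set.projIcc (0:ℝ) 1 zero_le_one (g i p)) : Fq)) :=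
    lam.continuous.add (μ.continuous.comp hRc)
  have hRw : ∀ w : Fq, ((θ w * Circle.exp (lam (φ w, θ w)),
      fun i => Set.projIcc (0:ℝ) 1 zero_le_one (g i (φ w, θ w))) : Fq) = w := by
    intro w
    refine Prod.ext ?_ ?_
    · show θ w * Circle.exp (lam (φ w, θ w)) = w.1
      rw [hlam, h w]
      have h1 : (-μ) w = - μ w := rfl
      rw [h1, mul_assoc, ← Circle.exp_add, add_neg_cancel, Circle.exp_zero, mul_one]
    · funext i
      show Set.projIcc (0:ℝ) 1 zero_le_one (g i (φ w, θ w)) = w.2 i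
      rw [hg]
      exact Set.projIcc_val zero_le_one (w.2 i)
  refine ⟨⟨_, hRc⟩, ⟨_, hLc⟩, ?_, ?_⟩
  · intro p
    show θ _ = p.2 * Circle.exp (lam p + μ _)
    rw [h, Circle.exp_add, ← mul_assoc]
    rfl
  · intro w
    refine ⟨hRw w, ?_⟩
    show lam (φ w, θ w) + μ ((θ w * Circle.exp (lam (φ w, θ w)),
      fun i => Set.projIcc (0:ℝ) 1 zero_le_one (g i (φ w, θ w))) : Fq) = 0
    rw [hRw w, hlam]
    show - μ w + μ w = 0
    ring

section
variable {P V : Type} [MetricSpace P] [CompactSpace P] [NormedAddCommGroup V] [NormedSpace ℝ V]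
  (Γ : P → Set (V × Circle))

/-- the fibres over each point -/
def FF : Prop := ∀ x : P, ∃ (φ : C(Fq, V)) (θ : C(Fq, Circle)) (μ : C(Fq, ℝ)),
  Function.Injective φ ∧ (∀ w, θ w = w.1 * Circle.exp (μ w)) ∧ Γ x = range fun w => (φ w, θ w)

/-- Hausdorff continuity -/
def HC : Prop := ∀ (x0 : P) (ε : ℝ), 0 < ε → ∀ᶠ x in 𝓝 x0,
  (∀ p ∈ Γ x0, ∃ p' ∈ Γ x, dist p p' < ε) ∧ ∀ p ∈ Γ x, ∃ p' ∈ Γ x0, dist p p' < ε

theorem pu_local (h1 : FF Γ) (h2 : HC Γ) (ε : ℝ) (hε : 0 < ε) (v0 : P) :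
    ∃ d : ℝ, 0 < d ∧ ∃ (R : C(V × Circle, V)) (L : C(V × Circle, ℝ)),
      ∀ᶠ x in 𝓝 v0, (∀ p, Good Γ ε x (R p, p.2 * Circle.exp (L p))) ∧
        ∀ p, Good Γ d x p → dist (R p) p.1 < ε ∧ |L p| < ε := by
  obtain ⟨φ, θ, μ, hinj, hμ, hΓ⟩ := h1 v0
  obtain ⟨R0, L0, hR1, hR2⟩ := retr φ hinj θ μ hμ
  have hcomp : IsCompact (Γ v0) := by
    rw [hΓ]
    exact isCompact_range (by fun_prop)
  let U : Set (V × Circle) := {p | dist (φ (R0 p)) p.1 < ε ∧ |L0 p| < ε}
  have hU : IsOpen U := by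
    have e1 : IsOpen {p : V × Circle | dist (φ (R0 p)) p.1 < ε} :=
      isOpen_lt (by fun_prop) continuous_const
    have e2 : IsOpen {p : V × Circle | |L0 p| < ε} := isOpen_lt (by fun_prop) continuous_const
    exact e1.inter e2
  have hsub : Γ v0 ⊆ U := by
    intro p hp
    rw [hΓ] at hp
    obtain ⟨w, rfl⟩ := hp
    refine ⟨?_, ?_⟩
    · show dist (φ (R0 (φ w, θ w))) (φ w) < ε
      rw [(hR2 w).1, dist_self]
      exact hε
    · show |L0 (φ w, θ w)| < ε
      rw [(hR2 w).2, abs_zero]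
      exact hε
  obtain ⟨δ0, hδ0, hthick⟩ := hcomp.exists_thickening_subset_open hU hsub
  refine ⟨min (δ0 / 2) ε, lt_min (by linarith) hε, φ.comp R0, L0, ?_⟩
  filter_upwards [h2 v0 (min (δ0 / 2) ε) (lt_min (by linarith) hε)] with x hx
  refine ⟨?_, ?_⟩
  · intro p
    have hmem : ((φ.comp R0) p, p.2 * Circle.exp (L0 p)) ∈ Γ v0 := by
      rw [hΓ]
      refine ⟨R0 p, ?_⟩
      show (φ (R0 p), θ (R0 p)) = _
      rw [hR1]
      rfl
    obtain ⟨p', hp', hd⟩ := hx.1 _ hmem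
    exact ⟨p', hp', lt_of_lt_of_le hd (min_le_right _ _)⟩
  · rintro p ⟨p', hp', hd⟩
    obtain ⟨p'', hp'', hd'⟩ := hx.2 p' hp'
    have h3 : p ∈ U := by
      apply hthick
      rw [Metric.mem_thickening_iff]
      refine ⟨p'', hp'', ?_⟩
      calc dist p p'' ≤ dist p p' + dist p' p'' := dist_triangle _ _ _
        _ < δ0 / 2 + δ0 / 2 := add_lt_add (lt_of_lt_of_le hd (min_le_left _ _))
            (lt_of_lt_of_le hd' (min_le_left _ _))
        _ = δ0 := by ring
    exact h3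

theorem pu_min {ι : Type*} (d : ι → ℝ) (hd : ∀ i, 0 < d i) (t : Finset ι) :
    ∃ δ > (0 : ℝ), ∀ i ∈ t, δ ≤ d i := by
  classical
  induction t using Finset.induction_on with
  | empty => exact ⟨1, one_pos, by simp⟩
  | insert a s _ ih =>
    obtain ⟨δ, hδ, h⟩ := ih
    refine ⟨min δ (d a), lt_min hδ (hd a), ?_⟩
    intro i hi
    rcases Finset.mem_insert.1 hi with rfl | hi
    · exact min_le_right _ _
    · exact (min_le_left _ _).trans (h i hi)

theorem prop_uniform (h1 : FF Γ) (h2 : HC Γ) (ε : ℝ) (hε : 0 < ε) :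
    ∃ δ > (0 : ℝ), ∃ r > (0 : ℝ), ∀ v : P, ∃ (R : C(V × Circle, V)) (L : C(V × Circle, ℝ)),
      ∀ x : P, dist x v < r → (∀ p, Good Γ ε x (R p, p.2 * Circle.exp (L p))) ∧
        ∀ p, Good Γ δ x p → dist (R p) p.1 < ε ∧ |L p| < ε := by
  choose d hd R L hRL using pu_local Γ h1 h2 ε hε
  have hO : ∀ v0 : P, ∃ O : Set P, IsOpen O ∧ v0 ∈ O ∧ ∀ x ∈ O,
      (∀ p, Good Γ ε x (R v0 p, p.2 * Circle.exp (L v0 p))) ∧
        ∀ p, Good Γ (d v0) x p → dist (R v0 p) p.1 < ε ∧ |L v0 p| < ε := by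
    intro v0
    obtain ⟨O, hO1, hO2, hO3⟩ := _root_.eventually_nhds_iff.1 (hRL v0)
    exact ⟨O, hO2, hO3, hO1⟩
  choose O hO1 hO2 hO3 using hO
  obtain ⟨t, ht⟩ := isCompact_univ.elim_finite_subcover O hO1 (fun x _ => mem_iUnion.2 ⟨x, hO2 x⟩)
  obtain ⟨δ, hδ, hδ2⟩ := pu_min d hd t
  obtain ⟨r, hr, hr2⟩ := lebesgue_number_lemma_of_metric (c := fun i : t => O i.1) isCompact_univ
    (fun i => hO1 i.1) (by
      intro x hx
      obtain ⟨i, hi⟩ := mem_iUnion.1 (ht hx)
      obtain ⟨hit, hxi⟩ := mem_iUnion.1 hi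
      exact mem_iUnion.2 ⟨⟨i, hit⟩, hxi⟩)
  refine ⟨δ, hδ, r, hr, ?_⟩
  intro v
  obtain ⟨i, hi⟩ := hr2 v (mem_univ v)
  refine ⟨R i.1, L i.1, ?_⟩
  intro x hx
  have hxO := hi (show x ∈ ball v r from hx)
  obtain ⟨h3, h4⟩ := hO3 i.1 x hxO
  refine ⟨h3, ?_⟩
  rintro p ⟨p', hp', hd'⟩
  exact h4 p ⟨p', hp', lt_of_lt_of_le hd' (hδ2 i.1 i.2)⟩

theorem circ_dist (z : Circle) (a b : ℝ) :
    dist (z * Circle.exp (a + b)) (z * Circle.exp a) ≤ |b| := by
  rw [Circle.exp_add, ← mul_assoc]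
  have h1 : dist (z * Circle.exp a * Circle.exp b) (z * Circle.exp a) =
      ‖Complex.exp (Complex.I * b) - 1‖ := by
    change dist ((z * Circle.exp a * Circle.exp b : Circle) : ℂ) ((z * Circle.exp a : Circle) : ℂ) = _
    rw [dist_eq_norm]
    have e : ((z * Circle.exp a * Circle.exp b : Circle) : ℂ) - ((z * Circle.exp a : Circle) : ℂ) =
        ((z * Circle.exp a : Circle) : ℂ) * (Complex.exp (Complex.I * b) - 1) := by
      rw [Circle.coe_mul (z * Circle.exp a), Circle.coe_exp b, mul_comm (b : ℂ) Complex.I]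
      ring
    rw [e, norm_mul, Circle.norm_coe, one_mul]
  rw [h1]
  exact (Real.norm_exp_I_mul_ofReal_sub_one_le).trans (le_of_eq (Real.norm_eq_abs b))

theorem sel_step [Nonempty P] (ε δ r : ℝ) (hδ : 0 < δ) (hδε : δ ≤ ε) (hr : 0 < r)
    (hprop : ∀ v : P, ∃ (R : C(V × Circle, V)) (L : C(V × Circle, ℝ)),
      ∀ x : P, dist x v < r → (∀ p, Good Γ ε x (R p, p.2 * Circle.exp (L p))) ∧
        ∀ p, Good Γ δ x p → dist (R p) p.1 < ε ∧ |L p| < ε)
    {M : ℕ} {J : Type} [Fintype J] (κ : J → C(P, ℝ)) (col : J → Fin M)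
    (k1 : ∀ α x, 0 ≤ κ α x ∧ κ α x ≤ 1) (k2 : ∀ α x y, κ α x ≠ 0 → κ α y ≠ 0 → dist x y < r)
    (k3 : ∀ α β x, col α = col β → κ α x ≠ 0 → κ β x ≠ 0 → α = β) (c : Fin M)
    (sg : C(P × Circle, V)) (lam : C(P × Circle, ℝ)) (S : Set P)
    (hS : ∀ x ∈ S, ∀ z, Good Γ δ x (sg (x, z), z * Circle.exp (lam (x, z)))) :
    ∃ (sg' : C(P × Circle, V)) (lam' : C(P × Circle, ℝ)), ∀ x, (x ∈ S ∨ ∃ α, col α = c ∧ κ α x = 1) →
      ∀ z, Good Γ (2 * ε) x (sg' (x, z), z * Circle.exp (lam' (x, z))) := by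
  classical
  have hε : 0 < ε := lt_of_lt_of_le hδ hδε
  -- choose centres
  have hv : ∀ α : J, ∃ v : P, (∃ x, κ α x ≠ 0) → κ α v ≠ 0 := by
    intro α
    by_cases h : ∃ x, κ α x ≠ 0
    · obtain ⟨x, hx⟩ := h
      exact ⟨x, fun _ => hx⟩
    · exact ⟨Classical.arbitrary P, fun h' => absurd h' h⟩
  choose v hv using hv
  choose R L hRL using fun α : J => hprop (v α)
  -- the point
  let pp : C(P × Circle, V × Circle) :=
    ⟨fun q => (sg q, q.2 * Circle.exp (lam q)), by fun_prop⟩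
  let A : Finset J := Finset.univ.filter (fun α => col α = c)
  let sg' : C(P × Circle, V) :=
    ⟨fun q => sg q + ∑ α ∈ A, κ α q.1 • (R α (pp q) - sg q), by fun_prop⟩
  let lam' : C(P × Circle, ℝ) :=
    ⟨fun q => lam q + ∑ α ∈ A, κ α q.1 * L α (pp q), by fun_prop⟩
  refine ⟨sg', lam', ?_⟩
  intro x hx z
  have hs1 : sg' (x, z) = sg (x, z) + ∑ α ∈ A, κ α x • (R α (pp (x, z)) - sg (x, z)) := rfl
  have hl1 : lam' (x, z) = lam (x, z) + ∑ α ∈ A, κ α x * L α (pp (x, z)) := rfl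
  have hpp : pp (x, z) = (sg (x, z), z * Circle.exp (lam (x, z))) := rfl
  rw [hs1, hl1]
  by_cases hact : ∃ α, col α = c ∧ κ α x ≠ 0
  · obtain ⟨α, hα, hαx⟩ := hact
    have hmem : α ∈ A := Finset.mem_filter.2 ⟨Finset.mem_univ _, hα⟩
    have hother : ∀ β ∈ A, β ≠ α → κ β x = 0 := by
      intro β hβ hne
      by_contra h0
      exact hne (k3 β α x ((Finset.mem_filter.1 hβ).2.trans hα.symm) h0 hαx)
    rw [Finset.sum_eq_single α (fun β hβ hne => by rw [hother β hβ hne, zero_smul])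
      (fun h => absurd hmem h), Finset.sum_eq_single α
      (fun β hβ hne => by rw [hother β hβ hne, zero_mul]) (fun h => absurd hmem h)]
    have hd : dist x (v α) < r := k2 α x (v α) hαx (hv α ⟨x, hαx⟩)
    obtain ⟨g1, g2⟩ := hRL α x hd
    by_cases ht : κ α x = 1
    · rw [ht, one_smul, one_mul, add_sub_cancel]
      obtain ⟨p', hp', hd'⟩ := g1 (pp (x, z))
      refine ⟨p', hp', ?_⟩
      have e : z * Circle.exp (lam (x, z) + L α (pp (x, z))) =
          (pp (x, z)).2 * Circle.exp (L α (pp (x, z))) := by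
        rw [Circle.exp_add, ← mul_assoc, hpp]
      rw [e]
      linarith
    · have hxS : x ∈ S := by
        rcases hx with h | ⟨β, hβ, hβx⟩
        · exact h
        · exfalso
          have : β = α := k3 β α x (hβ.trans hα.symm) (by rw [hβx]; exact one_ne_zero) hαx
          exact ht (this ▸ hβx)
      have hgood := hS x hxS z
      rw [← hpp] at hgood
      obtain ⟨h3, h4⟩ := g2 _ hgood
      obtain ⟨p'', hp'', hd''⟩ := hgood
      refine ⟨p'', hp'', ?_⟩
      have hk0 := (k1 α x).1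
      have hk1 := (k1 α x).2
      have d1 : dist (sg (x, z) + κ α x • (R α (pp (x, z)) - sg (x, z))) (sg (x, z)) < ε := by
        rw [dist_eq_norm, add_sub_cancel_left, norm_smul, Real.norm_eq_abs, abs_of_nonneg hk0]
        have h5 : ‖R α (pp (x, z)) - sg (x, z)‖ < ε := by
          rw [← dist_eq_norm]; exact h3
        calc κ α x * ‖R α (pp (x, z)) - sg (x, z)‖ ≤ 1 * ‖R α (pp (x, z)) - sg (x, z)‖ :=
              mul_le_mul_of_nonneg_right hk1 (norm_nonneg _)
          _ < ε := by rw [one_mul]; exact h5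
      have d2 : dist (z * Circle.exp (lam (x, z) + κ α x * L α (pp (x, z))))
          (z * Circle.exp (lam (x, z))) < ε := by
        refine (circ_dist _ _ _).trans_lt ?_
        rw [abs_mul, abs_of_nonneg hk0]
        calc κ α x * |L α (pp (x, z))| ≤ 1 * |L α (pp (x, z))| :=
              mul_le_mul_of_nonneg_right hk1 (abs_nonneg _)
          _ < ε := by rw [one_mul]; exact h4
      have d3 : dist (sg (x, z) + κ α x • (R α (pp (x, z)) - sg (x, z)),
          z * Circle.exp (lam (x, z) + κ α x * L α (pp (x, z)))) (pp (x, z)) < ε := by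
        rw [hpp, Prod.dist_eq]
        rw [hpp] at d1 d2
        exact max_lt d1 d2
      have := dist_triangle (sg (x, z) + κ α x • (R α (pp (x, z)) - sg (x, z)),
          z * Circle.exp (lam (x, z) + κ α x * L α (pp (x, z)))) (pp (x, z)) p''
      linarith
  · push Not at hact
    have h0 : ∀ β ∈ A, κ β x = 0 := fun β hβ => hact β (Finset.mem_filter.1 hβ).2
    rw [Finset.sum_eq_zero (fun β hβ => by rw [h0 β hβ, zero_smul]),
      Finset.sum_eq_zero (fun β hβ => by rw [h0 β hβ, zero_mul]), add_zero, add_zero]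
    have hxS : x ∈ S := by
      rcases hx with h | ⟨β, hβ, hβx⟩
      · exact h
      · exfalso
        rw [hact β hβ] at hβx
        exact zero_ne_one hβx
    obtain ⟨p', hp', hd'⟩ := hS x hxS z
    exact ⟨p', hp', by linarith⟩

/-- approximate sections over finite dimensional compacta -/
theorem selA [Nonempty P] (h1 : FF Γ) (h2 : HC Γ) {M : ℕ} (hM : Cov P M) (ε : ℝ) (hε : 0 < ε) :
    ∃ (sg : C(P × Circle, V)) (lam : C(P × Circle, ℝ)),
      ∀ x z, Good Γ ε x (sg (x, z), z * Circle.exp (lam (x, z))) := by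
  have main : ∀ k : ℕ, ∀ ε : ℝ, 0 < ε → ∃ r > (0 : ℝ), ∀ (J : Type) (_ : Fintype J) (κ : J → C(P, ℝ))
      (col : J → Fin M), (∀ α x, 0 ≤ κ α x ∧ κ α x ≤ 1) →
      (∀ α x y, κ α x ≠ 0 → κ α y ≠ 0 → dist x y < r) →
      (∀ α β x, col α = col β → κ α x ≠ 0 → κ β x ≠ 0 → α = β) →
      ∃ (sg : C(P × Circle, V)) (lam : C(P × Circle, ℝ)),
        ∀ x, (∃ α, (col α : ℕ) < k ∧ κ α x = 1) → ∀ z, Good Γ ε x (sg (x, z), z * Circle.exp (lam (x, z))) := by
    intro k
    induction k with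
    | zero =>
      intro ε hε
      refine ⟨1, one_pos, fun J fJ κ col _ _ _ => ⟨0, 0, ?_⟩⟩
      rintro x ⟨α, h, -⟩
      exact absurd h (Nat.not_lt_zero _)
    | succ k ih =>
      intro ε hε
      by_cases hkM : k < M
      · obtain ⟨δ0, hδ0, r1, hr1, hprop⟩ := prop_uniform Γ h1 h2 (ε / 2) (half_pos hε)
        have hδ : 0 < min δ0 (ε / 2) := lt_min hδ0 (half_pos hε)
        obtain ⟨r2, hr2, hih⟩ := ih (min δ0 (ε / 2)) hδ
        have hr : 0 < min r1 r2 := lt_min hr1 hr2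
        refine ⟨min r1 r2, hr, fun J fJ κ col k1 k2 k3 => ?_⟩
        obtain ⟨sg, lam, hsl⟩ := hih J fJ κ col k1
          (fun α x y hx hy => (k2 α x y hx hy).trans_le (min_le_right _ _)) k3
        obtain ⟨sg', lam', h'⟩ := sel_step Γ (ε / 2) (min δ0 (ε / 2)) (min r1 r2) hδ (min_le_right _ _) hr
          (fun v => by
            obtain ⟨R, L, hRL⟩ := hprop v
            refine ⟨R, L, fun x hx => ?_⟩
            obtain ⟨a1, a2⟩ := hRL x (hx.trans_le (min_le_left _ _))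
            refine ⟨a1, fun p hp => a2 p ?_⟩
            obtain ⟨p', q1, q2⟩ := hp
            exact ⟨p', q1, q2.trans_le (min_le_left _ _)⟩)
          κ col k1 k2 k3 ⟨k, hkM⟩ sg lam {x | ∃ α, (col α : ℕ) < k ∧ κ α x = 1} (fun x hx z => hsl x hx z)
        refine ⟨sg', lam', ?_⟩
        rintro x ⟨α, hα, hα1⟩ z
        have h3 := h' x (by
          rcases Nat.lt_succ_iff_lt_or_eq.1 hα with h | h
          · exact Or.inl ⟨α, h, hα1⟩
          · exact Or.inr ⟨α, Fin.ext h, hα1⟩) z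
        have e : 2 * (ε / 2) = ε := by ring
        rwa [e] at h3
      · obtain ⟨r, hr, hih⟩ := ih ε hε
        refine ⟨r, hr, fun J fJ κ col k1 k2 k3 => ?_⟩
        obtain ⟨sg, lam, hsl⟩ := hih J fJ κ col k1 k2 k3
        refine ⟨sg, lam, ?_⟩
        rintro x ⟨α, hα, hα1⟩ z
        exact hsl x ⟨α, lt_of_lt_of_le (col α).2 (not_lt.1 hkM), hα1⟩ z
  obtain ⟨r, hr, hmain⟩ := main M ε hε
  obtain ⟨J, fJ, κ, col, k1, k2, k3, k4⟩ := hM r hr
  obtain ⟨sg, lam, h⟩ := hmain J fJ κ col k1 k2 k4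
  refine ⟨sg, lam, fun x z => ?_⟩
  obtain ⟨α, hα⟩ := k3 x
  exact h x ⟨α, (col α).2, hα⟩ z

end

/-- subsets of finite dimensional cubes have fine coloured covers -/
theorem cov_cube (n : ℕ) (S : Set (Fin n → I)) : ∃ M, Cov S M := by
  classical
  refine ⟨Fintype.card (Fin n → Fin 2), ?_⟩
  intro r hr
  obtain ⟨N, hN⟩ := exists_nat_gt (2 / r)
  have hN0 : (0 : ℝ) < N := lt_trans (by positivity) hN
  have hNr : 2 < r * N := by
    rw [div_lt_iff₀ hr] at hN
    linarith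
  let τ : ℝ → ℕ → ℝ := fun t k => max 0 (min 1 (2 - 2 * |N * t - k|))
  have τ0 : ∀ t k, 0 ≤ τ t k := fun t k => le_max_left _ _
  have τ1 : ∀ t k, τ t k ≤ 1 := fun t k => max_le zero_le_one (min_le_left _ _)
  have τs : ∀ (t : ℝ) (k : ℕ), τ t k ≠ 0 → |N * t - k| < 1 := by
    intro t k h
    by_contra h'
    push Not at h'
    apply h
    show max 0 (min 1 (2 - 2 * |N * t - k|)) = 0
    apply max_eq_left
    exact (min_le_right _ _).trans (by linarith)
  have τe : ∀ (t : ℝ) (k : ℕ), |N * t - k| ≤ 1 / 2 → τ t k = 1 := by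
    intro t k h
    show max 0 (min 1 (2 - 2 * |N * t - k|)) = 1
    rw [min_eq_left (by linarith)]
    exact max_eq_right zero_le_one
  have τc : ∀ k, Continuous (fun t => τ t k) := by
    intro k
    show Continuous (fun t : ℝ => max 0 (min 1 (2 - 2 * |N * t - k|)))
    fun_prop
  refine ⟨Fin n → Fin (N + 1), inferInstance,
    fun α => ⟨fun x => ∏ i, τ (((x : Fin n → I) i : I) : ℝ) (α i), ?_⟩,
    fun α => Fintype.equivFin (Fin n → Fin 2) (fun i => ⟨(α i : ℕ) % 2, Nat.mod_lt _ two_pos⟩),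
    ?_, ?_, ?_, ?_⟩
  · apply continuous_finsetProd
    intro i _
    exact (τc (α i)).comp (continuous_subtype_val.comp
      ((continuous_apply i).comp continuous_subtype_val))
  · intro α x
    have e0 : 0 ≤ ∏ i, τ (((x : Fin n → I) i : I) : ℝ) (α i) :=
      Finset.prod_nonneg (fun i _ => τ0 _ _)
    have e1 : ∏ i, τ (((x : Fin n → I) i : I) : ℝ) (α i) ≤ 1 :=
      Finset.prod_le_one (fun i _ => τ0 _ _) (fun i _ => τ1 _ _)
    exact ⟨e0, e1⟩
  · intro α x y hx hy
    have hx' : ∀ i, |N * (((x : Fin n → I) i : I) : ℝ) - ((α i : ℕ) : ℝ)| < 1 :=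
      fun i => τs _ _ (Finset.prod_ne_zero_iff.1 hx i (Finset.mem_univ i))
    have hy' : ∀ i, |N * (((y : Fin n → I) i : I) : ℝ) - ((α i : ℕ) : ℝ)| < 1 :=
      fun i => τs _ _ (Finset.prod_ne_zero_iff.1 hy i (Finset.mem_univ i))
    show dist (x : Fin n → I) (y : Fin n → I) < r
    rw [dist_pi_lt_iff hr]
    intro i
    have h1 := abs_lt.1 (hx' i)
    have h2 := abs_lt.1 (hy' i)
    rw [Subtype.dist_eq, Real.dist_eq, abs_lt]
    constructor
    · by_contra h
      push Not at h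
      have := mul_le_mul_of_nonneg_right h hN0.le
      nlinarith
    · by_contra h
      push Not at h
      have := mul_le_mul_of_nonneg_right h hN0.le
      nlinarith
  · intro x
    have hk : ∀ i : Fin n, ∃ k : Fin (N + 1),
        |N * (((x : Fin n → I) i : I) : ℝ) - ((k : ℕ) : ℝ)| ≤ 1 / 2 := by
      intro i
      set t : ℝ := (((x : Fin n → I) i : I) : ℝ) with ht
      have ht0 : 0 ≤ t := ((x : Fin n → I) i).2.1
      have ht1 : t ≤ 1 := ((x : Fin n → I) i).2.2
      have hs0 : 0 ≤ N * t + 1 / 2 := by positivity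
      have hs1 : N * t + 1 / 2 < (N + 1 : ℕ) := by
        push_cast
        nlinarith
      refine ⟨⟨⌊N * t + 1 / 2⌋₊, (Nat.floor_lt hs0).2 hs1⟩, ?_⟩
      have h1 := Nat.floor_le hs0
      have h2 := Nat.lt_floor_add_one (N * t + 1 / 2)
      rw [abs_le]
      constructor
      · show -(1 / 2) ≤ N * t - ((⌊N * t + 1 / 2⌋₊ : ℕ) : ℝ)
        linarith
      · show N * t - ((⌊N * t + 1 / 2⌋₊ : ℕ) : ℝ) ≤ 1 / 2
        linarith
    choose k hk using hk
    have e1 : ∏ i, τ (((x : Fin n → I) i : I) : ℝ) (k i) = 1 :=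
      Finset.prod_eq_one (fun i _ => τe _ _ (hk i))
    exact ⟨k, e1⟩
  · intro α β x hc hx hy
    have hx' : ∀ i, |N * (((x : Fin n → I) i : I) : ℝ) - ((α i : ℕ) : ℝ)| < 1 :=
      fun i => τs _ _ (Finset.prod_ne_zero_iff.1 hx i (Finset.mem_univ i))
    have hy' : ∀ i, |N * (((x : Fin n → I) i : I) : ℝ) - ((β i : ℕ) : ℝ)| < 1 :=
      fun i => τs _ _ (Finset.prod_ne_zero_iff.1 hy i (Finset.mem_univ i))
    have hc' := (Fintype.equivFin (Fin n → Fin 2)).injective hc
    funext i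
    apply Fin.ext
    have h1 := abs_lt.1 (hx' i)
    have h2 := abs_lt.1 (hy' i)
    have h3 : (α i : ℕ) % 2 = (β i : ℕ) % 2 := congrArg Fin.val (congrFun hc' i)
    have h4 : (α i : ℕ) < (β i : ℕ) + 2 := by
      have : ((α i : ℕ) : ℝ) < ((β i : ℕ) : ℝ) + 2 := by linarith
      exact_mod_cast this
    have h5 : (β i : ℕ) < (α i : ℕ) + 2 := by
      have : ((β i : ℕ) : ℝ) < ((α i : ℕ) : ℝ) + 2 := by linarith
      exact_mod_cast this
    omega

/-- close circle valued maps are homotopic -/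
theorem circ_hom {T : Type} [TopologicalSpace T] (ζ z : C(T, Circle)) (lam : C(T, ℝ))
    (h : ∀ t, ‖((ζ t : Circle) : ℂ) - ((z t * Circle.exp (lam t) : Circle) : ℂ)‖ < 2) :
    ContinuousMap.Homotopic ζ z := by
  obtain ⟨w, hw⟩ : ∃ w : T → Circle, ∀ t, w t = ζ t * (z t * Circle.exp (lam t))⁻¹ :=
    ⟨_, fun t => rfl⟩
  have hwc : Continuous w := by
    have : w = fun t => ζ t * (z t * Circle.exp (lam t))⁻¹ := funext hw
    rw [this]
    exact ζ.continuous.mul (z.continuous.mul (Circle.exp.continuous.comp lam.continuous)).inv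
  have hζ : ∀ t, ζ t = w t * (z t * Circle.exp (lam t)) := by
    intro t
    rw [hw, inv_mul_cancel_right]
  have hw1 : ∀ t, ‖((w t : Circle) : ℂ) - 1‖ < 2 := by
    intro t
    have h1 := h t
    rw [hζ t] at h1
    have e : ((w t * (z t * Circle.exp (lam t)) : Circle) : ℂ) -
        ((z t * Circle.exp (lam t) : Circle) : ℂ) =
        (((w t : Circle) : ℂ) - 1) * ((z t * Circle.exp (lam t) : Circle) : ℂ) := by
      rw [Circle.coe_mul (w t)]
      ring
    rw [e, norm_mul, Circle.norm_coe, mul_one] at h1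
    exact h1
  have hslit : ∀ t, ((w t : Circle) : ℂ) ∈ Complex.slitPlane := by
    intro t
    rw [Complex.mem_slitPlane_iff]
    by_contra hc
    push Not at hc
    obtain ⟨hre, him⟩ := hc
    have h1 : Complex.normSq ((w t : Circle) : ℂ) = 1 := Circle.normSq_coe (w t)
    rw [Complex.normSq_apply, him] at h1
    have h2 : ((w t : Circle) : ℂ).re = -1 := by nlinarith
    have h3 : ((w t : Circle) : ℂ) = -1 := Complex.ext (by simpa using h2) (by simpa using him)
    have h4 := hw1 t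
    rw [h3] at h4
    norm_num at h4
  have hac : Continuous (fun t => Complex.arg ((w t : Circle) : ℂ)) := by
    rw [continuous_iff_continuousAt]
    intro t
    have hcc : Continuous (fun t => ((w t : Circle) : ℂ)) := continuous_subtype_val.comp hwc
    exact ContinuousAt.comp (f := fun t => ((w t : Circle) : ℂ)) (g := Complex.arg)
      (Complex.continuousAt_arg (hslit t)) hcc.continuousAt
  have hsum : Continuous (fun t => lam t + Complex.arg ((w t : Circle) : ℂ)) :=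
    lam.continuous.add hac
  refine ⟨⟨⟨fun p : I × T => z p.2 * Circle.exp ((1 - (p.1 : ℝ)) *
    (lam p.2 + Complex.arg ((w p.2 : Circle) : ℂ))), ?_⟩, ?_, ?_⟩⟩
  · refine (z.continuous.comp continuous_snd).mul (Circle.exp.continuous.comp ?_)
    exact (continuous_const.sub (continuous_subtype_val.comp continuous_fst)).mul
      (hsum.comp continuous_snd)
  · intro t
    change z t * Circle.exp ((1 - ((0 : I) : ℝ)) *
      (lam t + Complex.arg ((w t : Circle) : ℂ))) = ζ t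
    rw [Set.Icc.coe_zero, sub_zero, one_mul, Circle.exp_add, Circle.exp_arg, hζ t]
    rw [mul_comm (w t), mul_assoc]
  · intro t
    change z t * Circle.exp ((1 - ((1 : I) : ℝ)) *
      (lam t + Complex.arg ((w t : Circle) : ℂ))) = z t
    rw [Set.Icc.coe_one, sub_self, zero_mul, Circle.exp_zero, mul_one]

end HQ
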