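import Pool.Agent.Helper194.HQ.R

set_option autoImplicit false
set_option linter.unusedVariables false
set_option linter.unusedSectionVars false

open scoped unitInterval Topology
open Set Filter Topology Metric

noncomputable section


namespace HQ
open BB

/-- a family of closed sets over an open subset of the Hilbert cube extending the family of
circles times Hilbert cubes -/
structure Dat (E V : Type) [MetricSpace E] [NormedAddCommGroup V] [NormedSpace ℝ V] where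
  i : C(E, Qc)
  hi : Function.Injective i
  s : C(E, E)
  hs : ∀ e, s (s e) = s e
  u : C(E, M8)
  hu : ∀ e, u e * u e = u e
  hus : ∀ e, u (s e) = e0
  J : C(E × ((E × I) × Qc), V)
  hJ : ∀ e a q a' q', J (e, (a, q)) = J (e, (a', q')) ↔
    q = q' ∧ (a = a' ∨ (mk2 e (s e) a ∧ mk2 e (s e) a'))
  U : Set Qc
  hU : IsOpen U
  hiU : ∀ e, i e ∈ U
  K : Qc → Set V
  K1 : ∀ x ∈ U, ∃ φ : C(Fq, V), Function.Injective φ ∧ range φ = K x
  K2 : ∀ x0 ∈ U, ∀ φ0 : C(Fq, V), Function.Injective φ0 → range φ0 = K x0 → ∀ ε > (0 : ℝ),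
    ∀ᶠ x in 𝓝 x0, ∃ φ : C(Fq, V), Function.Injective φ ∧ range φ = K x ∧
      ∀ w, dist (φ w) (φ0 w) < ε
  K3 : ∀ e, K (i e) = {y | ∃ x t q, s x = s e ∧ y = J (e, ((x, t), q))}
  K4 : ∀ e, ∃ φ : C(Fq, V), Function.Injective φ ∧ range φ = K (i e) ∧
    ∃ μ : C(Fq, ℝ), ∀ (x : E) (t : I) (q : Qc) (w : Fq), s x = s e →
      φ w = J (e, ((x, t), q)) → w.1 * Circle.exp (μ w) = Circle.exp (2 * Real.pi * (t : ℝ))

theorem ext_C {T Y : Type} [TopologicalSpace T] [CompactSpace T] [TopologicalSpace Y] [T2Space Y]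
    [NormalSpace Y] (j : C(T, Y)) (f : C(T, ℂ)) (h : ∀ a b, j a = j b → f a = f b) :
    ∃ F : C(Y, ℂ), ∀ a, F (j a) = f a := by
  classical
  have hcl : IsClosed (Set.range j) := (isCompact_range j.continuous).isClosed
  have hp : Continuous (Set.rangeFactorization (j : T → Y)) :=
    j.continuous.subtype_mk _
  have hsurj : Function.Surjective (Set.rangeFactorization (j : T → Y)) :=
    Set.rangeFactorization_surjective
  have hq : Topology.IsQuotientMap (Set.rangeFactorization (j : T → Y)) :=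
    hp.isClosedMap.isQuotientMap hp hsurj
  obtain ⟨g, hg⟩ : ∃ g : Set.range j → ℂ, ∀ a, g (Set.rangeFactorization (j : T → Y) a) = f a := by
    refine ⟨fun y => f (Function.surjInv hsurj y), fun a => ?_⟩
    apply h
    have h1 := Function.surjInv_eq hsurj (Set.rangeFactorization (j : T → Y) a)
    have h2 := congrArg Subtype.val h1
    simpa only [Set.rangeFactorization_coe] using h2
  have hgc : Continuous g := by
    rw [hq.continuous_iff]
    have : g ∘ Set.rangeFactorization (j : T → Y) = f := by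
      funext a; exact hg a
    rw [this]
    exact f.continuous
  have hre : Continuous fun y => (g y).re := Complex.continuous_re.comp hgc
  have him : Continuous fun y => (g y).im := Complex.continuous_im.comp hgc
  obtain ⟨F1, h1⟩ := ContinuousMap.exists_restrict_eq hcl (⟨_, hre⟩ : C(Set.range j, ℝ))
  obtain ⟨F2, h2⟩ := ContinuousMap.exists_restrict_eq hcl (⟨_, him⟩ : C(Set.range j, ℝ))
  refine ⟨⟨fun y => (F1 y : ℂ) + (F2 y : ℂ) * Complex.I, by fun_prop⟩, fun a => ?_⟩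
  have e1 := DFunLike.congr_fun h1 (⟨j a, Set.mem_range_self a⟩ : Set.range j)
  have e2 := DFunLike.congr_fun h2 (⟨j a, Set.mem_range_self a⟩ : Set.range j)
  have e3 : g ⟨j a, Set.mem_range_self a⟩ = f a := hg a
  simp only [ContinuousMap.restrict_apply, ContinuousMap.coe_mk, e3] at e1 e2
  change (F1 (j a) : ℂ) + (F2 (j a) : ℂ) * Complex.I = f a
  rw [e1, e2]
  exact Complex.re_add_im (f a)

theorem ext_M {T Y : Type} [TopologicalSpace T] [CompactSpace T] [TopologicalSpace Y] [T2Space Y]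
    [NormalSpace Y] (j : C(T, Y)) (f : C(T, M8)) (h : ∀ a b, j a = j b → f a = f b) :
    ∃ F : C(Y, M8), ∀ a, F (j a) = f a := by
  have h1 : ∀ (p : (Fin 4 ⊕ Fin 4) × (Fin 4 ⊕ Fin 4)),
      ∃ F : C(Y, ℂ), ∀ a, F (j a) = f a p.1 p.2 := by
    intro p
    have hc : Continuous fun a => f a p.1 p.2 := by
      have := f.continuous
      fun_prop
    exact ext_C j ⟨fun a => f a p.1 p.2, hc⟩ (fun a b hab => by
      show f a p.1 p.2 = f b p.1 p.2
      rw [h a b hab])
  choose G hG using h1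
  refine ⟨⟨fun y => Matrix.of fun k l => G (k, l) y, ?_⟩, ?_⟩
  · exact continuous_matrix fun k l => (G (k, l)).continuous
  · intro a
    ext k l
    exact hG (k, l) a

/-- retraction to idempotents (spectral projection, from the library) -/
theorem exists_ret : ∃ (O : Set M8) (r : M8 → M8), IsOpen O ∧ ContinuousOn r O ∧
    (∀ a ∈ O, r a * r a = r a) ∧ ∀ a, a * a = a → a ∈ O ∧ r a = a := by
  refine ⟨OO, rO, OO_open, ?_, rO_idem, fun a ha => ⟨idem_mem_OO a ha, rO_of_idem a ha⟩⟩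
  rw [continuousOn_iff_continuous_domRestrict]
  exact rO_cont

section
variable {E V : Type} [MetricSpace E] [CompactSpace E] [NormedAddCommGroup V] [NormedSpace ℝ V]

theorem j28479_one (e : M8) (he : e * e = e) : (gamU e he 1).1 = 1 := by
  rw [gamU_val]
  simp

theorem j28479_exp {M : Type} {m m' : M} {p : M × I} (h : mk2 m m' p) :
    Circle.exp (2 * Real.pi * (p.2 : ℝ)) = 1 := by
  rcases h with rfl | rfl
  · simp
  · simp

/-- extension of the relation -/
theorem exists_H (D : Dat E V) : ∃ H : C((Qc × V) × I, M8), ∀ (e x : E) (t : I) (q : Qc),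
    D.s x = D.s e → (∀ l : I, IsUnit (H ((D.i e, D.J (e, ((x, t), q))), l))) ∧
      H ((D.i e, D.J (e, ((x, t), q))), 0) =
        (gamU (D.u e) (D.hu e) (Circle.exp (2 * Real.pi * (t : ℝ)))).1 ∧
      H ((D.i e, D.J (e, ((x, t), q))), 1) =
        (gamU e0 e0_idem' (Circle.exp (2 * Real.pi * (t : ℝ)))).1 := by
  obtain ⟨F⟩ := rel_hom D.s D.hs D.u D.hu D.hus
  haveI hT : CompactSpace (Tot D.s) := by
    apply isCompact_iff_compactSpace.mp
    apply IsClosed.isCompact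
    exact isClosed_eq (by fun_prop) (by fun_prop)
  have hval : ∀ (v : Tot D.s) (l : I), v ∈ Marks D.s → (F (l, v)).1 = 1 := by
    intro v l hv
    have h1 : F (l, v) = (gl (D.u.comp (t1 D.s)) (fun v => D.hu _) (ex (t3 D.s))) v :=
      F.eq_fst l hv
    rw [h1]
    have h2 : (gl (D.u.comp (t1 D.s)) (fun v => D.hu _) (ex (t3 D.s))) v =
        gamU (D.u v.1.1) (D.hu _) (Circle.exp (2 * Real.pi * ((v.1.2.2 : I) : ℝ))) := rfl
    have h3 : Circle.exp (2 * Real.pi * ((v.1.2.2 : I) : ℝ)) = 1 := j28479_exp hv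
    rw [h2, h3]
    exact j28479_one _ _
  let j : C((Tot D.s × Qc) × I, (Qc × V) × I) :=
    ⟨fun p => ((D.i p.1.1.1.1, D.J (p.1.1.1.1, (p.1.1.1.2, p.1.2))), p.2), by fun_prop⟩
  let f : C((Tot D.s × Qc) × I, M8) :=
    ⟨fun p => (F (p.2, p.1.1)).1, by
      have h1 : Continuous fun p : (Tot D.s × Qc) × I => F (p.2, p.1.1) := by fun_prop
      exact Units.continuous_val.comp h1⟩
  obtain ⟨H, hH⟩ := ext_M j f (by
    rintro ⟨⟨v, q⟩, l⟩ ⟨⟨v', q'⟩, l'⟩ h
    simp only [j, ContinuousMap.coe_mk, Prod.mk.injEq] at h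
    obtain ⟨⟨h1, h2⟩, h3⟩ := h
    have h4 : v.1.1 = v'.1.1 := D.hi h1
    subst h3
    rw [← h4] at h2
    obtain ⟨h5, h6⟩ := (D.hJ _ _ _ _ _).mp h2
    change (F (l, v)).1 = (F (l, v')).1
    rcases h6 with h6 | ⟨h6, h7⟩
    · have h8 : v = v' := Subtype.ext (Prod.ext h4 h6)
      rw [h8]
    · rw [hval v l h6, hval v' l (by
        change mk2 v'.1.1 (D.s v'.1.1) v'.1.2
        rw [← h4]
        exact h7)])
  refine ⟨H, ?_⟩
  intro e x t q hxe
  have key : ∀ l : I, H ((D.i e, D.J (e, ((x, t), q))), l) =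
      (F (l, (⟨(e, (x, t)), hxe⟩ : Tot D.s))).1 := fun l => hH (((⟨(e, (x, t)), hxe⟩ : Tot D.s), q), l)
  refine ⟨fun l => ?_, ?_, ?_⟩
  · rw [key]
    exact Units.isUnit _
  · rw [key, F.apply_zero]
    rfl
  · rw [key, F.apply_one]
    rfl

/-- neighbourhood data -/
structure Nb (D : Dat E V) where
  N : Set (Qc × V)
  hN : IsOpen N
  Th : C(Qc × V, ℂ)
  hTh : ∀ (e x : E) (t : I) (q : Qc), D.s x = D.s e →
    Th (D.i e, D.J (e, ((x, t), q))) = ((Circle.exp (2 * Real.pi * (t : ℝ)) : Circle) : ℂ)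
  hTh0 : ∀ v ∈ N, Th v ≠ 0
  U1 : Set Qc
  hU1 : IsOpen U1
  hiU1 : ∀ e, D.i e ∈ U1
  ub : Qc → M8
  hubc : ContinuousOn ub U1
  hubi : ∀ x ∈ U1, ub x * ub x = ub x
  hubu : ∀ e, ub (D.i e) = D.u e
  hNU : ∀ v ∈ N, v.1 ∈ U1
  hKN : ∀ (e x : E) (t : I) (q : Qc), D.s x = D.s e → (D.i e, D.J (e, ((x, t), q))) ∈ N
  hom : ∀ (Y : Type) [TopologicalSpace Y] (x : C(Y, Qc)) (y : C(Y, V)) (v : C(Y, M8))
    (hv : ∀ η, v η * v η = v η) (ζ : C(Y, Circle)), (∀ η, (x η, y η) ∈ N) →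
    (∀ η, v η = ub (x η)) →
    (∀ η, ((ζ η : Circle) : ℂ) = Th (x η, y η) / (‖Th (x η, y η)‖ : ℂ)) →
    ContinuousMap.Homotopic (gl v hv ζ) (gl (ContinuousMap.const Y e0) (fun _ => e0_idem') ζ)

theorem nb_inv_cont {Y : Type} [TopologicalSpace Y] (f : Y → M8) (hf : Continuous f)
    (h : ∀ y, IsUnit (f y)) : Continuous (fun y => (f y)⁻¹) := by
  have h1 : ∀ y, (f y)⁻¹ = ((f y).det)⁻¹ • (f y).adjugate := by
    intro y
    rw [Matrix.inv_def, Ring.inverse_eq_inv']
  simp_rw [h1]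
  exact (hf.matrix_det.inv₀
    (fun y => ((Matrix.isUnit_iff_isUnit_det _).1 (h y)).ne_zero)).smul hf.matrix_adjugate

def nb_toU {Y : Type} [TopologicalSpace Y] (f : C(Y, M8)) (h : ∀ y, IsUnit (f y)) : C(Y, M8ˣ) where
  toFun y := (h y).unit
  continuous_toFun := by
    rw [Units.continuous_iff]
    constructor
    · exact f.continuous
    · have h2 := nb_inv_cont f f.continuous h
      have h3 : (fun y => (((h y).unit)⁻¹ : M8ˣ).val) = fun y => (f y)⁻¹ := by
        funext y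
        rw [Matrix.coe_units_inv]
        rfl
      exact h3 ▸ h2

theorem nb_open {X : Type} [TopologicalSpace X] (A : Set X) (hA : IsOpen A) (G : X × I → M8)
    (hG : ContinuousOn G (A ×ˢ univ)) : IsOpen {x | x ∈ A ∧ ∀ s : I, IsUnit (G (x, s))} := by
  have hdet : ContinuousOn (fun p => (G p).det) (A ×ˢ (univ : Set I)) := by
    have hc : Continuous (fun m : M8 => m.det) := Continuous.matrix_det (A := fun m : M8 => m) continuous_id
    exact hc.comp_continuousOn hG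
  have hW : IsOpen ((A ×ˢ (univ : Set I)) ∩ (fun p => (G p).det) ⁻¹' {0}ᶜ) :=
    hdet.isOpen_inter_preimage (hA.prod isOpen_univ) isOpen_compl_singleton
  have h2 : {x | x ∈ A ∧ ∀ s : I, IsUnit (G (x, s))} =
      (Prod.fst '' (((A ×ˢ (univ : Set I)) ∩ (fun p => (G p).det) ⁻¹' {0}ᶜ)ᶜ))ᶜ := by
    ext x
    constructor
    · rintro ⟨hx, hs⟩ ⟨⟨x', s⟩, hn, rfl⟩
      apply hn
      exact ⟨⟨hx, mem_univ _⟩, ((Matrix.isUnit_iff_isUnit_det _).1 (hs s)).ne_zero⟩
    · intro hx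
      have key : ∀ s, (x, s) ∈ ((A ×ˢ (univ : Set I)) ∩ (fun p => (G p).det) ⁻¹' {0}ᶜ) := by
        intro s
        by_contra hcon
        exact hx ⟨(x, s), hcon, rfl⟩
      refine ⟨(key 0).1.1, fun s => ?_⟩
      rw [Matrix.isUnit_iff_isUnit_det, isUnit_iff_ne_zero]
      exact (key s).2
  rw [h2]
  exact (isClosedMap_fst_of_compactSpace _ hW.isClosed_compl).isOpen_compl

theorem nb_Th {E V : Type} [MetricSpace E] [CompactSpace E] [NormedAddCommGroup V] [NormedSpace ℝ V]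
    (D : Dat E V) : ∃ Th : C(Qc × V, ℂ), ∀ (e x : E) (t : I) (q : Qc), D.s x = D.s e →
    Th (D.i e, D.J (e, ((x, t), q))) = ((Circle.exp (2 * Real.pi * (t : ℝ)) : Circle) : ℂ) := by
  have hcl : IsClosed {v : E × (E × I) | D.s v.2.1 = D.s v.1} := by
    apply isClosed_eq
    · exact D.s.continuous.comp (continuous_fst.comp continuous_snd)
    · exact D.s.continuous.comp continuous_fst
  haveI : CompactSpace (Tot D.s) := isCompact_iff_compactSpace.1 hcl.isCompact
  let j : C(Tot D.s × Qc, Qc × V) :=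
    ⟨fun p => (D.i p.1.1.1, D.J (p.1.1.1, (p.1.1.2, p.2))), by fun_prop⟩
  let f : C(Tot D.s × Qc, ℂ) :=
    ⟨fun p => ((Circle.exp (2 * Real.pi * (p.1.1.2.2 : ℝ)) : Circle) : ℂ), by fun_prop⟩
  have hmk : ∀ (m m' : E) (p : E × I), mk2 m m' p →
      ((Circle.exp (2 * Real.pi * (p.2 : ℝ)) : Circle) : ℂ) = 1 := by
    rintro m m' p (rfl | rfl)
    · simp
    · simp
  obtain ⟨Th, hTh⟩ := ext_C j f (by
    rintro ⟨⟨⟨e, xt⟩, hv⟩, q⟩ ⟨⟨⟨e', xt'⟩, hv'⟩, q'⟩ h
    have h1 : D.i e = D.i e' := congrArg Prod.fst h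
    have h2 : D.J (e, (xt, q)) = D.J (e', (xt', q')) := congrArg Prod.snd h
    have h3 : e = e' := D.hi h1
    subst h3
    rw [D.hJ] at h2
    obtain ⟨-, h4 | ⟨h4, h5⟩⟩ := h2
    · subst h4; rfl
    · show ((Circle.exp (2 * Real.pi * (xt.2 : ℝ)) : Circle) : ℂ) =
        ((Circle.exp (2 * Real.pi * (xt'.2 : ℝ)) : Circle) : ℂ)
      rw [hmk _ _ _ h4, hmk _ _ _ h5])
  refine ⟨Th, fun e x t q h => ?_⟩
  exact hTh (⟨(e, (x, t)), h⟩, q)

theorem exists_Nb (D : Dat E V) : Nonempty (Nb D) := by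
  obtain ⟨Th, hTh⟩ := nb_Th D
  obtain ⟨Ub, hUb⟩ := ext_M D.i D.u (fun a b h => by rw [D.hi h])
  obtain ⟨O, r, hO, hrc, hri, hrO⟩ := exists_ret
  obtain ⟨H, hH⟩ := exists_H D
  have hubc : ContinuousOn (fun x => r (Ub x)) (Ub ⁻¹' O) :=
    hrc.comp Ub.continuous.continuousOn (fun x hx => hx)
  have hU1 : IsOpen (Ub ⁻¹' O) := hO.preimage Ub.continuous
  have hiU1 : ∀ e, D.i e ∈ Ub ⁻¹' O := by
    intro e
    show Ub (D.i e) ∈ O
    rw [hUb]; exact (hrO _ (D.hu e)).1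
  have hubu : ∀ e, r (Ub (D.i e)) = D.u e := by
    intro e
    rw [hUb]; exact (hrO _ (D.hu e)).2
  set A : Set (Qc × V) := {v | v.1 ∈ Ub ⁻¹' O ∧ Th v ≠ 0} with hAd
  have hA : IsOpen A := (hU1.preimage continuous_fst).inter (isOpen_compl_singleton.preimage Th.continuous)
  have hz : ContinuousOn (fun p : (Qc × V) × I => Th p.1 / (‖Th p.1‖ : ℂ)) (A ×ˢ univ) := by
    apply ContinuousOn.div
    · exact (Th.continuous.comp continuous_fst).continuousOn
    · exact (Complex.continuous_ofReal.comp (Th.continuous.comp continuous_fst).norm).continuousOn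
    · rintro p ⟨hp, -⟩
      have := hp.2
      simpa using this
  have hub : ContinuousOn (fun p : (Qc × V) × I => r (Ub p.1.1)) (A ×ˢ univ) :=
    hubc.comp (continuous_fst.comp continuous_fst).continuousOn (fun p hp => hp.1.1)
  have hs : ContinuousOn (fun p : (Qc × V) × I => ((p.2 : ℝ) : ℂ)) (A ×ˢ univ) :=
    (Complex.continuous_ofReal.comp (continuous_subtype_val.comp continuous_snd)).continuousOn
  have hs1 : ContinuousOn (fun p : (Qc × V) × I => (1 - ((p.2 : ℝ) : ℂ))) (A ×ˢ univ) :=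
    continuousOn_const.sub hs
  let Gd : (Qc × V) × I → M8 := fun p => (1 - ((p.2 : ℝ) : ℂ)) • (1 - r (Ub p.1.1) +
    (Th p.1 / (‖Th p.1‖ : ℂ)) • r (Ub p.1.1)) + ((p.2 : ℝ) : ℂ) • H (p.1, 0)
  let Ge : (Qc × V) × I → M8 := fun p => (1 - ((p.2 : ℝ) : ℂ)) • H (p.1, 1) +
    ((p.2 : ℝ) : ℂ) • (1 - e0 + (Th p.1 / (‖Th p.1‖ : ℂ)) • e0)
  have hH0 : ∀ c : I, Continuous (fun p : (Qc × V) × I => H (p.1, c)) := fun c =>
    H.continuous.comp (continuous_fst.prodMk continuous_const)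
  have hGd : ContinuousOn Gd (A ×ˢ univ) :=
    (hs1.smul ((continuousOn_const.sub hub).add (hz.smul hub))).add (hs.smul (hH0 0).continuousOn)
  have hGe : ContinuousOn Ge (A ×ˢ univ) :=
    (hs1.smul (hH0 1).continuousOn).add (hs.smul (continuousOn_const.add (hz.smul continuousOn_const)))
  set N : Set (Qc × V) := {v | v ∈ A ∧ ∀ s : I, IsUnit (H (v, s))} ∩
    ({v | v ∈ A ∧ ∀ s : I, IsUnit (Gd (v, s))} ∩ {v | v ∈ A ∧ ∀ s : I, IsUnit (Ge (v, s))}) with hNd
  have hN : IsOpen N := (nb_open A hA _ H.continuous.continuousOn).inter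
    ((nb_open A hA _ hGd).inter (nb_open A hA _ hGe))
  have hseg : ∀ (s : I) (B : M8), (1 - ((s : ℝ) : ℂ)) • B + ((s : ℝ) : ℂ) • B = B := by
    intro s B
    rw [← add_smul]; simp
  refine ⟨{ N := N, hN := hN, Th := Th, hTh := hTh, hTh0 := fun v hv => hv.1.1.2, U1 := Ub ⁻¹' O,
            hU1 := hU1, hiU1 := hiU1, ub := fun x => r (Ub x), hubc := hubc,
            hubi := fun x hx => hri _ hx, hubu := hubu, hNU := fun v hv => hv.1.1.1,
            hKN := ?_, hom := ?_ }⟩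
  · intro e x t q h
    obtain ⟨h1, h2, h3⟩ := hH e x t q h
    have h4 := hTh e x t q h
    have h5 : ‖Th (D.i e, D.J (e, ((x, t), q)))‖ = 1 := by rw [h4]; exact Circle.norm_coe _
    have hvA : (D.i e, D.J (e, ((x, t), q))) ∈ A := by
      refine ⟨hiU1 e, ?_⟩
      intro h0
      rw [h0] at h5
      simp at h5
    refine ⟨⟨hvA, h1⟩, ⟨hvA, fun s => ?_⟩, ⟨hvA, fun s => ?_⟩⟩
    · have h6 : Gd ((D.i e, D.J (e, ((x, t), q))), s) = H ((D.i e, D.J (e, ((x, t), q))), 0) := by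
        show (1 - ((s : ℝ) : ℂ)) • (1 - r (Ub (D.i e)) +
          (Th (D.i e, D.J (e, ((x, t), q))) / (‖Th (D.i e, D.J (e, ((x, t), q)))‖ : ℂ)) • r (Ub (D.i e))) +
          ((s : ℝ) : ℂ) • H ((D.i e, D.J (e, ((x, t), q))), 0) = _
        rw [h5, hubu, h4, Complex.ofReal_one, div_one, h2, gamU_val]
        exact hseg s _
      rw [h6]; exact h1 0
    · have h6 : Ge ((D.i e, D.J (e, ((x, t), q))), s) = H ((D.i e, D.J (e, ((x, t), q))), 1) := by
        show (1 - ((s : ℝ) : ℂ)) • H ((D.i e, D.J (e, ((x, t), q))), 1) +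
          ((s : ℝ) : ℂ) • (1 - e0 +
          (Th (D.i e, D.J (e, ((x, t), q))) / (‖Th (D.i e, D.J (e, ((x, t), q)))‖ : ℂ)) • e0) = _
        rw [h5, h4, Complex.ofReal_one, div_one, h3, gamU_val]
        exact hseg s _
      rw [h6]; exact h1 1
  · intro Y _ x y v hv ζ hxy hvub hζ
    have hxyc : Continuous (fun η => (x η, y η)) := x.continuous.prodMk y.continuous
    let K : C(I × Y, M8) := ⟨fun p => H ((x p.2, y p.2), p.1),
      H.continuous.comp ((hxyc.comp continuous_snd).prodMk continuous_fst)⟩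
    have hK : ∀ p, IsUnit (K p) := fun p => (hxy p.2).1.2 p.1
    let KU := nb_toU K hK
    let F1 : C(Y, M8ˣ) := KU.comp ⟨fun η => (0, η), by fun_prop⟩
    let F2 : C(Y, M8ˣ) := KU.comp ⟨fun η => (1, η), by fun_prop⟩
    have e12 : ContinuousMap.Homotopic F1 F2 :=
      ⟨{ toContinuousMap := KU, map_zero_left := fun η => rfl, map_one_left := fun η => rfl }⟩
    have e01 : ContinuousMap.Homotopic (gl v hv ζ) F1 := by
      rw [← ContinuousMap.homotopicRel_empty]
      refine hom_line _ _ ∅ (fun y hy => absurd hy (Set.notMem_empty _)) ?_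
      intro η s hs0 hs1
      have h7 := (hxy η).2.1.2 ⟨s, hs0, hs1⟩
      have h8 : ((gl v hv ζ) η).1 = 1 - r (Ub (x η)) + (Th (x η, y η) / (‖Th (x η, y η)‖ : ℂ)) • r (Ub (x η)) := by
        show (gamU (v η) (hv η) (ζ η)).1 = _
        rw [gamU_val, hζ, hvub]
      rw [h8]
      exact h7
    have e23 : ContinuousMap.Homotopic F2 (gl (ContinuousMap.const Y e0) (fun _ => e0_idem') ζ) := by
      rw [← ContinuousMap.homotopicRel_empty]
      refine hom_line _ _ ∅ (fun y hy => absurd hy (Set.notMem_empty _)) ?_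
      intro η s hs0 hs1
      have h7 := (hxy η).2.2.2 ⟨s, hs0, hs1⟩
      have h8 : ((gl (ContinuousMap.const Y e0) (fun _ => e0_idem') ζ) η).1 =
          1 - e0 + (Th (x η, y η) / (‖Th (x η, y η)‖ : ℂ)) • e0 := by
        show (gamU e0 e0_idem' (ζ η)).1 = _
        rw [gamU_val, hζ]
      rw [h8]
      exact h7
    exact (e01.trans e12).trans e23

/-- the circle coordinate on `N` -/
def thb {D : Dat E V} (A : Nb D) (v : Qc × V) : ℂ := A.Th v / (‖A.Th v‖ : ℂ)

theorem good_x_norm {D : Dat E V} (A : Nb D) (v : Qc × V) (hv : v ∈ A.N) : ‖thb A v‖ = 1 := by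
  unfold thb
  rw [norm_div, Complex.norm_real, norm_norm, div_self (norm_ne_zero_iff.2 (A.hTh0 v hv))]

theorem good_x_cont {D : Dat E V} (A : Nb D) (v : Qc × V) (hv : v ∈ A.N) :
    ContinuousAt (thb A) v := by
  have h1 : ContinuousAt (fun v => A.Th v) v := A.Th.continuous.continuousAt
  have h2 : ContinuousAt (fun v => (‖A.Th v‖ : ℂ)) v :=
    (Complex.continuous_ofReal.comp A.Th.continuous.norm).continuousAt
  have h3 : (‖A.Th v‖ : ℂ) ≠ 0 := by
    exact_mod_cast norm_ne_zero_iff.2 (A.hTh0 v hv)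
  exact h1.div h2 h3

theorem good_x_lift {Y : Type} [TopologicalSpace Y] (f : Y → ℂ) (hf : Continuous f)
    (hn : ∀ w, ‖f w‖ = 1) (g : C(Y, Circle)) (h : ∀ w, ‖f w - (g w : ℂ)‖ < 1) :
    ∃ a : C(Y, ℝ), ∀ w, f w = ((g w * Circle.exp (a w) : Circle) : ℂ) := by
  have hgi : ∀ w, ((g w : Circle) : ℂ) * (((g w)⁻¹ : Circle) : ℂ) = 1 := by
    intro w
    rw [← Circle.coe_mul, mul_inv_cancel, Circle.coe_one]
  have hcont : Continuous (fun w => f w * (((g w)⁻¹ : Circle) : ℂ)) := by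
    have h2 : Continuous (fun w => (((g w)⁻¹ : Circle) : ℂ)) :=
      (by fun_prop : Continuous (fun z : Circle => (z : ℂ))).comp
        ((continuous_inv (G := Circle)).comp g.continuous)
    exact hf.mul h2
  have hslit : ∀ w, f w * (((g w)⁻¹ : Circle) : ℂ) ∈ Complex.slitPlane := by
    intro w
    have h1 : f w * (((g w)⁻¹ : Circle) : ℂ) =
        1 + (f w - (g w : ℂ)) * (((g w)⁻¹ : Circle) : ℂ) := by
      rw [sub_mul, hgi]
      ring
    rw [h1]
    refine Complex.mem_slitPlane_of_norm_lt_one ?_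
    rw [norm_mul, Circle.norm_coe, mul_one]
    exact h w
  have hca : Continuous (fun w => Complex.arg (f w * (((g w)⁻¹ : Circle) : ℂ))) := by
    rw [continuous_iff_continuousAt]
    intro w
    exact ContinuousAt.comp (g := Complex.arg) (Complex.continuousAt_arg (hslit w))
      hcont.continuousAt
  refine ⟨⟨fun w => Complex.arg (f w * (((g w)⁻¹ : Circle) : ℂ)), hca⟩, fun w => ?_⟩
  rw [Circle.coe_mul]
  change f w = (g w : ℂ) * ((Circle.exp (Complex.arg (f w * (((g w)⁻¹ : Circle) : ℂ))) : Circle) : ℂ)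
  rw [Circle.coe_exp]
  have h1 := Complex.norm_mul_exp_arg_mul_I (f w * (((g w)⁻¹ : Circle) : ℂ))
  rw [norm_mul, hn, Circle.norm_coe, mul_one, Complex.ofReal_one, one_mul] at h1
  rw [h1]
  calc f w = f w * (((g w : Circle) : ℂ) * (((g w)⁻¹ : Circle) : ℂ)) := by rw [hgi, mul_one]
    _ = _ := by ring

theorem good_x_ev (D : Dat E V) (A : Nb D) (e : E) :
    ∀ᶠ x in 𝓝 (D.i e), (∀ y ∈ D.K x, (x, y) ∈ A.N) ∧
      ∃ φ : C(Fq, V), Function.Injective φ ∧ range φ = D.K x ∧ ∃ μ : C(Fq, ℝ), ∀ w,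
        thb A (x, φ w) = ((w.1 * Circle.exp (μ w) : Circle) : ℂ) := by
  obtain ⟨φe, hinj, hran, μe, hμe⟩ := D.K4 e
  have hmem : ∀ w, (D.i e, φe w) ∈ A.N ∧
      thb A (D.i e, φe w) = ((w.1 * Circle.exp (μe w) : Circle) : ℂ) := by
    intro w
    have h1 : φe w ∈ D.K (D.i e) := by
      rw [← hran]
      exact ⟨w, rfl⟩
    rw [D.K3 e] at h1
    obtain ⟨x, t, q, hx, hy⟩ := h1
    refine ⟨?_, ?_⟩
    · rw [hy]
      exact A.hKN e x t q hx
    · rw [hμe x t q w hx hy]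
      unfold thb
      rw [hy, A.hTh e x t q hx, Circle.norm_coe, Complex.ofReal_one, div_one]
  have hev : ∀ᶠ z : Qc × V in 𝓝 (D.i e, 0), ∀ w ∈ (Set.univ : Set Fq),
      (z.1, φe w + z.2) ∈ A.N ∧ ‖thb A (z.1, φe w + z.2) - thb A (D.i e, φe w)‖ < 1 := by
    refine isCompact_univ.eventually_forall_of_forall_eventually ?_
    intro w _
    have hg : Continuous (fun z : (Qc × V) × Fq => (z.1.1, φe z.2 + z.1.2)) := by
      have := φe.continuous
      fun_prop
    have hg2 : Continuous (fun z : (Qc × V) × Fq => ((D.i e, φe z.2) : Qc × V)) := by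
      have := φe.continuous
      fun_prop
    have hval : (fun z : (Qc × V) × Fq => (z.1.1, φe z.2 + z.1.2)) ((D.i e, 0), w) =
        (D.i e, φe w) := by
      simp
    have hN : ∀ᶠ z : (Qc × V) × Fq in 𝓝 ((D.i e, 0), w), (z.1.1, φe z.2 + z.1.2) ∈ A.N := by
      refine hg.continuousAt.eventually ?_
      rw [hval]
      exact A.hN.mem_nhds (hmem w).1
    have hc1 : ContinuousAt (fun z : (Qc × V) × Fq => thb A (z.1.1, φe z.2 + z.1.2))
        ((D.i e, 0), w) := by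
      have h : ContinuousAt (thb A)
          ((fun z : (Qc × V) × Fq => (z.1.1, φe z.2 + z.1.2)) ((D.i e, 0), w)) := by
        rw [hval]
        exact good_x_cont A _ (hmem w).1
      exact ContinuousAt.comp (g := thb A) h hg.continuousAt
    have hc2 : ContinuousAt (fun z : (Qc × V) × Fq => thb A (D.i e, φe z.2))
        ((D.i e, 0), w) := by
      refine ContinuousAt.comp (g := thb A) ?_ hg2.continuousAt
      exact good_x_cont A _ (hmem w).1
    have hc3 := (hc1.sub hc2).norm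
    have hlt : ∀ᶠ z : (Qc × V) × Fq in 𝓝 ((D.i e, 0), w),
        ‖thb A (z.1.1, φe z.2 + z.1.2) - thb A (D.i e, φe z.2)‖ < 1 := by
      refine hc3.eventually_lt_const ?_
      simp
    exact hN.and hlt
  rw [nhds_prod_eq, Filter.eventually_prod_iff] at hev
  obtain ⟨pa, hpa, pb, hpb, hall⟩ := hev
  obtain ⟨ε, hε, hball⟩ := Metric.eventually_nhds_iff.1 hpb
  have hK2 := D.K2 (D.i e) (D.hiU e) φe hinj hran ε hε
  filter_upwards [hpa, hK2] with x hx ⟨φ, hφi, hφr, hφd⟩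
  have hP : ∀ w, (x, φ w) ∈ A.N ∧ ‖thb A (x, φ w) - thb A (D.i e, φe w)‖ < 1 := by
    intro w
    have h1 : pb (φ w - φe w) := by
      apply hball
      rw [dist_zero_right, ← dist_eq_norm]
      exact hφd w
    have h2 := hall hx h1 w (Set.mem_univ w)
    have h3 : φe w + (φ w - φe w) = φ w := by abel
    simp only [h3] at h2
    exact h2
  refine ⟨?_, φ, hφi, hφr, ?_⟩
  · intro y hy
    rw [← hφr] at hy
    obtain ⟨w, rfl⟩ := hy
    exact (hP w).1
  · have hcont : Continuous (fun w : Fq => thb A (x, φ w)) := by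
      rw [continuous_iff_continuousAt]
      intro w
      refine ContinuousAt.comp (g := thb A) (good_x_cont A _ (hP w).1) ?_
      have := φ.continuous
      fun_prop
    obtain ⟨a, ha⟩ := good_x_lift (fun w : Fq => thb A (x, φ w)) hcont
      (fun w => good_x_norm A _ (hP w).1)
      ⟨fun w : Fq => w.1 * Circle.exp (μe w), by
        have := μe.continuous
        fun_prop⟩ (fun w => by
        have h1 := (hP w).2
        rw [(hmem w).2] at h1
        exact h1)
    refine ⟨μe + a, fun w => ?_⟩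
    rw [ha w]
    change (((w.1 * Circle.exp (μe w)) * Circle.exp (a w) : Circle) : ℂ) =
      ((w.1 * Circle.exp (μe w + a w) : Circle) : ℂ)
    rw [Circle.exp_add, mul_assoc]

theorem good_x (D : Dat E V) (A : Nb D) : ∃ U2 : Set Qc, IsOpen U2 ∧ (∀ e, D.i e ∈ U2) ∧
    U2 ⊆ D.U ∧ U2 ⊆ A.U1 ∧ ∀ x ∈ U2, (∀ y ∈ D.K x, (x, y) ∈ A.N) ∧
      ∃ φ : C(Fq, V), Function.Injective φ ∧ range φ = D.K x ∧ ∃ μ : C(Fq, ℝ), ∀ w,
        thb A (x, φ w) = ((w.1 * Circle.exp (μ w) : Circle) : ℂ) := by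
  refine ⟨interior {x | x ∈ D.U ∧ x ∈ A.U1 ∧ (∀ y ∈ D.K x, (x, y) ∈ A.N) ∧
      ∃ φ : C(Fq, V), Function.Injective φ ∧ range φ = D.K x ∧ ∃ μ : C(Fq, ℝ), ∀ w,
        thb A (x, φ w) = ((w.1 * Circle.exp (μ w) : Circle) : ℂ)}, isOpen_interior, ?_, ?_, ?_, ?_⟩
  · intro e
    rw [mem_interior_iff_mem_nhds]
    filter_upwards [D.hU.mem_nhds (D.hiU e), A.hU1.mem_nhds (A.hiU1 e), good_x_ev D A e]
      with x h1 h2 h3
    exact ⟨h1, h2, h3⟩
  · exact fun x hx => (interior_subset hx).1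
  · exact fun x hx => (interior_subset hx).2.1
  · exact fun x hx => (interior_subset hx).2.2

/-- the segment from a point of the Hilbert cube to its truncation -/
def segq (n : ℕ) (p : Qc × I) : Qc := fun j => if j < n then p.1 j else unitInterval.symm p.2 * p.1 j

theorem exists_n (D : Dat E V) (U2 : Set Qc) (hU2 : IsOpen U2) (h : ∀ e, D.i e ∈ U2) :
    ∃ n, ∀ e l, segq n (D.i e, l) ∈ U2 := by
  by_contra hcon
  push Not at hcon
  choose e l hel using hcon
  obtain ⟨a, φ, hφ, hlim⟩ := CompactSpace.tendsto_subseq e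
  have h1 : Tendsto (fun k => D.i (e (φ k))) atTop (𝓝 (D.i a)) := by
    have hc : Continuous D.i := by fun_prop
    exact (hc.tendsto a).comp hlim
  have h2 : Tendsto (fun k => segq (φ k) (D.i (e (φ k)), l (φ k))) atTop (𝓝 (D.i a)) := by
    rw [tendsto_pi_nhds] at h1 ⊢
    intro j
    refine (h1 j).congr' ?_
    filter_upwards [eventually_gt_atTop j] with k hk
    have h3 : j < φ k := lt_of_lt_of_le hk (hφ.id_le k)
    simp [segq, h3]
  obtain ⟨k, hk⟩ := (h2.eventually (hU2.mem_nhds (h a))).exists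
  exact hel (φ k) hk

/-- the truncated set -/
def PS (D : Dat E V) (n : ℕ) : Set (Fin n → I) := {y | ∃ e, ∀ j : Fin n, y j = D.i e j}

/-- padding with zeros -/
def pad (n : ℕ) (y : Fin n → I) : Qc := fun j => if h : j < n then y ⟨j, h⟩ else 0

/-- the graph over the truncated set -/
def Gam {D : Dat E V} (A : Nb D) (n : ℕ) (y : PS D n) : Set (V × Circle) :=
  {p | p.1 ∈ D.K (pad n y.1) ∧ ((p.2 : Circle) : ℂ) = thb A (pad n y.1, p.1)}

theorem pad_cont (n : ℕ) : Continuous (pad n) := by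
  refine continuous_pi fun j => ?_
  unfold pad
  by_cases h : j < n
  · simp only [h, dite_true]; exact continuous_apply _
  · simp only [h, dite_false]; exact continuous_const

omit [CompactSpace E] in
theorem pad_mem (D : Dat E V) (n : ℕ) (U2 : Set Qc) (h4 : ∀ e l, segq n (D.i e, l) ∈ U2)
    (y : PS D n) : pad n y.1 ∈ U2 := by
  obtain ⟨e, he⟩ := y.2
  have : pad n y.1 = segq n (D.i e, 1) := by
    funext j
    unfold pad segq
    by_cases h : j < n
    · simp [h, he]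
    · simp [h]
  rw [this]; exact h4 e 1

theorem PS_compact (D : Dat E V) (n : ℕ) : CompactSpace (PS D n) := by
  rw [← isCompact_iff_compactSpace]
  have h : PS D n = range (fun e : E => fun j : Fin n => D.i e j) := by
    ext y
    constructor
    · rintro ⟨e, he⟩
      exact ⟨e, funext fun j => (he j).symm⟩
    · rintro ⟨e, rfl⟩
      exact ⟨e, fun j => rfl⟩
  rw [h]
  refine isCompact_range ?_
  refine continuous_pi fun j => ?_
  exact (continuous_apply (j : ℕ)).comp D.i.continuous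

theorem thb_cont {D : Dat E V} (A : Nb D) (v : Qc × V) (hv : v ∈ A.N) :
    ContinuousAt (thb A) v := by
  unfold thb
  refine ContinuousAt.div A.Th.continuous.continuousAt ?_ ?_
  · exact (Complex.continuous_ofReal.comp (A.Th.continuous.norm)).continuousAt
  · have := A.hTh0 v hv
    simpa using this

theorem unif_close {D : Dat E V} (A : Nb D) (p0 : Qc) (φ0 : C(Fq, V))
    (hN : ∀ w, (p0, φ0 w) ∈ A.N) (ε : ℝ) (hε : 0 < ε) :
    ∃ δ > (0 : ℝ), ∀ᶠ x in 𝓝 p0, ∀ w, ∀ v, dist v (φ0 w) < δ →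
      dist (thb A (x, v)) (thb A (p0, φ0 w)) < ε := by
  have hP : ∀ w ∈ (univ : Set Fq), ∀ᶠ z : (Qc × V) × Fq in 𝓝 ((p0, (0 : V)), w),
      dist (thb A (z.1.1, φ0 z.2 + z.1.2)) (thb A (p0, φ0 z.2)) < ε := by
    intro w _
    have hc1 : ContinuousAt (fun z : (Qc × V) × Fq => thb A (z.1.1, φ0 z.2 + z.1.2))
        ((p0, (0 : V)), w) := by
      have hg : ContinuousAt (fun z : (Qc × V) × Fq => ((z.1.1, φ0 z.2 + z.1.2) : Qc × V))
        ((p0, (0 : V)), w) := by
        have := φ0.continuous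
        exact Continuous.continuousAt (by fun_prop)
      refine ContinuousAt.comp (g := thb A) ?_ hg
      simp only [add_zero]
      exact thb_cont A _ (hN w)
    have hc2 : ContinuousAt (fun z : (Qc × V) × Fq => thb A (p0, φ0 z.2))
        ((p0, (0 : V)), w) := by
      have hg : ContinuousAt (fun z : (Qc × V) × Fq => ((p0, φ0 z.2) : Qc × V))
        ((p0, (0 : V)), w) := by
        have := φ0.continuous
        exact Continuous.continuousAt (by fun_prop)
      exact ContinuousAt.comp (g := thb A) (thb_cont A _ (hN w)) hg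
    have hc := hc1.dist hc2
    have h0 : dist (thb A (p0, φ0 w + 0)) (thb A (p0, φ0 w)) < ε := by
      simpa using hε
    exact hc.eventually (gt_mem_nhds h0)
  have h := isCompact_univ.eventually_forall_of_forall_eventually (x₀ := (p0, (0 : V)))
    (P := fun (z : Qc × V) (w : Fq) => dist (thb A (z.1, φ0 w + z.2)) (thb A (p0, φ0 w)) < ε) hP
  rw [nhds_prod_eq, Filter.eventually_prod_iff] at h
  obtain ⟨pa, hpa, pb, hpb, hab⟩ := h
  rw [Metric.eventually_nhds_iff] at hpb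
  obtain ⟨δ, hδ, hpb⟩ := hpb
  refine ⟨δ, hδ, ?_⟩
  filter_upwards [hpa] with x hx w v hv
  have h1 : pb (v - φ0 w) := by
    apply hpb
    rwa [dist_zero_right, ← dist_eq_norm]
  have h2 := hab hx h1 w (mem_univ _)
  simpa using h2

/-- approximate loops over the truncated set -/
theorem exists_loop [Nonempty E] (D : Dat E V) (A : Nb D) (n : ℕ) (U2 : Set Qc) (hU2 : IsOpen U2)
    (h1 : U2 ⊆ D.U) (h2 : U2 ⊆ A.U1) (h3 : ∀ x ∈ U2, (∀ y ∈ D.K x, (x, y) ∈ A.N) ∧
      ∃ φ : C(Fq, V), Function.Injective φ ∧ range φ = D.K x ∧ ∃ μ : C(Fq, ℝ), ∀ w,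
        thb A (x, φ w) = ((w.1 * Circle.exp (μ w) : Circle) : ℂ))
    (h4 : ∀ e l, segq n (D.i e, l) ∈ U2) (ε : ℝ) (hε : 0 < ε) :
    ∃ (sg : C(PS D n × Circle, V)) (lam : C(PS D n × Circle, ℝ)),
      ∀ x z, Good (Gam A n) ε x (sg (x, z), z * Circle.exp (lam (x, z))) := by
  have := PS_compact D n
  have : Nonempty (PS D n) := by
    obtain ⟨e⟩ := ‹Nonempty E›
    exact ⟨⟨fun j => D.i e j, ⟨e, fun j => rfl⟩⟩⟩
  have hmem := pad_mem D n U2 h4
  have hcirc : ∀ x ∈ U2, ∀ y ∈ D.K x, ∃ c : Circle, (c : ℂ) = thb A (x, y) := by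
    intro x hx y hy
    obtain ⟨hN, φ, hφ, hr, μ, hμ⟩ := h3 x hx
    rw [← hr] at hy
    obtain ⟨w, rfl⟩ := hy
    exact ⟨_, (hμ w).symm⟩
  have hFF : FF (Gam A n) := by
    intro x
    obtain ⟨hN, φ, hφ, hr, μ, hμ⟩ := h3 _ (hmem x)
    refine ⟨φ, ⟨fun w => w.1 * Circle.exp (μ w), by fun_prop⟩, μ, hφ, fun w => rfl, ?_⟩
    ext p
    constructor
    · rintro ⟨hp1, hp2⟩
      rw [← hr] at hp1
      obtain ⟨w, hw⟩ := hp1
      refine ⟨w, ?_⟩
      refine Prod.ext hw ?_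
      refine Circle.ext ?_
      rw [hp2, ← hw, hμ w]
      rfl
    · rintro ⟨w, rfl⟩
      refine ⟨?_, ?_⟩
      · show φ w ∈ D.K (pad n x.1)
        rw [← hr]; exact mem_range_self w
      · exact (hμ w).symm
  have hHC : HC (Gam A n) := by
    intro x0 ε' hε'
    obtain ⟨hN0, φ0, hφ0, hr0, μ0, hμ0⟩ := h3 _ (hmem x0)
    have hN : ∀ w, (pad n x0.1, φ0 w) ∈ A.N := fun w => hN0 _ (by rw [← hr0]; exact mem_range_self w)
    obtain ⟨δ, hδ, hev⟩ := unif_close A (pad n x0.1) φ0 hN ε' hε'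
    have hK := D.K2 _ (h1 (hmem x0)) φ0 hφ0 hr0 (min ε' δ) (lt_min hε' hδ)
    have hcp : Filter.Tendsto (fun x : PS D n => pad n x.1) (𝓝 x0) (𝓝 (pad n x0.1)) :=
      ((pad_cont n).comp continuous_subtype_val).continuousAt
    filter_upwards [hcp.eventually hK, hcp.eventually hev] with x hx1 hx2
    obtain ⟨φ, hφ, hr, hd⟩ := hx1
    have key : ∀ w, ∀ c c0 : Circle, (c : ℂ) = thb A (pad n x.1, φ w) →
        (c0 : ℂ) = thb A (pad n x0.1, φ0 w) → dist (φ w, c) (φ0 w, c0) < ε' := by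
      intro w c c0 hc hc0
      rw [Prod.dist_eq]
      refine max_lt (lt_of_lt_of_le (hd w) (min_le_left _ _)) ?_
      show dist (c : ℂ) (c0 : ℂ) < ε'
      rw [hc, hc0]
      exact hx2 w _ (lt_of_lt_of_le (hd w) (min_le_right _ _))
    constructor
    · rintro ⟨y, c0⟩ ⟨hp1, hp2⟩
      simp only at hp1 hp2
      rw [← hr0] at hp1
      obtain ⟨w, rfl⟩ := hp1
      have hw : φ w ∈ D.K (pad n x.1) := by rw [← hr]; exact mem_range_self w
      obtain ⟨c, hc⟩ := hcirc _ (hmem x) _ hw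
      refine ⟨(φ w, c), ⟨hw, hc⟩, ?_⟩
      rw [dist_comm]
      exact key w c c0 hc hp2
    · rintro ⟨y, c⟩ ⟨hp1, hp2⟩
      simp only at hp1 hp2
      rw [← hr] at hp1
      obtain ⟨w, rfl⟩ := hp1
      have hw : φ0 w ∈ D.K (pad n x0.1) := by rw [← hr0]; exact mem_range_self w
      obtain ⟨c0, hc0⟩ := hcirc _ (hmem x0) _ hw
      refine ⟨(φ0 w, c0), ⟨hw, hc0⟩, ?_⟩
      exact key w c c0 hp2 hc0
  obtain ⟨M, hM⟩ := cov_cube n (PS D n)
  exact selA (Gam A n) hFF hHC hM ε hε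

theorem eps_N_pad (D : Dat E V) (n : ℕ) (U2 : Set Qc)
    (h4 : ∀ e l, segq n (D.i e, l) ∈ U2) (x : PS D n) : pad n x.1 ∈ U2 := by
  obtain ⟨e, he⟩ := x.2
  have h1 : pad n x.1 = segq n (D.i e, 1) := by
    funext j
    unfold pad segq
    by_cases hj : j < n
    · rw [dif_pos hj, if_pos hj]
      exact he ⟨j, hj⟩
    · rw [dif_neg hj, if_neg hj]
      show (0 : I) = unitInterval.symm 1 * D.i e j
      rw [unitInterval.symm_one, zero_mul]
  rw [h1]
  exact h4 e 1

theorem eps_N_padc (n : ℕ) : Continuous (pad n) := by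
  refine continuous_pi fun j => ?_
  unfold pad
  by_cases hj : j < n
  · simp only [hj, dif_pos]
    exact continuous_apply _
  · simp only [hj, dif_neg, not_false_eq_true]
    exact continuous_const

theorem eps_N_cont (D : Dat E V) (A : Nb D) (v : Qc × V) (hv : v ∈ A.N) :
    ContinuousAt (thb A) v := by
  have h1 : ContinuousAt (fun v => A.Th v) v := A.Th.continuous.continuousAt
  have h2 : ContinuousAt (fun v => (‖A.Th v‖ : ℂ)) v :=
    (Complex.continuous_ofReal.comp (continuous_norm.comp A.Th.continuous)).continuousAt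
  have h3 : (‖A.Th v‖ : ℂ) ≠ 0 := by
    rw [Complex.ofReal_ne_zero, norm_ne_zero_iff]
    exact A.hTh0 v hv
  exact h1.div h2 h3

theorem eps_N_K (D : Dat E V) (A : Nb D) (p0 : Qc) (K0 : Set V) (hK0 : IsCompact K0)
    (hN : ∀ y ∈ K0, (p0, y) ∈ A.N) :
    ∃ ε > (0 : ℝ), ∀ᶠ x in 𝓝 p0, ∀ y0 ∈ K0, ∀ y, dist y y0 < ε →
      (x, y) ∈ A.N ∧ ‖thb A (x, y) - thb A (p0, y0)‖ < 1 / 8 := by
  suffices h : ∃ ε > (0 : ℝ), ∀ᶠ x in 𝓝 p0, ∀ y0 ∈ K0, y0 ∈ K0 → ∀ y, dist y y0 < ε →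
      (x, y) ∈ A.N ∧ ‖thb A (x, y) - thb A (p0, y0)‖ < 1 / 8 by
    obtain ⟨ε, hε, h⟩ := h
    exact ⟨ε, hε, h.mono fun x hx y0 hy0 => hx y0 hy0 hy0⟩
  refine hK0.induction_on (p := fun s => ∃ ε > (0 : ℝ), ∀ᶠ x in 𝓝 p0, ∀ y0 ∈ s, y0 ∈ K0 →
    ∀ y, dist y y0 < ε → (x, y) ∈ A.N ∧ ‖thb A (x, y) - thb A (p0, y0)‖ < 1 / 8) ?_ ?_ ?_ ?_
  · exact ⟨1, one_pos, Filter.Eventually.of_forall fun x y0 hy0 => absurd hy0 (Set.notMem_empty _)⟩
  · rintro s t hst ⟨ε, hε, h⟩
    exact ⟨ε, hε, h.mono fun x hx y0 hy0 => hx y0 (hst hy0)⟩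
  · rintro s t ⟨ε, hε, h⟩ ⟨ε', hε', h'⟩
    refine ⟨min ε ε', lt_min hε hε', ?_⟩
    filter_upwards [h, h'] with x hx hx' y0 hy0 hy0K y hy
    rcases hy0 with hy0 | hy0
    · exact hx y0 hy0 hy0K y (lt_of_lt_of_le hy (min_le_left _ _))
    · exact hx' y0 hy0 hy0K y (lt_of_lt_of_le hy (min_le_right _ _))
  · intro y1 hy1
    have hv : (p0, y1) ∈ A.N := hN y1 hy1
    have e0 : ∀ᶠ v in 𝓝 (p0, y1), v ∈ A.N := A.hN.mem_nhds hv
    have e1 : ∀ᶠ v in 𝓝 (p0, y1), v ∈ A.N ∧ dist (thb A v) (thb A (p0, y1)) < 1 / 16 :=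
      e0.and ((eps_N_cont D A _ hv).eventually
        (Metric.ball_mem_nhds _ (by norm_num : (0 : ℝ) < 1 / 16)))
    rw [nhds_prod_eq] at e1
    obtain ⟨O, hO, W, hW, hOW⟩ := Filter.eventually_prod_iff.1 e1
    obtain ⟨r, hr, hrW⟩ := Metric.eventually_nhds_iff_ball.1 hW
    refine ⟨ball y1 (r / 2), mem_nhdsWithin_of_mem_nhds (ball_mem_nhds _ (by positivity)),
      r / 2, by positivity, ?_⟩
    have hOp : O p0 := hO.self_of_nhds
    filter_upwards [hO] with x hx y0 hy0 _ y hy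
    have hy0r : y0 ∈ ball y1 r := ball_subset_ball (by linarith) hy0
    have hyr : y ∈ ball y1 r := by
      rw [mem_ball] at hy0 ⊢
      have := dist_triangle y y0 y1
      linarith
    obtain ⟨q1, q2⟩ := hOW hx (hrW y hyr)
    obtain ⟨q3, q4⟩ := hOW hOp (hrW y0 hy0r)
    refine ⟨q1, ?_⟩
    rw [← dist_eq_norm]
    have := dist_triangle_right (thb A (x, y)) (thb A (p0, y0)) (thb A (p0, y1))
    linarith

theorem eps_N (D : Dat E V) (A : Nb D) (n : ℕ) (U2 : Set Qc) (hU2 : IsOpen U2)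
    (h1 : U2 ⊆ D.U) (h2 : U2 ⊆ A.U1) (h3 : ∀ x ∈ U2, ∀ y ∈ D.K x, (x, y) ∈ A.N)
    (h4 : ∀ e l, segq n (D.i e, l) ∈ U2) :
    ∃ ε > (0 : ℝ), ∀ (x : PS D n) (y' : V), y' ∈ D.K (pad n x.1) → ∀ y, dist y y' < ε →
      (pad n x.1, y) ∈ A.N ∧ ‖thb A (pad n x.1, y) - thb A (pad n x.1, y')‖ < 1 / 2 := by
  have hPc : CompactSpace (PS D n) := by
    rw [← isCompact_iff_compactSpace]
    have hr : PS D n = range (fun e : E => fun j : Fin n => D.i e j) := by
      ext y
      constructor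
      · rintro ⟨e, he⟩
        exact ⟨e, (funext he).symm⟩
      · rintro ⟨e, rfl⟩
        exact ⟨e, fun j => rfl⟩
    rw [hr]
    refine isCompact_range ?_
    refine continuous_pi fun j => ?_
    exact (continuous_apply (j : ℕ)).comp D.i.continuous
  suffices h : ∃ ε > (0 : ℝ), ∀ x ∈ (univ : Set (PS D n)), ∀ y' ∈ D.K (pad n x.1), ∀ y,
      dist y y' < ε → (pad n x.1, y) ∈ A.N ∧
        ‖thb A (pad n x.1, y) - thb A (pad n x.1, y')‖ < 1 / 2 by
    obtain ⟨ε, hε, h⟩ := h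
    exact ⟨ε, hε, fun x y' hy' y hy => h x (mem_univ _) y' hy' y hy⟩
  refine isCompact_univ.induction_on (p := fun s : Set (PS D n) => ∃ ε > (0 : ℝ), ∀ x ∈ s,
    ∀ y' ∈ D.K (pad n x.1), ∀ y, dist y y' < ε → (pad n x.1, y) ∈ A.N ∧
        ‖thb A (pad n x.1, y) - thb A (pad n x.1, y')‖ < 1 / 2) ?_ ?_ ?_ ?_
  · exact ⟨1, one_pos, fun x hx => absurd hx (Set.notMem_empty _)⟩
  · rintro s t hst ⟨ε, hε, h⟩
    exact ⟨ε, hε, fun x hx => h x (hst hx)⟩
  · rintro s t ⟨ε, hε, h⟩ ⟨ε', hε', h'⟩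
    refine ⟨min ε ε', lt_min hε hε', fun x hx y' hy' y hy => ?_⟩
    rcases hx with hx | hx
    · exact h x hx y' hy' y (lt_of_lt_of_le hy (min_le_left _ _))
    · exact h' x hx y' hy' y (lt_of_lt_of_le hy (min_le_right _ _))
  · intro x0 _
    have hp0 : pad n x0.1 ∈ U2 := eps_N_pad D n U2 h4 x0
    obtain ⟨φ0, hφ0, hr0⟩ := D.K1 _ (h1 hp0)
    have hK0 : IsCompact (D.K (pad n x0.1)) := by
      rw [← hr0]
      exact isCompact_range φ0.continuous
    obtain ⟨ε1, hε1, hev⟩ := eps_N_K D A _ _ hK0 (h3 _ hp0)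
    have hK2 := D.K2 _ (h1 hp0) φ0 hφ0 hr0 (ε1 / 2) (by positivity)
    have hc : Continuous fun x : PS D n => pad n x.1 :=
      (eps_N_padc n).comp continuous_subtype_val
    have hev2 : ∀ᶠ x : PS D n in 𝓝 x0, ∀ y' ∈ D.K (pad n x.1), ∀ y, dist y y' < ε1 / 2 →
        (pad n x.1, y) ∈ A.N ∧ ‖thb A (pad n x.1, y) - thb A (pad n x.1, y')‖ < 1 / 2 := by
      filter_upwards [hc.continuousAt.eventually hev, hc.continuousAt.eventually hK2]
        with x hx1 hx2 y' hy' y hy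
      obtain ⟨φ, -, hφr, hφd⟩ := hx2
      rw [← hφr] at hy'
      obtain ⟨w, rfl⟩ := hy'
      have hw : φ0 w ∈ D.K (pad n x0.1) := by rw [← hr0]; exact ⟨w, rfl⟩
      have hd := hφd w
      obtain ⟨q1, q2⟩ := hx1 (φ0 w) hw y (by
        have := dist_triangle y (φ w) (φ0 w)
        linarith)
      obtain ⟨q3, q4⟩ := hx1 (φ0 w) hw (φ w) (by linarith)
      refine ⟨q1, ?_⟩
      rw [← dist_eq_norm] at q2 q4 ⊢
      have := dist_triangle_right (thb A (pad n x.1, y)) (thb A (pad n x.1, φ w))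
        (thb A (pad n x0.1, φ0 w))
      linarith
    refine ⟨_, mem_nhdsWithin_of_mem_nhds hev2, ε1 / 2, by positivity, fun x hx => hx⟩

theorem hom_P_gl {Y : Type} [TopologicalSpace Y] (v : C(Y, M8)) (hv : ∀ y, v y * v y = v y)
    (ζ ξ : C(Y, Circle)) (h : ContinuousMap.Homotopic ζ ξ) :
    ContinuousMap.Homotopic (gl v hv ζ) (gl v hv ξ) := by
  obtain ⟨F⟩ := h
  refine ⟨{
    toFun := fun p => gamU (v p.2) (hv p.2) (F p)
    continuous_toFun := ?_
    map_zero_left := ?_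
    map_one_left := ?_ }⟩
  · exact (gam v hv).continuous.comp (continuous_snd.prodMk F.continuous)
  · intro y
    show gamU (v y) (hv y) (F (0, y)) = gamU (v y) (hv y) (ζ y)
    rw [F.apply_zero]
  · intro y
    show gamU (v y) (hv y) (F (1, y)) = gamU (v y) (hv y) (ξ y)
    rw [F.apply_one]

theorem hom_P_pad (n : ℕ) : Continuous (pad n) := by
  apply continuous_pi
  intro j
  unfold pad
  by_cases h : j < n
  · simp only [dif_pos h]
    exact continuous_apply _
  · simp only [dif_neg h]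
    exact continuous_const

/-- the relation over the truncated set -/
theorem hom_P [Nonempty E] (D : Dat E V) (A : Nb D) (n : ℕ) (U2 : Set Qc) (hU2 : IsOpen U2)
    (h1 : U2 ⊆ D.U) (h2 : U2 ⊆ A.U1) (h3 : ∀ x ∈ U2, (∀ y ∈ D.K x, (x, y) ∈ A.N) ∧
      ∃ φ : C(Fq, V), Function.Injective φ ∧ range φ = D.K x ∧ ∃ μ : C(Fq, ℝ), ∀ w,
        thb A (x, φ w) = ((w.1 * Circle.exp (μ w) : Circle) : ℂ))
    (h4 : ∀ e l, segq n (D.i e, l) ∈ U2) (v : C(PS D n, M8)) (hv : ∀ x, v x * v x = v x)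
    (hvu : ∀ x, v x = A.ub (pad n x.1)) :
    ContinuousMap.Homotopic (gam v hv) (gam (ContinuousMap.const _ e0) (fun _ => e0_idem')) := by
  obtain ⟨ε0, hε0, hN⟩ := eps_N D A n U2 hU2 h1 h2 (fun x hx => (h3 x hx).1) h4
  have hε : 0 < min ε0 (1 / 2) := lt_min hε0 (by norm_num)
  obtain ⟨sg, lam, hgood⟩ := exists_loop D A n U2 hU2 h1 h2 h3 h4 (min ε0 (1 / 2)) hε
  have key : ∀ p : PS D n × Circle, (pad n p.1.1, sg p) ∈ A.N ∧
      ‖thb A (pad n p.1.1, sg p) - ((p.2 * Circle.exp (lam p) : Circle) : ℂ)‖ < 2 := by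
    rintro ⟨x, z⟩
    obtain ⟨p', ⟨hp1, hp2⟩, hd⟩ := hgood x z
    rw [Prod.dist_eq, max_lt_iff] at hd
    obtain ⟨hd1, hd2⟩ := hd
    have hd1' : dist (sg (x, z)) p'.1 < ε0 := lt_of_lt_of_le hd1 (min_le_left _ _)
    have hd2' : dist (z * Circle.exp (lam (x, z))) p'.2 < 1 / 2 :=
      lt_of_lt_of_le hd2 (min_le_right _ _)
    obtain ⟨hn1, hn2⟩ := hN x p'.1 hp1 (sg (x, z)) hd1'
    refine ⟨hn1, ?_⟩
    have hd3 : ‖((p'.2 : Circle) : ℂ) - ((z * Circle.exp (lam (x, z)) : Circle) : ℂ)‖ < 1 / 2 := by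
      rw [← dist_eq_norm, dist_comm]
      exact hd2'
    show ‖thb A (pad n x.1, sg (x, z)) - ((z * Circle.exp (lam (x, z)) : Circle) : ℂ)‖ < 2
    have e1 : thb A (pad n x.1, sg (x, z)) - ((z * Circle.exp (lam (x, z)) : Circle) : ℂ) =
        (thb A (pad n x.1, sg (x, z)) - thb A (pad n x.1, p'.1)) +
        (((p'.2 : Circle) : ℂ) - ((z * Circle.exp (lam (x, z)) : Circle) : ℂ)) := by
      rw [hp2]
      ring
    rw [e1]
    refine lt_of_le_of_lt (norm_add_le _ _) ?_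
    linarith
  have hpc : Continuous (fun p : PS D n × Circle => (pad n p.1.1, sg p)) :=
    ((hom_P_pad n).comp (continuous_subtype_val.comp continuous_fst)).prodMk sg.continuous
  have hTh : Continuous (fun p : PS D n × Circle => A.Th (pad n p.1.1, sg p)) :=
    A.Th.continuous.comp hpc
  have hne : ∀ p : PS D n × Circle, A.Th (pad n p.1.1, sg p) ≠ 0 := fun p =>
    A.hTh0 _ (key p).1
  have hthc : Continuous (fun p : PS D n × Circle => thb A (pad n p.1.1, sg p)) := by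
    unfold thb
    apply hTh.div
    · exact Complex.continuous_ofReal.comp hTh.norm
    · intro p
      rw [Ne, Complex.ofReal_eq_zero, norm_eq_zero]
      exact hne p
  have hnorm : ∀ p : PS D n × Circle, ‖thb A (pad n p.1.1, sg p)‖ = 1 := by
    intro p
    unfold thb
    rw [norm_div, Complex.norm_real, norm_norm, div_self (norm_ne_zero_iff.mpr (hne p))]
  obtain ⟨ζ, hζ⟩ : ∃ ζ : C(PS D n × Circle, Circle), ∀ p, ((ζ p : Circle) : ℂ) =
      thb A (pad n p.1.1, sg p) :=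
    ⟨⟨fun p => ⟨thb A (pad n p.1.1, sg p), mem_sphere_zero_iff_norm.mpr (hnorm p)⟩,
      Continuous.subtype_mk hthc _⟩, fun p => rfl⟩
  obtain ⟨sn, hsn⟩ : ∃ sn : C(PS D n × Circle, Circle), ∀ p, sn p = p.2 :=
    ⟨⟨fun p => p.2, continuous_snd⟩, fun p => rfl⟩
  obtain ⟨fs, hfs⟩ : ∃ fs : C(PS D n × Circle, PS D n), ∀ p, fs p = p.1 :=
    ⟨⟨fun p => p.1, continuous_fst⟩, fun p => rfl⟩
  have hc : ContinuousMap.Homotopic ζ sn := by
    apply circ_hom ζ sn lam
    intro p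
    rw [hζ, hsn]
    exact (key p).2
  have hv' : ∀ y, (v.comp fs) y * (v.comp fs) y = (v.comp fs) y := fun y => hv _
  have hhom := A.hom (PS D n × Circle) ⟨fun p => pad n p.1.1,
    (hom_P_pad n).comp (continuous_subtype_val.comp continuous_fst)⟩ sg (v.comp fs) hv' ζ
    (fun η => (key η).1) (fun η => by
      show v (fs η) = A.ub (pad n η.1.1)
      rw [hfs, hvu]) (fun η => hζ η)
  have e1 : gam v hv = gl (v.comp fs) hv' sn := by
    ext1 p
    show gamU (v p.1) (hv p.1) p.2 = gamU (v (fs p)) (hv (fs p)) (sn p)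
    rw [hsn]
    congr 1
    rw [hfs]
  have e2 : gam (ContinuousMap.const (PS D n) e0) (fun _ => e0_idem') =
      gl (ContinuousMap.const (PS D n × Circle) e0) (fun _ => e0_idem') sn := by
    ext1 p
    show gamU e0 e0_idem' p.2 = gamU e0 e0_idem' (sn p)
    rw [hsn]
  rw [e1, e2]
  exact ((hom_P_gl _ hv' ζ sn hc).symm.trans hhom).trans (hom_P_gl _ _ ζ sn hc)

/-- the main relation -/
theorem main_hom [Nonempty E] (D : Dat E V) :
    ContinuousMap.Homotopic (gam D.u D.hu) (gam (ContinuousMap.const _ e0) (fun _ => e0_idem')) := by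
  obtain ⟨A⟩ := exists_Nb D
  obtain ⟨U2, hU2, hi, h1, h2, h3⟩ := good_x D A
  obtain ⟨n, h4⟩ := exists_n D U2 hU2 hi
  -- continuity of the padding
  have hpadc : Continuous (fun y : Fin n → I => pad n y) := by
    refine continuous_pi fun j => ?_
    by_cases hj : j < n
    · have : (fun y : Fin n → I => pad n y j) = fun y => y ⟨j, hj⟩ := by
        funext y; simp [pad, hj]
      rw [this]; exact continuous_apply _
    · have : (fun y : Fin n → I => pad n y j) = fun y => 0 := by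
        funext y; simp [pad, hj]
      rw [this]; exact continuous_const
  have hseg1 : ∀ (e : E) (y : Fin n → I), (∀ j : Fin n, y j = D.i e j) →
      pad n y = segq n (D.i e, 1) := by
    intro e y hy
    funext j
    by_cases hj : j < n
    · simp only [pad, segq, dif_pos hj, if_pos hj]
      exact hy ⟨j, hj⟩
    · simp [pad, segq, hj]
  have hseg0 : ∀ e : E, segq n (D.i e, 0) = D.i e := by
    intro e
    funext j
    by_cases hj : j < n
    · simp [segq, hj]
    · simp [segq, hj]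
  have hmem : ∀ x : PS D n, pad n x.1 ∈ U2 := by
    rintro ⟨y, e, hy⟩
    show pad n y ∈ U2
    rw [hseg1 e y hy]
    exact h4 e 1
  have hsegc : Continuous (fun p : I × E => segq n (D.i p.2, p.1)) := by
    refine continuous_pi fun j => ?_
    have hic : Continuous (fun p : I × E => D.i p.2 j) :=
      (continuous_apply j).comp (D.i.continuous.comp continuous_snd)
    by_cases hj : j < n
    · have : (fun p : I × E => segq n (D.i p.2, p.1) j) = fun p => D.i p.2 j := by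
        funext p; simp [segq, hj]
      rw [this]; exact hic
    · have : (fun p : I × E => segq n (D.i p.2, p.1) j) =
          fun p => unitInterval.symm p.1 * D.i p.2 j := by
        funext p; simp [segq, hj]
      rw [this]
      exact (unitInterval.continuous_symm.comp continuous_fst).mul hic
  let v : C(PS D n, M8) := ⟨fun x => A.ub (pad n x.1),
    A.hubc.comp_continuous (hpadc.comp continuous_subtype_val) (fun x => h2 (hmem x))⟩
  have hv : ∀ x, v x * v x = v x := fun x => A.hubi _ (h2 (hmem x))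
  have hP := hom_P D A n U2 hU2 h1 h2 h3 h4 v hv (fun x => rfl)
  let tr : C(E, PS D n) := ⟨fun e => ⟨fun j => D.i e j, ⟨e, fun j => rfl⟩⟩, by
    refine Continuous.subtype_mk ?_ _
    exact continuous_pi fun j => (continuous_apply (j : ℕ)).comp D.i.continuous⟩
  let g : C(E × Circle, PS D n × Circle) := ⟨fun p => (tr p.1, p.2), by fun_prop⟩
  have hP2 := hP.comp (ContinuousMap.Homotopic.refl g)
  let w : C(I × E, M8) := ⟨fun p => A.ub (segq n (D.i p.2, p.1)),
    A.hubc.comp_continuous hsegc (fun p => h2 (h4 p.2 p.1))⟩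
  have hw : ∀ p, w p * w p = w p := fun p => A.hubi _ (h2 (h4 p.2 p.1))
  have hH : ContinuousMap.Homotopic (gam D.u D.hu) ((gam v hv).comp g) := by
    refine ⟨⟨⟨fun p => gam w hw ((p.1, p.2.1), p.2.2), ?_⟩, ?_, ?_⟩⟩
    · exact (gam w hw).continuous.comp (by fun_prop)
    · rintro ⟨e, z⟩
      refine Units.ext ?_
      show (gamU (w (0, e)) (hw (0, e)) z).1 = (gamU (D.u e) (D.hu e) z).1
      rw [gamU_val, gamU_val]
      have : w (0, e) = D.u e := by
        show A.ub (segq n (D.i e, 0)) = D.u e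
        rw [hseg0, A.hubu]
      rw [this]
    · rintro ⟨e, z⟩
      refine Units.ext ?_
      show (gamU (w (1, e)) (hw (1, e)) z).1 = (gamU (v (tr e)) (hv (tr e)) z).1
      rw [gamU_val, gamU_val]
      have : w (1, e) = v (tr e) := by
        show A.ub (segq n (D.i e, 1)) = A.ub (pad n (tr e).1)
        rw [hseg1 e (tr e).1 (fun j => rfl)]
      rw [this]
  exact hH.trans hP2

end

end HQ
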